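import Pool.Agent.W_eea520_h66.Extract

/-! The extraction for arbitrary central characters. -/

set_option autoImplicit false

namespace Pool.Agent.EEA520

open Filter Polynomial

/-- The values of `ν ^ k' * spin ^ e`. -/
noncomputable def SE (k' : ℤ) (e : ℕ) {n : ℕ} (π : GSys n) : Dat :=
  Phi π (mon (k' • nuW n)) * spinD π ^ e

section

variable (k' : ℤ) (e : ℕ) {n : ℕ}

theorem SE_mem {π : GSys n} (hπ : Bdd π) : SE k' e π ∈ BB :=
  mul_mem (Phi_mem hπ _) (pow_mem (spinD_mem hπ) e)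

theorem Phi_nu_klingen (π : GSys n) (z : ℂ) : Phi (klingen π z) (mon (k' • nuW (n + 1))) =
    Phi π (mon (k' • nuW n)) := by
  funext p
  rw [Phi_nu, Phi_nu]
  have h1 : ((klingen π z p).c ^ 2 * ∏ i, (klingen π z p).x i) = (klingen π z p).nu := rfl
  have h2 : ((π p).c ^ 2 * ∏ i, (π p).x i) = (π p).nu := rfl
  rw [h1, h2, nu_klingen]

theorem SE_klingen (π : GSys n) (z : ℂ) : SE k' e (klingen π z) = SS z ^ e * SE k' e π := by
  rw [SE, SE, Phi_nu_klingen, spinD_klingen, mul_pow]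
  ring

/-- The expansion. -/
theorem expansionW {c' : ℕ} (u : ℤ) (π : GSys n) (E : MvPolynomial (Fin c') ℤ) (z : ℂ) :
    SE k' e (klingen π z) * Th u (yD (klingen π z)) E =
      ∑ i ∈ Finset.range (c' + 1), YY z ^ i * SS z ^ e * ((-1) ^ i * (SE k' e π *
        Th u (yD π) (MvPolynomial.esymm (Fin c') ℤ (c' - i) * E))) := by
  rw [yD_klingen, Th_append, SE_klingen, Finset.mul_sum]
  refine Finset.sum_congr rfl fun i _ => ?_
  rw [neg_pow (YY z)]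
  ring

theorem SE_Th_mem {c' : ℕ} (u : ℤ) {π : GSys n} (hπ : Bdd π)
    (E : MvPolynomial (Fin c') ℤ) : SE k' e π * Th u (yD π) E ∈ BB :=
  mul_mem (SE_mem k' e hπ) (Th_mem u BB (yD π) (yD_mem hπ) E)

/-- The first step: the top coefficient. -/
theorem step_topW {c' : ℕ} (u : ℤ) {π : GSys n}
    (hπ : Bdd π) (E : MvPolynomial (Fin c') ℤ)
    (h : ∀ R : ℝ, ∃ z : ℂ, z.re < -R ∧ NearTo (-((c' + e / 2) * z)) R
      (SE k' e (klingen π z) * Th u (yD (klingen π z)) E)) :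
    Cont (SE k' e π * Th u (yD π) E) := by
  have h1 := iso_top e c' (fun i => (-1) ^ i * (SE k' e π *
    Th u (yD π) (MvPolynomial.esymm (Fin c') ℤ (c' - i) * E)))
    (fun i _ => mul_mem (pow_mem (neg_mem (one_mem _)) i) (SE_Th_mem k' e u hπ _)) fun R => by
    obtain ⟨z, hz, h2⟩ := h R
    rw [expansionW] at h2
    exact ⟨z, hz, h2⟩
  have h3 := cont_of_neg_pow h1
  rwa [Nat.sub_self, MvPolynomial.esymm_zero, one_mul] at h3

/-- The other steps of the extraction. -/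
theorem stepW {c' : ℕ} (u : ℤ) {π : GSys n} (hπ : Bdd π)
    (E : MvPolynomial (Fin c') ℤ)
    (h : ∀ B : ℝ, ∃ z : ℂ, z.re < B ∧
      Cont (SE k' e (klingen π z) * Th u (yD (klingen π z)) E)) :
    ∀ a ≤ c', Cont (SE k' e π * Th u (yD π) (MvPolynomial.esymm (Fin c') ℤ a * E)) := by
  have h1 := iso_all e c' (fun i => (-1) ^ i * (SE k' e π *
    Th u (yD π) (MvPolynomial.esymm (Fin c') ℤ (c' - i) * E)))
    (fun i _ => mul_mem (pow_mem (neg_mem (one_mem _)) i) (SE_Th_mem k' e u hπ _)) fun B => by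
    obtain ⟨z, hz, h2⟩ := h B
    rw [expansionW] at h2
    exact ⟨z, hz, h2⟩
  intro a ha
  have h4 := cont_of_neg_pow (h1 (c' - a) (Nat.sub_le _ _))
  rwa [show c' - (c' - a) = a by omega] at h4

end

/-- From `m` to `Θ`. -/
theorem bridgeW {N : ℕ} (π : GSys N) (e : ℕ) (he : e ≤ 1) (k' : ℤ)
    {c' : ℕ} (D : Fin c' ⊕ Fin N ≃ Fin (c' + N)) (μ : Fin N → ℤ)
    (m : Wt N →₀ ℤ) (hm : IsIrr (2 * k' + e) μ m)
    (hD : ∀ j : Fin N, ((D (Sum.inr j) : ℕ) : ℤ) + k' + 1 + e = μ j + ((N : ℤ) - j)) :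
    ∃ s : ℤˣ, Phi π (AddMonoidAlgebra.ofCoeff m : R N) =
      ((s : ℤ) : Dat) * (SE k' e π *
        Th (1 - e) (yD π) (Eb (1 - e) fun j => (D (Sum.inl j) : ℕ))) := by
  obtain ⟨s, hs⟩ := irr_eq e he k' D μ m hm hD
  refine ⟨s, ?_⟩
  rw [hs, map_mul, map_intCast, map_mul, map_mul, map_pow, Phi_spR, Th_map]
  simp only [Phi_yR]
  rfl

theorem bridgeW_near {N : ℕ} {s₀ : ℂ} {R : ℝ} {π : GSys N} (hb : Bdd π) (e : ℕ)
    (he : e ≤ 1) (k' : ℤ)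
    {c' : ℕ} (D : Fin c' ⊕ Fin N ≃ Fin (c' + N)) (μ : Fin N → ℤ)
    (m : Wt N →₀ ℤ) (hm : IsIrr (2 * k' + e) μ m)
    (hD : ∀ j : Fin N, ((D (Sum.inr j) : ℕ) : ℤ) + k' + 1 + e = μ j + ((N : ℤ) - j))
    (hc : ContinuesNear s₀ R π m) :
    NearTo s₀ R (SE k' e π * Th (1 - e) (yD π) (Eb (1 - e) fun j => (D (Sum.inl j) : ℕ))) := by
  obtain ⟨s, hs⟩ := bridgeW π e he k' D μ m hm hD
  have h1 := nearTo_of_continuesNear hb (AddMonoidAlgebra.ofCoeff m) hc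
  rw [hs] at h1
  exact NearTo.of_units s h1

theorem bridgeW_cont {N : ℕ} {π : GSys N} (e : ℕ)
    (he : e ≤ 1) (k' : ℤ)
    {c' : ℕ} (D : Fin c' ⊕ Fin N ≃ Fin (c' + N)) (μ : Fin N → ℤ)
    (m : Wt N →₀ ℤ) (hm : IsIrr (2 * k' + e) μ m)
    (hD : ∀ j : Fin N, ((D (Sum.inr j) : ℕ) : ℤ) + k' + 1 + e = μ j + ((N : ℤ) - j)) :
    Cont (Phi π (AddMonoidAlgebra.ofCoeff m : R N)) ↔
    Cont (SE k' e π * Th (1 - e) (yD π) (Eb (1 - e) fun j => (D (Sum.inl j) : ℕ))) := by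
  obtain ⟨s, hs⟩ := bridgeW π e he k' D μ m hm hD
  rw [hs]
  constructor
  · intro hc
    have h2 := hc.intCast_mul (s : ℤ)
    rwa [← mul_assoc, units_mul_self, one_mul] at h2
  · intro hc
    exact hc.intCast_mul _

section

variable {Q : (n : ℕ) → GSys n → Prop}

/-- The iterated extraction. -/
theorem stepsW (hQ : KClosed Q) (u k' : ℤ) (e : ℕ) {c' : ℕ}
    (E : MvPolynomial (Fin c') ℤ) (q n : ℕ)
    (hyp : ∀ π, Q (n + q) π → Cont (SE k' e π * Th u (yD π) E)) :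
    ∀ a : Fin q → ℕ, (∀ i, a i ≤ c') → ∀ π, Q n π →
      Cont (SE k' e π * Th u (yD π)
        ((∏ i, MvPolynomial.esymm (Fin c') ℤ (a i)) * E)) := by
  induction q generalizing n with
  | zero =>
    intro a _ π hπ
    rw [Fin.prod_univ_zero, one_mul]
    exact hyp π hπ
  | succ q ih =>
    intro a ha π hπ
    have h1 := ih (n + 1) (by
      rw [show n + 1 + q = n + (q + 1) by omega]
      exact hyp) (fun i => a i.succ) (fun i => ha i.succ)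
    rw [Fin.prod_univ_succ, mul_assoc]
    refine stepW k' e u (hQ.bdd hπ) _ (fun B => ?_) (a 0) (ha 0)
    obtain ⟨z, hz, hz'⟩ := hQ.kl B hπ
    exact ⟨z, hz, h1 (klingen π z) hz'⟩

/-- The extraction of a `ℤ`-combination. -/
theorem stepsW_KL (hQ : KClosed Q) (u k' : ℤ) (e : ℕ)
    {c' : ℕ} (E : MvPolynomial (Fin c') ℤ) (q n : ℕ)
    (hyp : ∀ π, Q (n + q) π → Cont (SE k' e π * Th u (yD π) E))
    (d : Fin q → ℕ) (π : GSys n) (hπ : Q n π) :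
    Cont (SE k' e π * Th u (yD π)
      (KL u (fun k : Fin c' => (MvPolynomial.X k : MvPolynomial (Fin c') ℤ)) d * E)) := by
  obtain ⟨z, hz⟩ := KL_X_eq u (c := c') d
  rw [hz, Finset.sum_mul, Th_sum, Finset.mul_sum]
  refine Cont.sum66 _ _ fun a ha => ?_
  rw [mul_assoc, Th_intCast_mul, mul_left_comm]
  refine Cont.intCast_mul (stepsW hQ u k' e E q n hyp a (fun i => ?_) π hπ) _
  have h1 := Fintype.mem_piFinset.1 ha i
  have := Finset.mem_range.1 h1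
  omega

/-- Extraction of a symmetric polynomial. -/
theorem extractionW (hQ : KClosed Q) (n q : ℕ) (k' : ℤ) (e : ℕ) {c' : ℕ}
    (D : Fin c' ⊕ Fin (n + q) ≃ Fin (c' + (n + q)))
    (hyp : ∀ π, Q (n + q) π →
      Cont (SE k' e π * Th (1 - e) (yD π) (Eb (1 - e) fun j => (D (Sum.inl j) : ℕ))))
    {s0 : ℕ} (hs0 : s0 + 2 * n ≤ c' + (n + q))
    (hs : ∀ i : Fin c', (D (Sum.inl i) : ℕ) < s0 ∨ s0 + 2 * n ≤ (D (Sum.inl i) : ℕ))
    (δ : Fin c' → ℕ) (hδ : ∀ k, δ k ≤ n)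
    (hδ' : ∀ k, δ k ≠ 0 → ∀ i, (D (Sum.inl k) : ℕ) ≤ (D (Sum.inl i) : ℕ))
    (π : GSys n) (hπ : Q n π) :
    Cont (SE k' e π * ∏ k, LF (1 - e) Dat (FF (yD π) *
      (pA (1 - e) Dat (ee n s0 (fun k => (D (Sum.inl k) : ℕ)) δ k) *
        pA (1 - e) Dat (D (Sum.inl k) : ℕ)))) := by
  obtain ⟨d, s, hd⟩ := extract (1 - (e : ℤ)) D hs0 hs δ hδ hδ'
  have h1 := stepsW_KL hQ (1 - (e : ℤ)) k' e (Eb (1 - e) fun j => (D (Sum.inl j) : ℕ)) q n hyp d
    π hπ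
  rw [Eb, hd Dat (yD π), mul_left_comm] at h1
  have h2 := h1.intCast_mul (s : ℤ)
  rwa [← mul_assoc, units_mul_self, one_mul] at h2

/-- The hypothesis for an irreducible character. -/
theorem firstW (hQ : KClosed Q) (N : ℕ) (e : ℕ) (he : e ≤ 1) (k' : ℤ)
    (μ : Fin (N + 1) → ℤ) (m : Wt (N + 1) →₀ ℤ) (hm : IsIrr (2 * k' + e) μ m)
    {c' : ℕ} (hc' : (c' : ℤ) = μ 0 - k' - e) (D' : Fin c' ⊕ Fin N ≃ Fin (c' + N))
    (hD' : ∀ j : Fin N, ((D' (Sum.inr j) : ℕ) : ℤ) + k' + 1 + e = μ j.succ + ((N : ℤ) - j))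
    (hyp : ∀ π, Q N π → ContinuesBeyond (μ 0 - (2 * k' + e : ℤ) / 2) π m)
    (π : GSys N) (hπ : Q N π) :
    Cont (SE k' e π * Th (1 - e) (yD π) (Eb (1 - e) fun j => (D' (Sum.inl j) : ℕ))) := by
  obtain ⟨D, h1, h2, h3⟩ := extendD D'
  have hD : ∀ j : Fin (N + 1), ((D (Sum.inr j) : ℕ) : ℤ) + k' + 1 + e =
      μ j + (((N + 1 : ℕ) : ℤ) - j) := by
    intro j
    refine Fin.cases ?_ (fun j => ?_) j
    · rw [h2]
      push_cast
      rw [hc']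
      simp
      ring
    · rw [h3, hD', Fin.val_succ]
      push_cast
      ring
  refine step_topW k' e (1 - e) (hQ.bdd hπ) _ fun R => ?_
  obtain ⟨z, hz, hz'⟩ := hyp π hπ R
  have h5 := bridgeW_near (bdd_klingen (hQ.bdd hπ) z) e he k' D μ m hm hD hz'
  simp only [h1] at h5
  have h4 : ((c' : ℤ) : ℂ) = ((μ 0 - k' - e : ℤ) : ℂ) := by rw [hc']
  have h6 : (((μ 0 - (2 * k' + e : ℤ) / 2 : ℝ) : ℂ)) = (c' : ℂ) + e / 2 := by
    push_cast at h4 ⊢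
    rw [h4]
    ring
  rw [h6] at h5
  exact ⟨z, hz, h5⟩

end

end Pool.Agent.EEA520
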