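import Pool.Agent.W_eea520_h66.CombB
import Pool.Agent.W_eea520_h66.StepW

/-! All representations with bounded highest weight. -/

set_option autoImplicit false

namespace Pool.Agent.EEA520

open Filter Polynomial

/-- All `Θ(y; V(t) E)` with `c` variables `t`. -/
def AllC (k' : ℤ) (c e : ℕ) {n : ℕ} (π : GSys n) : Prop := ∀ E : MvPolynomial (Fin c) ℤ,
  Cont (SE k' e π * Th (1 - (e : ℤ)) (yD π)
    (VV (fun k : Fin c => (MvPolynomial.X k : MvPolynomial (Fin c) ℤ)) * E))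

/-- The polynomials `E` with the property of `AllC`. -/
def UC (k' : ℤ) (c e : ℕ) {n : ℕ} (π : GSys n) : AddSubgroup (MvPolynomial (Fin c) ℤ) where
  carrier := {E | Cont (SE k' e π * Th (1 - (e : ℤ)) (yD π)
    (VV (fun k : Fin c => (MvPolynomial.X k : MvPolynomial (Fin c) ℤ)) * E))}
  add_mem' {E E'} h h' := by
    show Cont _
    rw [mul_add, Th_add, mul_add]
    exact Cont.add h h'
  zero_mem' := by
    show Cont _
    rw [mul_zero, Th_zero, mul_zero]
    exact cont_zero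
  neg_mem' {E} h := by
    show Cont _
    have h1 : VV (fun k : Fin c => (MvPolynomial.X k : MvPolynomial (Fin c) ℤ)) * -E =
        ((-1 : ℤ) : MvPolynomial (Fin c) ℤ) *
          (VV (fun k : Fin c => (MvPolynomial.X k : MvPolynomial (Fin c) ℤ)) * E) := by
      push_cast
      ring
    rw [h1, Th_intCast_mul, mul_left_comm]
    exact Cont.intCast_mul h _

theorem mem_UC {k' : ℤ} {c e n : ℕ} (π : GSys n) (E : MvPolynomial (Fin c) ℤ) : E ∈ UC k' c e π ↔
    Cont (SE k' e π * Th (1 - (e : ℤ)) (yD π)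
      (VV (fun k : Fin c => (MvPolynomial.X k : MvPolynomial (Fin c) ℤ)) * E)) := Iff.rfl

theorem Pbs_mem_UC {k' : ℤ} {c e n : ℕ} (π : GSys n) (h : Fin c → ℕ) :
    Pbs (1 - (e : ℤ)) h ∈ UC k' c e π ↔
      Cont (SE k' e π * Th (1 - (e : ℤ)) (yD π) (Eb (1 - (e : ℤ)) h)) := by
  rw [mem_UC, Eb_eq]

theorem UC_not_injective {k' : ℤ} {c e n : ℕ} (π : GSys n) (h : Fin c → ℕ) (hh : ¬ Function.Injective h) :
    Pbs (1 - (e : ℤ)) h ∈ UC k' c e π := by
  rw [Pbs_mem_UC, Th_Eb_not_injective _ hh, mul_zero]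
  exact cont_zero

theorem UC_large {k' : ℤ} {c e n : ℕ} (π : GSys n) (h : Fin c → ℕ) (k : Fin c) (hk : c + n ≤ h k) :
    Pbs (1 - (e : ℤ)) h ∈ UC k' c e π := by
  rw [Pbs_mem_UC, Th_Eb_large _ hk, mul_zero]
  exact cont_zero

theorem UC_perm {k' : ℤ} {c e n : ℕ} (π : GSys n) (h : Fin c → ℕ) (τ : Equiv.Perm (Fin c))
    (hh : Pbs (1 - (e : ℤ)) (h ∘ τ) ∈ UC k' c e π) : Pbs (1 - (e : ℤ)) h ∈ UC k' c e π := by
  rw [Pbs_mem_UC] at hh ⊢
  obtain ⟨s, hs⟩ := Th_Eb_perm (1 - (e : ℤ)) n h τ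
  rw [hs Dat (yD π), mul_left_comm]
  exact hh.intCast_mul _

theorem aeval_KL (u : ℤ) {c q : ℕ} {B : Type} [CommRing B] [Algebra ℤ B] (y : Fin c → B) (d : Fin q → ℕ) :
    MvPolynomial.aeval y (KL u (fun k : Fin c => (MvPolynomial.X k : MvPolynomial (Fin c) ℤ)) d) =
      KL u y d := by
  have h4 := KL_map u (MvPolynomial.aeval y : MvPolynomial (Fin c) ℤ →ₐ[ℤ] B).toRingHom
    (fun k : Fin c => (MvPolynomial.X k : MvPolynomial (Fin c) ℤ)) d
  have h5 : (fun k : Fin c => (MvPolynomial.aeval y : MvPolynomial (Fin c) ℤ →ₐ[ℤ] B).toRingHom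
      (MvPolynomial.X k : MvPolynomial (Fin c) ℤ)) = y := by
    funext k
    exact MvPolynomial.aeval_X _ _
  rw [h5] at h4
  exact h4

/-- The highest weight of `σ_b`. -/
theorem top_sigma (e : ℕ) (he : e ≤ 1) {c q : ℕ} (E₁ : Fin q ⊕ Fin c ≃ Fin (q + c))
    (hE : StrictAnti fun j => (E₁ (Sum.inr j) : ℕ)) : ∃ (β : Fin c → ℕ) (s : ℤˣ), Antitone β ∧
      (∀ i, β i ≤ q) ∧ Top (wt0 β) (MvPolynomial.aeval (yR c)
        (((s : ℤ) : MvPolynomial (Fin c) ℤ) * KL (1 - (e : ℤ))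
          (fun k : Fin c => (MvPolynomial.X k : MvPolynomial (Fin c) ℤ))
          (fun j => (E₁ (Sum.inl j) : ℕ)))) := by
  have hlow : ∀ i : Fin c, c - 1 - (i : ℕ) ≤ (E₁ (Sum.inr i) : ℕ) :=
    fun i => (strictAnti_bound _ hE i).1
  have hup : ∀ i : Fin c, (E₁ (Sum.inr i) : ℕ) + (i : ℕ) < q + c :=
    fun i => (strictAnti_bound _ hE i).2 _ fun j => (E₁ (Sum.inr j)).2
  obtain ⟨β, hβ⟩ : ∃ β : Fin c → ℕ, ∀ i, β i + (c - 1 - (i : ℕ)) = (E₁ (Sum.inr i) : ℕ) :=
    ⟨fun i => (E₁ (Sum.inr i) : ℕ) - (c - 1 - (i : ℕ)), fun i => Nat.sub_add_cancel (hlow i)⟩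
  have hanti : Antitone β := by
    intro i j hij
    rcases eq_or_lt_of_le hij with rfl | hlt
    · exact le_rfl
    · -- `E i ≥ E j + (j - i)`
      obtain ⟨k, hk⟩ : ∃ k, k = (j : ℕ) - (i : ℕ) := ⟨_, rfl⟩
      have hgen : ∀ (k : ℕ) (i j : Fin c), (i : ℕ) + k = j →
          (E₁ (Sum.inr j) : ℕ) + k ≤ (E₁ (Sum.inr i) : ℕ) := by
        intro k
        induction k with
        | zero =>
          intro i j hij
          have : i = j := Fin.ext (by omega)
          rw [this, add_zero]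
        | succ k ih =>
          intro i j hij
          have hj := j.2
          have h1 := ih i ⟨i + k, by omega⟩ rfl
          have h2 : (E₁ (Sum.inr j) : ℕ) < (E₁ (Sum.inr ⟨i + k, by omega⟩) : ℕ) :=
            hE (by rw [Fin.lt_def]; simp only; omega)
          omega
      have hlt' : (i : ℕ) < (j : ℕ) := hlt
      have h1 := hgen ((j : ℕ) - i) i j (by omega)
      have h2 := hβ i
      have h3 := hβ j
      have := j.2
      omega
  have hD : ∀ j : Fin c, ((E₁ (Sum.inr j) : ℕ) : ℤ) + 0 + 1 + e =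
      ((β j : ℤ) + e) + ((c : ℤ) - j) := by
    intro j
    rw [← hβ j]
    have := j.2
    push_cast [Nat.cast_sub (show (j : ℕ) ≤ c - 1 by omega), Nat.cast_sub (show 1 ≤ c by omega)]
    ring
  obtain ⟨s, h1, -⟩ := exists_irr_char e he 0 (fun j => (β j : ℤ) + e) (fun i j hij => by
    have := hanti hij
    show (β j : ℤ) + e ≤ (β i : ℤ) + e
    omega) (fun i => by
    show 2 * 0 + (e : ℤ) ≤ 2 * ((β i : ℤ) + e)
    omega) E₁ hD
  refine ⟨β, s, hanti, fun i => ?_, ?_⟩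
  · have h2 := hβ i
    have h3 := hup i
    have := i.2
    omega
  · have h2 := h1.top
    rw [map_mul, map_intCast, aeval_KL]
    have h5 : (AddMonoidAlgebra.ofCoeff (((s : ℤ) : R c) * (mon ((0 : ℤ) • nuW c) * spR c ^ e *
        KL (1 - (e : ℤ)) (yR c) (fun j => (E₁ (Sum.inl j) : ℕ)))).coeff : R c) =
        (((s : ℤ) : R c) * KL (1 - (e : ℤ)) (yR c) (fun j => (E₁ (Sum.inl j) : ℕ))) *
          spR c ^ e := by
      have h6 : (mon ((0 : ℤ) • nuW c) : R c) = 1 := by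
        rw [zero_smul]
        rfl
      show ((s : ℤ) : R c) * (mon ((0 : ℤ) • nuW c) * spR c ^ e *
        KL (1 - (e : ℤ)) (yR c) (fun j => (E₁ (Sum.inl j) : ℕ))) = _
      rw [h6]
      ring
    rw [h5] at h2
    rcases Nat.le_one_iff_eq_zero_or_eq_one.1 he with rfl | rfl
    · rw [pow_zero, mul_one] at h2
      have h7 : ((2 * 0 + ((0 : ℕ) : ℤ), fun j => (β j : ℤ) + ((0 : ℕ) : ℤ)) : Wt c) =
          wt0 β := by
        refine Prod.ext ?_ ?_
        · simp [wt0]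
        · funext j
          simp [wt0]
      rwa [h7] at h2
    · rw [pow_one] at h2
      have h7 : ((2 * 0 + ((1 : ℕ) : ℤ), fun j => (β j : ℤ) + ((1 : ℕ) : ℤ)) : Wt c) =
          wt0 β + (1, fun _ => 1) := by
        refine Prod.ext ?_ ?_
        · simp [wt0]
        · funext j
          simp [wt0]
      rw [h7] at h2
      exact top_of_mul (top_spR c) h2

section

variable {Q : (n : ℕ) → GSys n → Prop}

/-- `Θ` for no `y`. -/
theorem Th_zero_rank (u : ℤ) {B : Type} [CommRing B] {c : ℕ} (y : Fin 0 → B)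
    (E : MvPolynomial (Fin c) ℤ) : Th u y E = ((LT u E : ℤ) : B) := by
  unfold Th
  have h1 : (∏ k : Fin c, ∏ i : Fin 0, (MvPolynomial.X k - MvPolynomial.C (y i)) :
      MvPolynomial (Fin c) B) = 1 := by
    simp
  rw [h1, one_mul]
  have h2 := LT_map u (Int.castRingHom B) E
  rw [← h2]
  rfl

/-- The triangularity argument: from the `Θ` at the level `n + q` to those at the level `n`. -/
theorem allC_of_block (hQ : KClosed Q) {n q : ℕ} (hn : 0 < n) (e : ℕ) (he : e ≤ 1) (k' : ℤ)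
    (μ : Fin (n + q) → ℤ) (hμ : Antitone μ) (hd : ∀ i, 2 * k' + e ≤ 2 * μ i) (c' : ℕ)
    (hc : ∀ i, μ i ≤ c' + k' + e) (c₁ : ℕ)
    (hr : 2 * n ≤ (Finset.univ.filter fun i => μ i = c₁ + k' + e).card)
    (hyp : ∀ (D : Fin c' ⊕ Fin (n + q) ≃ Fin (c' + (n + q))),
      (∀ j, ((D (Sum.inr j) : ℕ) : ℤ) + k' + 1 + e = μ j + (((n + q : ℕ) : ℤ) - j)) →
      ∀ π, Q (n + q) π →
        Cont (SE k' e π * Th (1 - e) (yD π) (Eb (1 - e) fun j => (D (Sum.inl j) : ℕ))))
    (π : GSys n) (hπ : Q n π) : AllC k' c₁ e π := by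
  obtain ⟨D, s, c₂, q₁, φ, E₁, hD, hs0, hqs, h1, h2, hE₁, hE₁a⟩ := combB k' e he
    μ hμ hd c' hc c₁ n hn hr
  have hfirst := hyp D hD
  obtain ⟨β, ε, hβ, hβq, hσ⟩ := top_sigma e he E₁ hE₁a
  obtain ⟨σ, hσdef⟩ : ∃ σ : MvPolynomial (Fin c₁) ℤ, σ = KL (1 - (e : ℤ))
        (fun k : Fin c₁ => (MvPolynomial.X k : MvPolynomial (Fin c₁) ℤ))
        (fun j => (E₁ (Sum.inl j) : ℕ)) := ⟨_, rfl⟩
  rw [← hσdef] at hσ
  have hbinj : Function.Injective fun j : Fin c' => (D (Sum.inl j) : ℕ) := fun i j hij =>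
    Sum.inl_injective (D.injective (Fin.ext hij))
  have hspan := span_all (1 - (e : ℤ)) (B := c₁ + n) (M := s + n)
    (((ε : ℤ) : MvPolynomial (Fin c₁) ℤ) * σ) β hβ hσ (fun i => by
      have := hβq i
      omega) (UC k' c₁ e π) (fun h => UC_not_injective π h) (fun h k => UC_large π h k)
    (fun h τ => UC_perm π h τ) (fun e' he' hel => by
      obtain ⟨d, ε', hd'⟩ := skew (1 - (e : ℤ)) (n := n) (q := q) (s := s)
        (fun j : Fin c' => (D (Sum.inl j) : ℕ)) hbinj (fun i => (D (Sum.inl i)).2) hs0 φ h1 h2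
        E₁ hE₁ e' he' hel
      have h3 := stepsW_KL hQ (1 - (e : ℤ)) k' e (Eb (1 - e) fun j => (D (Sum.inl j) : ℕ)) q n
        hfirst d π hπ
      have h4 : σ * Pbs (1 - (e : ℤ)) e' ∈ UC k' c₁ e π := by
        rw [mem_UC, hσdef, hd' Dat (yD π), mul_left_comm]
        exact h3.intCast_mul _
      rw [mul_assoc, ← zsmul_eq_mul]
      exact (UC k' c₁ e π).zsmul_mem h4 _)
  exact fun E => hspan E

/-- The case of rank zero. -/
theorem allC_of_zero (hQ : KClosed Q) {q : ℕ} (e : ℕ) (he : e ≤ 1) (k' : ℤ)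
    (μ : Fin (0 + q) → ℤ) (hμ : Antitone μ) (hd : ∀ i, 2 * k' + e ≤ 2 * μ i) (c' : ℕ)
    (hc : ∀ i, μ i ≤ c' + k' + e) (c₁ : ℕ)
    (hyp : ∀ (D : Fin c' ⊕ Fin (0 + q) ≃ Fin (c' + (0 + q))),
      (∀ j, ((D (Sum.inr j) : ℕ) : ℤ) + k' + 1 + e = μ j + (((0 + q : ℕ) : ℤ) - j)) →
      ∀ π, Q (0 + q) π →
        Cont (SE k' e π * Th (1 - e) (yD π) (Eb (1 - e) fun j => (D (Sum.inl j) : ℕ))))
    (π : GSys 0) (hπ : Q 0 π) : AllC k' c₁ e π := by
  obtain ⟨D, hD⟩ := exists_beta k' e μ hμ hd he c' hc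
  have hs : ∀ i : Fin c', (D (Sum.inl i) : ℕ) < c' + (0 + q) ∨
      c' + (0 + q) + 2 * 0 ≤ (D (Sum.inl i) : ℕ) := fun i => Or.inl (D (Sum.inl i)).2
  have h2 := extractionW hQ 0 q k' e D (hyp D hD) (s0 := c' + (0 + q)) (by omega) hs 0
    (fun _ => Nat.zero_le _) (fun k hk => absurd rfl hk) π hπ
  rw [Finset.prod_eq_one fun k _ => diag_one _ hs (yD π) rfl, mul_one] at h2
  intro E
  rw [Th_zero_rank, mul_comm]
  exact h2.intCast_mul _

/-- One irreducible representation gives all `Θ`: the case of full continuation. -/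
theorem allC_of_full (hQ : KClosed Q) (n q : ℕ) (e : ℕ) (he : e ≤ 1) (k' : ℤ)
    (μ : Fin (n + q) → ℤ) (m : Wt (n + q) →₀ ℤ) (hm : IsIrr (2 * k' + e) μ m) (c₁ : ℕ)
    (hr : 2 * n ≤ (Finset.univ.filter fun i => μ i = c₁ + k' + e).card)
    (hyp : ∀ π, Q (n + q) π → Cont (Phi π (AddMonoidAlgebra.ofCoeff m : R (n + q))))
    (π : GSys n) (hπ : Q n π) : AllC k' c₁ e π := by
  obtain ⟨c', hc'⟩ : ∃ c' : ℕ, ∀ i, μ i ≤ c' + k' + e := by
    obtain ⟨B, hB⟩ : ∃ B : ℤ, ∀ i, μ i ≤ B := by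
      rcases Nat.eq_zero_or_pos (n + q) with h | h
      · exact ⟨0, fun i => absurd i.2 (by omega)⟩
      · exact ⟨μ ⟨0, h⟩, fun i => hm.1 (show (⟨0, h⟩ : Fin (n + q)) ≤ i from Nat.zero_le _)⟩
    refine ⟨(B - k' - e).toNat, fun i => ?_⟩
    have h1 := hB i
    have h2 := Int.self_le_toNat (B - k' - e)
    omega
  have hyp' : ∀ (D : Fin c' ⊕ Fin (n + q) ≃ Fin (c' + (n + q))),
      (∀ j, ((D (Sum.inr j) : ℕ) : ℤ) + k' + 1 + e = μ j + (((n + q : ℕ) : ℤ) - j)) →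
      ∀ π, Q (n + q) π →
        Cont (SE k' e π * Th (1 - e) (yD π) (Eb (1 - e) fun j => (D (Sum.inl j) : ℕ))) :=
    fun D hD π hπ => (bridgeW_cont e he k' D μ m hm hD).1 (hyp π hπ)
  rcases Nat.eq_zero_or_pos n with rfl | hn
  · exact allC_of_zero hQ e he k' μ hm.1 hm.2.1 c' hc' c₁ hyp' π hπ
  · exact allC_of_block hQ hn e he k' μ hm.1 hm.2.1 c' hc' c₁ hr hyp' π hπ

/-- One irreducible representation gives all `Θ`. -/
theorem allC_of_irr (hQ : KClosed Q) (N : ℕ) (e : ℕ) (he : e ≤ 1)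
    (k' : ℤ) (μ : Fin (N + 1) → ℤ) (m : Wt (N + 1) →₀ ℤ) (hm : IsIrr (2 * k' + e) μ m)
    (c₁ n : ℕ) (hr : 2 * n ≤ (Finset.univ.filter fun i : Fin N => μ i.succ = c₁ + k' + e).card)
    (hyp : ∀ π, Q N π → ContinuesBeyond (μ 0 - (2 * k' + e : ℤ) / 2) π m)
    (π : GSys n) (hπ : Q n π) : AllC k' c₁ e π := by
  have hcard : 2 * n ≤ N := by
    have := Finset.card_filter_le (Finset.univ : Finset (Fin N)) fun i => μ i.succ = c₁ + k' + e
    rw [Finset.card_univ, Fintype.card_fin] at this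
    omega
  obtain ⟨q, rfl⟩ : ∃ q, N = n + q := ⟨N - n, by omega⟩
  have hd := hm.2.1
  obtain ⟨c', hc'⟩ : ∃ c' : ℕ, (c' : ℤ) = μ 0 - k' - e := by
    refine ⟨(μ 0 - k' - e).toNat, Int.toNat_of_nonneg ?_⟩
    have := hd 0
    omega
  have hanti : Antitone fun i : Fin (n + q) => μ i.succ :=
    fun i j hij => hm.1 (Fin.succ_le_succ_iff.2 hij)
  have hup : ∀ i : Fin (n + q), μ i.succ ≤ c' + k' + e := fun i => by
    have := hm.1 (Fin.zero_le i.succ)
    omega
  have hyp' : ∀ (D : Fin c' ⊕ Fin (n + q) ≃ Fin (c' + (n + q))),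
      (∀ j, ((D (Sum.inr j) : ℕ) : ℤ) + k' + 1 + e = μ j.succ + (((n + q : ℕ) : ℤ) - j)) →
      ∀ π, Q (n + q) π →
        Cont (SE k' e π * Th (1 - e) (yD π) (Eb (1 - e) fun j => (D (Sum.inl j) : ℕ))) :=
    fun D hD π hπ => firstW hQ (n + q) e he k' μ m hm hc' D hD hyp π hπ
  rcases Nat.eq_zero_or_pos n with rfl | hn
  · exact allC_of_zero hQ e he k' _ hanti (fun i => hd i.succ) c' hup c₁ hyp' π hπ
  · exact allC_of_block hQ hn e he k' _ hanti (fun i => hd i.succ) c' hup c₁ hr hyp' π hπ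

end

/-- From `AllC` to the irreducible characters. -/
theorem cont_of_allC {k' : ℤ} {c e : ℕ} (he : e ≤ 1) {n : ℕ} {π : GSys n}
    (h : AllC k' c e π)
    (ν : Fin n → ℤ) (m : Wt n →₀ ℤ) (hm : IsIrr (2 * k' + e) ν m) (hν : ∀ i, ν i ≤ c + k' + e) :
    Cont (Phi π (AddMonoidAlgebra.ofCoeff m : R n)) := by
  obtain ⟨D, hD⟩ := exists_beta k' e ν hm.1 hm.2.1 he c hν
  rw [bridgeW_cont e he k' D ν m hm hD, Eb_eq]
  exact h _

/-- From the irreducible characters to `AllC`. -/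
theorem allC_of_cont {k' : ℤ} {c e : ℕ} (he : e ≤ 1) {n : ℕ} {π : GSys n}
    (H : ∀ (ν : Fin n → ℤ) (m : Wt n →₀ ℤ), IsIrr (2 * k' + e) ν m → (∀ i, ν i ≤ c + k' + e) →
      Cont (Phi π (AddMonoidAlgebra.ofCoeff m : R n))) : AllC k' c e π := by
  classical
  intro E
  rw [← mem_UC]
  have key : ∀ h : Fin c → ℕ, Pbs (1 - (e : ℤ)) h ∈ UC k' c e π := by
    intro h
    by_cases hi : Function.Injective h
    swap
    · exact UC_not_injective π h hi
    by_cases hk : ∃ k, c + n ≤ h k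
    · obtain ⟨k, hk⟩ := hk
      exact UC_large π h k hk
    push Not at hk
    obtain ⟨D', hD'⟩ := exists_equiv (c := n) h hi (fun j => by
      have := hk j
      omega)
    obtain ⟨τ, hτ, -⟩ := exists_sort (fun i : Fin n => (D' (Sum.inl i) : ℕ)) fun i j hij =>
      Sum.inl_injective (D'.injective (Fin.ext hij))
    obtain ⟨D, hD⟩ : ∃ D : Fin c ⊕ Fin n ≃ Fin (c + n), D =
        (Equiv.sumCongr (Equiv.refl _) τ).trans ((Equiv.sumComm _ _).trans
          (D'.trans (finCongr (add_comm n c)))) := ⟨_, rfl⟩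
    have hDl : ∀ i, (D (Sum.inl i) : ℕ) = h i := fun i => by
      rw [hD, ← hD']
      simp
    have hDr : ∀ i, (D (Sum.inr i) : ℕ) = (D' (Sum.inl (τ i)) : ℕ) := fun i => by
      rw [hD]
      simp
    have hanti : StrictAnti fun i => (D (Sum.inr i) : ℕ) := by
      simp only [hDr]
      exact hτ
    have hlow := fun i => (strictAnti_bound _ hanti i).1
    have hup := fun i => (strictAnti_bound _ hanti i).2 (c + n) fun j => (D (Sum.inr j)).2
    obtain ⟨ν, hν⟩ : ∃ ν : Fin n → ℤ, ∀ j, ((D (Sum.inr j) : ℕ) : ℤ) + k' + 1 + e =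
        ν j + ((n : ℤ) - j) :=
      ⟨fun j => ((D (Sum.inr j) : ℕ) : ℤ) + k' + 1 + e - ((n : ℤ) - j), fun j => by ring⟩
    have hνanti : Antitone ν := by
      intro i j hij
      rcases eq_or_lt_of_le hij with rfl | hlt
      · exact le_rfl
      · obtain ⟨k, hk⟩ : ∃ k, (i : ℕ) + k = (j : ℕ) := ⟨(j : ℕ) - i, by
          have : (i : ℕ) < j := hlt
          omega⟩
        have hgen : ∀ (k : ℕ) (i j : Fin n), (i : ℕ) + k = j →
            (D (Sum.inr j) : ℕ) + k ≤ (D (Sum.inr i) : ℕ) := by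
          intro k
          induction k with
          | zero =>
            intro i j hij
            have : i = j := Fin.ext (by omega)
            rw [this, add_zero]
          | succ k ih =>
            intro i j hij
            have hj := j.2
            have h1 := ih i ⟨i + k, by omega⟩ rfl
            have h2 : (D (Sum.inr j) : ℕ) < (D (Sum.inr ⟨i + k, by omega⟩) : ℕ) :=
              hanti (by rw [Fin.lt_def]; simp only; omega)
            omega
        have h1 := hgen k i j hk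
        have h2 := hν i
        have h3 := hν j
        omega
    have hνlow : ∀ i, 2 * k' + (e : ℤ) ≤ 2 * ν i := by
      intro i
      have h1 := hν i
      have h2 := hlow i
      have := i.2
      omega
    have hνup : ∀ i, ν i ≤ c + k' + e := by
      intro i
      have h1 := hν i
      have h2 : (D (Sum.inr i) : ℕ) + (i : ℕ) < c + n := hup i
      omega
    obtain ⟨s, h1, -⟩ := exists_irr_char e he k' ν hνanti hνlow D hν
    have h2 := H ν _ h1 hνup
    rw [bridgeW_cont e he k' D ν _ h1 hν] at h2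
    rw [Pbs_mem_UC]
    simpa only [hDl] using h2
  obtain ⟨z, hz⟩ := exists_Pbs (1 - (e : ℤ)) E
  rw [← hz]
  exact (UC k' c e π).sum_mem fun h _ => (UC k' c e π).zsmul_mem (key h) _

/-- `AllC` and induction. -/
theorem AllC.klingen {k' : ℤ} {c e n : ℕ} {π : GSys n} (h : AllC k' c e π) (z : ℂ) :
    AllC k' c e (klingen π z) := by
  intro E
  rw [expansionW]
  refine Cont.sum66 _ _ fun i _ => ?_
  have h1 : MvPolynomial.esymm (Fin c) ℤ (c - i) *
      (VV (fun k : Fin c => (MvPolynomial.X k : MvPolynomial (Fin c) ℤ)) * E) =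
      VV (fun k : Fin c => (MvPolynomial.X k : MvPolynomial (Fin c) ℤ)) *
        (MvPolynomial.esymm (Fin c) ℤ (c - i) * E) := by ring
  rw [h1]
  have h2 := h (MvPolynomial.esymm (Fin c) ℤ (c - i) * E)
  have h3 : Cont ((-1) ^ i * (SE k' e π * Th (1 - (e : ℤ)) (yD π)
      (VV (fun k : Fin c => (MvPolynomial.X k : MvPolynomial (Fin c) ℤ)) *
        (MvPolynomial.esymm (Fin c) ℤ (c - i) * E)))) := by
    rcases Nat.even_or_odd i with h6 | h6
    · rw [h6.neg_one_pow, one_mul]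
      exact h2
    · rw [h6.neg_one_pow, neg_mul, one_mul]
      exact h2.neg
  rw [mul_assoc]
  exact (h3.SS_pow_mul z e).YY_pow_mul z i

end Pool.Agent.EEA520
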