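import Pool.Agent.W_eea520_h66.Extract
import Pool.Agent.W_eea520_h69.HAbsc
import Pool.Agent.W_eea520_h69.HM

/-! Continuation to all half planes for sets of parameters which may depend on the half plane. -/

set_option autoImplicit false

namespace Pool.Agent.EEA520

open Filter

theorem cont_of_forall_contTo {D : Dat} (hD : D ∈ BB) (h : ∀ c : ℝ, ContTo c D) : Cont D := by
  rw [cont_iff_ab hD, EReal.eq_bot_iff_forall_lt]
  intro y
  exact lt_of_le_of_lt (ab_le_of (h (y - 1))) (EReal.coe_lt_coe_iff.2 (by linarith))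

/-- The zero-one law, for all half planes. -/
theorem cont_of_not_small_half {L : ℕ} (A : Finset (Fin L → ℤ)) (D : (Fin L → ℤ) → Dat)
    (hD : ∀ a ∈ A, D a ∈ BB)
    (h : ∀ c : ℝ, ¬ Small {t : Fin L → ℝ | ContTo c (∑ a ∈ A, tw (pr a t * Complex.I) * D a)}) :
    ∀ a ∈ A, Cont (D a) := fun a ha =>
  cont_of_forall_contTo (hD a ha) fun c => cont_of_not_smallH A D hD c (h c) a ha

theorem contTo_tw_I {D : Dat} {c : ℝ} (r : ℝ) (h : ContTo c (tw (r * Complex.I) * D)) :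
    ContTo c D := h.untw (by rw [HM_re]; ring)

theorem bridge_contTo {N : ℕ} {c : ℝ} {π : GSys N} (hb : Bdd π) (e : ℕ)
    (he : e ≤ 1) (k' : ℤ) (ht : ∀ᶠ p in cofinite, (π p).nu ^ k' = 1)
    {c' : ℕ} (D : Fin c' ⊕ Fin N ≃ Fin (c' + N)) (μ : Fin N → ℤ)
    (m : Wt N →₀ ℤ) (hm : IsIrr (2 * k' + e) μ m)
    (hD : ∀ j : Fin N, ((D (Sum.inr j) : ℕ) : ℤ) + k' + 1 + e = μ j + ((N : ℤ) - j))
    (hc : ContTo c (Phi π (AddMonoidAlgebra.ofCoeff m : R N))) :
    ContTo c (spinD π ^ e * Th (1 - e) (yD π) (Eb (1 - e) fun j => (D (Sum.inl j) : ℕ))) := by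
  obtain ⟨s, hs⟩ := bridge e he k' ht D μ m hm hD
  have h0 : spinD π ^ e * Th (1 - e) (yD π) (Eb (1 - e) fun j => (D (Sum.inl j) : ℕ)) ∈ BB :=
    mul_mem (pow_mem (spinD_mem hb) e) (Th_mem _ BB (yD π) (yD_mem hb) _)
  have h2 := (contTo_congr (mul_mem (intCast_mem _ _) h0) hs hc).intCast_mul (s : ℤ)
  rwa [← mul_assoc, units_mul_self, one_mul] at h2

end Pool.Agent.EEA520
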