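import Pool.Agent.W_eea520_h66.Extract
import Pool.Agent.W_eea520_h25.Main

/-! One faithful irreducible representation per rank suffices. -/

set_option autoImplicit false

namespace Pool.Agent.EEA520

open Filter Polynomial

private theorem det_rev {N : ℕ} (u : ℤ) : Matrix.det (Matrix.of fun i j : Fin N =>
    (pA u (R N) ((Fin.rev j : Fin N) : ℕ)).eval (yR N i)) =
    ((Equiv.Perm.sign (Fin.revPerm : Equiv.Perm (Fin N)) : ℤ) : R N) * VV (yR N) := by
  have h3 : (Matrix.of fun i j : Fin N => (pA u (R N)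
      ((Fin.rev j : Fin N) : ℕ)).eval (yR N i)) =
      (Matrix.of fun i j : Fin N => (pA u (R N) j).eval (yR N i)).submatrix id
        Fin.revPerm := by
    ext i j
    rfl
  rw [h3, Matrix.det_permute', ← VV_eq_det]

/-- The spin representation is irreducible with the highest weight `(1, (1, …, 1))`. -/
theorem spin_irr (N : ℕ) : IsIrr 1 (fun _ : Fin N => (1 : ℤ)) (spin N) := by
  refine ⟨fun i j _ => le_rfl, fun i => by norm_num, ?_⟩
  have h0 : (AddMonoidAlgebra.ofCoeff (spin N) : R N) = spR N := by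
    rw [← spR_coeff]
  have h1 := alt_eq (N := N) 0 (Nat.zero_le 1) 0 (fun j => ((Fin.rev j : Fin N) : ℕ))
  have h2 := alt_eq (N := N) 1 le_rfl 0 (fun j => ((Fin.rev j : Fin N) : ℕ))
  have e1 : (fun j : Fin N => (((Fin.rev j : Fin N) : ℕ) : ℤ) + 0 + 1 + ((0 : ℕ) : ℤ)) =
      fun j : Fin N => (N : ℤ) - j := by
    funext j
    rw [Fin.val_rev]
    have := j.2
    push_cast [Nat.cast_sub (show (j : ℕ) + 1 ≤ N by omega)]
    ring
  have e2 : (fun j : Fin N => (((Fin.rev j : Fin N) : ℕ) : ℤ) + 0 + 1 + ((1 : ℕ) : ℤ)) =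
      fun j : Fin N => 1 + ((N : ℤ) - j) := by
    funext j
    rw [Fin.val_rev]
    have := j.2
    push_cast [Nat.cast_sub (show (j : ℕ) + 1 ≤ N by omega)]
    ring
  have e3 : (2 * 0 + ((0 : ℕ) : ℤ) + 1) = 1 := by norm_num
  have e4 : (2 * 0 + ((1 : ℕ) : ℤ) + 1) = 1 + 1 := by norm_num
  rw [e1, e3, det_rev] at h1
  rw [e2, e4, det_rev] at h2
  rw [h0, h1, h2, spR]
  have e5 : (mon (1 + 1, 0) : R N) = mon (1, 0) * mon (1, 0) := by
    rw [mon_mul, Prod.mk_add_mk, add_zero]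
  have e6 : ∀ i : Fin N, (1 + mon (0, Pi.single i 1) : R N) = xx i 1 + 1 := fun i => add_comm _ _
  simp only [xx_zero, one_mul, pow_zero, mul_one, pow_one, e5, e6, Finset.prod_mul_distrib]
  ring

theorem Continues.near {n : ℕ} {π : GSys n} {m : Wt n →₀ ℤ} (h : Continues π m) (s₀ : ℂ) (R : ℝ) :
    ContinuesNear s₀ R π m := by
  obtain ⟨T, b, g, hg, hp⟩ := h
  exact ⟨T, b, g, fun s _ => hg s, fun s _ hs => hp s hs⟩

theorem Tower.bdd {Z : (n : ℕ) → GSys n → Set ℂ} {n : ℕ} {π : GSys n} (hπ : Bdd π) {N : ℕ}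
    {π' : GSys N} (h : Tower Z π N π') : Bdd π' := by
  induction h with
  | base => exact hπ
  | step z _ _ ih => exact bdd_klingen ih z

theorem Tower.triv {Z : (n : ℕ) → GSys n → Set ℂ} {n : ℕ} {π : GSys n} (hπ : TrivialCentral π) {N : ℕ}
    {π' : GSys N} (h : Tower Z π N π') : TrivialCentral π' := by
  induction h with
  | base => exact hπ
  | step z _ _ ih => exact triv_klingen ih z

/-- The condition on the sets `Z n π`: their real parts are not bounded below. -/
def Unbdd (Z : (n : ℕ) → GSys n → Set ℂ) : Prop := ∀ (n : ℕ) (π : GSys n) (B : ℝ),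
  ∃ z ∈ Z n π, z.re < B

theorem kclosed_tower {Z : (n : ℕ) → GSys n → Set ℂ} (hZ : Unbdd Z) {n : ℕ} {π : GSys n}
    (hπ : Bdd π) : KClosed fun N (π' : GSys N) => Tower Z π N π' :=
  ⟨fun h => h.bdd hπ, fun {N π'} B h => by
    obtain ⟨z, hz, hB⟩ := hZ N π' B
    exact ⟨z, hB, Tower.step z h hz⟩⟩

end Pool.Agent.EEA520
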