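import Pool.Agent.W_eea520_h66.AllC
import Pool.Agent.W_eea520_h66.MainA
import Pool.Agent.W_eea520_h69.UFamA
import Pool.Agent.W_eea520_h66.HalfU

/-! The family induced from `GL_1 ^ q × GSp_{2n}`. -/

set_option autoImplicit false

namespace Pool.Agent.EEA520

open Filter Polynomial

/-- The multidegree. -/
def degB {n q : ℕ} (w : Wt (n + q)) : Fin q → ℤ := fun j => w.2 (Fin.natAdd n j)

theorem ev_borel {n q : ℕ} (π : GSys n) (z : Fin q → ℂ) (w : Wt (n + q)) (p : Pr) :
    (borel π q z p).ev w = ppow p (∑ j, (degB w j : ℂ) * z j) * (borel π q 0 p).ev w := by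
  have h1 : ∀ s : Finset (Fin q), ppow p (∑ j ∈ s, (degB w j : ℂ) * z j) =
      ∏ j ∈ s, ppow p (z j) ^ w.2 (Fin.natAdd n j) := by
    intro s
    classical
    induction s using Finset.induction_on with
    | empty => rw [Finset.sum_empty, Finset.prod_empty, ppow_zero]
    | insert j s hj ih =>
      rw [Finset.sum_insert hj, Finset.prod_insert hj, ppow_add, ih]
      congr 1
      exact ppow_int_mul p _ _
  unfold Torus.ev
  simp only [borel, Fin.prod_univ_add, Fin.append_left, Fin.append_right, Pi.zero_apply,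
    ppow_zero, one_zpow, Finset.prod_const_one, mul_one]
  rw [h1, ← mul_assoc, mul_comm]

/-- The characters of the members of the family. -/
theorem Phi_borel {n q : ℕ} (π : GSys n) (z : Fin q → ℂ) (m : Wt (n + q) →₀ ℤ) :
    Phi (borel π q z) (AddMonoidAlgebra.ofCoeff m) =
      ∑ a ∈ m.support.image degB, tw (∑ j, (a j : ℂ) * z j) *
        Phi (borel π q 0) (AddMonoidAlgebra.ofCoeff (m.filter fun w => degB w = a)) := by
  classical
  funext p
  rw [FinalA_Phi, Finset.sum_apply, Finsupp.sum]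
  have h1 : ∀ a : Fin q → ℤ, (tw (∑ j, (a j : ℂ) * z j) * Phi (borel π q 0)
      (AddMonoidAlgebra.ofCoeff (m.filter fun w => degB w = a))) p =
      ∑ w ∈ m.support with degB w = a, m w • el ((borel π q z p).ev w) := by
    intro a
    rw [Pi.mul_apply, FinalA_Phi, Finsupp.sum, Finsupp.support_filter, Finset.mul_sum]
    refine Finset.sum_congr rfl fun w hw => ?_
    have hw' : degB w = a := (Finset.mem_filter.1 hw).2
    have h2 : (m.filter fun w => degB w = a) w = m w := by
      rw [Finsupp.filter_apply, if_pos hw']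
    rw [h2, ev_borel π z w p, hw', mul_smul_comm]
    congr 1
    show el _ * el _ = el _
    unfold el
    rw [← map_mul]
  rw [Finset.sum_congr rfl fun a _ => h1 a]
  rw [Finset.sum_fiberwise_of_maps_to (t := m.support.image degB)
    (fun w hw => Finset.mem_image_of_mem _ hw)]

theorem klingen_borel {n q : ℕ} (π : GSys n) (z : Fin q → ℂ) (w z' : ℂ) :
    klingen (twist (borel π q z) w) z' =
      twist (borel π (q + 1) (Fin.snoc (α := fun _ => ℂ) z z')) (w + -z' / 2) := by
  funext p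
  ext i
  · show ((π p).c * ppow p w * ppow p (-z' / 2) : ℂˣ) = (((π p).c * ppow p (w + -z' / 2) : ℂˣ) : ℂ)
    rw [ppow_add, mul_assoc]
  · show ((Fin.append (Fin.append (π p).x fun j => ppow p (z j)) (fun _ : Fin 1 => 1 * ppow p z') i :
      ℂˣ) : ℂ) = ((Fin.append (π p).x (fun j => ppow p (Fin.snoc (α := fun _ => ℂ) z z' j)) i : ℂˣ) : ℂ)
    congr 1
    refine Fin.lastCases ?_ (fun i => ?_) i
    · have h1 : (Fin.last (n + q) : Fin (n + q + 1)) = Fin.natAdd (n + q) (0 : Fin 1) := rfl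
      have h2 : (Fin.last (n + q) : Fin (n + (q + 1))) = Fin.natAdd n (Fin.last q) := rfl
      rw [h1, Fin.append_right, ← h1, h2, Fin.append_right, Fin.snoc_last, one_mul]
    · have h1 : (Fin.castSucc i : Fin (n + q + 1)) = Fin.castAdd 1 i := rfl
      rw [h1, Fin.append_left]
      refine Fin.addCases (fun i => ?_) (fun i => ?_) i
      · have h2 : (Fin.castAdd 1 (Fin.castAdd q i) : Fin (n + (q + 1))) =
            Fin.castAdd (q + 1) i := rfl
        rw [Fin.append_left, h2, Fin.append_left]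
      · have h2 : (Fin.castAdd 1 (Fin.natAdd n i) : Fin (n + (q + 1))) =
            Fin.natAdd n (Fin.castSucc i) := rfl
        rw [Fin.append_right, h2, Fin.append_right, Fin.snoc_castSucc]

theorem borel_zero {n : ℕ} (π : GSys n) (z : Fin 0 → ℂ) : borel π 0 z = π := by
  funext p
  ext i
  · rfl
  · show ((Fin.append (π p).x (fun j => ppow p (z j)) i : ℂˣ) : ℂ) = ((π p).x i : ℂ)
    congr 1
    exact Fin.append_left (π p).x _ i

theorem twist_zero {n : ℕ} (π : GSys n) : twist π 0 = π := by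
  funext p
  ext i
  · show (((π p).c * ppow p 0 : ℂˣ) : ℂ) = _
    rw [ppow_zero, mul_one]
  · rfl

/-- The members of a tower are twists of members of the family. -/
theorem Tower.borel {Z : (n : ℕ) → GSys n → Set ℂ} {n : ℕ} {π : GSys n} {N : ℕ} {π' : GSys N}
    (h : Tower Z π N π') : ∃ (q : ℕ) (z : Fin q → ℂ) (w : ℂ), N = n + q ∧
      HEq π' (twist (borel π q z) w) := by
  induction h with
  | base => exact ⟨0, Fin.elim0, 0, rfl, heq_of_eq (by rw [twist_zero, borel_zero])⟩
  | @step N π' z' _ _ ih =>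
    obtain ⟨q, z, w, rfl, h1⟩ := ih
    obtain rfl := eq_of_heq h1
    exact ⟨q + 1, Fin.snoc (α := fun _ => ℂ) z z', w + -z' / 2, rfl,
      heq_of_eq (klingen_borel π z w z')⟩

section

variable {n : ℕ}

theorem spinD_twist (π : GSys n) (w : ℂ) : spinD (twist π w) = tw w * spinD π := by
  funext p
  simp only [spinD, twist, tw, Pi.mul_apply]
  have h1 : el ((π p).c * ppow p w) = el (π p).c * el (ppow p w) := by
    simp only [el, map_mul]
  rw [h1]
  ring

theorem yD_twist (π : GSys n) (w : ℂ) : yD (twist π w) = yD π := rfl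

theorem tw_zpow (w : ℂ) (k : ℤ) (p : Pr) : el (ppow p w ^ k) = tw (k * w) p := by
  rw [tw, ppow_int_mul]

theorem Phi_nu_twist (k' : ℤ) (π : GSys n) (w : ℂ) : Phi (twist π w) (mon (k' • nuW n)) =
    tw (2 * k' * w) * Phi π (mon (k' • nuW n)) := by
  funext p
  rw [Phi_nu, Pi.mul_apply, Phi_nu]
  have h1 : ((twist π w p).c ^ 2 * ∏ i, (twist π w p).x i) = (twist π w p).nu := rfl
  have h2 : ((π p).c ^ 2 * ∏ i, (π p).x i) = (π p).nu := rfl
  rw [h1, h2, nu_twist, mul_zpow]
  have h3 : ppow p (2 * w) ^ k' = ppow p (2 * k' * w) := by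
    rw [← ppow_int_mul]
    congr 1
    ring
  rw [h3, mul_comm]
  simp only [el, map_mul, tw]

theorem SE_twist (k' : ℤ) (e : ℕ) (π : GSys n) (w : ℂ) :
    SE k' e (twist π w) = tw ((2 * k' + e) * w) * SE k' e π := by
  rw [SE, SE, Phi_nu_twist, spinD_twist, mul_pow, tw_pow]
  have h1 : tw ((2 * (k' : ℂ) + e) * w) = tw (2 * k' * w) * tw (e * w) := by
    rw [← tw_add66]
    congr 1
    ring
  rw [h1]
  ring

theorem AllC.twist {k' : ℤ} {c e : ℕ} {π : GSys n} (h : AllC k' c e π) (w : ℂ) :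
    AllC k' c e (twist π w) := by
  intro E
  rw [SE_twist, yD_twist, mul_assoc]
  exact (h E).tw _

/-- `AllC` for the members of the family. -/
theorem AllC.borel {k' : ℤ} {c e : ℕ} {π : GSys n} (h : AllC k' c e π) (q : ℕ) (z : Fin q → ℂ) :
    AllC k' c e (borel π q z) := by
  induction q with
  | zero => rwa [borel_zero]
  | succ q ih =>
    have h1 := klingen_borel π (fun j => z j.castSucc) 0 (z (Fin.last q))
    rw [twist_zero] at h1
    have h2 : (Fin.snoc (α := fun _ => ℂ) (fun j => z j.castSucc) (z (Fin.last q)) :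
        Fin (q + 1) → ℂ) = z := Fin.snoc_init_self z
    rw [h2, zero_add] at h1
    have h3 := ((ih fun j => z j.castSucc).klingen (z (Fin.last q))).twist (z (Fin.last q) / 2)
    rw [h1] at h3
    have h4 : EEA520.twist (EEA520.twist (EEA520.borel π (q + 1) z) (-z (Fin.last q) / 2))
        (z (Fin.last q) / 2) = EEA520.borel π (q + 1) z := by
      funext p
      ext i
      · show (((EEA520.borel π (q + 1) z p).c * ppow p (-z (Fin.last q) / 2) *
          ppow p (z (Fin.last q) / 2) : ℂˣ) : ℂ) = _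
        rw [mul_assoc, ← ppow_add, show -z (Fin.last q) / 2 + z (Fin.last q) / 2 = 0 by ring,
          ppow_zero, mul_one]
      · rfl
    rwa [h4] at h3

theorem AllC.tower {k' : ℤ} {c e : ℕ} {Z : (n : ℕ) → GSys n → Set ℂ} {π : GSys n}
    (h : AllC k' c e π) {N : ℕ} {π' : GSys N} (hT : Tower Z π N π') : AllC k' c e π' := by
  induction hT with
  | base => exact h
  | step z _ _ ih => exact ih.klingen z

theorem bdd_borel {π : GSys n} (hπ : Bdd π) (q : ℕ) (z : Fin q → ℂ) : Bdd (borel π q z) := by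
  obtain ⟨B, hB⟩ := hπ
  obtain ⟨C, hC⟩ : ∃ C : ℝ, B ≤ C ∧ ∀ j, |(z j).re| ≤ C := by
    refine ⟨max B (∑ j, |(z j).re|), le_max_left _ _, fun j => ?_⟩
    exact (Finset.single_le_sum (f := fun j => |(z j).re|) (fun i _ => abs_nonneg _)
      (Finset.mem_univ j)).trans (le_max_right _ _)
  refine ⟨C, hB.mono fun p hp => ?_⟩
  have h1 : (1 : ℝ) ≤ ((p : ℕ) : ℝ) := by exact_mod_cast p.2.one_lt.le
  have mono : ∀ {x y : ℝ}, x ≤ y → ((p : ℕ) : ℝ) ^ x ≤ ((p : ℕ) : ℝ) ^ y := fun h =>
    Real.rpow_le_rpow_of_exponent_le h1 h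
  refine ⟨⟨hp.1.1.trans (mono hC.1), hp.1.2.trans (mono hC.1)⟩, fun i => ?_⟩
  show ‖((Fin.append (π p).x (fun j => ppow p (z j)) i : ℂˣ) : ℂ)‖ ≤ _ ∧
      ‖(((Fin.append (π p).x (fun j => ppow p (z j)) i)⁻¹ : ℂˣ) : ℂ)‖ ≤ _
  refine Fin.addCases (fun i => ?_) (fun i => ?_) i
  · rw [Fin.append_left]
    exact ⟨(hp.2 i).1.trans (mono hC.1), (hp.2 i).2.trans (mono hC.1)⟩
  · rw [Fin.append_right, ← ppow_neg, norm_ppow66, norm_ppow66]
    exact ⟨mono ((le_abs_self _).trans (hC.2 i)), mono (by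
      rw [Complex.neg_re]
      exact (neg_le_abs _).trans (hC.2 i))⟩

/-- The zero-one law. -/
theorem borel_of_not_small {π : GSys n} (hπ : Bdd π) (q : ℕ) (m : Wt (n + q) →₀ ℤ)
    (h : ∀ c : ℝ, ¬ Small {t : Fin q → ℝ |
      ContinuesTo c (borel π q fun j => t j * Complex.I) m})
    (z : Fin q → ℂ) : Cont (Phi (borel π q z) (AddMonoidAlgebra.ofCoeff m : R (n + q))) := by
  classical
  have hz : ∀ (c : ℝ) (t : Fin q → ℝ), ContinuesTo c (borel π q fun j => t j * Complex.I) m →
      ContTo c (∑ a ∈ m.support.image degB, tw (pr a t * Complex.I) *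
        Phi (borel π q 0) (AddMonoidAlgebra.ofCoeff (m.filter fun w => degB w = a))) := by
    intro c t ht
    have h2 := contTo_of_continuesTo (bdd_borel hπ q _) (AddMonoidAlgebra.ofCoeff m) ht
    rw [Phi_borel] at h2
    have h1 : ∀ a : Fin q → ℤ, (∑ j, (a j : ℂ) * (t j * Complex.I)) = pr a t * Complex.I := by
      intro a
      unfold pr
      push_cast
      rw [Finset.sum_mul]
      refine Finset.sum_congr rfl fun j _ => ?_
      ring
    simp only [h1] at h2
    exact h2
  have h1 := cont_of_not_small_half (m.support.image degB)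
    (fun a => Phi (borel π q 0) (AddMonoidAlgebra.ofCoeff (m.filter fun w => degB w = a)))
    (fun a _ => Phi_mem (bdd_borel hπ q 0) _) (fun c hs => h c (hs.mono fun t ht => hz c t ht))
  rw [Phi_borel]
  exact Cont.sum _ _ fun a ha => (h1 a ha).tw _

/-- The Euler products of the twists of a system for an irreducible character. -/
theorem cont_twist_irr {N : ℕ} {e : ℕ} (he : e ≤ 1) {k' : ℤ} {μ : Fin N → ℤ} {m : Wt N →₀ ℤ}
    (hm : IsIrr (2 * k' + e) μ m) {π : GSys N} (w : ℂ)
    (h : Cont (Phi π (AddMonoidAlgebra.ofCoeff m : R N))) :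
    Cont (Phi (EEA520.twist π w) (AddMonoidAlgebra.ofCoeff m : R N)) := by
  obtain ⟨c', hc'⟩ : ∃ c' : ℕ, ∀ i, μ i ≤ c' + k' + e := by
    obtain ⟨B, hB⟩ : ∃ B : ℤ, ∀ i, μ i ≤ B := by
      rcases Nat.eq_zero_or_pos N with rfl | h
      · exact ⟨0, fun i => i.elim0⟩
      · exact ⟨μ ⟨0, h⟩, fun i => hm.1 (show (⟨0, h⟩ : Fin N) ≤ i from Nat.zero_le _)⟩
    refine ⟨(B - k' - e).toNat, fun i => ?_⟩
    have h1 := hB i
    have h2 := Int.self_le_toNat (B - k' - e)
    omega
  obtain ⟨D, hD⟩ := exists_beta k' e μ hm.1 hm.2.1 he c' hc'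
  rw [bridgeW_cont e he k' D μ m hm hD] at h ⊢
  rw [SE_twist, yD_twist, mul_assoc]
  exact h.tw _

end

end Pool.Agent.EEA520
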