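import Pool.Agent.W_eea520_h25.Core
import Pool.Agent.W_eea520_h25.Cusp

/-!
# Irreducible characters of `GSpin(2N+1)` (MP_eea520_nt)
-/

set_option autoImplicit false

namespace Pool.Agent.EEA520

/-- The alternating sum of the images of the weight `(K, M)` under the Weyl group of `GSpin_{2N+1}`:
`c ^ K * det (x_i ^ (M_j) - x_i ^ (K - M_j))`. (The Weyl group is generated by the permutations of
the `x_i` and the reflections `x_i ↦ x_i⁻¹`, `c ↦ c x_i`.) -/
noncomputable def alt {N : ℕ} (K : ℤ) (M : Fin N → ℤ) : R N :=
  mon (K, 0) * Matrix.det (Matrix.of fun i j : Fin N =>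
    (mon (0, Pi.single i (M j)) - mon (0, Pi.single i (K - M j)) : R N))

/-- `m` is the character of the irreducible representation of `GSpin_{2N+1}` with the highest weight
`(k, μ)`, by Weyl's character formula. The weight is dominant if and only if `μ` is decreasing and
`k ≤ 2 μ_i`; half of the sum of the positive roots is `(N - 1/2, …, 1/2)`, and both sides of the formula
have been multiplied with the invariant weight `(1, (1/2, …, 1/2))`. The representation is trivial on
the element `-1` of the spin group if and only if `k` is even. -/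
def IsIrr {N : ℕ} (k : ℤ) (μ : Fin N → ℤ) (m : Wt N →₀ ℤ) : Prop :=
  Antitone μ ∧ (∀ i, k ≤ 2 * μ i) ∧
    AddMonoidAlgebra.ofCoeff m * alt 1 (fun j : Fin N => (N : ℤ) - j) =
      alt (k + 1) (fun j : Fin N => μ j + ((N : ℤ) - j))

/-- The parameters of the representation of `GSp_{2n+2}` which is parabolically induced from
`|·| ^ (-z) ⊗ π` on `GL_1 × GSp_{2n}` and twisted in such a way that the central character is the one
of `π`: `(c; x)` becomes `(c p ^ (-z/2); x, p ^ z)`. -/
noncomputable def klingen {n : ℕ} (π : GSys n) (z : ℂ) : GSys (n + 1) :=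
  twist (induce π (fun _ _ => 1 : GLSys 1) z) (-z / 2)

/-- The systems for `GSp_{2N}` obtained from `π` by successive induction with `|·| ^ (-z)`, where `z` is
in the given sets of complex numbers (for example, the negative integers, or the half planes
`Re z < z₀` in which the Eisenstein series converge absolutely). -/
inductive Tower (Z : (n : ℕ) → GSys n → Set ℂ) {n : ℕ} (π : GSys n) : (N : ℕ) → GSys N → Prop
  | base : Tower Z π n π
  | step {N : ℕ} {π' : GSys N} (z : ℂ) : Tower Z π N π' → z ∈ Z N π' →
      Tower Z π (N + 1) (klingen π' z)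

/-- The system of the representation of `GSp_{2(n+q)}` induced from the representation
`|·| ^ (-z_q) ⊗ … ⊗ |·| ^ (-z_1) ⊗ π` of the Levi subgroup `GL_1 ^ q × GSp_{2n}`. -/
noncomputable def borel {n : ℕ} (π : GSys n) (q : ℕ) (z : Fin q → ℂ) : GSys (n + q) :=
  fun p => ⟨(π p).c, Fin.append (π p).x fun j => ppow p (z j)⟩

/-- The half strip `Re s > Re s₀ - R`, `|Im (s - s₀)| < R`. -/
def strip (s₀ : ℂ) (R : ℝ) : Set ℂ := {s | s₀.re - R < s.re ∧ |s.im - s₀.im| < R}

/-- The Euler product of `π` for the character `m`, over the primes outside some finite set `S`,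
converges for all `s` in the half strip `strip s₀ R` with large real part to a function which extends
to a meromorphic function on the half strip. -/
def ContinuesNear (s₀ : ℂ) (R : ℝ) {n : ℕ} (π : GSys n) (m : Wt n →₀ ℤ) : Prop :=
  ∃ (S : Finset Pr) (b : ℝ) (g : ℂ → ℂ), MeromorphicOn g (strip s₀ R) ∧
    ∀ s ∈ strip s₀ R, b < s.re →
      HasProd (fun p : {p : Pr // p ∉ S} => (π p.1).factor m (((p.1 : ℕ) : ℂ) ^ (-s))) (g s)

/-- For every `R` there is a `z` with `Re z < -R` such that the Euler product of `klingen π z` for `m`
extends meromorphically to the half strip `Re s > lam |Re z| - R`, `|Im (s + lam z)| < R`. (If `m` is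
the character of the irreducible representation with the highest weight `(k, μ)` and
`lam = μ 0 - k / 2`, then it converges absolutely for `Re s > lam |Re z| + C`, for some constant
`C` which does not depend on `z`.) -/
def ContinuesBeyond (lam : ℝ) {n : ℕ} (π : GSys n) (m : Wt (n + 1) →₀ ℤ) : Prop :=
  ∀ R : ℝ, ∃ z : ℂ, z.re < -R ∧ ContinuesNear (-(lam * z)) R (klingen π z) m

/-- There is one irreducible representation `V` of some `GSpin_{2N+3}` with the highest weight `(k, μ)`
such that, apart from the first one, at least `2 n` of the coordinates `μ_i - k / 2` of its highest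
weight are equal to `l / 2`, and for all `π'` in `Tower Z π N` the Euler product of `klingen π' z` for `V`
extends beyond the half plane of absolute convergence, in the sense of `ContinuesBeyond`. -/
def OneV (Z : (n : ℕ) → GSys n → Set ℂ) (k : ℤ) (l : ℕ) {n : ℕ} (π : GSys n) : Prop :=
  ∃ (N : ℕ) (μ : Fin (N + 1) → ℤ) (m : Wt (N + 1) →₀ ℤ), IsIrr k μ m ∧
    2 * n ≤ (Finset.univ.filter fun i : Fin N => 2 * μ i.succ = k + l).card ∧
    ∀ π' : GSys N, Tower Z π N π' → ContinuesBeyond (μ 0 - k / 2) π' m

end Pool.Agent.EEA520
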