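import Pool.Agent.W_eea520_h66.Key
import Pool.Agent.W_eea520_h66.Defs

/-! The irreducible characters. -/

set_option autoImplicit false

namespace Pool.Agent.EEA520

open Polynomial

section

variable {A : Type} [CommRing A]

/-- Chebyshev polynomials of the third and of the second kind at `x + 1 / x`. -/
theorem pA_eval_add (x x' : A) (h : x * x' = 1) (l : ℕ) :
    x ^ (l + 1) - x' ^ l = (x - 1) * (pA 1 A l).eval (x + x') ∧
      x ^ (l + 2) - x' ^ l = (x - 1) * (x + 1) * (pA 0 A l).eval (x + x') := by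
  induction l using Nat.strong_induction_on with
  | _ l ih =>
    match l, ih with
    | 0, _ => 
      rw [pA_zero, pA_zero, eval_one]
      constructor <;> ring
    | 1, _ =>
      rw [pA_one, pA_one, eval_add, eval_X, eval_C, eval_add, eval_X, eval_C]
      push_cast
      constructor
      · linear_combination (-1 : A) * h
      · linear_combination (-x : A) * h
    | l + 2, ih =>
      obtain ⟨a1, b1⟩ := ih (l + 1) (by omega)
      obtain ⟨a0, b0⟩ := ih l (by omega)
      rw [pA_succ, pA_succ, eval_sub, eval_mul, eval_X, eval_sub, eval_mul, eval_X]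
      constructor
      · linear_combination (x + x') * a1 - a0 - (x ^ (l + 1) - x' ^ l) * h
      · linear_combination (x + x') * b1 - b0 - (x ^ (l + 2) - x' ^ l) * h

end

section

variable {N : ℕ}

theorem mon_mul (v w : Wt N) : (mon v * mon w : R N) = mon (v + w) := by
  simp [mon, AddMonoidAlgebra.single_mul_single]

theorem mon_zero : (mon 0 : R N) = 1 := rfl

theorem mon_nsmul (n : ℕ) (w : Wt N) : (mon (n • w) : R N) = mon w ^ n := by
  induction n with
  | zero => rw [zero_smul, pow_zero, mon_zero]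
  | succ n ih => rw [succ_nsmul, ← mon_mul, ih, pow_succ]

/-- The power `x_i ^ a`. -/
noncomputable def xx (i : Fin N) (a : ℤ) : R N := mon (0, Pi.single i a)

theorem xx_add (i : Fin N) (a b : ℤ) : xx i (a + b) = xx i a * xx i b := by
  rw [xx, xx, xx, mon_mul, Prod.mk_add_mk, add_zero, Pi.single_add]

theorem xx_zero (i : Fin N) : xx i 0 = (1 : R N) := by
  rw [xx, Pi.single_zero]
  rfl

theorem xx_natCast (i : Fin N) (a : ℕ) : xx i (a : ℤ) = xx i 1 ^ a := by
  induction a with
  | zero => rw [Nat.cast_zero, xx_zero, pow_zero]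
  | succ a ih => rw [Nat.cast_succ, xx_add, ih, pow_succ]

theorem xx_neg_natCast (i : Fin N) (a : ℕ) : xx i (-(a : ℤ)) = xx i (-1) ^ a := by
  induction a with
  | zero => rw [Nat.cast_zero, neg_zero, xx_zero, pow_zero]
  | succ a ih => rw [Nat.cast_succ, neg_add, xx_add, ih, pow_succ]

theorem xx_mul_xx_neg (i : Fin N) : xx i 1 * xx i (-1) = (1 : R N) := by
  rw [← xx_add, add_neg_cancel, xx_zero]

/-- `y_i = x_i + 1 / x_i`. -/
noncomputable def yR (N : ℕ) (i : Fin N) : R N := xx i 1 + xx i (-1)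

/-- The alternating sums. -/
theorem alt_eq (e : ℕ) (he : e ≤ 1) (k' : ℤ) (l : Fin N → ℕ) :
    alt (2 * k' + e + 1) (fun j => (l j : ℤ) + k' + 1 + e) =
      mon (2 * k' + e + 1, 0) * (∏ i, (xx i k' * ((xx i 1 - 1) * (xx i 1 + 1) ^ e))) *
        Matrix.det (Matrix.of fun i j => (pA (1 - e) (R N) (l j)).eval (yR N i)) := by
  unfold alt
  rw [mul_assoc, ← Matrix.det_mul_column]
  congr 3
  ext1 i
  ext1 j
  simp only [Matrix.of_apply]
  have h1 : (mon (0, Pi.single i ((l j : ℤ) + k' + 1 + e)) : R N) =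
      xx i k' * xx i 1 ^ (l j + 1 + e) := by
    rw [← xx_natCast, ← xx_add, xx]
    congr 3
    push_cast
    ring
  have h2 : (mon (0, Pi.single i (2 * k' + e + 1 - ((l j : ℤ) + k' + 1 + e))) : R N) =
      xx i k' * xx i (-1) ^ (l j) := by
    rw [← xx_neg_natCast, ← xx_add, xx]
    congr 3
    ring
  rw [h1, h2, ← mul_sub, mul_assoc]
  congr 1
  have h3 := pA_eval_add (xx i 1 : R N) (xx i (-1)) (xx_mul_xx_neg i) (l j)
  rcases Nat.le_one_iff_eq_zero_or_eq_one.1 he with rfl | rfl
  · rw [pow_zero, mul_one, add_zero, h3.1]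
    rfl
  · rw [pow_one]
    exact h3.2

/-- The Weyl denominator. -/
theorem alt_one : ∃ s : ℤˣ, (alt 1 (fun j : Fin N => (N : ℤ) - j) : R N) =
    ((s : ℤ) : R N) * (mon (1, 0) * (∏ i, (xx i 1 - 1)) * VV (yR N)) := by
  refine ⟨Equiv.Perm.sign (Fin.revPerm : Equiv.Perm (Fin N)), ?_⟩
  have h := alt_eq (N := N) 0 (Nat.zero_le 1) 0 (fun j => ((Fin.rev j : Fin N) : ℕ))
  have h1 : (fun j : Fin N => (((Fin.rev j : Fin N) : ℕ) : ℤ) + 0 + 1 + ((0 : ℕ) : ℤ)) =
      fun j : Fin N => (N : ℤ) - j := by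
    funext j
    rw [Fin.val_rev]
    have := j.2
    push_cast [Nat.cast_sub (show (j : ℕ) + 1 ≤ N by omega)]
    ring
  rw [h1] at h
  have h2 : (2 * 0 + ((0 : ℕ) : ℤ) + 1) = 1 := by norm_num
  rw [h2] at h
  rw [h]
  have h3 : (Matrix.of fun i j : Fin N => (pA (1 - ((0 : ℕ) : ℤ)) (R N)
      ((Fin.rev j : Fin N) : ℕ)).eval (yR N i)) =
      (Matrix.of fun i j : Fin N => (pA (1 - ((0 : ℕ) : ℤ)) (R N) j).eval (yR N i)).submatrix id
        Fin.revPerm := by
    ext i j
    rfl
  rw [h3, Matrix.det_permute', ← VV_eq_det]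
  simp only [xx_zero, one_mul, pow_zero, mul_one]
  ring

private theorem mon_ne_zero (w : Wt N) : (mon w : R N) ≠ 0 := by
  rw [mon, Ne, AddMonoidAlgebra.single_eq_zero]
  exact one_ne_zero

theorem yR_injective : Function.Injective (yR N) := by
  intro i j h
  by_contra hij
  have h1 : (yR N i).coeff (0, Pi.single i 1) = (yR N j).coeff (0, Pi.single i 1) := by rw [h]
  have h2 : ∀ (k : Fin N) (a : ℤ) (w : Wt N), (xx k a : R N).coeff w =
      if w = (0, Pi.single k a) then 1 else 0 := by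
    intro k a w
    rw [xx, mon, AddMonoidAlgebra.coeff_single, Finsupp.single_apply]
    simp only [eq_comm]
  rw [yR, yR, AddMonoidAlgebra.coeff_add, AddMonoidAlgebra.coeff_add, Finsupp.add_apply,
    Finsupp.add_apply, h2, h2, h2, h2] at h1
  have h3 : ∀ (k : Fin N) (a : ℤ), (((0 : ℤ), (Pi.single i 1 : Fin N → ℤ)) = (0, Pi.single k a)) ↔
      k = i ∧ a = 1 := by
    intro k a
    constructor
    · intro h4
      have h5 := congrFun (congrArg Prod.snd h4) i
      simp only [Pi.single_eq_same] at h5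
      by_cases hk : k = i
      · subst hk
        simp only [Pi.single_eq_same] at h5
        exact ⟨rfl, h5.symm⟩
      · rw [Pi.single_eq_of_ne (Ne.symm hk)] at h5
        exact absurd h5 one_ne_zero
    · rintro ⟨rfl, rfl⟩
      rfl
  have hji : j ≠ i := fun h => hij h.symm
  simp only [h3, hji, and_true, false_and, if_false] at h1
  norm_num at h1

theorem alt_one_ne_zero : (alt 1 (fun j : Fin N => (N : ℤ) - j) : R N) ≠ 0 := by
  obtain ⟨s, hs⟩ := alt_one (N := N)
  rw [hs]
  refine mul_ne_zero ?_ (mul_ne_zero (mul_ne_zero (mon_ne_zero _) ?_) ?_)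
  · rcases Int.units_eq_one_or s with rfl | rfl <;> simp
  · refine Finset.prod_ne_zero_iff.2 fun i _ h => ?_
    have h1 : (xx i 1 : R N) = mon 0 := sub_eq_zero.1 h
    have h2 := (AddMonoidAlgebra.single_left_inj (one_ne_zero (α := ℤ))).1 h1
    have h3 := congrFun (congrArg Prod.snd h2) i
    simp at h3
  · rw [VV, ← Matrix.det_vandermonde, Matrix.det_vandermonde_ne_zero_iff]
    exact yR_injective

/-- The irreducible characters are `± ν ^ k' * spin ^ e * P_b(y)`. -/
theorem alt_char (e : ℕ) (he : e ≤ 1) (k' : ℤ) {c : ℕ} (D : Fin c ⊕ Fin N ≃ Fin (c + N)) :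
    ∃ s : ℤˣ, alt (2 * k' + e + 1) (fun j : Fin N => ((D (Sum.inr j) : ℕ) : ℤ) + k' + 1 + e) =
      ((s : ℤ) : R N) * (mon (k' • nuW N) * spR N ^ e *
        KL (1 - e) (yR N) (fun j => (D (Sum.inl j) : ℕ))) *
        alt 1 (fun j : Fin N => (N : ℤ) - j) := by
  obtain ⟨s, hs⟩ := alt_one (N := N)
  obtain ⟨t, ht⟩ := key (1 - (e : ℤ)) D
  refine ⟨s * t, ?_⟩
  rw [alt_eq e he k' fun j => (D (Sum.inr j) : ℕ), hs]
  have h1 := ht (R N) (yR N)
  have h2 : (mon (2 * k' + e + 1, 0) : R N) * (∏ i, (xx i k' * ((xx i 1 - 1) *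
      (xx i 1 + 1) ^ e))) = mon (k' • nuW N) * spR N ^ e *
      (mon (1, 0) * ∏ i, (xx i 1 - 1)) := by
    have h3 : (mon (k' • nuW N) : R N) = mon (2 * k', 0) * ∏ i, xx i k' := by
      have h4 : ∀ s : Finset (Fin N), (∏ i ∈ s, xx i k' : R N) =
          mon (0, ∑ i ∈ s, Pi.single i k') := by
        intro s
        induction s using Finset.induction_on with
        | empty => rfl
        | insert i s hi ih =>
          rw [Finset.prod_insert hi, Finset.sum_insert hi, ih, xx, mon_mul, Prod.mk_add_mk,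
            add_zero]
      rw [h4, mon_mul, Prod.mk_add_mk, add_zero, zero_add]
      congr 1
      refine Prod.ext ?_ ?_
      · simp [nuW, mul_comm]
      · rw [Finset.univ_sum_single]
        funext i
        simp [nuW]
    have h5 : (spR N : R N) = mon (1, 0) * ∏ i, (xx i 1 + 1) := by
      rw [spR]
      congr 1
      refine Finset.prod_congr rfl fun i _ => ?_
      rw [add_comm]
      rfl
    have h6 : (mon (2 * k' + e + 1, 0) : R N) = mon (2 * k', 0) * mon (1, 0) ^ e * mon (1, 0) := by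
      rw [← mon_nsmul, mon_mul, mon_mul]
      congr 1
      refine Prod.ext ?_ ?_ <;> simp
    rw [h3, h5, h6, Finset.prod_mul_distrib, Finset.prod_mul_distrib, Finset.prod_pow, mul_pow]
    ring
  rw [h2]
  have hs2 : ((s : ℤ) : R N) * ((s : ℤ) : R N) = 1 := by
    rw [← Int.cast_mul, ← Units.val_mul, Int.units_mul_self, Units.val_one, Int.cast_one]
  have ht2 : ((t : ℤ) : R N) * ((t : ℤ) : R N) = 1 := by
    rw [← Int.cast_mul, ← Units.val_mul, Int.units_mul_self, Units.val_one, Int.cast_one]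
  have h7 : Matrix.det (Matrix.of fun k j : Fin N => (pA (1 - (e : ℤ)) (R N)
      (D (Sum.inr j) : ℕ)).eval (yR N k)) = ((t : ℤ) : R N) *
      (KL (1 - (e : ℤ)) (yR N) (fun j => (D (Sum.inl j) : ℕ)) * VV (yR N)) := by
    rw [h1, ← mul_assoc, ht2, one_mul]
  rw [h7, Units.val_mul, Int.cast_mul]
  linear_combination (-((t : ℤ) : R N) * (mon (k' • nuW N) * spR N ^ e *
    KL (1 - (e : ℤ)) (yR N) (fun j => (D (Sum.inl j) : ℕ))) * (mon (1, 0) *
    (∏ i, (xx i 1 - 1)) * VV (yR N))) * hs2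

end

end Pool.Agent.EEA520
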