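import Pool.Agent.W_eea520_h66.EvalB

/-! The beta numbers of a dominant weight. -/

set_option autoImplicit false

namespace Pool.Agent.EEA520

/-- The beta numbers `l_j` of a dominant weight and the complement `b` of them in
`{0, …, c + N - 1}`. If the value `v` occurs more than `2 n` times, the `l_j` contain
`s, …, s + 2 n`; if `v > k'` and `e = 0`, some `b` is smaller than `s`. -/
theorem comb {N : ℕ} (k' : ℤ) (e : ℕ) (he : e ≤ 1) (μ : Fin N → ℤ) (hμ : Antitone μ)
    (hd : ∀ i, 2 * k' + e ≤ 2 * μ i) (c : ℕ) (hc : ∀ i, μ i ≤ c + k' + e) (v : ℤ) (n : ℕ)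
    (hr : 2 * n + 1 ≤ (Finset.univ.filter fun i => μ i = v).card) :
    ∃ (D : Fin c ⊕ Fin N ≃ Fin (c + N)) (s : ℕ),
      (∀ j : Fin N, ((D (Sum.inr j) : ℕ) : ℤ) + k' + 1 + e = μ j + ((N : ℤ) - j)) ∧
      s + 2 * n ≤ c + N ∧
      (∀ i : Fin c, (D (Sum.inl i) : ℕ) < s ∨ s + 2 * n ≤ (D (Sum.inl i) : ℕ)) ∧
      (e = 0 → k' < v → ∃ i : Fin c, (D (Sum.inl i) : ℕ) < s) := by
  obtain ⟨I, hI⟩ : ∃ I : Finset (Fin N), I = Finset.univ.filter fun i => μ i = v := ⟨_, rfl⟩
  rw [← hI] at hr
  have hmem : ∀ i, i ∈ I ↔ μ i = v := by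
    intro i
    rw [hI]
    simp
  have hne : I.Nonempty := Finset.card_pos.1 (by omega)
  obtain ⟨i1, hi1⟩ : ∃ i, i = I.max' hne := ⟨_, rfl⟩
  obtain ⟨i0, hi0⟩ : ∃ i, i = I.min' hne := ⟨_, rfl⟩
  have h1m : μ i1 = v := (hmem i1).1 (by rw [hi1]; exact I.max'_mem hne)
  have h0m : μ i0 = v := (hmem i0).1 (by rw [hi0]; exact I.min'_mem hne)
  have hcard : I.card ≤ (i1 : ℕ) - i0 + 1 := by
    have h1 : I ⊆ Finset.Icc i0 i1 := by
      intro i hi
      rw [Finset.mem_Icc, hi0, hi1]
      exact ⟨I.min'_le i hi, I.le_max' i hi⟩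
    have h2 := Finset.card_le_card h1
    rw [Fin.card_Icc] at h2
    omega
  have h01 : (i0 : ℕ) ≤ i1 := by
    rw [hi0, hi1]
    exact I.min'_le _ (I.max'_mem hne)
  have hN : 0 < N := lt_of_le_of_lt (Nat.zero_le _) i1.2
  -- the beta numbers
  obtain ⟨l, hl⟩ : ∃ l : Fin N → ℕ, ∀ j, ((l j : ℕ) : ℤ) + k' + 1 + e = μ j + ((N : ℤ) - j) := by
    refine ⟨fun j => (μ j + ((N : ℤ) - j) - k' - 1 - e).toNat, fun j => ?_⟩
    have h1 := hd j
    have h2 := j.2
    have h3 : 0 ≤ μ j + ((N : ℤ) - j) - k' - 1 - e := by omega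
    rw [Int.toNat_of_nonneg h3]
    ring
  have hanti : ∀ i j : Fin N, i < j → l j < l i := by
    intro i j hij
    have h1 := hl i
    have h2 := hl j
    have h3 := hμ hij.le
    have h4 : (i : ℕ) < j := hij
    omega
  have hinj : Function.Injective l := by
    intro i j h
    rcases lt_trichotomy i j with h1 | h1 | h1
    · exact absurd h (hanti i j h1).ne'
    · exact h1
    · exact absurd h (hanti j i h1).ne
  have hle : ∀ j, l j < c + N := by
    intro j
    have h1 := hl j
    have h2 := hc j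
    have h3 := j.2
    omega
  obtain ⟨D, hD⟩ := exists_equiv (c := c) l hinj hle
  have hblock : ∀ t ≤ 2 * n, ∃ j, l j = l i1 + t := by
    intro t ht
    have h1 : (i0 : ℕ) ≤ i1 - t := by omega
    have h2 : t ≤ (i1 : ℕ) := by omega
    refine ⟨⟨i1 - t, by omega⟩, ?_⟩
    have h3 : μ ⟨i1 - t, by omega⟩ ≤ μ i0 := hμ (by rw [Fin.le_def]; exact h1)
    have h4 : μ i1 ≤ μ ⟨i1 - t, by omega⟩ := hμ (by rw [Fin.le_def]; simp)
    have h5 := hl ⟨i1 - t, by omega⟩
    have h6 := hl i1
    simp only at h5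
    push_cast [Nat.cast_sub h2] at h5
    omega
  refine ⟨D, l i1, fun j => by rw [hD]; exact hl j, ?_, fun i => ?_, fun h0 hv => ?_⟩
  · obtain ⟨j, hj⟩ := hblock (2 * n) le_rfl
    have := hle j
    omega
  · by_contra hc
    push Not at hc
    obtain ⟨j, hj⟩ := hblock ((D (Sum.inl i) : ℕ) - l i1) (by omega)
    have h1 : D (Sum.inr j) = D (Sum.inl i) := Fin.ext (by rw [hD, hj]; omega)
    exact Sum.inr_ne_inl (D.injective h1)
  · by_contra hc
    push Not at hc
    have h1 : Finset.range (l i1) ⊆ (Finset.Ioi i1).image l := by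
      intro x hx
      have hx' := Finset.mem_range.1 hx
      have hxl : x < c + N := by
        have := hle i1
        omega
      obtain ⟨w, hw⟩ := D.surjective ⟨x, hxl⟩
      rcases w with i | j
      · have h2 := hc i
        rw [hw] at h2
        simp only at h2
        omega
      · have h2 := hD j
        rw [hw] at h2
        simp only at h2
        refine Finset.mem_image.2 ⟨j, ?_, h2.symm⟩
        rw [Finset.mem_Ioi]
        by_contra h3
        have h3' : j ≤ i1 := not_lt.1 h3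
        rcases eq_or_lt_of_le h3' with h4 | h4
        · rw [h4] at h2
          omega
        · have := hanti j i1 h4
          omega
    have h2 := (Finset.card_le_card h1).trans Finset.card_image_le
    rw [Finset.card_range, Fin.card_Ioi] at h2
    have h3 := hl i1
    rw [h1m] at h3
    have h4 := i1.2
    omega

/-- One more coordinate. -/
theorem extendD {c N : ℕ} (D' : Fin c ⊕ Fin N ≃ Fin (c + N)) :
    ∃ D : Fin c ⊕ Fin (N + 1) ≃ Fin (c + (N + 1)),
      (∀ i, (D (Sum.inl i) : ℕ) = D' (Sum.inl i)) ∧ (D (Sum.inr 0) : ℕ) = c + N ∧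
        ∀ j : Fin N, (D (Sum.inr j.succ) : ℕ) = D' (Sum.inr j) := by
  obtain ⟨f, hf⟩ : ∃ f : Fin c ⊕ Fin (N + 1) → Fin (c + (N + 1)), f = Sum.elim
      (fun i => (D' (Sum.inl i)).castSucc)
      (Fin.cases (Fin.last (c + N)) fun j => (D' (Sum.inr j)).castSucc) := ⟨_, rfl⟩
  have h1 : ∀ i, (f (Sum.inl i) : ℕ) = D' (Sum.inl i) := fun i => by rw [hf]; rfl
  have h2 : (f (Sum.inr 0) : ℕ) = c + N := by rw [hf]; rfl
  have h3 : ∀ j : Fin N, (f (Sum.inr j.succ) : ℕ) = D' (Sum.inr j) := fun j => by rw [hf]; rfl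
  have hinj : Function.Injective f := by
    intro x y hxy
    have hxy' := congrArg Fin.val hxy
    rcases x with i | j <;> rcases y with i' | j'
    · rw [h1, h1] at hxy'
      rw [Sum.inl_injective (D'.injective (Fin.ext hxy'))]
    · refine Fin.cases (fun hxy' => ?_) (fun j' hxy' => ?_) j' hxy'
      · rw [h1, h2] at hxy'
        have := (D' (Sum.inl i)).2
        omega
      · rw [h1, h3] at hxy'
        exact absurd (D'.injective (Fin.ext hxy')) Sum.inl_ne_inr
    · refine Fin.cases (fun hxy' => ?_) (fun j hxy' => ?_) j hxy'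
      · rw [h1, h2] at hxy'
        have := (D' (Sum.inl i')).2
        omega
      · rw [h1, h3] at hxy'
        exact absurd (D'.injective (Fin.ext hxy')) Sum.inr_ne_inl
    · congr 1
      refine Fin.cases (fun hxy' => ?_) (fun j hxy' => ?_) j hxy'
      · refine Fin.cases (fun _ => rfl) (fun j' hxy' => ?_) j' hxy'
        rw [h2, h3] at hxy'
        have := (D' (Sum.inr j')).2
        omega
      · refine Fin.cases (fun hxy' => ?_) (fun j' hxy' => ?_) j' hxy'
        · rw [h2, h3] at hxy'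
          have := (D' (Sum.inr j)).2
          omega
        · rw [h3, h3] at hxy'
          rw [Sum.inr_injective (D'.injective (Fin.ext hxy'))]
  have hbij : Function.Bijective f := (Fintype.bijective_iff_injective_and_card f).2
    ⟨hinj, by simp⟩
  exact ⟨Equiv.ofBijective f hbij, h1, h2, h3⟩

end Pool.Agent.EEA520
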