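import Pool.Agent.W_eea520_h66.Skew

/-! The beta numbers of a dominant weight with a block of equal coordinates. -/

set_option autoImplicit false

namespace Pool.Agent.EEA520

/-- The small and the large values of an injective function. -/
theorem exists_split {c' : ℕ} (b : Fin c' → ℕ) (hb : Function.Injective b) (s : ℕ) :
    ∃ (c₁ c₂ : ℕ) (φ : Fin c₁ ⊕ Fin c₂ ≃ Fin c'),
      c₁ = (Finset.univ.filter fun i => b i < s).card ∧ StrictAnti (fun i => b (φ (Sum.inl i))) ∧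
      (∀ i, b (φ (Sum.inl i)) < s) ∧ ∀ i, s ≤ b (φ (Sum.inr i)) := by
  classical
  obtain ⟨c₁, hc₁⟩ : ∃ c₁, c₁ = Fintype.card {i : Fin c' // b i < s} := ⟨_, rfl⟩
  obtain ⟨c₂, hc₂⟩ : ∃ c₂, c₂ = Fintype.card {i : Fin c' // ¬ b i < s} := ⟨_, rfl⟩
  have e₁ : Fin c₁ ≃ {i : Fin c' // b i < s} := (Fintype.equivFinOfCardEq hc₁.symm).symm
  have e₂ : Fin c₂ ≃ {i : Fin c' // ¬ b i < s} := (Fintype.equivFinOfCardEq hc₂.symm).symm
  obtain ⟨τ, hτ, -⟩ := exists_sort (fun i => b (e₁ i)) fun i j hij =>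
    e₁.injective (Subtype.ext (hb hij))
  refine ⟨c₁, c₂, (Equiv.sumCongr (τ.trans e₁) e₂).trans (Equiv.sumCompl fun i => b i < s), ?_,
    ?_, ?_, ?_⟩
  · rw [hc₁, Fintype.card_subtype]
  · intro i j hij
    exact hτ hij
  · intro i
    exact (e₁ (τ i)).2
  · intro i
    exact not_lt.1 (e₂ i).2

theorem strictAnti_bound {c : ℕ} (f : Fin c → ℕ) (hf : StrictAnti f) (i : Fin c) :
    c - 1 - (i : ℕ) ≤ f i ∧ ∀ M, (∀ j, f j < M) → f i + (i : ℕ) < M := by
  constructor
  · obtain ⟨k, hk⟩ : ∃ k, k = c - 1 - (i : ℕ) := ⟨_, rfl⟩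
    rw [← hk]
    induction k generalizing i with
    | zero => exact Nat.zero_le _
    | succ k ih =>
      have h1 : (i : ℕ) + 1 < c := by omega
      have h2 := ih ⟨i + 1, h1⟩ (by simp only; omega)
      have h3 : f ⟨i + 1, h1⟩ < f i := hf (by rw [Fin.lt_def]; simp)
      omega
  · intro M hM
    obtain ⟨k, hk⟩ : ∃ k, k = (i : ℕ) := ⟨_, rfl⟩
    rw [← hk]
    induction k generalizing i with
    | zero =>
      rw [add_zero]
      exact hM i
    | succ k ih =>
      have h1 : (i : ℕ) - 1 < c := by omega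
      have h2 := ih ⟨i - 1, h1⟩ (by simp only; omega)
      have h3 : f i < f ⟨i - 1, h1⟩ := hf (by rw [Fin.lt_def]; simp only; omega)
      omega

/-- The beta numbers of a dominant weight, where the value `c₁ + k' + e` occurs at least `2 n`
times. -/
theorem combB {N : ℕ} (k' : ℤ) (e : ℕ) (he : e ≤ 1) (μ : Fin N → ℤ) (hμ : Antitone μ)
    (hd : ∀ i, 2 * k' + e ≤ 2 * μ i) (c' : ℕ) (hc : ∀ i, μ i ≤ c' + k' + e) (c₁ n : ℕ)
    (hn : 0 < n) (hr : 2 * n ≤ (Finset.univ.filter fun i => μ i = c₁ + k' + e).card) :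
    ∃ (D : Fin c' ⊕ Fin N ≃ Fin (c' + N)) (s c₂ q₁ : ℕ) (φ : Fin c₁ ⊕ Fin c₂ ≃ Fin c')
      (E₁ : Fin q₁ ⊕ Fin c₁ ≃ Fin (q₁ + c₁)),
      (∀ j : Fin N, ((D (Sum.inr j) : ℕ) : ℤ) + k' + 1 + e = μ j + ((N : ℤ) - j)) ∧
      s + 2 * n ≤ c' + N ∧ q₁ + c₁ = s ∧
      (∀ i, (D (Sum.inl (φ (Sum.inl i))) : ℕ) < s) ∧
      (∀ i, s + 2 * n ≤ (D (Sum.inl (φ (Sum.inr i))) : ℕ)) ∧
      (∀ j, (E₁ (Sum.inr j) : ℕ) = D (Sum.inl (φ (Sum.inl j)))) ∧
      StrictAnti fun j => (E₁ (Sum.inr j) : ℕ) := by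
  classical
  obtain ⟨I, hI⟩ : ∃ I : Finset (Fin N), I = Finset.univ.filter fun i => μ i = c₁ + k' + e :=
    ⟨_, rfl⟩
  rw [← hI] at hr
  have hmem : ∀ i, i ∈ I ↔ μ i = c₁ + k' + e := by
    intro i
    rw [hI]
    simp
  have hne : I.Nonempty := Finset.card_pos.1 (by omega)
  obtain ⟨i1, hi1⟩ : ∃ i, i = I.max' hne := ⟨_, rfl⟩
  obtain ⟨i0, hi0⟩ : ∃ i, i = I.min' hne := ⟨_, rfl⟩
  have h1m : μ i1 = c₁ + k' + e := (hmem i1).1 (by rw [hi1]; exact I.max'_mem hne)
  have h0m : μ i0 = c₁ + k' + e := (hmem i0).1 (by rw [hi0]; exact I.min'_mem hne)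
  have hcard : I.card ≤ (i1 : ℕ) - i0 + 1 := by
    have h1 : I ⊆ Finset.Icc i0 i1 := by
      intro i hi
      rw [Finset.mem_Icc, hi0, hi1]
      exact ⟨I.min'_le i hi, I.le_max' i hi⟩
    have h2 := Finset.card_le_card h1
    rw [Fin.card_Icc] at h2
    omega
  have h01 : (i0 : ℕ) ≤ i1 := by
    rw [hi0, hi1]
    exact I.min'_le _ (I.max'_mem hne)
  obtain ⟨D, hD⟩ := exists_beta k' e μ hμ hd he c' hc
  obtain ⟨l, hl⟩ : ∃ l : Fin N → ℕ, l = fun j => (D (Sum.inr j) : ℕ) := ⟨_, rfl⟩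
  have hlD : ∀ j, (D (Sum.inr j) : ℕ) = l j := fun j => by rw [hl]
  have hleq : ∀ j, ((l j : ℕ) : ℤ) + k' + 1 + e = μ j + ((N : ℤ) - j) := fun j => by
    rw [← hlD]
    exact hD j
  have hanti : ∀ i j : Fin N, i < j → l j < l i := by
    intro i j hij
    have h1 := hleq i
    have h2 := hleq j
    have h3 := hμ hij.le
    have h4 : (i : ℕ) < j := hij
    omega
  have hle : ∀ j, l j < c' + N := fun j => by
    rw [← hlD]
    exact (D (Sum.inr j)).2
  have hblock : ∀ t < 2 * n, ∃ j, l j = l i1 + t := by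
    intro t ht
    have h1 : (i0 : ℕ) ≤ i1 - t := by omega
    have h2 : t ≤ (i1 : ℕ) := by omega
    refine ⟨⟨i1 - t, by omega⟩, ?_⟩
    have h3 : μ ⟨i1 - t, by omega⟩ ≤ μ i0 := hμ (by rw [Fin.le_def]; exact h1)
    have h4 : μ i1 ≤ μ ⟨i1 - t, by omega⟩ := hμ (by rw [Fin.le_def]; simp)
    have h5 := hleq ⟨i1 - t, by omega⟩
    have h6 := hleq i1
    simp only at h5
    push_cast [Nat.cast_sub h2] at h5
    omega
  obtain ⟨b, hb⟩ : ∃ b : Fin c' → ℕ, b = fun i => (D (Sum.inl i) : ℕ) := ⟨_, rfl⟩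
  have hbD : ∀ i, (D (Sum.inl i) : ℕ) = b i := fun i => by rw [hb]
  have hbinj : Function.Injective b := fun i j hij =>
    Sum.inl_injective (D.injective (Fin.ext (by rw [hbD, hbD, hij])))
  obtain ⟨c₁', c₂, φ, h1, h2, h3, h4⟩ := exists_split b hbinj (l i1)
  -- the number of the small ones
  have hc₁ : c₁' = c₁ := by
    have h5 : (Finset.univ.filter fun x : Fin (c' + N) => (x : ℕ) < l i1).card = l i1 := by
      have h6 : (Finset.univ.filter fun x : Fin (c' + N) => (x : ℕ) < l i1) =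
          Finset.Iio (⟨l i1, hle i1⟩ : Fin (c' + N)) := by
        ext x
        simp [Fin.lt_def]
      rw [h6, Fin.card_Iio]
    have h6 : (Finset.univ.filter fun x : Fin (c' + N) => (x : ℕ) < l i1).card =
        (Finset.univ.filter fun w : Fin c' ⊕ Fin N => (D w : ℕ) < l i1).card := by
      refine (Finset.card_bij (fun w _ => D w) ?_ ?_ ?_).symm
      · intro w hw
        exact Finset.mem_filter.2 ⟨Finset.mem_univ _, (Finset.mem_filter.1 hw).2⟩
      · intro w _ w' _ h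
        exact D.injective h
      · intro x hx
        obtain ⟨w, rfl⟩ := D.surjective x
        exact ⟨w, Finset.mem_filter.2 ⟨Finset.mem_univ _, (Finset.mem_filter.1 hx).2⟩, rfl⟩
    have h7 : (Finset.univ.filter fun w : Fin c' ⊕ Fin N => (D w : ℕ) < l i1).card =
        (Finset.univ.filter fun i => b i < l i1).card +
          (Finset.univ.filter fun j => l j < l i1).card := by
      rw [Finset.card_filter, Finset.card_filter, Finset.card_filter, Fintype.sum_sum_type]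
      simp only [hbD, hlD]
    have h8 : (Finset.univ.filter fun j => l j < l i1) = Finset.Ioi i1 := by
      ext j
      simp only [Finset.mem_filter, Finset.mem_univ, true_and, Finset.mem_Ioi]
      constructor
      · intro h9
        by_contra h10
        rcases eq_or_lt_of_le (not_lt.1 h10) with h11 | h11
        · rw [h11] at h9
          exact lt_irrefl _ h9
        · have := hanti j i1 h11
          omega
      · intro h9
        exact hanti i1 j h9
    rw [h8, Fin.card_Ioi] at h7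
    have h9 := hleq i1
    rw [h1m] at h9
    have h10 := i1.2
    omega
  subst hc₁
  have hlt : ∀ i, b (φ (Sum.inl i)) < l i1 := h3
  have hc₁s : c₁' ≤ l i1 := by
    rcases Nat.eq_zero_or_pos c₁' with h0 | h0
    · omega
    · have h5 := (strictAnti_bound _ h2 ⟨0, h0⟩).1
      have h6 := hlt ⟨0, h0⟩
      simp only at h5
      omega
  obtain ⟨q₁, hq₁⟩ : ∃ q₁, q₁ + c₁' = l i1 := ⟨l i1 - c₁', by omega⟩
  obtain ⟨E₁, hE₁⟩ := exists_equiv (c := q₁) (fun j => b (φ (Sum.inl j)))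
    (fun i j hij => Sum.inl_injective (φ.injective (hbinj hij))) (fun j => by
      rw [hq₁]
      exact hlt j)
  refine ⟨D, l i1, c₂, q₁, φ, E₁, hD, ?_, hq₁, fun i => ?_, fun i => ?_, fun j => ?_, ?_⟩
  · obtain ⟨j, hj⟩ := hblock (2 * n - 1) (by omega)
    have := hle j
    omega
  · rw [hbD]
    exact hlt i
  · rw [hbD]
    by_contra hc
    push Not at hc
    have h5 := h4 i
    obtain ⟨j, hj⟩ := hblock (b (φ (Sum.inr i)) - l i1) (by omega)
    have h6 : D (Sum.inr j) = D (Sum.inl (φ (Sum.inr i))) := Fin.ext (by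
      rw [hlD, hbD, hj]
      omega)
    exact Sum.inr_ne_inl (D.injective h6)
  · rw [hbD, hE₁]
  · intro i j hij
    simp only [hE₁]
    exact h2 hij

end Pool.Agent.EEA520
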