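import Pool.Agent.W_eea520_h66.Extract
import Pool.Agent.W_eea520_h69.UFamA
import Pool.Agent.W_eea520_h66.HalfU

/-! Complex families of induced representations. -/

set_option autoImplicit false

namespace Pool.Agent.EEA520

open Filter

variable {S : (k : ℕ) → Set (GLSys k)} {P : (n : ℕ) → Set (GSys n)}

/-- The families of systems, with complex parameters. -/
inductive CFam (S : (k : ℕ) → Set (GLSys k)) (P : (n : ℕ) → Set (GSys n)) :
    (L n : ℕ) → ((Fin L → ℂ) → GSys n) → Prop
  | base {n : ℕ} {π : GSys n} : π ∈ P n → CFam S P 0 n fun _ => π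
  | ind {L n k : ℕ} {F : (Fin L → ℂ) → GSys n} {σ : GLSys k} : 0 < k → CFam S P L n F → σ ∈ S k →
      CFam S P (L + 1) (n + k) fun z => induce (F fun j => z j.castSucc) σ (z (Fin.last L))

/-- The linear form. -/
noncomputable def prC {L : ℕ} (a : Fin L → ℤ) (z : Fin L → ℂ) : ℂ := ∑ j, (a j : ℂ) * z j

/-- The unitary point. -/
noncomputable def uI {L : ℕ} (t : Fin L → ℝ) : Fin L → ℂ := fun j => (t j : ℂ) * Complex.I

theorem prC_uI {L : ℕ} (a : Fin L → ℤ) (t : Fin L → ℝ) : prC a (uI t) = pr a t * Complex.I := by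
  unfold prC uI pr
  push_cast
  rw [Finset.sum_mul]
  exact Finset.sum_congr rfl fun j _ => by ring

theorem prC_snoc {L : ℕ} (a : Fin L → ℤ) (j : ℤ) (z : Fin (L + 1) → ℂ) :
    prC (Fin.snoc (α := fun _ => ℤ) a j) z = prC a (fun i => z i.castSucc) +
      j * z (Fin.last L) := by
  unfold prC
  rw [Fin.sum_univ_castSucc]
  simp only [Fin.snoc_castSucc, Fin.snoc_last]

theorem CFam.ufam {L n : ℕ} {F : (Fin L → ℂ) → GSys n} (h : CFam S P L n F) :
    UFam S P L n fun t => F (uI t) := by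
  induction h with
  | base hπ => exact UFam.base hπ
  | ind hk _ hσ ih => exact UFam.ind hk ih hσ

theorem CFam.eis {L n : ℕ} {F : (Fin L → ℂ) → GSys n} (h : CFam S P L n F) :
    ∀ z, Eis S P n (F z) := by
  induction h with
  | base hπ => exact fun _ => Eis.base hπ
  | ind _ _ hσ ih => exact fun z => Eis.ind _ (ih _) hσ

/-- The exponents of a family. -/
theorem CFam.ev {L n : ℕ} {F : (Fin L → ℂ) → GSys n} (h : CFam S P L n F) :
    ∃ d : Wt n → Fin L → ℤ, ∀ z p w,
      (F z p).ev w = ppow p (prC (d w) z) * (F 0 p).ev w := by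
  induction h with
  | @base n π hπ =>
    refine ⟨fun _ => 0, fun z p w => ?_⟩
    have h1 : prC (0 : Fin 0 → ℤ) z = 0 := by
      unfold prC
      simp
    rw [h1, ppow_zero, one_mul]
  | @ind L n k F σ _ _ _ ih =>
    obtain ⟨d, hd⟩ := ih
    refine ⟨fun w => Fin.snoc (α := fun _ => ℤ) (d (w.1, fun i => w.2 (Fin.castAdd k i))) (degL w),
      fun z p w => ?_⟩
    have h0 : (fun j : Fin L => (0 : Fin (L + 1) → ℂ) j.castSucc) = 0 := rfl
    rw [ev_induce', ev_induce', hd, prC_snoc, h0]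
    simp only [Pi.zero_apply, mul_zero, ppow_zero, mul_one]
    rw [ppow_add]
    simp only [mul_assoc, mul_comm]

/-- Characters of the members of a family. -/
theorem CFam.Phi {L n : ℕ} {F : (Fin L → ℂ) → GSys n} (h : CFam S P L n F) (m : Wt n →₀ ℤ) :
    ∃ (A : Finset (Fin L → ℤ)) (M : (Fin L → ℤ) → Wt n →₀ ℤ), ∀ z,
      Phi (F z) (AddMonoidAlgebra.ofCoeff m) = ∑ a ∈ A, tw (prC a z) *
        EEA520.Phi (F 0) (AddMonoidAlgebra.ofCoeff (M a)) := by
  classical
  obtain ⟨d, hd⟩ := h.ev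
  refine ⟨m.support.image d, fun a => m.filter fun w => d w = a, fun z => ?_⟩
  funext p
  rw [FinalA_Phi, Finset.sum_apply, Finsupp.sum]
  have h1 : ∀ a : Fin L → ℤ, (tw (prC a z) *
      EEA520.Phi (F 0) (AddMonoidAlgebra.ofCoeff (m.filter fun w => d w = a))) p
      = ∑ w ∈ m.support with d w = a, m w • el ((F z p).ev w) := by
    intro a
    rw [Pi.mul_apply, FinalA_Phi, Finsupp.sum, Finsupp.support_filter, Finset.mul_sum]
    refine Finset.sum_congr rfl fun w hw => ?_
    have hw' : d w = a := (Finset.mem_filter.1 hw).2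
    have h2 : (m.filter fun w => d w = a) w = m w := by
      rw [Finsupp.filter_apply, if_pos hw']
    rw [h2, hd z p w, hw', mul_smul_comm]
    congr 1
    show el _ * el _ = el _
    unfold el
    rw [← map_mul]
  rw [Finset.sum_congr rfl fun a _ => h1 a]
  rw [Finset.sum_fiberwise_of_maps_to (t := m.support.image d)
    (fun w hw => Finset.mem_image_of_mem _ hw)]

/-- From sets of unitary members which are not small to all members. -/
theorem CFam.cont_all (hSP : IsCuspidal S P) {L n : ℕ} {F : (Fin L → ℂ) → GSys n}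
    (h : CFam S P L n F) (f : R n)
    (hs : ∀ c : ℝ, ¬ Small {t | ContTo c (EEA520.Phi (F (uI t)) f)}) (z : Fin L → ℂ) :
    Cont (EEA520.Phi (F z) f) := by
  obtain ⟨A, M, hM⟩ := h.Phi f.coeff
  have hM' : ∀ z, EEA520.Phi (F z) f = ∑ a ∈ A, tw (prC a z) *
      EEA520.Phi (F 0) (AddMonoidAlgebra.ofCoeff (M a)) := hM
  simp only [hM', prC_uI] at hs
  have h1 := cont_of_not_small_half A
    (fun a => EEA520.Phi (F 0) (AddMonoidAlgebra.ofCoeff (M a)))
    (fun a _ => Phi_mem ((h.eis 0).bdd hSP) _) hs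
  rw [hM']
  exact Cont.sum66 A _ fun a ha => (h1 a ha).tw _

/-- The central characters of the members of a family. -/
theorem CFam.central (hSP : IsCuspidal S P) {L n : ℕ} {F : (Fin L → ℂ) → GSys n}
    (h : CFam S P L n F) : ∃ χ ∈ S 1, ∃ κ : Fin L → ℤ, ∀ᶠ p in cofinite, ∀ z,
      (F z p).nu = χ p 0 * ppow p (prC κ z) := by
  induction h with
  | @base n π hπ =>
    obtain ⟨χ, hχ, he⟩ := hSP.nu _ _ hπ
    refine ⟨χ, hχ, 0, ?_⟩
    filter_upwards [he] with p hp z
    have h1 : prC (0 : Fin 0 → ℤ) z = 0 := by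
      unfold prC
      simp
    rw [hp, h1, ppow_zero, mul_one]
  | @ind L n k F σ _ _ hσ ih =>
    obtain ⟨χ, hχ, κ, he⟩ := ih
    obtain ⟨χ', hχ', he'⟩ := hSP.det k σ hσ
    obtain ⟨χ'', hχ'', he''⟩ := hSP.mul χ hχ χ' hχ'
    refine ⟨χ'', hχ'', Fin.snoc (α := fun _ => ℤ) κ (k : ℤ), ?_⟩
    filter_upwards [he, he', he''] with p h1 h2 h3 z
    rw [nu_induce, h1, ← h2, h3, prC_snoc, Int.cast_natCast, ppow_add]
    simp only [mul_assoc, mul_comm, mul_left_comm]

/-- Every member of `Eis` is, up to a twist and at almost all primes, a member of a family. -/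
theorem Eis.cfam {n : ℕ} {π : GSys n} (h : Eis S P n π) :
    ∃ (L : ℕ) (F : (Fin L → ℂ) → GSys n) (z : Fin L → ℂ) (w : ℂ), CFam S P L n F ∧
      ∀ᶠ p in cofinite, π p = twist (F z) w p := by
  induction h with
  | @base n π hπ =>
    refine ⟨0, fun _ => π, 0, 0, CFam.base hπ, Eventually.of_forall fun p => ?_⟩
    unfold twist
    rw [ppow_zero, mul_one]
  | @ind n k π σ z _ hσ ih =>
    obtain ⟨L, F, z', w, hF, he⟩ := ih
    rcases Nat.eq_zero_or_pos k with rfl | hk
    · refine ⟨L, F, z', w, hF, ?_⟩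
      filter_upwards [he] with p hp
      rw [← hp]
      unfold induce
      have h1 : Fin.append (π p).x (fun i => σ p i * ppow p z) = (π p).x := by
        funext i
        exact Fin.append_left (m := n) (n := 0) _ _ i
      rw [h1]
      rfl
    · refine ⟨L + 1, _, Fin.snoc (α := fun _ => ℂ) z' z, w, CFam.ind hk hF hσ, ?_⟩
      filter_upwards [he] with p hp
      simp only [Fin.snoc_castSucc, Fin.snoc_last]
      unfold induce
      rw [hp]
      rfl
  | @tw n π w' _ ih =>
    obtain ⟨L, F, z', w, hF, he⟩ := ih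
    refine ⟨L, F, z', w + w', hF, ?_⟩
    filter_upwards [he] with p hp
    unfold twist
    rw [hp, ppow_add, ← mul_assoc]
    rfl
  | @congr n π π' _ he' ih =>
    obtain ⟨L, F, z', w, hF, he⟩ := ih
    refine ⟨L, F, z', w, hF, ?_⟩
    filter_upwards [he, he'] with p hp hp'
    rw [← hp', hp]

end Pool.Agent.EEA520
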