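import Pool.Agent.W_eea520_h66.Cx
import Pool.Agent.W_eea520_h69.CSMain

/-! From unitary families to all twists. -/

set_option autoImplicit false

namespace Pool.Agent.EEA520

open Filter

/-- The members of complex families with at least one parameter whose central character is a power of
the absolute value, and their twists. -/
def QU (S : (k : ℕ) → Set (GLSys k)) (P : (n : ℕ) → Set (GSys n)) (n : ℕ) (π : GSys n) : Prop :=
  ∃ (L : ℕ) (F : (Fin L → ℂ) → GSys n) (z : Fin L → ℂ) (w : ℂ), 0 < L ∧ CFam S P L n F ∧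
    (∃ κ : Fin L → ℤ, ∀ᶠ p in cofinite, ∀ z, (F z p).nu = ppow p (prC κ z)) ∧
    ∀ᶠ p in cofinite, π p = twist (F z) w p

variable {S : (k : ℕ) → Set (GLSys k)} {P : (n : ℕ) → Set (GSys n)}

theorem QU.eis {n : ℕ} {π : GSys n} (h : QU S P n π) : Eis S P n π := by
  obtain ⟨L, F, z, w, _, hF, _, he⟩ := h
  exact Eis.congr (Eis.tw w (hF.eis z)) (he.mono fun p hp => hp.symm)

theorem QU.kl (h : IsCuspidal S P) {n : ℕ} {π : GSys n} (hπ : QU S P n π) (z' : ℂ) :
    QU S P (n + 1) (klingen π z') := by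
  obtain ⟨L, F, z, w, hL, hF, ⟨κ, hκ⟩, he⟩ := hπ
  obtain ⟨χ, hχ, h1⟩ := h.one
  refine ⟨L + 1, _, Fin.snoc (α := fun _ => ℂ) z z', w - z' / 2, Nat.succ_pos L,
    CFam.ind Nat.one_pos hF hχ, ⟨Fin.snoc (α := fun _ => ℤ) κ 1, ?_⟩, ?_⟩
  · filter_upwards [hκ, h1] with p h2 h3 z
    rw [nu_induce, h2, Fin.prod_univ_one, h3, mul_one, prC_snoc, ppow_add, Int.cast_one,
      Nat.cast_one]
  · filter_upwards [he, h1] with p h2 h3
    simp only [Fin.snoc_castSucc, Fin.snoc_last]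
    have h4 : (fun i => χ p i * ppow p z') = fun _ => 1 * ppow p z' := by
      funext i
      rw [Subsingleton.elim i 0, h3]
    unfold klingen twist induce
    rw [h2, h4]
    unfold twist
    simp only [Torus.mk.injEq, and_true]
    rw [mul_assoc, ← ppow_add]
    congr 2
    ring

theorem kclosed_QU (h : IsCuspidal S P) : KClosed (QU S P) :=
  ⟨fun hπ => hπ.eis.bdd h, fun B hπ => ⟨((B - 1 : ℝ) : ℂ), by
    rw [Complex.ofReal_re]
    linarith, hπ.kl h _⟩⟩

theorem yD_twist {n : ℕ} (π : GSys n) (w : ℂ) : yD (twist π w) = yD π := rfl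

theorem Phi_SE {n c' : ℕ} (u : ℤ) (e : ℕ) (π : GSys n) (E : MvPolynomial (Fin c') ℤ) :
    Phi π (spR n ^ e * Th u (yR n) E) = spinD π ^ e * Th u (yD π) E := by
  rw [map_mul, map_pow, Phi_spR, Th_map]
  simp only [Phi_yR]

/-- The hypothesis on the unitary families. -/
def UHyp (S : (k : ℕ) → Set (GLSys k)) (P : (n : ℕ) → Set (GSys n)) (N : ℕ) (m : Wt N →₀ ℤ) :
    Prop :=
  ∀ (L : ℕ) (F : (Fin L → ℝ) → GSys N), 0 < L → UFam S P L N F →
    ∀ u : (Fin L → ℝ) → ℝ, (∀ t, TrivialCentral (twist (F t) (u t * Complex.I))) →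
      ∀ c : ℝ, ¬ Small {t | ContinuesTo c (twist (F t) (u t * Complex.I)) m}

theorem QU_hyp (h : IsCuspidal S P) {N : ℕ} (e : ℕ) (he : e ≤ 1) (k' : ℤ)
    (μ : Fin N → ℤ) (m : Wt N →₀ ℤ) (hm : IsIrr (2 * k' + e) μ m) (hyp : UHyp S P N m)
    (c' : ℕ) (D : Fin c' ⊕ Fin N ≃ Fin (c' + N))
    (hD : ∀ j : Fin N, ((D (Sum.inr j) : ℕ) : ℤ) + k' + 1 + e = μ j + ((N : ℤ) - j))
    (π : GSys N) (hπ : QU S P N π) :
    Cont (spinD π ^ e * Th (1 - e) (yD π) (Eb (1 - e) fun j => (D (Sum.inl j) : ℕ))) := by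
  obtain ⟨L, F, z, w, hL, hF, ⟨κ, hκ⟩, hev⟩ := hπ
  have hbdd : ∀ z, Bdd (F z) := fun z => (hF.eis z).bdd h
  have h1 := hyp L _ hL hF.ufam (fun t => -(pr κ t) / 2) (by
    intro t
    show ∀ᶠ p in cofinite, _
    filter_upwards [hκ] with p hp
    rw [nu_twist, hp, ← ppow_add, prC_uI]
    have h6 : (pr κ t : ℂ) * Complex.I + 2 * (((-(pr κ t) / 2 : ℝ) : ℂ) * Complex.I) = 0 := by
      push_cast
      ring
    rw [h6, ppow_zero])
  have h2 : ∀ c : ℝ, ¬ Small {t | ContTo c (Phi (F (uI t)) (spR N ^ e * Th (1 - e) (yR N)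
      (Eb (1 - e) fun j => (D (Sum.inl j) : ℕ))))} := by
    refine fun c hs => h1 c (hs.mono fun t ht => ?_)
    have hb : Bdd (twist (F (uI t)) (((-(pr κ t) / 2 : ℝ) : ℂ) * Complex.I)) :=
      (Eis.tw _ (hF.eis (uI t))).bdd h
    have ht' : ∀ᶠ p in cofinite,
        (twist (F (uI t)) (((-(pr κ t) / 2 : ℝ) : ℂ) * Complex.I) p).nu ^ k' = 1 := by
      filter_upwards [hκ] with p hp
      rw [nu_twist, hp, ← ppow_add, prC_uI]
      have h6 : (pr κ t : ℂ) * Complex.I + 2 * (((-(pr κ t) / 2 : ℝ) : ℂ) * Complex.I) = 0 := by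
        push_cast
        ring
      rw [h6, ppow_zero, one_zpow]
    have h3 := bridge_contTo hb e he k' ht' D μ m hm hD
      (contTo_of_continuesTo hb (AddMonoidAlgebra.ofCoeff m) ht)
    rw [yD_twist, spinD_twist, mul_pow, tw_pow, mul_assoc] at h3
    show ContTo _ _
    rw [Phi_SE]
    have h7 : (e : ℂ) * (((-(pr κ t) / 2 : ℝ) : ℂ) * Complex.I) =
        ((e * (-(pr κ t) / 2) : ℝ) : ℂ) * Complex.I := by
      push_cast
      ring
    rw [h7] at h3
    exact contTo_tw_I _ h3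
  have h3 := hF.cont_all h _ h2 z
  rw [Phi_SE] at h3
  have hb : Bdd (twist (F z) w) := (Eis.tw _ (hF.eis z)).bdd h
  have h4 : Cont (Phi (twist (F z) w) (spR N ^ e * Th (1 - e) (yR N)
      (Eb (1 - e) fun j => (D (Sum.inl j) : ℕ)))) := by
    rw [Phi_SE, yD_twist, spinD_twist, mul_pow, tw_pow, mul_assoc, cont_tw_iff]
    exact h3
  have hπb : Bdd π := (Eis.congr (Eis.tw w (hF.eis z)) (hev.mono fun p hp => hp.symm)).bdd h
  rw [← Phi_SE]
  refine cont_congr (Phi_mem hπb _) ?_ h4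
  filter_upwards [hev] with p hp
  show evT _ _ = evT _ _
  rw [hp]

/-- Padding: the systems `π`, up to finitely many primes and twists, and a character such that the
members of the padded family are in `QU`. -/
theorem exists_pad_QU (h : IsCuspidal S P) {n : ℕ} {π : GSys n} (hπ : Eis S P n π) :
    ∃ χ ∈ S 1, ∀ z : ℂ, QU S P (n + 1) (induce π χ z) := by
  obtain ⟨L, F, z, w, hF, he⟩ := hπ.cfam
  obtain ⟨χ, hχ, κ, hκ⟩ := hF.central h
  obtain ⟨χ', hχ', hinv⟩ := h.inv χ hχ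
  refine ⟨χ', hχ', fun z' => ⟨L + 1, _, Fin.snoc (α := fun _ => ℂ) z z', w, Nat.succ_pos L,
    CFam.ind Nat.one_pos hF hχ', ⟨Fin.snoc (α := fun _ => ℤ) κ 1, ?_⟩, ?_⟩⟩
  · filter_upwards [hκ, hinv] with p h1 h2 z
    rw [nu_induce, h1, Fin.prod_univ_one, h2, prC_snoc, ppow_add, Int.cast_one, Nat.cast_one,
      mul_right_comm (χ p 0), mul_inv_cancel, one_mul]
  · filter_upwards [he] with p hp
    simp only [Fin.snoc_castSucc, Fin.snoc_last]
    unfold induce
    rw [hp]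
    rfl

/-- Odd: from the class to all. -/
theorem cont_spinD_of_QU (h : IsCuspidal S P)
    (hc : ∀ n (π : GSys n), QU S P n π → Cont (spinD π)) {n : ℕ} {π : GSys n}
    (hπ : Eis S P n π) : Cont (spinD π) := by
  obtain ⟨χ, hχ, hz⟩ := exists_pad_QU h hπ
  have h1 := isolation 1 (fun a => extD χ a * spinD π)
    (fun a _ => mul_mem (extD_mem (h.bddL hχ) a) (spinD_mem (hπ.bdd h))) 0 fun z _ => by
    have h2 := hc _ _ (hz z)
    rw [spinD_induce] at h2
    exact h2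
  have h3 := h1 0 (Nat.zero_le 1)
  rwa [extD_zero, one_mul] at h3

end Pool.Agent.EEA520
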