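import Pool.Agent.W_eea520_h66.Theta

/-! Evaluation of `Θ(y; V(t) ∏ p_{b_k}(t_k) G)`. -/

set_option autoImplicit false

namespace Pool.Agent.EEA520

open Polynomial

/-- If `M k i ≠ 0` implies `f k ≤ f i`, `f` injective, then the determinant is the product of the
diagonal entries. -/
theorem det_tri {A : Type} [CommRing A] {ι : Type} [Fintype ι] [DecidableEq ι] (M : Matrix ι ι A)
    (f : ι → ℤ) (hf : Function.Injective f) (h : ∀ k i, M k i ≠ 0 → f k ≤ f i) :
    M.det = ∏ i, M i i := by
  rw [Matrix.det_apply', Finset.sum_eq_single 1]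
  · simp
  · intro σ _ hσ
    have h1 : ∃ i, M (σ i) i = 0 := by
      by_contra hc
      push Not at hc
      apply hσ
      have h2 : ∀ i ∈ Finset.univ, f (σ i) ≤ f i := fun i _ => h _ _ (hc i)
      have h3 : ∑ i, f (σ i) = ∑ i, f i := Equiv.sum_comp σ f
      have h4 := (Finset.sum_eq_sum_iff_of_le h2).1 h3
      ext i
      rw [Equiv.Perm.one_apply]
      exact hf (h4 i (Finset.mem_univ i))
    obtain ⟨i, hi⟩ := h1
    have h5 : ∏ i, M (σ i) i = 0 :=
      Finset.prod_eq_zero (f := fun i => M (σ i) i) (Finset.mem_univ i) hi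
    rw [h5, mul_zero]
  · intro h
    exact absurd (Finset.mem_univ _) h

section

variable (u : ℤ) {A : Type} [CommRing A] {n c : ℕ}

/-- The polynomial `∏ (t - y_i)`. -/
noncomputable def FF (y : Fin n → A) : A[X] := ∏ i, (X - C (y i))

theorem FF_monic (y : Fin n → A) : (FF y).Monic := monic_prod_X_sub_C _ _

theorem FF_natDegree_le (y : Fin n → A) : (FF y).natDegree ≤ n := by
  have h := natDegree_prod_le (Finset.univ : Finset (Fin n)) fun i => (X - C (y i) : A[X])
  refine h.trans ?_
  refine (Finset.sum_le_card_nsmul _ _ 1 fun i _ => natDegree_X_sub_C_le _).trans ?_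
  simp

theorem FF_coeff (y : Fin n → A) : (FF y).coeff n = 1 := by
  nontriviality A
  have h : (FF y).natDegree = n := by
    rw [FF, natDegree_prod_of_monic _ _ fun i _ => monic_X_sub_C _]
    simp
  have h1 := FF_monic y
  rw [Monic, leadingCoeff, h] at h1
  exact h1

/-- `Θ(y; V(t) ∏ p_{b_k}(t_k) G) = ± det (L (F p_{e_j} p_{b_k}))`. -/
theorem Th_eq_det {q : ℕ} (D : Fin q ⊕ Fin c ≃ Fin (q + c)) (b : Fin c → ℕ) : ∃ s : ℤˣ,
    ∀ (A : Type) [CommRing A] (y : Fin n → A),
      Th u y (KL u (fun k : Fin c => (MvPolynomial.X k : MvPolynomial (Fin c) ℤ))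
        (fun j => (D (Sum.inl j) : ℕ)) *
        (VV (fun k : Fin c => (MvPolynomial.X k : MvPolynomial (Fin c) ℤ)) *
          ∏ k, (pA u ℤ (b k)).aeval (MvPolynomial.X k : MvPolynomial (Fin c) ℤ))) =
      ((s : ℤ) : A) * Matrix.det (Matrix.of fun k j : Fin c =>
        LF u A (FF y * (pA u A (D (Sum.inr j) : ℕ) * pA u A (b k)))) := by
  obtain ⟨s, hs⟩ := key u D
  refine ⟨s, fun A _ y => ?_⟩
  have h1 := hs (MvPolynomial (Fin c) ℤ) fun k : Fin c => (MvPolynomial.X k)
  rw [← mul_assoc, h1, mul_assoc, Th_intCast_mul]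
  congr 1
  unfold Th
  have h2 : (∏ k : Fin c, ∏ i, (MvPolynomial.X k - MvPolynomial.C (y i) :
      MvPolynomial (Fin c) A)) = ∏ k : Fin c, (FF y).aeval (MvPolynomial.X k :
        MvPolynomial (Fin c) A) := by
    refine Finset.prod_congr rfl fun k _ => ?_
    rw [FF, map_prod]
    simp [MvPolynomial.algebraMap_eq]
  have h3 : MvPolynomial.map (Int.castRingHom A) (Matrix.det (Matrix.of fun k j : Fin c =>
      (pA u (MvPolynomial (Fin c) ℤ) (D (Sum.inr j) : ℕ)).eval (MvPolynomial.X k)) *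
      ∏ k, (pA u ℤ (b k)).aeval (MvPolynomial.X k : MvPolynomial (Fin c) ℤ)) =
      Matrix.det (Matrix.of fun k j : Fin c =>
      (pA u A (D (Sum.inr j) : ℕ)).aeval (MvPolynomial.X k : MvPolynomial (Fin c) A)) *
      ∏ k, (pA u A (b k)).aeval (MvPolynomial.X k : MvPolynomial (Fin c) A) := by
    rw [map_mul, RingHom.map_det, map_prod]
    simp only [map_aeval_X, pA_map]
    congr 2
    ext1 k j
    simp only [RingHom.mapMatrix_apply, Matrix.map_apply, Matrix.of_apply]
    rw [pA_eval_X, map_aeval_X, pA_map]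
  rw [h2, h3]
  have h4 : (∏ k : Fin c, (FF y).aeval (MvPolynomial.X k : MvPolynomial (Fin c) A)) *
      (Matrix.det (Matrix.of fun k j : Fin c =>
      (pA u A (D (Sum.inr j) : ℕ)).aeval (MvPolynomial.X k : MvPolynomial (Fin c) A)) *
      ∏ k, (pA u A (b k)).aeval (MvPolynomial.X k : MvPolynomial (Fin c) A)) =
      Matrix.det (Matrix.of fun k j : Fin c =>
        (FF y * (pA u A (D (Sum.inr j) : ℕ) * pA u A (b k))).aeval
          (MvPolynomial.X k : MvPolynomial (Fin c) A)) := by
    have h5 : (Matrix.of fun k j : Fin c =>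
        (FF y * (pA u A (D (Sum.inr j) : ℕ) * pA u A (b k))).aeval
          (MvPolynomial.X k : MvPolynomial (Fin c) A)) =
        Matrix.of fun k j : Fin c => ((FF y).aeval (MvPolynomial.X k : MvPolynomial (Fin c) A) *
          (pA u A (b k)).aeval (MvPolynomial.X k : MvPolynomial (Fin c) A)) *
          (Matrix.of fun k j : Fin c => (pA u A (D (Sum.inr j) : ℕ)).aeval
            (MvPolynomial.X k : MvPolynomial (Fin c) A)) k j := by
      ext1 k j
      simp only [Matrix.of_apply, map_mul]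
      rw [mul_assoc, mul_comm ((pA u A (b k)).aeval _)]
    rw [h5, Matrix.det_mul_column, Finset.prod_mul_distrib, mul_comm (Matrix.det _), ← mul_assoc]
  rw [h4, LT_det]

end

end Pool.Agent.EEA520
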