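import Pool.Agent.W_eea520_h66.Eval

/-! Evaluation of `Θ(y; V(t) ∏ p_{b_k}(t_k) G)`, second part. -/

set_option autoImplicit false

namespace Pool.Agent.EEA520

open Polynomial

/-- An injective map extends to a bijection. -/
theorem exists_equiv {c m : ℕ} (l : Fin m → ℕ) (hl : Function.Injective l)
    (h : ∀ j, l j < c + m) : ∃ D : Fin c ⊕ Fin m ≃ Fin (c + m), ∀ j, (D (Sum.inr j) : ℕ) = l j := by
  classical
  let f : Fin m → Fin (c + m) := fun j => ⟨l j, h j⟩
  have hf : Function.Injective f := fun i j hij => hl (congrArg Fin.val hij)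
  have e1 : Fin m ≃ Set.range f := Equiv.ofInjective f hf
  have hcard : Fintype.card ((Set.range f)ᶜ : Set (Fin (c + m))) = Fintype.card (Fin c) := by
    rw [Fintype.card_compl_set, Fintype.card_fin, Fintype.card_fin, Set.card_range_of_injective hf,
      Fintype.card_fin]
    omega
  have e2 : Fin c ≃ ((Set.range f)ᶜ : Set (Fin (c + m))) := Fintype.equivOfCardEq hcard.symm
  refine ⟨(Equiv.sumCongr e2 (Equiv.ofInjective f hf)).trans
    ((Equiv.sumComm _ _).trans (Equiv.Set.sumCompl (Set.range f))), fun j => ?_⟩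
  simp [f]

section

variable (u : ℤ) {A : Type} [CommRing A] {n c : ℕ}

theorem LF_zero {f : A[X]} {j k : ℕ} (hf : f.natDegree ≤ n) (h : j + n < k ∨ k + n < j) :
    LF u A (f * (pA u A j * pA u A k)) = 0 := by
  wlog hjk : j ≤ k with H
  · rw [mul_comm (pA u A j)]
    exact H u hf h.symm (by omega)
  · obtain ⟨m, rfl⟩ := Nat.exists_eq_add_of_le hjk
    have hm : n < m := by omega
    rw [LF_mul_pA_mul_pA u rfl (hf.trans hm.le)]
    exact coeff_eq_zero_of_natDegree_lt (lt_of_le_of_lt hf hm)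

/-- The shifted exponents. -/
def ee (n s0 : ℕ) (b δ : Fin c → ℕ) (k : Fin c) : ℕ :=
  if b k < s0 then b k + n - δ k else b k - n

theorem ee_injective {s0 : ℕ} {b δ : Fin c → ℕ} (hb : Function.Injective b)
    (hs : ∀ k, b k < s0 ∨ s0 + 2 * n ≤ b k) (hδ : ∀ k, δ k ≤ n)
    (hδ' : ∀ k, δ k ≠ 0 → ∀ i, b k ≤ b i) : Function.Injective (ee n s0 b δ) := by
  intro k i h
  apply hb
  unfold ee at h
  have h1 := hs k
  have h2 := hs i
  have h3 := hδ k
  have h4 := hδ i
  by_cases h5 : δ k = 0 <;> by_cases h6 : δ i = 0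
  · split_ifs at h <;> omega
  · have h7 := hδ' i h6 k
    split_ifs at h <;> omega
  · have h7 := hδ' k h5 i
    split_ifs at h <;> omega
  · have h7 := hδ' k h5 i
    have h8 := hδ' i h6 k
    omega

theorem ee_lt {s0 q : ℕ} {b δ : Fin c → ℕ} (hs : ∀ k, b k < s0 ∨ s0 + 2 * n ≤ b k)
    (hs0 : s0 + 2 * n ≤ c + (n + q)) (hb : ∀ k, b k < c + (n + q)) (k : Fin c) :
    ee n s0 b δ k < q + c := by
  unfold ee
  have h1 := hs k
  have h2 := hb k
  split_ifs <;> omega

/-- Only the identity contributes to the determinant. -/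
theorem det_eval {s0 : ℕ} {b δ : Fin c → ℕ} (hb : Function.Injective b)
    (hs : ∀ k, b k < s0 ∨ s0 + 2 * n ≤ b k) (hδ : ∀ k, δ k ≤ n)
    (hδ' : ∀ k, δ k ≠ 0 → ∀ i, b k ≤ b i) (y : Fin n → A) :
    Matrix.det (Matrix.of fun k j : Fin c =>
        LF u A (FF y * (pA u A (ee n s0 b δ j) * pA u A (b k)))) =
      ∏ k, LF u A (FF y * (pA u A (ee n s0 b δ k) * pA u A (b k))) := by
  rw [det_tri _ (fun k => if b k < s0 then -(b k : ℤ) else b k)]
  · rfl
  · intro k i h
    apply hb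
    have h1 := hs k
    have h2 := hs i
    simp only at h
    split_ifs at h <;> omega
  · intro k i h
    have h0 : ¬ (ee n s0 b δ i + n < b k ∨ b k + n < ee n s0 b δ i) := by
      intro h0
      exact h (LF_zero u (FF_natDegree_le y) h0)
    unfold ee at h0
    have h1 := hs k
    have h2 := hs i
    have h3 := hδ i
    by_cases h6 : δ i = 0
    · split_ifs at h0 ⊢ <;> omega
    · have h7 := hδ' i h6 k
      split_ifs at h0 ⊢ <;> omega

theorem diag_one {s0 : ℕ} {b δ : Fin c → ℕ} (hs : ∀ k, b k < s0 ∨ s0 + 2 * n ≤ b k)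
    (y : Fin n → A) {k : Fin c} (hk : δ k = 0) :
    LF u A (FF y * (pA u A (ee n s0 b δ k) * pA u A (b k))) = 1 := by
  have h1 := hs k
  by_cases h : b k < s0
  · have h2 : b k + n = ee n s0 b δ k := by
      unfold ee
      rw [if_pos h]
      omega
    rw [mul_comm (pA u A (ee n s0 b δ k)), LF_mul_pA_mul_pA u h2 (FF_natDegree_le y), FF_coeff]
  · have h2 : ee n s0 b δ k + n = b k := by
      unfold ee
      rw [if_neg h]
      omega
    rw [LF_mul_pA_mul_pA u h2 (FF_natDegree_le y), FF_coeff]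

/-- The entry for the smallest `b`. -/
theorem diag_shift (n b j : ℕ) (hj : j ≤ n) : ∃ z : ℕ → ℤ, z (n - j) = 1 ∧
    (∀ i < n - j, z i = 0) ∧ ∀ (A : Type) [CommRing A] (y : Fin n → A),
      LF u A (FF y * (pA u A (b + n - j) * pA u A b)) =
        ∑ i ∈ Finset.range (n + 1), (z i : A) * (FF y).coeff i := by
  refine ⟨fun i => LF u ℤ (X ^ i * (pA u ℤ b * pA u ℤ (b + n - j))), ?_, ?_, fun A _ y => ?_⟩
  · show LF u ℤ (X ^ (n - j) * (pA u ℤ b * pA u ℤ (b + n - j))) = 1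
    rw [LF_mul_pA_mul_pA u (j := b) (n := n - j) (by omega) (natDegree_X_pow_le _)]
    simp
  · intro i hi
    show LF u ℤ (X ^ i * (pA u ℤ b * pA u ℤ (b + n - j))) = 0
    rw [LF_mul_pA_mul_pA u (j := b) (n := n - j) (by omega) ((natDegree_X_pow_le _).trans hi.le)]
    rw [coeff_X_pow, if_neg (by omega)]
  · have h1 : ∀ i, ((LF u ℤ (X ^ i * (pA u ℤ b * pA u ℤ (b + n - j))) : ℤ) : A) =
        LF u A (X ^ i * (pA u A b * pA u A (b + n - j))) := by
      intro i
      have := LF_map u (Int.castRingHom A) (X ^ i * (pA u ℤ b * pA u ℤ (b + n - j)))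
      rw [Polynomial.map_mul, Polynomial.map_pow, map_X, Polynomial.map_mul, pA_map, pA_map] at this
      exact this
    simp only [h1]
    conv_lhs => rw [(FF y).as_sum_range_C_mul_X_pow' (Nat.lt_succ_of_le (FF_natDegree_le y))]
    rw [Finset.sum_mul, map_sum]
    refine Finset.sum_congr rfl fun i _ => ?_
    rw [mul_assoc, ← smul_eq_C_mul, map_smul, smul_eq_mul, mul_comm, mul_comm (pA u A (b + n - j))]

/-- Extraction. -/
theorem extract {q s0 : ℕ} (D : Fin c ⊕ Fin (n + q) ≃ Fin (c + (n + q)))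
    (hs0 : s0 + 2 * n ≤ c + (n + q))
    (hs : ∀ i : Fin c, (D (Sum.inl i) : ℕ) < s0 ∨ s0 + 2 * n ≤ (D (Sum.inl i) : ℕ))
    (δ : Fin c → ℕ) (hδ : ∀ k, δ k ≤ n)
    (hδ' : ∀ k, δ k ≠ 0 → ∀ i, (D (Sum.inl k) : ℕ) ≤ (D (Sum.inl i) : ℕ)) :
    ∃ (d : Fin q → ℕ) (s : ℤˣ), ∀ (A : Type) [CommRing A] (y : Fin n → A),
      Th u y (KL u (fun k : Fin c => (MvPolynomial.X k : MvPolynomial (Fin c) ℤ)) d *
        (VV (fun k : Fin c => (MvPolynomial.X k : MvPolynomial (Fin c) ℤ)) *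
          ∏ k, (pA u ℤ (D (Sum.inl k) : ℕ)).aeval
            (MvPolynomial.X k : MvPolynomial (Fin c) ℤ))) =
      ((s : ℤ) : A) * ∏ k, LF u A (FF y *
        (pA u A (ee n s0 (fun k => (D (Sum.inl k) : ℕ)) δ k) * pA u A (D (Sum.inl k) : ℕ))) := by
  have hb : Function.Injective fun k : Fin c => (D (Sum.inl k) : ℕ) := fun k i h =>
    Sum.inl_injective (D.injective (Fin.ext h))
  obtain ⟨E, hE⟩ := exists_equiv (c := q) (ee n s0 (fun k => (D (Sum.inl k) : ℕ)) δ)
    (ee_injective hb hs hδ hδ') (ee_lt hs hs0 fun k => (D (Sum.inl k)).2)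
  obtain ⟨s, h⟩ := Th_eq_det (n := n) u E fun k => (D (Sum.inl k) : ℕ)
  refine ⟨fun j => (E (Sum.inl j) : ℕ), s, fun A _ y => ?_⟩
  rw [h A y]
  simp only [hE]
  rw [det_eval u hb hs hδ hδ' y]

end

end Pool.Agent.EEA520
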