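import Pool.Agent.W_eea520_h66.Extract

/-! The symmetric polynomials in the `y_i`: from trivial to arbitrary central characters. -/

set_option autoImplicit false

namespace Pool.Agent.EEA520

open Filter Polynomial

theorem FF_coeff_mem {A : Type} [CommRing A] (B : Subring A) {n : ℕ} (y : Fin n → A)
    (hy : ∀ i, y i ∈ B) (i : ℕ) : (FF y).coeff i ∈ B := by
  have h2 : FF y ∈ Polynomial.lifts B.subtype := by
    rw [FF]
    refine prod_mem fun i _ => ?_
    have h3 : (X - C (y i) : A[X]) ∈ (Polynomial.liftsRing B.subtype : Subring A[X]) :=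
      sub_mem (Polynomial.X_mem_lifts B.subtype) (Polynomial.C_mem_lifts B.subtype ⟨_, hy i⟩)
    exact h3
  obtain ⟨b, hb⟩ := (Polynomial.lifts_iff_coeff_lifts _).1 h2 i
  rw [← hb]
  exact b.2

theorem FF_append {A : Type} [CommRing A] {n : ℕ} (y : Fin n → A) (Y : A) :
    FF (Fin.append y fun _ : Fin 1 => Y) = FF y * (X - C Y) := by
  rw [FF, Fin.prod_univ_add, Fin.prod_univ_one]
  simp only [Fin.append_left, Fin.append_right]
  rfl

theorem FF_append_coeff {A : Type} [CommRing A] {n : ℕ} (y : Fin n → A) (Y : A) (i : ℕ) :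
    (FF (Fin.append y fun _ : Fin 1 => Y)).coeff (i + 1) =
      (FF y).coeff i - Y * (FF y).coeff (i + 1) := by
  rw [FF_append, mul_sub, coeff_sub, coeff_mul_X, coeff_mul_C, mul_comm Y]

theorem FF_append_coeff_zero {A : Type} [CommRing A] {n : ℕ} (y : Fin n → A) (Y : A) :
    (FF (Fin.append y fun _ : Fin 1 => Y)).coeff 0 = - (Y * (FF y).coeff 0) := by
  rw [FF_append, mul_sub, coeff_sub, coeff_mul_X_zero, coeff_mul_C, mul_comm Y, zero_sub]

theorem cont_FF_klingen {n : ℕ} {π : GSys n} (h : ∀ i, Cont ((FF (yD π)).coeff i)) (z : ℂ) (i : ℕ) :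
    Cont ((FF (yD (klingen π z))).coeff i) := by
  have h1 : ∀ j, Cont (YY z * (FF (yD π)).coeff j) := fun j => by
    have := (h j).YY_pow_mul z 1
    rwa [pow_one] at this
  rw [yD_klingen]
  rcases i with _ | i
  · rw [FF_append_coeff_zero]
    exact (h1 0).neg
  · rw [FF_append_coeff]
    exact (h i).sub (h1 (i + 1))

theorem cont_FF_of_le {n : ℕ} {π : GSys n} (h : ∀ i ≤ n, Cont ((FF (yD π)).coeff i)) (i : ℕ) :
    Cont ((FF (yD π)).coeff i) := by
  rcases Nat.lt_or_ge n i with h1 | h1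
  · rw [coeff_eq_zero_of_natDegree_lt ((FF_natDegree_le _).trans_lt h1)]
    exact cont_zero
  · exact h i h1

section

variable {S : (k : ℕ) → Set (GLSys k)} {P : (n : ℕ) → Set (GSys n)}

theorem yD_induce_one {n : ℕ} (π : GSys n) (χ : GLSys 1) (z : ℂ) :
    yD (induce π χ z) = Fin.append (yD π) fun _ : Fin 1 =>
      (fun p => el (χ p 0) : Dat) * tw z + (fun p => el (χ p 0)⁻¹ : Dat) * tw (-z) := by
  funext j p
  refine Fin.addCases (fun j => ?_) (fun j => ?_) j
  · rw [Fin.append_left]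
    simp only [yD, induce, Fin.append_left]
  · rw [Fin.append_right]
    simp only [yD, induce, Fin.append_right, tw, Pi.add_apply, Pi.mul_apply]
    rw [Subsingleton.elim j 0, ppow_neg]
    simp only [el, map_mul, mul_inv]

/-- From the systems induced from `GL_1` to the system. -/
theorem even_pad (h : IsCuspidal S P) {n : ℕ} {π : GSys n} (hπ : Eis S P n π) {χ : GLSys 1}
    (hχ : χ ∈ S 1) (hc : ∀ z : ℝ, ∀ i ≤ n + 1, Cont ((FF (yD (induce π χ z))).coeff i)) :
    ∀ i ≤ n, Cont ((FF (yD π)).coeff i) := by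
  intro i hi
  have hmem : ∀ j, (FF (yD π)).coeff j ∈ BB := FF_coeff_mem BB _ (yD_mem (hπ.bdd h))
  obtain ⟨B, hB⟩ := h.bddS 1 χ hχ
  have hm1 : (fun p => el (χ p 0) : Dat) ∈ BB :=
    el_mem (poly_of_eventually B (hB.mono fun p hp => (hp 0).1))
  have hm2 : (fun p => el (χ p 0)⁻¹ : Dat) ∈ BB :=
    el_mem (poly_of_eventually B (hB.mono fun p hp => (hp 0).2))
  have h1 := isolation 2 (fun a => if a = 0 then -((fun p => el (χ p 0)⁻¹ : Dat) *
      (FF (yD π)).coeff (i + 1)) else if a = 1 then (FF (yD π)).coeff i else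
      -((fun p => el (χ p 0) : Dat) * (FF (yD π)).coeff (i + 1))) (fun a _ => by
      split_ifs
      · exact neg_mem (mul_mem hm2 (hmem _))
      · exact hmem _
      · exact neg_mem (mul_mem hm1 (hmem _))) 0 fun z _ => by
    have h2 := (hc z (i + 1) (by omega)).tw z
    rw [yD_induce_one, FF_append_coeff] at h2
    have h4 : tw (z : ℂ) * tw (-(z : ℂ)) = 1 := by rw [← tw_add66, add_neg_cancel, tw_zero66]
    have h5 : ∑ a ∈ Finset.range (2 + 1), tw (z : ℂ) ^ a * (if a = 0 then
        -((fun p => el (χ p 0)⁻¹ : Dat) * (FF (yD π)).coeff (i + 1)) else if a = 1 then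
        (FF (yD π)).coeff i else -((fun p => el (χ p 0) : Dat) * (FF (yD π)).coeff (i + 1))) =
        tw z * ((FF (yD π)).coeff i - ((fun p => el (χ p 0) : Dat) * tw z +
          (fun p => el (χ p 0)⁻¹ : Dat) * tw (-z)) * (FF (yD π)).coeff (i + 1)) := by
      rw [Finset.sum_range_succ, Finset.sum_range_succ, Finset.sum_range_one]
      simp only [if_true, one_ne_zero, if_false, pow_zero, one_mul, pow_one,
        OfNat.ofNat_ne_zero, OfNat.ofNat_ne_one]
      linear_combination ((fun p => el (χ p 0)⁻¹ : Dat) * (FF (yD π)).coeff (i + 1)) * h4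
    rw [h5]
    exact h2
  have h6 := h1 1 (by norm_num)
  simpa using h6

/-- All central characters. -/
theorem even_all (h : IsCuspidal S P)
    (hc : ∀ n, ∀ π : GSys n, Eis S P n π → TrivialCentral π →
      ∀ i ≤ n, Cont ((FF (yD π)).coeff i)) (n : ℕ) (π : GSys n) (hπ : Eis S P n π) :
    ∀ i ≤ n, Cont ((FF (yD π)).coeff i) := by
  obtain ⟨χ, hχ, t, hν⟩ := hπ.central h
  obtain ⟨χ', hχ', hinv⟩ := h.inv χ hχ
  refine even_pad h hπ hχ' fun z i hi => ?_
  obtain ⟨w, hw⟩ : ∃ w : ℂ, w = -(t + z) / 2 := ⟨_, rfl⟩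
  have hE : Eis S P (n + 1) (twist (induce π χ' z) w) := Eis.tw w (Eis.ind z hπ hχ')
  have htriv : TrivialCentral (twist (induce π χ' z) w) := by
    filter_upwards [hν, hinv] with p h1 h2
    rw [nu_twist, nu_induce, h1, Fin.prod_univ_one, h2, Nat.cast_one, one_mul]
    have h3 : t + (z : ℂ) + 2 * w = 0 := by rw [hw]; ring
    calc χ p 0 * ppow p t * (χ p 0)⁻¹ * ppow p z * ppow p (2 * w)
        = (χ p 0 * (χ p 0)⁻¹) * (ppow p t * ppow p z * ppow p (2 * w)) := by
          simp only [mul_assoc, mul_comm, mul_left_comm]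
      _ = 1 := by rw [← ppow_add, ← ppow_add, h3, ppow_zero, mul_inv_cancel, one_mul]
  exact hc (n + 1) _ hE htriv i hi

end

end Pool.Agent.EEA520
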