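import Pool.Agent.W_eea520_h66.EvenA

/-! The polynomial `C(π; T) = ∏ (1 + x_i T) (1 + T / x_i)`. -/

set_option autoImplicit false

namespace Pool.Agent.EEA520

open Filter Polynomial

/-- Homogenization. -/
noncomputable def Hom {B : Type} [CommRing B] (n : ℕ) (f : B[X]) (U T : B) : B :=
  ∑ j ∈ Finset.range (n + 1), (-1) ^ (n + j) * f.coeff j * U ^ j * T ^ (n - j)

theorem Hom_mul {B : Type} [CommRing B] (n : ℕ) (f : B[X]) (hf : f.natDegree ≤ n) (y U T : B) :
    Hom (n + 1) (f * (X - C y)) U T = Hom n f U T * (U + y * T) := by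
  have h0 : f.coeff (n + 1) = 0 := coeff_eq_zero_of_natDegree_lt (by omega)
  have h1 : ∀ j, (f * (X - C y)).coeff (j + 1) = f.coeff j - y * f.coeff (j + 1) := by
    intro j
    rw [mul_sub, coeff_sub, coeff_mul_X, coeff_mul_C, mul_comm y]
  have h2 : (f * (X - C y)).coeff 0 = -(y * f.coeff 0) := by
    rw [mul_sub, coeff_sub, coeff_mul_X_zero, coeff_mul_C, mul_comm y, zero_sub]
  have h3 : Hom n f U T * (y * T) = ∑ j ∈ Finset.range (n + 2),
      (-1) ^ (n + j) * (y * f.coeff j) * U ^ j * T ^ (n + 1 - j) := by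
    rw [Finset.sum_range_succ, h0, mul_zero, mul_zero, zero_mul, zero_mul, add_zero, Hom,
      Finset.sum_mul]
    refine Finset.sum_congr rfl fun j hj => ?_
    have hj' := Finset.mem_range.1 hj
    rw [show n + 1 - j = (n - j) + 1 by omega, pow_succ]
    ring
  have h4 : Hom n f U T * U = ∑ j ∈ Finset.range (n + 1),
      (-1) ^ (n + 1 + (j + 1)) * f.coeff j * U ^ (j + 1) * T ^ (n + 1 - (j + 1)) := by
    rw [Hom, Finset.sum_mul]
    refine Finset.sum_congr rfl fun j hj => ?_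
    rw [show n + 1 - (j + 1) = n - j by omega, pow_succ U, show n + 1 + (j + 1) = (n + j) + 2 by ring,
      pow_add _ (n + j) 2]
    ring
  rw [mul_add, h3, h4, Finset.sum_range_succ' _ (n + 1), Hom, Finset.sum_range_succ' _ (n + 1),
    ← add_assoc, ← Finset.sum_add_distrib, h2]
  congr 1
  · refine Finset.sum_congr rfl fun j hj => ?_
    rw [h1, show n + 1 + (j + 1) = (n + (j + 1)) + 1 by ring, pow_succ (-1 : B) (n + (j + 1))]
    ring
  · rw [show n + 1 + 0 = (n + 0) + 1 by ring, pow_succ (-1 : B) (n + 0)]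
    ring

theorem Hom_FF {B : Type} [CommRing B] (n : ℕ) (y : Fin n → B) (U T : B) :
    Hom n (FF y) U T = ∏ i, (U + y i * T) := by
  induction n with
  | zero => simp [Hom, FF]
  | succ n ih =>
    have h1 : FF y = FF (fun i : Fin n => y i.castSucc) * (X - C (y (Fin.last n))) := by
      rw [FF, Fin.prod_univ_castSucc]
      rfl
    rw [h1, Hom_mul n _ (FF_natDegree_le _), ih, Fin.prod_univ_castSucc]

theorem FF_map {A B : Type} [CommRing A] [CommRing B] (φ : A →+* B) {n : ℕ} (y : Fin n → A) :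
    (FF y).map φ = FF fun i => φ (y i) := by
  unfold FF
  rw [Polynomial.map_prod]
  simp

/-- `C(π; T) = ∏ (1 + x_i T) (1 + T / x_i)`. -/
noncomputable def CC {n : ℕ} (π : GSys n) : Dat[X] :=
  ∏ i, ((1 + C (fun p => el ((π p).x i) : Dat) * X) *
    (1 + C (fun p => el ((π p).x i)⁻¹ : Dat) * X))

theorem el_mul_el_inv (a : Pr → ℂˣ) :
    (fun p => el (a p) : Dat) * (fun p => el (a p)⁻¹ : Dat) = 1 := by
  funext p
  simp only [Pi.mul_apply, Pi.one_apply, el, ← map_mul]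
  rw [mul_inv_cancel, map_one]

theorem CC_eq {n : ℕ} (π : GSys n) : CC π = ∏ i, ((1 + X ^ 2) + C (yD π i) * X) := by
  unfold CC
  refine Finset.prod_congr rfl fun i _ => ?_
  have h1 := congrArg (C : Dat → Dat[X]) (el_mul_el_inv fun p => (π p).x i)
  rw [map_mul, map_one] at h1
  have h2 : yD π i = (fun p => el ((π p).x i) : Dat) + (fun p => el ((π p).x i)⁻¹ : Dat) := rfl
  rw [h2, map_add]
  linear_combination X ^ 2 * h1

theorem CC_gen {B : Type} [CommRing B] {n : ℕ} (y : Fin n → B) (s : ℕ) :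
    (∏ i, ((1 + X ^ 2) + C (y i) * X) : B[X]).coeff s =
    ∑ j ∈ Finset.range (n + 1), ((((-1) ^ (n + j) * (1 + X ^ 2) ^ j * X ^ (n - j) : ℤ[X]).coeff s :
      ℤ) : B) * (FF y).coeff j := by
  have h1 : (∏ i, ((1 + X ^ 2) + C (y i) * X) : B[X]) = Hom n ((FF y).map C) (1 + X ^ 2) X := by
    rw [FF_map, Hom_FF]
  rw [h1, Hom, finsetSum_coeff]
  refine Finset.sum_congr rfl fun j hj => ?_
  have h3 : (((-1) ^ (n + j) * (1 + X ^ 2) ^ j * X ^ (n - j) : ℤ[X]).map
      (Int.castRingHom B)) = ((-1) ^ (n + j) * (1 + X ^ 2) ^ j * X ^ (n - j) : B[X]) := by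
    simp
  rw [coeff_map]
  have h4 : ((-1) ^ (n + j) * C ((FF y).coeff j) * (1 + X ^ 2) ^ j * X ^ (n - j) : B[X]) =
      ((-1) ^ (n + j) * (1 + X ^ 2) ^ j * X ^ (n - j)) * C ((FF y).coeff j) := by
    ring
  rw [h4, coeff_mul_C, ← h3, coeff_map]
  rfl

/-- The coefficients of `C(π; T)` are `ℤ`-combinations of the coefficients of `∏ (t - y_i)`. -/
theorem CC_coeff {n : ℕ} (π : GSys n) (s : ℕ) : (CC π).coeff s =
    ∑ j ∈ Finset.range (n + 1), ((((-1) ^ (n + j) * (1 + X ^ 2) ^ j * X ^ (n - j) : ℤ[X]).coeff s :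
      ℤ) : Dat) * (FF (yD π)).coeff j := by
  rw [CC_eq]
  exact CC_gen (yD π) s

theorem cont_CC {n : ℕ} {π : GSys n} (h : ∀ i ≤ n, Cont ((FF (yD π)).coeff i)) (s : ℕ) :
    Cont ((CC π).coeff s) := by
  rw [CC_coeff]
  refine Cont.sum66 _ _ fun j hj => Cont.intCast_mul (h j ?_) _
  have := Finset.mem_range.1 hj
  omega

end Pool.Agent.EEA520
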