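import Pool.Agent.W_eea520_h66.EvenB

/-! Induction from `GL_k`: the algebra. -/

set_option autoImplicit false

namespace Pool.Agent.EEA520

open Filter Polynomial

section

variable {B : Type} [CommRing B] {k : ℕ}

/-- The elementary symmetric polynomials. -/
noncomputable def es (a : Fin k → B) (j : ℕ) : B := (∏ i, (1 + C (a i) * X : B[X])).coeff j

theorem es_natDegree_le (a : Fin k → B) : (∏ i, (1 + C (a i) * X : B[X])).natDegree ≤ k := by
  have h := natDegree_prod_le (Finset.univ : Finset (Fin k)) fun i => (1 + C (a i) * X : B[X])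
  refine h.trans ?_
  have h1 : ∀ i ∈ (Finset.univ : Finset (Fin k)), (1 + C (a i) * X : B[X]).natDegree ≤ 1 := by
    intro i _
    refine (natDegree_add_le _ _).trans ?_
    rw [natDegree_one]
    exact max_le (Nat.zero_le _) ((natDegree_C_mul_le _ _).trans natDegree_X_le)
  refine (Finset.sum_le_sum h1).trans ?_
  simp

theorem es_zero (a : Fin k → B) : es a 0 = 1 := by
  rw [es, coeff_zero_eq_eval_zero, eval_prod]
  simp

theorem es_of_lt (a : Fin k → B) {j : ℕ} (h : k < j) : es a j = 0 :=
  coeff_eq_zero_of_natDegree_lt (lt_of_le_of_lt (es_natDegree_le a) h)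

theorem es_scale (a : Fin k → B) (Z : B) : (∏ i, (1 + C (a i * Z) * X : B[X])) =
    ∑ j ∈ Finset.range (k + 1), C (Z ^ j * es a j) * X ^ j := by
  have h1 : (∏ i, (1 + C (a i * Z) * X : B[X])) =
      (∏ i, (1 + C (a i) * X : B[X])).eval₂ C (C Z * X) := by
    rw [eval₂_finsetProd]
    refine Finset.prod_congr rfl fun i _ => ?_
    rw [eval₂_add, eval₂_one, eval₂_mul, eval₂_C, eval₂_X, map_mul]
    ring
  rw [h1, eval₂_eq_sum_range' C (Nat.lt_succ_of_le (es_natDegree_le a))]
  refine Finset.sum_congr rfl fun j _ => ?_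
  rw [mul_pow, map_mul, map_pow, es]
  ring

/-- The coefficient of `Z ^ (m - k)`. -/
noncomputable def qq (a a' : Fin k → B) (m : ℕ) : B[X] :=
  ∑ i ∈ Finset.range (k + 1), ∑ j ∈ Finset.range (k + 1),
    if i + k = m + j then C (es a i * es a' j) * X ^ (i + j) else 0

theorem qq_sum (a a' : Fin k → B) (Z Z' : B) (hZ : Z * Z' = 1) :
    C (Z ^ k) * ((∏ i, (1 + C (a i * Z) * X : B[X])) * ∏ i, (1 + C (a' i * Z') * X : B[X])) =
      ∑ m ∈ Finset.range (2 * k + 1), C (Z ^ m) * qq a a' m := by
  have h1 : ∀ m, C (Z ^ m) * qq a a' m = ∑ i ∈ Finset.range (k + 1),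
      ∑ j ∈ Finset.range (k + 1), if i + k = m + j then
        C (Z ^ m) * (C (es a i * es a' j) * X ^ (i + j)) else 0 := by
    intro m
    rw [qq, Finset.mul_sum]
    refine Finset.sum_congr rfl fun i _ => ?_
    rw [Finset.mul_sum]
    refine Finset.sum_congr rfl fun j _ => ?_
    rw [mul_ite, mul_zero]
  simp only [h1]
  rw [Finset.sum_comm, es_scale, es_scale, Finset.sum_mul_sum, Finset.mul_sum]
  refine Finset.sum_congr rfl fun i hi => ?_
  rw [Finset.sum_comm, Finset.mul_sum]
  refine Finset.sum_congr rfl fun j hj => ?_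
  have hi' := Finset.mem_range.1 hi
  have hj' := Finset.mem_range.1 hj
  rw [Finset.sum_eq_single (i + k - j)]
  · rw [if_pos (by omega)]
    have h2 : Z ^ (i + k - j) = Z ^ k * Z ^ i * Z' ^ j := by
      have h3 : Z ^ (i + k - j) * Z ^ j = Z ^ k * Z ^ i := by
        rw [← pow_add, ← pow_add]
        congr 1
        omega
      rw [← h3, mul_assoc, ← mul_pow, hZ, one_pow, mul_one]
    rw [h2]
    simp only [map_mul, map_pow]
    ring
  · intro m _ hm
    rw [if_neg (by omega)]
  · intro hm
    exact absurd (Finset.mem_range.2 (by omega)) hm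

theorem qq_plus (a a' : Fin k → B) (m : ℕ) : qq a a' (k + m) =
    X ^ m * (C (es a m) + X * ∑ j ∈ Finset.range k,
      C (es a (m + (j + 1)) * es a' (j + 1)) * X ^ (2 * j + 1)) := by
  have h1 : qq a a' (k + m) = ∑ j ∈ Finset.range (k + 1),
      C (es a (m + j) * es a' j) * X ^ (m + 2 * j) := by
    rw [qq, Finset.sum_comm]
    refine Finset.sum_congr rfl fun j hj => ?_
    rcases Nat.lt_or_ge k (m + j) with h | h
    · rw [es_of_lt a h, zero_mul, map_zero, zero_mul]
      refine Finset.sum_eq_zero fun i hi => if_neg ?_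
      have := Finset.mem_range.1 hi
      omega
    · rw [Finset.sum_eq_single (m + j)]
      · rw [if_pos (by omega)]
        congr 2
        omega
      · intro i _ hi
        exact if_neg (by omega)
      · intro hi
        exact absurd (Finset.mem_range.2 (by omega)) hi
  rw [h1, Finset.sum_range_succ', es_zero, mul_one, add_zero, mul_zero, add_zero, mul_add,
    ← mul_assoc, Finset.mul_sum, add_comm, mul_comm (C (es a m))]
  congr 1
  refine Finset.sum_congr rfl fun j _ => ?_
  rw [show m + 2 * (j + 1) = m + 1 + (2 * j + 1) by ring, pow_add, pow_add, pow_one]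
  ring

theorem qq_minus (a a' : Fin k → B) (m : ℕ) (hm : m ≤ k) : qq a a' (k - m) =
    X ^ m * (C (es a' m) + X * ∑ j ∈ Finset.range k,
      C (es a (j + 1) * es a' (m + (j + 1))) * X ^ (2 * j + 1)) := by
  have h1 : qq a a' (k - m) = ∑ i ∈ Finset.range (k + 1),
      C (es a i * es a' (m + i)) * X ^ (m + 2 * i) := by
    rw [qq]
    refine Finset.sum_congr rfl fun i hi => ?_
    rcases Nat.lt_or_ge k (m + i) with h | h
    · rw [es_of_lt a' h, mul_zero, map_zero, zero_mul]
      refine Finset.sum_eq_zero fun j hj => if_neg ?_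
      have := Finset.mem_range.1 hj
      omega
    · rw [Finset.sum_eq_single (m + i)]
      · rw [if_pos (by omega)]
        congr 2
        omega
      · intro j _ hj
        exact if_neg (by omega)
      · intro hj
        exact absurd (Finset.mem_range.2 (by omega)) hj
  rw [h1, Finset.sum_range_succ', es_zero, one_mul, add_zero, mul_zero, add_zero, mul_add,
    ← mul_assoc, Finset.mul_sum, add_comm, mul_comm (C (es a' m))]
  congr 1
  refine Finset.sum_congr rfl fun j _ => ?_
  rw [show m + 2 * (j + 1) = m + 1 + (2 * j + 1) by ring, pow_add, pow_add, pow_one]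
  ring

/-- Splitting the product. -/
theorem prod_append {n : ℕ} (x x' : Fin n → B) (a a' : Fin k → B) :
    ∏ i : Fin (n + k), ((1 + C (Fin.append x a i) * X) * (1 + C (Fin.append x' a' i) * X) : B[X]) =
      (∏ i, ((1 + C (x i) * X) * (1 + C (x' i) * X))) *
        ((∏ i, (1 + C (a i) * X)) * ∏ i, (1 + C (a' i) * X)) := by
  rw [Fin.prod_univ_add]
  simp only [Fin.append_left, Fin.append_right]
  rw [← Finset.prod_mul_distrib (s := (Finset.univ : Finset (Fin k)))]

theorem ind_alg (a a' : Fin k → B) (Z Z' : B) (hZ : Z * Z' = 1) (Q D : B[X]) (r : ℕ) :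
    ∑ m ∈ Finset.range (2 * k + 1), Z ^ m * (Q * qq a a' m * D).coeff r =
      Z ^ k * (Q * (D * ((∏ i, (1 + C (a i * Z) * X : B[X])) *
        ∏ i, (1 + C (a' i * Z') * X : B[X])))).coeff r := by
  have h3 := qq_sum a a' Z Z' hZ
  rw [← coeff_C_mul]
  have h5 : C (Z ^ k) * (Q * (D * ((∏ i, (1 + C (a i * Z) * X : B[X])) *
        ∏ i, (1 + C (a' i * Z') * X : B[X])))) =
      Q * D * ∑ m ∈ Finset.range (2 * k + 1), C (Z ^ m) * qq a a' m := by
    rw [← h3]
    ring
  rw [h5, Finset.mul_sum, finsetSum_coeff]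
  refine Finset.sum_congr rfl fun m _ => ?_
  rw [← coeff_C_mul]
  congr 1
  ring

/-- Coefficients in a subring. -/
theorem coeff_mem_iff (M : Subring B) (f : B[X]) :
    f ∈ Polynomial.liftsRing M.subtype ↔ ∀ j, f.coeff j ∈ M := by
  constructor
  · intro h j
    obtain ⟨b, hb⟩ := (Polynomial.lifts_iff_coeff_lifts _).1 h j
    rw [← hb]
    exact b.2
  · intro h
    exact (Polynomial.lifts_iff_coeff_lifts _).2 fun j => ⟨⟨_, h j⟩, rfl⟩

theorem sum_mem_lifts (M : Subring B) (s : Finset ℕ) (c : ℕ → B) (d : ℕ → ℕ)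
    (h : ∀ i ∈ s, c i ∈ M) :
    (∑ i ∈ s, C (c i) * X ^ (d i) : B[X]) ∈ Polynomial.liftsRing M.subtype := by
  refine sum_mem fun i hi => mul_mem ?_ (pow_mem ?_ _)
  · exact Polynomial.C_mem_lifts M.subtype ⟨_, h i hi⟩
  · exact Polynomial.X_mem_lifts M.subtype

end

end Pool.Agent.EEA520
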