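import Pool.Agent.W_eea520_h66.EvenC

/-! Induction from `GL_k`: all members of `MM` continue. -/

set_option autoImplicit false

namespace Pool.Agent.EEA520

open Filter Polynomial

section

variable {S : (k : ℕ) → Set (GLSys k)} {P : (n : ℕ) → Set (GSys n)}

/-- The twists of the members of `S k`. -/
def TwH (S : (k : ℕ) → Set (GLSys k)) (k : ℕ) : Set (GLSys k) :=
  {τ | ∃ σ ∈ S k, ∃ z : ℂ, τ = fun p i => σ p i * ppow p z}

/-- The dual system. -/
noncomputable def dual {k : ℕ} (σ : GLSys k) : GLSys k := fun p i => (σ p i)⁻¹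

/-- The twists and their duals. -/
def GlS (S : (k : ℕ) → Set (GLSys k)) (k : ℕ) : Set (GLSys k) :=
  {τ | τ ∈ TwH S k ∨ dual τ ∈ TwH S k}

theorem dual_dual {k : ℕ} (σ : GLSys k) : dual (dual σ) = σ := by
  funext p i
  exact inv_inv _

/-- The parameters as elements of `Dat`. -/
noncomputable def sD {k : ℕ} (σ : GLSys k) (i : Fin k) : Dat := fun p => el (σ p i)

theorem extD_eq {k : ℕ} (σ : GLSys k) (a : ℕ) : extD σ a = es (sD σ) a := by
  funext p
  have h1 : (∏ i, (1 + C (el (σ p i)) * X : A[X])) =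
      (∏ i, (1 + C (fun p => el (σ p i) : Dat) * X : Dat[X])).map
        (Pi.evalRingHom (fun _ : Pr => A) p) := by
    rw [Polynomial.map_prod]
    refine Finset.prod_congr rfl fun i _ => ?_
    simp
  simp only [extD]
  rw [h1, Polynomial.coeff_map]
  rfl

theorem bdd_TwH (h : IsCuspidal S P) {k : ℕ} {τ : GLSys k} (hτ : τ ∈ TwH S k) :
    (∀ i, sD τ i ∈ BB) ∧ ∀ i, sD (dual τ) i ∈ BB := by
  obtain ⟨σ, hσ, z, rfl⟩ := hτ
  obtain ⟨B, hB⟩ := h.bddS k σ hσ
  have hp1 : ∀ i, Poly fun p => σ p i := fun i =>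
    poly_of_eventually B (hB.mono fun p hp => (hp i).1)
  have hp2 : ∀ i, Poly fun p => (σ p i)⁻¹ := fun i =>
    poly_of_eventually B (hB.mono fun p hp => (hp i).2)
  refine ⟨fun i => el_mem (a := fun p => σ p i * ppow p z) (poly_mul (hp1 i) (poly_ppow z)),
    fun i => ?_⟩
  have h1 : sD (dual fun p i => σ p i * ppow p z) i =
      fun p => el ((σ p i)⁻¹ * ppow p (-z)) := by
    funext p
    show el ((σ p i * ppow p z)⁻¹) = _
    rw [mul_inv, ppow_neg]
  rw [h1]
  exact el_mem (a := fun p => (σ p i)⁻¹ * ppow p (-z)) (poly_mul (hp2 i) (poly_ppow (-z)))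

theorem CC_induce {n k : ℕ} (π : GSys n) (σ : GLSys k) (z₀ z : ℂ) :
    CC (induce π σ (z₀ + z)) = CC π *
      ((∏ i, (1 + C (sD (fun p i => σ p i * ppow p z₀) i * tw z) * X : Dat[X])) *
        ∏ i, (1 + C (sD (dual fun p i => σ p i * ppow p z₀) i * tw (-z)) * X : Dat[X])) := by
  have h1 := prod_append (fun i => (fun p => el ((π p).x i) : Dat))
    (fun i => (fun p => el ((π p).x i)⁻¹ : Dat))
    (fun i => sD (fun p i => σ p i * ppow p z₀) i * tw z)
    (fun i => sD (dual fun p i => σ p i * ppow p z₀) i * tw (-z))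
  have h2 : ∀ i, Fin.append (fun i => (fun p => el ((π p).x i) : Dat))
      (fun i => sD (fun p i => σ p i * ppow p z₀) i * tw z) i =
      fun p => el ((induce π σ (z₀ + z) p).x i) := by
    intro i
    refine Fin.addCases (fun i => ?_) (fun i => ?_) i
    · rw [Fin.append_left]
      simp only [induce, Fin.append_left]
    · rw [Fin.append_right]
      funext p
      simp only [induce, Fin.append_right, sD, tw, Pi.mul_apply, el, ← map_mul]
      rw [ppow_add, mul_assoc]
  have h3 : ∀ i, Fin.append (fun i => (fun p => el ((π p).x i)⁻¹ : Dat))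
      (fun i => sD (dual fun p i => σ p i * ppow p z₀) i * tw (-z)) i =
      fun p => el ((induce π σ (z₀ + z) p).x i)⁻¹ := by
    intro i
    refine Fin.addCases (fun i => ?_) (fun i => ?_) i
    · rw [Fin.append_left]
      simp only [induce, Fin.append_left]
    · rw [Fin.append_right]
      funext p
      simp only [induce, Fin.append_right, sD, dual, tw, Pi.mul_apply, el, ← map_mul]
      rw [ppow_add, ← mul_assoc, mul_inv _ (ppow p z), ppow_neg]
  simp only [h2, h3] at h1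
  exact h1

/-- The good polynomials. -/
def PP (S : (k : ℕ) → Set (GLSys k)) (P : (n : ℕ) → Set (GSys n)) (Q : Dat[X]) : Prop :=
  Q ∈ Polynomial.liftsRing BB.subtype ∧
    ∀ n (π : GSys n), Eis S P n π → ∀ r, Cont ((Q * CC π).coeff r)

theorem CC_mem {n : ℕ} {π : GSys n} (hπ : Bdd π) : CC π ∈ Polynomial.liftsRing BB.subtype := by
  obtain ⟨B, hB⟩ := hπ
  refine prod_mem fun i _ => mul_mem (add_mem (one_mem _) (mul_mem ?_ ?_))
    (add_mem (one_mem _) (mul_mem ?_ ?_))
  · exact Polynomial.C_mem_lifts BB.subtype ⟨_, el_mem (a := fun p => (π p).x i)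
      (poly_of_eventually B (hB.mono fun p hp => (hp.2 i).1))⟩
  · exact Polynomial.X_mem_lifts BB.subtype
  · exact Polynomial.C_mem_lifts BB.subtype ⟨_, el_mem (a := fun p => ((π p).x i)⁻¹)
      (poly_of_eventually B (hB.mono fun p hp => (hp.2 i).2))⟩
  · exact Polynomial.X_mem_lifts BB.subtype

theorem es_mem {B : Type} [CommRing B] (M : Subring B) {k : ℕ} (a : Fin k → B)
    (ha : ∀ i, a i ∈ M) (j : ℕ) : es a j ∈ M := by
  refine (coeff_mem_iff M _).1 ?_ j
  refine prod_mem fun i _ => add_mem (one_mem _) (mul_mem ?_ ?_)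
  · exact Polynomial.C_mem_lifts M.subtype ⟨_, ha i⟩
  · exact Polynomial.X_mem_lifts M.subtype

theorem qq_mem {B : Type} [CommRing B] (M : Subring B) {k : ℕ} (a a' : Fin k → B)
    (ha : ∀ j, es a j ∈ M) (ha' : ∀ j, es a' j ∈ M) (m : ℕ) :
    qq a a' m ∈ Polynomial.liftsRing M.subtype := by
  refine sum_mem fun i _ => sum_mem fun j _ => ?_
  split_ifs
  · refine mul_mem ?_ (pow_mem (Polynomial.X_mem_lifts M.subtype) _)
    exact Polynomial.C_mem_lifts M.subtype ⟨_, mul_mem (ha i) (ha' j)⟩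
  · exact zero_mem _

/-- Induction and isolation. -/
theorem PP_ind (h : IsCuspidal S P) {Q : Dat[X]} (hQ : PP S P Q) {k : ℕ} {τ : GLSys k}
    (hτ : τ ∈ TwH S k) : ∀ m ≤ 2 * k, PP S P (Q * qq (sD τ) (sD (dual τ)) m) := by
  obtain ⟨hb1, hb2⟩ := bdd_TwH h hτ
  have hq : ∀ m, qq (sD τ) (sD (dual τ)) m ∈ Polynomial.liftsRing BB.subtype := fun m =>
    qq_mem BB _ _ (es_mem BB _ hb1) (es_mem BB _ hb2) m
  intro m hm
  refine ⟨mul_mem hQ.1 (hq m), fun n π hπ r => ?_⟩
  obtain ⟨σ, hσ, z₀, rfl⟩ := hτ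
  refine isolation (2 * k) (fun m => (Q * qq (sD fun p i => σ p i * ppow p z₀)
    (sD (dual fun p i => σ p i * ppow p z₀)) m * CC π).coeff r) (fun m _ => ?_) 0
    (fun z _ => ?_) m hm
  · exact (coeff_mem_iff BB _).1 (mul_mem (mul_mem hQ.1 (hq m)) (CC_mem (hπ.bdd h))) r
  · have h1 := (hQ.2 _ _ (Eis.ind (z₀ + z) hπ hσ) r).tw (k * z)
    have h2 : tw (z : ℂ) * tw (-(z : ℂ)) = 1 := by rw [← tw_add66, add_neg_cancel, tw_zero66]
    have h4 := ind_alg (sD fun p i => σ p i * ppow p z₀)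
      (sD (dual fun p i => σ p i * ppow p z₀)) (tw (z : ℂ)) (tw (-(z : ℂ))) h2 Q (CC π) r
    rw [← tw_pow, CC_induce, ← h4] at h1
    exact h1

/-- The generators. -/
theorem PP_gen (h : IsCuspidal S P) {k : ℕ} {τ : GLSys k} (hτ : τ ∈ GlS S k) (a : ℕ) :
    ∃ (d : ℕ) (R : Dat[X]), R ∈ Polynomial.liftsRing (MM (GlS S)).subtype ∧
      ∀ Q, PP S P Q → PP S P (Q * (X ^ d * (C (extD τ a) + X * R))) := by
  have hmem : ∀ {k : ℕ} {τ : GLSys k}, τ ∈ TwH S k →
      (∀ j, es (sD τ) j ∈ MM (GlS S)) ∧ ∀ j, es (sD (dual τ)) j ∈ MM (GlS S) := by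
    intro k τ hτ
    refine ⟨fun j => ?_, fun j => ?_⟩
    · rw [← extD_eq]
      exact Subring.subset_closure ⟨k, τ, j, Or.inl hτ, rfl⟩
    · rw [← extD_eq]
      exact Subring.subset_closure ⟨k, dual τ, j, Or.inr (by rw [dual_dual]; exact hτ), rfl⟩
  rcases le_or_gt a k with hak | hak
  · rcases hτ with hτ | hτ
    · refine ⟨a, ∑ j ∈ Finset.range k, C (es (sD τ) (a + (j + 1)) *
        es (sD (dual τ)) (j + 1)) * X ^ (2 * j + 1), ?_, fun Q hQ => ?_⟩
      · exact sum_mem_lifts _ _ _ (fun j => 2 * j + 1) fun j _ =>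
          mul_mem ((hmem hτ).1 _) ((hmem hτ).2 _)
      · have h1 := PP_ind h hQ hτ (k + a) (by omega)
        rwa [qq_plus, ← extD_eq] at h1
    · have h0 : sD τ = sD (dual (dual τ)) := by rw [dual_dual]
      refine ⟨a, ∑ j ∈ Finset.range k, C (es (sD (dual τ)) (j + 1) *
        es (sD (dual (dual τ))) (a + (j + 1))) * X ^ (2 * j + 1), ?_, fun Q hQ => ?_⟩
      · exact sum_mem_lifts _ _ _ (fun j => 2 * j + 1) fun j _ =>
          mul_mem ((hmem hτ).1 _) ((hmem hτ).2 _)
      · have h1 := PP_ind h hQ hτ (k - a) (by omega)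
        rw [qq_minus _ _ _ hak] at h1
        rw [extD_eq, h0]
        exact h1
  · refine ⟨0, 0, zero_mem _, fun Q hQ => ?_⟩
    rw [extD_of_lt τ a hak, map_zero, mul_zero, add_zero, mul_zero, mul_zero]
    refine ⟨zero_mem _, fun n π _ r => ?_⟩
    rw [zero_mul, coeff_zero]
    exact cont_zero

/-- The monomials. -/
theorem PP_mon (h : IsCuspidal S P) (x : Dat) (hx : x ∈ Submonoid.closure {D : Dat |
      ∃ (k : ℕ) (σ : GLSys k) (a : ℕ), σ ∈ GlS S k ∧ D = extD σ a}) :
    ∃ (d : ℕ) (R : Dat[X]), R ∈ Polynomial.liftsRing (MM (GlS S)).subtype ∧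
      ∀ Q, PP S P Q → PP S P (Q * (X ^ d * (C x + X * R))) := by
  induction hx using Submonoid.closure_induction with
  | mem x hx =>
    obtain ⟨k, σ, a, hσ, rfl⟩ := hx
    exact PP_gen h hσ a
  | one =>
    refine ⟨0, 0, zero_mem _, fun Q hQ => ?_⟩
    rwa [map_one, mul_zero, add_zero, pow_zero, mul_one, mul_one]
  | mul x y hx hy ihx ihy =>
    obtain ⟨d, R, hR, h1⟩ := ihx
    obtain ⟨d', R', hR', h2⟩ := ihy
    have hM : ∀ x ∈ Submonoid.closure {D : Dat |
        ∃ (k : ℕ) (σ : GLSys k) (a : ℕ), σ ∈ GlS S k ∧ D = extD σ a}, x ∈ MM (GlS S) :=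
      fun x hx => (Submonoid.closure_le (S := (MM (GlS S)).toSubmonoid)).2
        Subring.subset_closure hx
    have hC : ∀ x ∈ Submonoid.closure {D : Dat |
        ∃ (k : ℕ) (σ : GLSys k) (a : ℕ), σ ∈ GlS S k ∧ D = extD σ a},
        (C x : Dat[X]) ∈ Polynomial.liftsRing (MM (GlS S)).subtype := fun x hx =>
      Polynomial.C_mem_lifts (MM (GlS S)).subtype ⟨_, hM x hx⟩
    have hX : (X : Dat[X]) ∈ Polynomial.liftsRing (MM (GlS S)).subtype :=
      Polynomial.X_mem_lifts (MM (GlS S)).subtype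
    refine ⟨d + d', C x * R' + R * C y + X * (R * R'), add_mem (add_mem (mul_mem (hC x hx) hR')
      (mul_mem hR (hC y hy))) (mul_mem hX (mul_mem hR hR')), fun Q hQ => ?_⟩
    have h3 := h2 _ (h1 Q hQ)
    have h4 : Q * (X ^ (d + d') * (C (x * y) + X * (C x * R' + R * C y + X * (R * R')))) =
        Q * (X ^ d * (C x + X * R)) * (X ^ d' * (C y + X * R')) := by
      rw [map_mul, pow_add]
      ring
    rw [h4]
    exact h3

/-- `x * C_s(π)` continues. -/
theorem MM_CC (h : IsCuspidal S P) (h1 : PP S P 1) (s : ℕ) : ∀ x ∈ MM (GlS S),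
    ∀ n (π : GSys n), Eis S P n π → Cont (x * (CC π).coeff s) := by
  induction s using Nat.strong_induction_on with
  | _ s ih =>
    intro x hx
    have hmon : ∀ x ∈ Submonoid.closure {D : Dat | ∃ (k : ℕ) (σ : GLSys k) (a : ℕ),
        σ ∈ GlS S k ∧ D = extD σ a}, ∀ n (π : GSys n), Eis S P n π →
          Cont (x * (CC π).coeff s) := by
      intro x hx n π hπ
      obtain ⟨d, R, hR, h2⟩ := PP_mon h x hx
      have h3 := (h2 1 h1).2 n π hπ (s + d)
      rw [one_mul, mul_assoc, coeff_X_pow_mul, add_mul, coeff_add, coeff_C_mul] at h3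
      have h4 : Cont ((X * R * CC π).coeff s) := by
        rcases s with _ | s
        · rw [mul_assoc, coeff_X_mul_zero]
          exact cont_zero
        · rw [mul_assoc, coeff_X_mul, coeff_mul]
          refine Cont.sum66 _ _ fun y hy => ?_
          have hy' := Finset.HasAntidiagonal.mem_antidiagonal.1 hy
          exact ih y.2 (by omega) _ ((coeff_mem_iff _ _).1 hR y.1) n π hπ
      have h5 := h3.sub h4
      rwa [add_sub_cancel_right] at h5
    rw [MM, Subring.mem_closure_iff] at hx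
    induction hx using AddSubgroup.closure_induction with
    | mem x hx => exact hmon x hx
    | zero =>
      intro n π hπ
      rw [zero_mul]
      exact cont_zero
    | add x y _ _ hx hy =>
      intro n π hπ
      rw [add_mul]
      exact (hx n π hπ).add (hy n π hπ)
    | neg x _ hx =>
      intro n π hπ
      rw [neg_mul]
      exact (hx n π hπ).neg

/-- All members of `MM` continue. -/
theorem MM_cont (h : IsCuspidal S P)
    (hF : ∀ n (π : GSys n), Eis S P n π → ∀ i ≤ n, Cont ((FF (yD π)).coeff i)) :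
    ∀ x ∈ MM (GlS S), Cont x := by
  intro x hx
  have h1 : PP S P 1 := ⟨one_mem _, fun n π hπ r => by
    rw [one_mul]
    exact cont_CC (hF n π hπ) r⟩
  obtain ⟨π₀, hπ₀, -⟩ := h.triv
  have h2 := MM_CC h h1 0 x hx 0 π₀ (Eis.base hπ₀)
  have h3 : (CC π₀).coeff 0 = 1 := by
    unfold CC
    rw [Fin.prod_univ_zero, coeff_one_zero]
  rwa [h3, mul_one] at h2

end

end Pool.Agent.EEA520
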