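import Pool.Agent.W_eea520_h66.Step
import Pool.Agent.W_eea520_h66.Comb
import Pool.Agent.W_eea520_h66.Char

/-! Extraction of symmetric polynomials in the `y_i` from an irreducible character. -/

set_option autoImplicit false

namespace Pool.Agent.EEA520

open Filter Polynomial

/-- The polynomial `V(t) ∏ p_{b_k}(t_k)`. -/
noncomputable def Eb (u : ℤ) {c : ℕ} (b : Fin c → ℕ) : MvPolynomial (Fin c) ℤ :=
  VV (fun k : Fin c => (MvPolynomial.X k : MvPolynomial (Fin c) ℤ)) *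
    ∏ k, (pA u ℤ (b k)).aeval (MvPolynomial.X k : MvPolynomial (Fin c) ℤ)

theorem units_mul_self {B : Type} [CommRing B] (s : ℤˣ) : ((s : ℤ) : B) * ((s : ℤ) : B) = 1 := by
  rw [← Int.cast_mul, ← Units.val_mul, Int.units_mul_self, Units.val_one, Int.cast_one]

theorem NearTo.of_units {s₀ : ℂ} {R : ℝ} {D : Dat} (s : ℤˣ)
    (h : NearTo s₀ R (((s : ℤ) : Dat) * D)) : NearTo s₀ R D := by
  rcases Int.units_eq_one_or s with rfl | rfl
  · rwa [Units.val_one, Int.cast_one, one_mul] at h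
  · have h1 := h.neg
    rwa [Units.val_neg, Units.val_one, Int.cast_neg, Int.cast_one, neg_one_mul, neg_neg] at h1

/-- The irreducible character in terms of `Θ`. -/
theorem irr_eq {N : ℕ} (e : ℕ) (he : e ≤ 1) (k' : ℤ) {c' : ℕ}
    (D : Fin c' ⊕ Fin N ≃ Fin (c' + N)) (μ : Fin N → ℤ) (m : Wt N →₀ ℤ)
    (hm : IsIrr (2 * k' + e) μ m)
    (hD : ∀ j : Fin N, ((D (Sum.inr j) : ℕ) : ℤ) + k' + 1 + e = μ j + ((N : ℤ) - j)) :
    ∃ s : ℤˣ, (AddMonoidAlgebra.ofCoeff m : R N) = ((s : ℤ) : R N) * (mon (k' • nuW N) *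
      spR N ^ e * Th (1 - e) (yR N) (Eb (1 - e) fun j => (D (Sum.inl j) : ℕ))) := by
  obtain ⟨s, hs⟩ := alt_char e he k' D
  have h1 := hm.2.2
  simp only [hD] at hs
  rw [hs] at h1
  refine ⟨s, ?_⟩
  rw [Eb, ← KL_eq_Th]
  exact mul_right_cancel₀ alt_one_ne_zero h1

theorem Phi_yR {n : ℕ} (π : GSys n) (i : Fin n) : Phi π (yR n i) = yD π i := by
  funext p
  have h : Phi π (yR n i) p = Phi π (xx i 1) p + Phi π (xx i (-1)) p := by
    rw [yR, map_add]
    rfl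
  rw [h, xx, xx, Phi_xx, Phi_xx, zpow_one, zpow_neg_one]
  rfl

/-- From `m` to `Θ`. -/
theorem bridge {N : ℕ} {π : GSys N} (e : ℕ)
    (he : e ≤ 1) (k' : ℤ) (ht : ∀ᶠ p in cofinite, (π p).nu ^ k' = 1)
    {c' : ℕ} (D : Fin c' ⊕ Fin N ≃ Fin (c' + N)) (μ : Fin N → ℤ)
    (m : Wt N →₀ ℤ) (hm : IsIrr (2 * k' + e) μ m)
    (hD : ∀ j : Fin N, ((D (Sum.inr j) : ℕ) : ℤ) + k' + 1 + e = μ j + ((N : ℤ) - j)) :
    ∃ s : ℤˣ, ∀ᶠ p in cofinite, Phi π (AddMonoidAlgebra.ofCoeff m : R N) p =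
      (((s : ℤ) : Dat) * (spinD π ^ e *
        Th (1 - e) (yD π) (Eb (1 - e) fun j => (D (Sum.inl j) : ℕ)))) p := by
  obtain ⟨s, hs⟩ := irr_eq e he k' D μ m hm hD
  refine ⟨s, ?_⟩
  rw [hs, map_mul, map_intCast, map_mul, map_mul, map_pow, Phi_spR, Th_map]
  simp only [Phi_yR]
  refine ht.mono fun p hp => ?_
  have h3 : Phi π (mon (k' • nuW N)) p = 1 := by
    rw [Phi_nu]
    have h4 : ((π p).c ^ 2 * ∏ i, (π p).x i) ^ k' = 1 := hp
    rw [h4]
    exact map_one _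
  rw [mul_assoc (Phi π (mon (k' • nuW N))), Pi.mul_apply, Pi.mul_apply (Phi π (mon (k' • nuW N))),
    h3, one_mul, Pi.mul_apply]
  rfl

theorem bridge_near {N : ℕ} {s₀ : ℂ} {R : ℝ} {π : GSys N} (hb : Bdd π) (e : ℕ)
    (he : e ≤ 1) (k' : ℤ) (ht : ∀ᶠ p in cofinite, (π p).nu ^ k' = 1)
    {c' : ℕ} (D : Fin c' ⊕ Fin N ≃ Fin (c' + N)) (μ : Fin N → ℤ)
    (m : Wt N →₀ ℤ) (hm : IsIrr (2 * k' + e) μ m)
    (hD : ∀ j : Fin N, ((D (Sum.inr j) : ℕ) : ℤ) + k' + 1 + e = μ j + ((N : ℤ) - j))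
    (hc : ContinuesNear s₀ R π m) :
    NearTo s₀ R (spinD π ^ e * Th (1 - e) (yD π) (Eb (1 - e) fun j => (D (Sum.inl j) : ℕ))) := by
  obtain ⟨s, hs⟩ := bridge e he k' ht D μ m hm hD
  have h1 := nearTo_of_continuesNear hb (AddMonoidAlgebra.ofCoeff m) hc
  have h0 : spinD π ^ e * Th (1 - e) (yD π) (Eb (1 - e) fun j => (D (Sum.inl j) : ℕ)) ∈ BB :=
    mul_mem (pow_mem (spinD_mem hb) e) (Th_mem _ BB (yD π) (yD_mem hb) _)
  exact NearTo.of_units s (NearTo.congr (mul_mem (intCast_mem _ _) h0) hs h1)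

theorem bridge_cont {N : ℕ} {π : GSys N} (hb : Bdd π) (e : ℕ)
    (he : e ≤ 1) (k' : ℤ) (ht : ∀ᶠ p in cofinite, (π p).nu ^ k' = 1)
    {c' : ℕ} (D : Fin c' ⊕ Fin N ≃ Fin (c' + N)) (μ : Fin N → ℤ)
    (m : Wt N →₀ ℤ) (hm : IsIrr (2 * k' + e) μ m)
    (hD : ∀ j : Fin N, ((D (Sum.inr j) : ℕ) : ℤ) + k' + 1 + e = μ j + ((N : ℤ) - j))
    (hc : Cont (Phi π (AddMonoidAlgebra.ofCoeff m : R N))) :
    Cont (spinD π ^ e * Th (1 - e) (yD π) (Eb (1 - e) fun j => (D (Sum.inl j) : ℕ))) := by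
  obtain ⟨s, hs⟩ := bridge e he k' ht D μ m hm hD
  have h0 : spinD π ^ e * Th (1 - e) (yD π) (Eb (1 - e) fun j => (D (Sum.inl j) : ℕ)) ∈ BB :=
    mul_mem (pow_mem (spinD_mem hb) e) (Th_mem _ BB (yD π) (yD_mem hb) _)
  have h2 := (cont_congr (mul_mem (intCast_mem _ _) h0) hs hc).intCast_mul (s : ℤ)
  rwa [← mul_assoc, units_mul_self, one_mul] at h2

section

variable {Q : (n : ℕ) → GSys n → Prop}

/-- Extraction of a symmetric polynomial. -/
theorem extraction (hQ : KClosed Q) (n q : ℕ) (e : ℕ) {c' : ℕ}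
    (D : Fin c' ⊕ Fin (n + q) ≃ Fin (c' + (n + q)))
    (hyp : ∀ π, Q (n + q) π →
      Cont (spinD π ^ e * Th (1 - e) (yD π) (Eb (1 - e) fun j => (D (Sum.inl j) : ℕ))))
    {s0 : ℕ} (hs0 : s0 + 2 * n ≤ c' + (n + q))
    (hs : ∀ i : Fin c', (D (Sum.inl i) : ℕ) < s0 ∨ s0 + 2 * n ≤ (D (Sum.inl i) : ℕ))
    (δ : Fin c' → ℕ) (hδ : ∀ k, δ k ≤ n)
    (hδ' : ∀ k, δ k ≠ 0 → ∀ i, (D (Sum.inl k) : ℕ) ≤ (D (Sum.inl i) : ℕ))
    (π : GSys n) (hπ : Q n π) :
    Cont (spinD π ^ e * ∏ k, LF (1 - e) Dat (FF (yD π) *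
      (pA (1 - e) Dat (ee n s0 (fun k => (D (Sum.inl k) : ℕ)) δ k) *
        pA (1 - e) Dat (D (Sum.inl k) : ℕ)))) := by
  obtain ⟨d, s, hd⟩ := extract (1 - (e : ℤ)) D hs0 hs δ hδ hδ'
  have h1 := steps_KL hQ (1 - (e : ℤ)) e (Eb (1 - e) fun j => (D (Sum.inl j) : ℕ)) q n hyp d π hπ
  rw [Eb, hd Dat (yD π), mul_left_comm] at h1
  have h2 := h1.intCast_mul (s : ℤ)
  rwa [← mul_assoc, units_mul_self, one_mul] at h2

/-- The hypothesis for an irreducible character. -/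
theorem first (hQ : KClosed Q) (N : ℕ) (e : ℕ) (he : e ≤ 1)
    (k' : ℤ) (hnu : ∀ π : GSys N, Q N π → ∀ᶠ p in cofinite, (π p).nu ^ k' = 1)
    (μ : Fin (N + 1) → ℤ) (m : Wt (N + 1) →₀ ℤ) (hm : IsIrr (2 * k' + e) μ m)
    {c' : ℕ} (hc' : (c' : ℤ) = μ 0 - k' - e) (D' : Fin c' ⊕ Fin N ≃ Fin (c' + N))
    (hD' : ∀ j : Fin N, ((D' (Sum.inr j) : ℕ) : ℤ) + k' + 1 + e = μ j.succ + ((N : ℤ) - j))
    (hyp : ∀ π, Q N π → ContinuesBeyond (μ 0 - (2 * k' + e : ℤ) / 2) π m)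
    (π : GSys N) (hπ : Q N π) :
    Cont (spinD π ^ e * Th (1 - e) (yD π) (Eb (1 - e) fun j => (D' (Sum.inl j) : ℕ))) := by
  obtain ⟨D, h1, h2, h3⟩ := extendD D'
  have hD : ∀ j : Fin (N + 1), ((D (Sum.inr j) : ℕ) : ℤ) + k' + 1 + e =
      μ j + (((N + 1 : ℕ) : ℤ) - j) := by
    intro j
    refine Fin.cases ?_ (fun j => ?_) j
    · rw [h2]
      push_cast
      rw [hc']
      simp
      ring
    · rw [h3, hD', Fin.val_succ]
      push_cast
      ring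
  refine step_top (1 - e) e (hQ.bdd hπ) _ fun R => ?_
  obtain ⟨z, hz, hz'⟩ := hyp π hπ R
  have h5 := bridge_near (bdd_klingen (hQ.bdd hπ) z) e he k' ((hnu π hπ).mono fun p hp => by
    rw [nu_klingen, hp]) D μ m hm hD hz'
  simp only [h1] at h5
  have h4 : ((c' : ℤ) : ℂ) = ((μ 0 - k' - e : ℤ) : ℂ) := by rw [hc']
  have h6 : (((μ 0 - (2 * k' + e : ℤ) / 2 : ℝ) : ℂ)) = (c' : ℂ) + e / 2 := by
    push_cast at h4 ⊢
    rw [h4]
    ring
  rw [h6] at h5
  exact ⟨z, hz, h5⟩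

/-- What the extraction gives. -/
def Extracted (Q : (n : ℕ) → GSys n → Prop) (n e : ℕ) (k' v : ℤ) : Prop :=
  ∃ (q c' : ℕ) (D : Fin c' ⊕ Fin (n + q) ≃ Fin (c' + (n + q))) (s : ℕ),
    (∀ π, Q (n + q) π →
      Cont (spinD π ^ e * Th (1 - e) (yD π) (Eb (1 - e) fun j => (D (Sum.inl j) : ℕ)))) ∧
    s + 2 * n ≤ c' + (n + q) ∧
    (∀ i : Fin c', (D (Sum.inl i) : ℕ) < s ∨ s + 2 * n ≤ (D (Sum.inl i) : ℕ)) ∧
    (e = 0 → k' < v → ∃ i : Fin c', (D (Sum.inl i) : ℕ) < s)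

/-- The extraction, from an irreducible character. -/
theorem extraction_irr (hQ : KClosed Q) (N : ℕ) (e : ℕ) (he : e ≤ 1)
    (k' : ℤ) (hnu : ∀ π : GSys N, Q N π → ∀ᶠ p in cofinite, (π p).nu ^ k' = 1)
    (μ : Fin (N + 1) → ℤ) (m : Wt (N + 1) →₀ ℤ) (hm : IsIrr (2 * k' + e) μ m)
    (v : ℤ) (n : ℕ) (hr : 2 * n + 2 ≤ (Finset.univ.filter fun i => μ i = v).card)
    (hyp : ∀ π, Q N π → ContinuesBeyond (μ 0 - (2 * k' + e : ℤ) / 2) π m) :
    Extracted Q n e k' v := by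
  have hcard : 2 * n + 2 ≤ N + 1 := by
    have := Finset.card_filter_le (Finset.univ : Finset (Fin (N + 1))) fun i => μ i = v
    rw [Finset.card_univ, Fintype.card_fin] at this
    omega
  obtain ⟨q, rfl⟩ : ∃ q, N = n + q := ⟨N - n, by omega⟩
  have hd := hm.2.1
  obtain ⟨c', hc'⟩ : ∃ c' : ℕ, (c' : ℤ) = μ 0 - k' - e := by
    refine ⟨(μ 0 - k' - e).toNat, Int.toNat_of_nonneg ?_⟩
    have := hd 0
    omega
  have hr' : 2 * n + 1 ≤ (Finset.univ.filter fun i : Fin (n + q) => μ i.succ = v).card := by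
    have h1 : (Finset.univ.filter fun i : Fin (n + q + 1) => μ i = v).card ≤
        (Finset.univ.filter fun i : Fin (n + q) => μ i.succ = v).card + 1 := by
      have h2 : (Finset.univ.filter fun i : Fin (n + q + 1) => μ i = v) ⊆
          insert 0 ((Finset.univ.filter fun i : Fin (n + q) => μ i.succ = v).image
            Fin.succ) := by
        intro i hi
        rw [Finset.mem_insert]
        rcases Fin.eq_zero_or_eq_succ i with rfl | ⟨j, rfl⟩
        · exact Or.inl rfl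
        · exact Or.inr (Finset.mem_image_of_mem _ (Finset.mem_filter.2
            ⟨Finset.mem_univ _, (Finset.mem_filter.1 hi).2⟩))
      exact (Finset.card_le_card h2).trans ((Finset.card_insert_le _ _).trans
        (Nat.succ_le_succ Finset.card_image_le))
    omega
  obtain ⟨D, s, hD, hs0, hs, hex⟩ := comb k' e he (fun i => μ i.succ)
    (fun i j hij => hm.1 (Fin.succ_le_succ_iff.2 hij)) (fun i => hd i.succ) c'
    (fun i => by
      have := hm.1 (Fin.zero_le i.succ)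
      omega) v n hr'
  exact ⟨q, c', D, s, first hQ (n + q) e he k' hnu μ m hm hc' D hD hyp, hs0, hs, hex⟩

/-- The extraction, from an irreducible character, in the case of full continuation. -/
theorem extraction_irr_full (N : ℕ) (e : ℕ) (he : e ≤ 1) (k' : ℤ)
    (μ : Fin N → ℤ) (m : Wt N →₀ ℤ) (hm : IsIrr (2 * k' + e) μ m)
    (v : ℤ) (n : ℕ) (hr : 2 * n + 1 ≤ (Finset.univ.filter fun i => μ i = v).card)
    (hyp : ∀ (c' : ℕ) (D : Fin c' ⊕ Fin N ≃ Fin (c' + N)),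
      (∀ j : Fin N, ((D (Sum.inr j) : ℕ) : ℤ) + k' + 1 + e = μ j + ((N : ℤ) - j)) →
      ∀ π, Q N π →
        Cont (spinD π ^ e * Th (1 - e) (yD π) (Eb (1 - e) fun j => (D (Sum.inl j) : ℕ)))) :
    Extracted Q n e k' v := by
  have hcard : 2 * n + 1 ≤ N := by
    have := Finset.card_filter_le (Finset.univ : Finset (Fin N)) fun i => μ i = v
    rw [Finset.card_univ, Fintype.card_fin] at this
    omega
  obtain ⟨q, rfl⟩ : ∃ q, N = n + q := ⟨N - n, by omega⟩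
  have hd := hm.2.1
  have h0 : 0 < n + q := by omega
  obtain ⟨c', hc'⟩ : ∃ c' : ℕ, (c' : ℤ) = μ ⟨0, h0⟩ - k' - e := by
    refine ⟨(μ ⟨0, h0⟩ - k' - e).toNat, Int.toNat_of_nonneg ?_⟩
    have := hd ⟨0, h0⟩
    omega
  obtain ⟨D, s, hD, hs0, hs, hex⟩ := comb k' e he μ hm.1 hd c'
    (fun i => by
      have := hm.1 (show (⟨0, h0⟩ : Fin (n + q)) ≤ i from Nat.zero_le _)
      omega) v n hr
  exact ⟨q, c', D, s, hyp c' D hD, hs0, hs, hex⟩

/-- The case of odd `k`. -/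
theorem Extracted.odd (hQ : KClosed Q) {n : ℕ} {k' v : ℤ} (h : Extracted Q n 1 k' v)
    (π : GSys n) (hπ : Q n π) : Cont (spinD π) := by
  obtain ⟨q, c', D, s, hH, hs0, hs, -⟩ := h
  have h1 := extraction hQ n q 1 D hH hs0 hs 0 (fun _ => Nat.zero_le _)
    (fun k hk => absurd rfl hk) π hπ
  rw [Finset.prod_eq_one fun k _ => diag_one _ hs (yD π) rfl, pow_one, mul_one] at h1
  exact h1

/-- The case of even `k`. -/
theorem Extracted.even (hQ : KClosed Q) {n : ℕ} {k' v : ℤ} (h : Extracted Q n 0 k' v)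
    (hv : k' < v) (π : GSys n) (hπ : Q n π) : ∀ i ≤ n, Cont ((FF (yD π)).coeff i) := by
  obtain ⟨q, c', D, s, hH, hs0, hs, hex⟩ := h
  obtain ⟨i0, hi0⟩ := hex rfl hv
  obtain ⟨i1, -, hi1⟩ := Finset.exists_min_image (Finset.univ : Finset (Fin c'))
    (fun i => (D (Sum.inl i) : ℕ)) ⟨i0, Finset.mem_univ _⟩
  have hlt : (D (Sum.inl i1) : ℕ) < s := lt_of_le_of_lt (hi1 i0 (Finset.mem_univ _)) hi0
  have key : ∀ j ≤ n, Cont ((FF (yD π)).coeff (n - j)) := by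
    intro j
    induction j using Nat.strong_induction_on with
    | _ j ih =>
      intro hj
      have h1 := extraction hQ n q 0 D hH hs0 hs
        (Pi.single i1 j) (fun k => by
          by_cases hk : k = i1
          · subst hk
            rw [Pi.single_eq_same]
            exact hj
          · rw [Pi.single_eq_of_ne hk]
            exact Nat.zero_le _) (fun k hk i => by
          by_cases hk' : k = i1
          · subst hk'
            exact hi1 i (Finset.mem_univ _)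
          · rw [Pi.single_eq_of_ne hk'] at hk
            exact absurd rfl hk) π hπ
      rw [pow_zero, one_mul, Finset.prod_eq_single i1 (fun k _ hk =>
        diag_one _ hs (yD π) (by rw [Pi.single_eq_of_ne hk]))
        (fun h => absurd (Finset.mem_univ _) h)] at h1
      obtain ⟨z, hz1, hz0, hz⟩ := diag_shift (1 - ((0 : ℕ) : ℤ)) n (D (Sum.inl i1) : ℕ) j hj
      have h2 : ee n s (fun k => (D (Sum.inl k) : ℕ)) (Pi.single i1 j) i1 =
          (D (Sum.inl i1) : ℕ) + n - j := by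
        unfold ee
        rw [if_pos hlt, Pi.single_eq_same]
      rw [h2, hz Dat (yD π)] at h1
      have h3 : (FF (yD π)).coeff (n - j) = (∑ i ∈ Finset.range (n + 1), (z i : Dat) *
          (FF (yD π)).coeff i) - ∑ i ∈ (Finset.range (n + 1)).erase (n - j), (z i : Dat) *
          (FF (yD π)).coeff i := by
        rw [← Finset.add_sum_erase (Finset.range (n + 1)) _
          (Finset.mem_range.2 (show n - j < n + 1 by omega)), hz1, Int.cast_one, one_mul,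
          add_sub_cancel_right]
      rw [h3]
      refine h1.sub (Cont.sum66 _ _ fun i hi => ?_)
      have hi2 := Finset.mem_erase.1 hi
      have hi3 := Finset.mem_range.1 hi2.2
      rcases Nat.lt_or_ge i (n - j) with h4 | h4
      · rw [hz0 i h4, Int.cast_zero, zero_mul]
        exact cont_zero
      · refine Cont.intCast_mul ?_ _
        have h5 := ih (n - i) (by omega) (Nat.sub_le _ _)
        rwa [show n - (n - i) = i by omega] at h5
  intro i hi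
  have h1 := key (n - i) (Nat.sub_le _ _)
  rwa [show n - (n - i) = i by omega] at h1

end

end Pool.Agent.EEA520
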