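import Pool.Agent.W_eea520_h66.IrrB

/-! The characters are the `ℤ`-combinations of the irreducible characters. -/

set_option autoImplicit false

namespace Pool.Agent.EEA520

open Polynomial

private theorem Gen_ind (n : ℕ) (U : AddSubgroup (R n))
    (hU : ∀ w : Wt n, Dominant w → ∃ P ∈ U, Top w P ∧ IsCharacter P.coeff) (N : ℕ) :
    ∀ m : R n, IsCharacter m.coeff → (∀ w, m.coeff w ≠ 0 → ht w < N) → m ∈ U := by
  classical
  induction N with
  | zero =>
    intro m hm hlt
    have h0 : m = 0 := by
      by_contra hne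
      have h1 : m.coeff.support.Nonempty := by
        rw [Finsupp.support_nonempty_iff]
        intro h2
        apply hne
        apply AddMonoidAlgebra.ext
        rw [h2]
        rfl
      obtain ⟨w, hw, hmax⟩ := Finset.exists_max_image m.coeff.support ht h1
      have h2 : Dominant w := dominant_of_max hm (Finsupp.mem_support_iff.mp hw)
        fun v hv => hmax v (Finsupp.mem_support_iff.mpr hv)
      have h3 := h2.ht_nonneg
      have h4 := hlt w (Finsupp.mem_support_iff.mp hw)
      rw [Nat.cast_zero] at h4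
      omega
    rw [h0]
    exact U.zero_mem
  | succ N ih =>
    intro m hm hlt
    have hex : ∀ w : Wt n, m.coeff w ≠ 0 → ht w = N →
        ∃ P : R n, Top w P ∧ P ∈ U ∧ IsCharacter P.coeff := by
      intro w hw hN
      have h2 : Dominant w := dominant_of_max hm hw fun v hv => by
        have := hlt v hv
        push_cast at this
        omega
      obtain ⟨P, h3, h4, h5⟩ := hU w h2
      exact ⟨P, h4, h3, h5⟩
    choose! P hP using hex
    let S : Finset (Wt n) := m.coeff.support.filter fun w => ht w = N
    have hS : ∀ w, w ∈ S ↔ m.coeff w ≠ 0 ∧ ht w = N := fun w => by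
      rw [Finset.mem_filter, Finsupp.mem_support_iff]
    let T : R n := ∑ w ∈ S, m.coeff w • P w
    have hsum : ∀ (s : Finset (Wt n)) (f : Wt n → R n), (∀ i ∈ s, IsCharacter (f i).coeff) →
        IsCharacter (∑ i ∈ s, f i).coeff := by
      intro s f h
      induction s using Finset.induction_on with
      | empty =>
        rw [Finset.sum_empty]
        exact ⟨fun _ _ _ => rfl, fun _ _ _ => rfl⟩
      | insert a s ha ih =>
        rw [Finset.sum_insert ha]
        exact isCharacter_add (h a (Finset.mem_insert_self _ _))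
          (ih fun i hi => h i (Finset.mem_insert_of_mem hi))
    have hT : IsCharacter T.coeff := hsum _ _ fun w hw =>
      isCharacter_zsmul (hP w ((hS w).1 hw).1 ((hS w).1 hw).2).2.2 _
    have hTU : T ∈ U := U.sum_mem fun w hw =>
      U.zsmul_mem (hP w ((hS w).1 hw).1 ((hS w).1 hw).2).2.1 _
    have hTc : ∀ v, T.coeff v = ∑ w ∈ S, m.coeff w * (P w).coeff v := by
      intro v
      have h1 : T.coeff = ∑ w ∈ S, (m.coeff w • P w).coeff :=
        AddMonoidAlgebra.coeff_sum _ _
      rw [h1, Finsupp.finsetSum_apply]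
      refine Finset.sum_congr rfl fun w _ => ?_
      rw [AddMonoidAlgebra.coeff_smul_apply, smul_eq_mul]
    have hm' : m + (-1 : ℤ) • T ∈ U := by
      apply ih _ (isCharacter_add hm (isCharacter_zsmul hT _))
      intro v hv
      by_contra hcon
      push Not at hcon
      apply hv
      have h1 : (m + (-1 : ℤ) • T).coeff v = m.coeff v - T.coeff v := by
        rw [AddMonoidAlgebra.coeff_add, Finsupp.add_apply, AddMonoidAlgebra.coeff_smul_apply,
          smul_eq_mul]
        ring
      rw [h1, hTc]
      have h0 : ∀ w ∈ S, v ≠ w → (P w).coeff v = 0 := by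
        intro w hw hvw
        by_contra h2
        have h3 := (hP w ((hS w).1 hw).1 ((hS w).1 hw).2).1.2 v h2 hvw
        rw [((hS w).1 hw).2] at h3
        omega
      by_cases hvS : v ∈ S
      · rw [Finset.sum_eq_single v]
        · rw [(hP v ((hS v).1 hvS).1 ((hS v).1 hvS).2).1.1, mul_one, sub_self]
        · intro w hw hwv
          rw [h0 w hw hwv.symm, mul_zero]
        · intro h
          exact absurd hvS h
      · have h2 : m.coeff v = 0 := by
          by_contra h3
          apply hvS
          rw [hS]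
          refine ⟨h3, ?_⟩
          have := hlt v h3
          push_cast at this
          omega
        rw [h2, zero_sub, neg_eq_zero]
        refine Finset.sum_eq_zero fun w hw => ?_
        rw [h0 w hw (fun h => hvS (by rw [h]; exact hw)), mul_zero]
    have h2 : m = (m + (-1 : ℤ) • T) + T := by
      rw [neg_smul, one_smul, neg_add_cancel_right]
    rw [h2]
    exact U.add_mem hm' hTU

/-- The characters are the `ℤ`-combinations of the irreducible characters. -/
theorem alg_irr (n : ℕ) (U : AddSubgroup (R n))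
    (hU : ∀ (k : ℤ) (μ : Fin n → ℤ) (m : Wt n →₀ ℤ), IsIrr k μ m →
      (AddMonoidAlgebra.ofCoeff m : R n) ∈ U)
    (m : R n) (hm : IsCharacter m.coeff) : m ∈ U := by
  classical
  obtain ⟨N, hN⟩ : ∃ N : ℕ, ∀ w, m.coeff w ≠ 0 → ht w < N := by
    refine ⟨(∑ w ∈ m.coeff.support, |ht w|).toNat + 1, fun w hw => ?_⟩
    have h1 : |ht w| ≤ ∑ w ∈ m.coeff.support, |ht w| :=
      Finset.single_le_sum (f := fun w => |ht w|) (fun v _ => abs_nonneg _)
        (Finsupp.mem_support_iff.mpr hw)
    have h2 := le_abs_self (ht w)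
    have h3 := Int.self_le_toNat (∑ w ∈ m.coeff.support, |ht w|)
    push_cast
    omega
  refine Gen_ind n U (fun w hw => ?_) N m hm hN
  obtain ⟨k, μ⟩ := w
  obtain ⟨m', h1, h2⟩ := exists_isIrr k μ (fun i j hij => hw.2 i j hij) hw.1
  exact ⟨AddMonoidAlgebra.ofCoeff m', hU k μ m' h1, h1.top, h2⟩

/-- `IsIrr` determines the character. -/
theorem IsIrr.unique {N : ℕ} {k : ℤ} {μ : Fin N → ℤ} {m m' : Wt N →₀ ℤ} (h : IsIrr k μ m)
    (h' : IsIrr k μ m') : m = m' := by
  have h1 := h.2.2.trans h'.2.2.symm
  have h2 := mul_right_cancel₀ alt_one_ne_zero h1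
  exact AddMonoidAlgebra.ofCoeff_injective h2

theorem IsIrr.isCharacter {N : ℕ} {k : ℤ} {μ : Fin N → ℤ} {m : Wt N →₀ ℤ} (h : IsIrr k μ m) :
    IsCharacter m := by
  obtain ⟨m', h1, h2⟩ := exists_isIrr k μ h.1 h.2.1
  rwa [h.unique h1]

end Pool.Agent.EEA520
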