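import Pool.Agent.W_eea520_h3.Hol3
import Pool.Agent.W_eea520p_h56.RepB

/-!
# The order of the Adams square is odd (MP_eea520_nt)
-/

set_option autoImplicit false

namespace Pool.Agent.EEAH

open Filter Topology Pool.Agent.EEA520 Pool.Agent.EEAG1 Pool.Agent.EEAN Pool.Agent.EEAP

variable {n : ℕ}

theorem dbl_injective : Function.Injective fun w : Wt n => w + w := by
  intro v w h
  have h1 : v + v = w + w := h
  refine Prod.ext ?_ ?_
  · have h2 := congrArg Prod.fst h1
    simp only [Prod.fst_add] at h2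
    omega
  · funext i
    have h2 := congrFun (congrArg Prod.snd h1) i
    simp only [Prod.snd_add, Pi.add_apply] at h2
    omega

theorem adams_dbl (m : Wt n →₀ ℤ) (w : Wt n) : adams m (w + w) = m w :=
  Finsupp.mapDomain_apply dbl_injective m w

theorem adams_not (m : Wt n →₀ ℤ) {u : Wt n} (hu : ¬ ∃ w : Wt n, w + w = u) : adams m u = 0 := by
  refine Finsupp.mapDomain_notin_range m u ?_
  rintro ⟨w, hw⟩
  exact hu ⟨w, hw⟩

theorem adams_add (m m' : Wt n →₀ ℤ) : adams (m + m') = adams m + adams m' :=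
  Finsupp.mapDomain_add

/-- The square of a character is its Adams square modulo two. -/
theorem adams_sq (f : R n) :
    ∃ g : R n, f * f = AddMonoidAlgebra.ofCoeff (adams f.coeff) + (2 : ℤ) • g := by
  induction f using AddMonoidAlgebra.induction_linear with
  | zero =>
    refine ⟨0, ?_⟩
    have h : adams (0 : Wt n →₀ ℤ) = 0 := Finsupp.mapDomain_zero
    rw [AddMonoidAlgebra.coeff_zero, h, mul_zero, smul_zero, add_zero]
    rfl
  | add x y hx hy =>
    obtain ⟨g, hg⟩ := hx
    obtain ⟨g', hg'⟩ := hy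
    refine ⟨g + g' + x * y, ?_⟩
    have h1 : (AddMonoidAlgebra.ofCoeff (adams (x + y).coeff) : R n) =
        AddMonoidAlgebra.ofCoeff (adams x.coeff) + AddMonoidAlgebra.ofCoeff (adams y.coeff) := by
      rw [AddMonoidAlgebra.coeff_add, adams_add]
      rfl
    have h2 : (x + y) * (x + y) = x * x + y * y + (2 : ℤ) • (x * y) := by
      rw [two_zsmul]
      ring
    rw [h1, h2, hg, hg', smul_add, smul_add]
    abel
  | single w z =>
    obtain ⟨k, hk⟩ := Int.even_mul_pred_self z
    refine ⟨AddMonoidAlgebra.single (w + w) k, ?_⟩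
    have h1 : adams (AddMonoidAlgebra.single w z : R n).coeff = Finsupp.single (w + w) z := by
      rw [AddMonoidAlgebra.coeff_single]
      exact Finsupp.mapDomain_single
    rw [h1, AddMonoidAlgebra.single_mul_single, AddMonoidAlgebra.smul_single]
    have h2 : (AddMonoidAlgebra.ofCoeff (Finsupp.single (w + w) z) : R n) =
        AddMonoidAlgebra.single (w + w) z := rfl
    rw [h2, ← AddMonoidAlgebra.single_add]
    congr 1
    have h3 : z * z = z + z * (z - 1) := by ring
    rw [h3, hk]
    simp only [smul_eq_mul]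
    ring

theorem adams_inv {m : Wt n →₀ ℤ} (T T' : Wt n → Wt n) (h1 : ∀ w, T (w + w) = T w + T w)
    (h2 : ∀ w, T' (w + w) = T' w + T' w) (hl : ∀ w, T' (T w) = w) (hm : ∀ w, m (T w) = m w)
    (u : Wt n) : adams m (T u) = adams m u := by
  by_cases hu : ∃ w : Wt n, w + w = u
  · obtain ⟨w, rfl⟩ := hu
    rw [h1, adams_dbl, adams_dbl, hm]
  · have hu' : ¬ ∃ w : Wt n, w + w = T u := by
      rintro ⟨v, hv⟩
      refine hu ⟨T' v, ?_⟩
      rw [← h2, hv, hl]
    rw [adams_not m hu, adams_not m hu']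

theorem adams_isCharacter {m : Wt n →₀ ℤ} (hm : IsCharacter m) : IsCharacter (adams m) := by
  classical
  refine ⟨fun σ k μ => ?_, fun i k μ => ?_⟩
  · exact adams_inv (fun w => (w.1, w.2 ∘ σ)) (fun w => (w.1, w.2 ∘ σ.symm))
      (fun w => rfl) (fun w => rfl)
      (fun w => Prod.ext rfl (by funext j; simp)) (fun w => hm.1 σ w.1 w.2) (k, μ)
  · have hT : ∀ w : Wt n, ((w + w).1, Function.update (w + w).2 i ((w + w).1 - (w + w).2 i)) =
        ((w.1, Function.update w.2 i (w.1 - w.2 i)) : Wt n) +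
          (w.1, Function.update w.2 i (w.1 - w.2 i)) := by
      intro w
      refine Prod.ext rfl ?_
      funext j
      show Function.update (w + w).2 i ((w + w).1 - (w + w).2 i) j =
        Function.update w.2 i (w.1 - w.2 i) j + Function.update w.2 i (w.1 - w.2 i) j
      by_cases hj : j = i
      · subst hj
        rw [Function.update_self, Function.update_self]
        simp only [Prod.fst_add, Prod.snd_add, Pi.add_apply]
        ring
      · rw [Function.update_of_ne hj, Function.update_of_ne hj]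
        rfl
    exact adams_inv (fun w => (w.1, Function.update w.2 i (w.1 - w.2 i)))
      (fun w => (w.1, Function.update w.2 i (w.1 - w.2 i))) hT hT
      (fun w => Prod.ext rfl (by
        funext j
        show Function.update (Function.update w.2 i (w.1 - w.2 i)) i
          (w.1 - Function.update w.2 i (w.1 - w.2 i) i) j = w.2 j
        by_cases hj : j = i
        · subst hj
          rw [Function.update_self, Function.update_self]
          ring
        · rw [Function.update_of_ne hj, Function.update_of_ne hj]))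
      (fun w => hm.2 i w.1 w.2) (k, μ)

theorem adams_inv0 {f : R n} (hf : Inv0 f) :
    Inv0 (AddMonoidAlgebra.ofCoeff (adams f.coeff) : R n) := by
  refine ⟨adams_isCharacter hf.1, fun u hu => ?_⟩
  have hu' : adams f.coeff u ≠ 0 := hu
  by_cases h : ∃ w : Wt n, w + w = u
  · obtain ⟨w, rfl⟩ := h
    rw [adams_dbl] at hu'
    rw [Prod.fst_add, hf.2 w hu', add_zero]
  · exact absurd (adams_not _ h) hu'

theorem PoleOrder.add66 {π : GSys n} (hπ : Tempered π) {m m' : Wt n →₀ ℤ} {t : ℝ} {k k' : ℤ}
    (h : PoleOrder π m (pt t) k) (h' : PoleOrder π m' (pt t) k') :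
    PoleOrder π (m + m') (pt t) (k + k') := by
  obtain ⟨g, hg, ho, hL⟩ := h
  obtain ⟨g', hg', ho', hL'⟩ := h'
  refine ⟨g * g', hg.mul hg', ?_, ?_⟩
  · rw [meromorphicOrderAt_mul hg hg', ho, ho']
    have e : -(k + k') = -k + -k' := by ring
    rw [e]
    rfl
  · filter_upwards [hL, hL', Gen2_mem t] with s h1 h2 hs
    have h3 := h1.mul h2
    refine h3.congr_fun fun p => ?_
    exact Gen2_factor_add (fun w => norm_ev hπ p w) (Gen2_norm hs p) m m'

theorem PoleOrder.neg66 {π : GSys n} (hπ : Tempered π) {m : Wt n →₀ ℤ} {t : ℝ} {k : ℤ}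
    (h : PoleOrder π m (pt t) k) : PoleOrder π (-m) (pt t) (-k) := by
  obtain ⟨g, hg, ho, hL⟩ := h
  refine ⟨g⁻¹, hg.inv, ?_, ?_⟩
  · rw [meromorphicOrderAt_inv, ho]
    rfl
  · filter_upwards [hL, Gen2_mem t] with s h1 hs
    have h2 := factor_hasProd hπ (-m) hs
    have h3 := h1.mul h2
    have h4 : HasProd (fun _ : Pr => (1 : ℂ)) (g s * Complex.exp (LSeries (chn π (-m)) s +
        hol π (-m) s)) := by
      refine h3.congr_fun fun p => ?_
      rw [← Gen2_factor_add (fun w => norm_ev hπ p w) (Gen2_norm hs p) m (-m), add_neg_cancel]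
      unfold Torus.factor
      rw [Finsupp.prod_zero_index]
    have h5 := h4.unique hasProd_one
    have h6 : (g⁻¹) s = Complex.exp (LSeries (chn π (-m)) s + hol π (-m) s) := by
      rw [Pi.inv_apply]
      exact inv_eq_of_mul_eq_one_right h5
    rw [h6]
    exact h2

theorem PoleOrder.zero66 (π : GSys n) (t : ℝ) : PoleOrder π (0 : Wt n →₀ ℤ) (pt t) 0 := by
  refine ⟨fun _ => 1, MeromorphicAt.const 1 _, ?_, ?_⟩
  · rw [meromorphicOrderAt_const]
    simp
  · refine Eventually.of_forall fun s => ?_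
    have h : (fun p : Pr => (π p).factor (0 : Wt n →₀ ℤ) (((p : ℕ) : ℂ) ^ (-s))) =
        fun _ => 1 := by
      funext p
      unfold Torus.factor
      rw [Finsupp.prod_zero_index]
    rw [h]
    exact hasProd_one

/-- The characters with their orders. -/
def PS {π : GSys n} (hπ : Tempered π) (t : ℝ) : AddSubgroup ((Wt n →₀ ℤ) × ℤ) where
  carrier := {x | PoleOrder π x.1 (pt t) x.2}
  add_mem' := fun hx hy => PoleOrder.add66 hπ hx hy
  zero_mem' := PoleOrder.zero66 π t
  neg_mem' := fun hx => PoleOrder.neg66 hπ hx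

theorem pt_zero66 : pt 0 = 1 := by
  unfold pt
  simp

/-- The order of a virtual character of `SO_{2n+1}` is its multiplicity of the trivial
representation. -/
theorem order66 {π : GSys n} (hπ : Tempered π)
    (hST : ∀ (μ : Fin n → ℤ) (m : Wt n →₀ ℤ), IsIrr 0 μ m → μ ≠ 0 → PoleOrder π m 1 0)
    {f : R n} (hf : Inv0 f) : PoleOrder π f.coeff 1 (mult f 0) := by
  classical
  have hc := dec_sum hf
  have key : ((f.coeff, mult f 0) : (Wt n →₀ ℤ) × ℤ) ∈ PS hπ 0 := by
    have h1 : ((f.coeff, mult f 0) : (Wt n →₀ ℤ) × ℤ) = ∑ μ ∈ (dec f).support,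
        (dec f μ) • (((chi μ).coeff, if μ = dz n then 1 else 0) : (Wt n →₀ ℤ) × ℤ) := by
      refine Prod.ext ?_ ?_
      · rw [Prod.fst_sum]
        conv_lhs => rw [hc]
        rw [Finsupp.sum, AddMonoidAlgebra.coeff_sum]
        refine Finset.sum_congr rfl fun μ _ => ?_
        ext w
        show (dec f μ • chi μ).coeff w = (dec f μ • (chi μ).coeff) w
        rw [AddMonoidAlgebra.coeff_smul_apply, Finsupp.smul_apply]
      · rw [Prod.snd_sum]
        have h2 : ∀ μ ∈ (dec f).support,
            ((dec f μ) • (((chi μ).coeff, if μ = dz n then 1 else 0) : (Wt n →₀ ℤ) × ℤ)).2 =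
            if μ = dz n then dec f (dz n) else 0 := by
          intro μ _
          by_cases hμ : μ = dz n
          · subst hμ
            simp
          · simp [hμ]
        rw [Finset.sum_congr rfl h2, Finset.sum_ite_eq']
        show mult f 0 = _
        have h3 : dec f (dz n) = mult f 0 := dec_apply hf (dz n)
        by_cases h4 : dz n ∈ (dec f).support
        · rw [if_pos h4, h3]
        · rw [if_neg h4, ← h3]
          exact Finsupp.notMem_support_iff.1 h4
    rw [h1]
    refine AddSubgroup.sum_mem _ fun μ _ => AddSubgroup.zsmul_mem _ ?_ _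
    show PoleOrder π (chi μ).coeff (pt 0) (if μ = dz n then 1 else 0)
    by_cases hμ : μ = dz n
    · rw [if_pos hμ, chi_zero μ (by rw [hμ]; rfl)]
      exact poleOrder_zeta_one π
    · rw [if_neg hμ, pt_zero66]
      exact hST μ.1 _ (chi_irr μ) fun h => hμ (Subtype.ext h)
  have h := key
  rw [← pt_zero66]
  exact h

/-- The order of the Adams square of an irreducible representation of `SO_{2n+1}` is odd. -/
theorem odd_adams {π : GSys n} (hπ : Tempered π)
    (hST : ∀ (μ : Fin n → ℤ) (m : Wt n →₀ ℤ), IsIrr 0 μ m → μ ≠ 0 → PoleOrder π m 1 0)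
    {μ : Fin n → ℤ} {m : Wt n →₀ ℤ} (h : IsIrr 0 μ m) :
    ∃ k : ℤ, Odd k ∧ PoleOrder π (adams m) 1 k := by
  obtain ⟨ν, hν⟩ : ∃ ν : Dm n, ν.1 = μ := ⟨⟨μ, h.1, fun i => by have := h.2.1 i; omega⟩, rfl⟩
  subst hν
  have hm : m = (chi ν).coeff := h.unique (chi_irr ν)
  subst hm
  obtain ⟨g, hg⟩ := adams_sq (chi ν)
  have h1 := order66 hπ hST (adams_inv0 (chi_inv0 ν))
  refine ⟨_, ?_, h1⟩
  have h2 := orth ν ν (dz n) rfl
  rw [if_pos rfl, hg, mult_add, mult_smul] at h2
  have h3 : (dz n).1 = 0 := rfl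
  rw [h3] at h2
  refine ⟨-(mult g 0), ?_⟩
  linarith

end Pool.Agent.EEAH
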