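import Pool.Agent.W_eea520_h66.Defs
import Pool.Agent.W_eea520_h25.AlgE

/-! Highest weights of the numerators of Weyl's character formula. -/

set_option autoImplicit false

namespace Pool.Agent.EEA520

open Polynomial

variable {N : ℕ}

theorem coeff_mon (w v : Wt N) : (mon w : R N).coeff v = if w = v then 1 else 0 := by
  classical
  rw [mon, AddMonoidAlgebra.coeff_single, Finsupp.single_apply]

/-- All weights of `f` have height `< b`. -/
def Low66 (b : ℤ) (f : R N) : Prop := ∀ v, f.coeff v ≠ 0 → ht v < b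

theorem Low66.add {b : ℤ} {f g : R N} (hf : Low66 b f) (hg : Low66 b g) : Low66 b (f + g) := by
  intro v hv
  have h1 : (f + g).coeff v = f.coeff v + g.coeff v := rfl
  by_cases h : f.coeff v = 0
  · exact hg v fun h2 => hv (by rw [h1, h, h2, add_zero])
  · exact hf v h

theorem Low66.zero (b : ℤ) : Low66 b (0 : R N) := fun _ hv => absurd rfl hv

theorem Low66.sum {b : ℤ} {ι : Type*} (s : Finset ι) (f : ι → R N) (h : ∀ i ∈ s, Low66 b (f i)) :
    Low66 b (∑ i ∈ s, f i) := by
  classical
  induction s using Finset.induction_on with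
  | empty => exact Low66.zero b
  | insert a s ha ih =>
    rw [Finset.sum_insert ha]
    exact (h a (Finset.mem_insert_self a s)).add (ih fun i hi => h i (Finset.mem_insert_of_mem hi))

theorem Low66.intCast_mul {b : ℤ} {f : R N} (hf : Low66 b f) (z : ℤ) : Low66 b ((z : R N) * f) := by
  intro v hv
  refine hf v fun h => hv ?_
  have h1 : (z : R N) * f = z • f := (zsmul_eq_mul f z).symm
  rw [h1, AddMonoidAlgebra.coeff_smul_apply, h, smul_zero]

theorem Top.low {w : Wt N} {f : R N} (hf : Top w f) {b : ℤ} (h : ht w < b) : Low66 b f := by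
  intro v hv
  by_cases h1 : v = w
  · rw [h1]
    exact h
  · exact (hf.2 v hv h1).trans h

theorem Top.add_low {w : Wt N} {f g : R N} (hf : Top w f) (hg : Low66 (ht w) g) : Top w (f + g) := by
  have h0 : ∀ v, (f + g).coeff v = f.coeff v + g.coeff v := fun _ => rfl
  refine ⟨?_, fun v hv hvw => ?_⟩
  · rw [h0, hf.1]
    have h1 : g.coeff w = 0 := by
      by_contra h
      exact lt_irrefl _ (hg w h)
    rw [h1, add_zero]
  · by_cases h : f.coeff v = 0
    · exact hg v fun h2 => hv (by rw [h0, h, h2, add_zero])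
    · exact hf.2 v h hvw

theorem top_prod {ι : Type*} (s : Finset ι) (w : ι → Wt N) (f : ι → R N)
    (h : ∀ i ∈ s, Top (w i) (f i)) : Top (∑ i ∈ s, w i) (∏ i ∈ s, f i) := by
  classical
  induction s using Finset.induction_on with
  | empty => simpa using top_one
  | insert a s ha ih =>
    rw [Finset.sum_insert ha, Finset.prod_insert ha]
    exact top_mul (h a (Finset.mem_insert_self a s))
      (ih fun i hi => h i (Finset.mem_insert_of_mem hi))

theorem ht_single (i : Fin N) (a : ℤ) : ht ((0, Pi.single i a) : Wt N) = ((N : ℤ) - i) * (2 * a) := by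
  classical
  rw [ht, Finset.sum_eq_single i]
  · simp only [Pi.single_eq_same, sub_zero]
  · intro j _ hj
    simp only [Pi.single_eq_of_ne hj]
    ring
  · intro h
    exact absurd (Finset.mem_univ i) h

theorem top_diff (i : Fin N) {a b : ℤ} (h : b < a) :
    Top ((0, Pi.single i a) : Wt N) (mon (0, Pi.single i a) - mon (0, Pi.single i b)) := by
  have h1 : (mon (0, Pi.single i a) - mon (0, Pi.single i b) : R N) =
      mon (0, Pi.single i a) + ((-1 : ℤ) : R N) * mon (0, Pi.single i b) := by
    rw [Int.cast_neg, Int.cast_one, neg_one_mul, sub_eq_add_neg]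
  rw [h1]
  refine (top_mon _).add_low (Low66.intCast_mul ((top_mon _).low ?_) _)
  rw [ht_single, ht_single]
  have h2 : 0 < (N : ℤ) - i := by
    have := i.2
    omega
  nlinarith

theorem perm_inversion {σ : Equiv.Perm (Fin N)} (hσ : σ ≠ 1) : ∃ i j, i < j ∧ σ j < σ i := by
  by_contra hc
  push Not at hc
  apply hσ
  have hmono : StrictMono σ := fun i j hij =>
    lt_of_le_of_ne (hc i j hij) fun h => hij.ne (σ.injective h)
  have h1 : (hmono.orderIsoOfSurjective σ σ.surjective) = OrderIso.refl (Fin N) :=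
    Subsingleton.elim _ _
  ext i
  have h2 := congrArg (fun f : Fin N ≃o Fin N => f i) h1
  simp only [StrictMono.coe_orderIsoOfSurjective, OrderIso.refl_apply] at h2
  rw [h2]
  rfl

theorem ht_perm_lt {M : Fin N → ℤ} (hM : StrictAnti M) {σ : Equiv.Perm (Fin N)} (hσ : σ ≠ 1) :
    ∑ i : Fin N, ((N : ℤ) - (σ i : ℕ)) * (2 * M i) < ∑ i : Fin N, ((N : ℤ) - (i : ℕ)) * (2 * M i) := by
  have hmv : Monovary (fun i : Fin N => 2 * M i) (fun j : Fin N => (N : ℤ) - (j : ℕ)) := by
    intro i j hij
    have hij' : (N : ℤ) - (i : ℕ) < (N : ℤ) - (j : ℕ) := hij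
    have h2 : (j : ℕ) < (i : ℕ) := by omega
    have h3 := hM (show j < i from h2)
    show 2 * M i ≤ 2 * M j
    linarith
  have h1 := (Monovary.sum_mul_comp_perm_lt_sum_mul_iff (σ := σ) hmv)
  simp only [mul_comm (_ - _ : ℤ)]
  refine h1.2 fun hmv => ?_
  obtain ⟨i, j, hij, hji⟩ := perm_inversion hσ
  have h2 : 2 * M i ≤ 2 * M j := @hmv i j (by
    show (N : ℤ) - (σ i : ℕ) < (N : ℤ) - (σ j : ℕ)
    have : ((σ j : Fin N) : ℕ) < (σ i : ℕ) := hji
    omega)
  have h3 := hM hij
  linarith

theorem sum_single_perm (M : Fin N → ℤ) (σ : Equiv.Perm (Fin N)) :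
    ∑ i : Fin N, ((0, Pi.single (σ i) (M i)) : Wt N) = (0, M ∘ σ.symm) := by
  classical
  refine Prod.ext ?_ ?_
  · rw [Prod.fst_sum]
    simp
  · rw [Prod.snd_sum]
    funext j
    rw [Finset.sum_apply, Finset.sum_eq_single (σ.symm j)]
    · simp
    · intro i _ hi
      have : j ≠ σ i := fun h => hi (by rw [h]; simp)
      simp [this]
    · intro h
      exact absurd (Finset.mem_univ _) h

/-- The alternating sum has the expected highest weight. -/
theorem top_alt (K : ℤ) (M : Fin N → ℤ) (hM : StrictAnti M) (hK : ∀ i, K < 2 * M i) :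
    Top ((K, M) : Wt N) (alt K M) := by
  have hT : ∀ σ : Equiv.Perm (Fin N), Top ((0, M ∘ σ.symm) : Wt N)
      (∏ i, (mon (0, Pi.single (σ i) (M i)) - mon (0, Pi.single (σ i) (K - M i)) : R N)) := by
    intro σ
    rw [← sum_single_perm M σ]
    exact top_prod _ _ _ fun i _ => top_diff (σ i) (by have := hK i; omega)
  have hht : ∀ σ : Equiv.Perm (Fin N), ht ((0, M ∘ σ.symm) : Wt N) =
      ∑ i : Fin N, ((N : ℤ) - (σ i : ℕ)) * (2 * M i) := by
    intro σ
    unfold ht
    rw [← Equiv.sum_comp σ]
    refine Finset.sum_congr rfl fun i _ => ?_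
    simp
  have hdet : Top ((0, M) : Wt N) (Matrix.det (Matrix.of fun i j : Fin N =>
      (mon (0, Pi.single i (M j)) - mon (0, Pi.single i (K - M j)) : R N))) := by
    rw [Matrix.det_apply', ← Finset.add_sum_erase _ _ (Finset.mem_univ (1 : Equiv.Perm (Fin N)))]
    have h1 := hT 1
    refine Top.add_low (w := (0, M)) ?_ ?_
    · rw [Equiv.Perm.sign_one, Units.val_one, Int.cast_one, one_mul]
      exact h1
    · refine Low66.sum _ _ fun σ hσ => Low66.intCast_mul ((hT σ).low ?_) _
      have h2 := ht_perm_lt hM (Finset.ne_of_mem_erase hσ)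
      have h3 : ht ((0, M) : Wt N) = ∑ i : Fin N, ((N : ℤ) - (i : ℕ)) * (2 * M i) := by
        unfold ht
        simp
      rw [hht, h3]
      exact h2
  have h3 := top_mul (top_mon ((K, 0) : Wt N)) hdet
  have h4 : ((K, 0) : Wt N) + (0, M) = (K, M) := by
    rw [Prod.mk_add_mk, add_zero, zero_add]
  rw [h4] at h3
  exact h3

/-- Division by an element with a highest weight. -/
theorem top_of_mul {v w : Wt N} {f g : R N} (hg : Top v g) (hfg : Top (w + v) (f * g)) :
    Top w f := by
  classical
  have hne : f.coeff.support.Nonempty := by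
    rw [Finsupp.support_nonempty_iff]
    intro h
    have h0 : f = 0 := by
      apply AddMonoidAlgebra.coeff_injective
      rw [h]
      rfl
    have := hfg.1
    rw [h0, zero_mul] at this
    exact zero_ne_one this
  obtain ⟨a, ha, hmax⟩ := Finset.exists_max_image f.coeff.support ht hne
  have ha0 : f.coeff a ≠ 0 := Finsupp.mem_support_iff.1 ha
  have hcoef : ∀ b, ht b = ht a → (f * g).coeff (b + v) = f.coeff b := by
    intro b hb
    rw [AddMonoidAlgebra.coeff_mul, Finsupp.sum]
    have h1 : ∀ c ∈ f.coeff.support, c ≠ b → (g.coeff.sum fun d r => if c + d = b + v then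
        f.coeff c * r else 0) = 0 := by
      intro c hc hcb
      rw [Finsupp.sum]
      refine Finset.sum_eq_zero fun d hd => if_neg fun h => ?_
      have hdv : d ≠ v := fun h2 => hcb (by rw [h2] at h; exact add_right_cancel h)
      have h3 := hg.2 d (Finsupp.mem_support_iff.1 hd) hdv
      have h4 := hmax c hc
      have h5 := congrArg ht h
      rw [ht_add, ht_add] at h5
      linarith
    by_cases hbs : b ∈ f.coeff.support
    · rw [Finset.sum_eq_single b (fun c hc hcb => h1 c hc hcb) (fun h => absurd hbs h), Finsupp.sum,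
        Finset.sum_eq_single v]
      · rw [if_pos rfl, hg.1, mul_one]
      · intro d _ hdv
        exact if_neg fun h => hdv (add_left_cancel h)
      · intro h
        exact absurd (Finsupp.notMem_support_iff.1 h) (by rw [hg.1]; exact one_ne_zero)
    · rw [Finsupp.notMem_support_iff.1 hbs]
      exact Finset.sum_eq_zero fun c hc => h1 c hc fun h => hbs (h ▸ hc)
  have hall : ∀ b, f.coeff b ≠ 0 → ht b = ht a → b = w := by
    intro b hb hba
    by_contra hbw
    have h1 := hcoef b hba
    have h2 : (f * g).coeff (b + v) ≠ 0 := by rw [h1]; exact hb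
    have h3 := hfg.2 _ h2 fun h => hbw (add_right_cancel h)
    -- the weight w + v must come from somewhere
    have h4 : (f * g).coeff (w + v) ≠ 0 := by rw [hfg.1]; exact one_ne_zero
    rw [AddMonoidAlgebra.coeff_mul, Finsupp.sum] at h4
    obtain ⟨c, hc, hc'⟩ := Finset.exists_ne_zero_of_sum_ne_zero h4
    rw [Finsupp.sum] at hc'
    obtain ⟨d, hd, hd'⟩ := Finset.exists_ne_zero_of_sum_ne_zero hc'
    have h5 : c + d = w + v := by
      by_contra h
      exact hd' (if_neg h)
    have h6 := hmax c hc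
    have h7 : ht d ≤ ht v := by
      by_cases h8 : d = v
      · rw [h8]
      · exact (hg.2 d (Finsupp.mem_support_iff.1 hd) h8).le
    have h9 := congrArg ht h5
    rw [ht_add, ht_add] at h9
    rw [ht_add, ht_add] at h3
    linarith
  have haw : a = w := hall a ha0 rfl
  subst haw
  refine ⟨?_, fun b hb hba => ?_⟩
  · rw [← hcoef a rfl, hfg.1]
  · have h1 := hmax b (Finsupp.mem_support_iff.2 hb)
    exact lt_of_le_of_ne h1 fun h => hba (hall b hb h)

/-- Irreducible characters have the expected highest weight. -/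
theorem IsIrr.top {k : ℤ} {μ : Fin N → ℤ} {m : Wt N →₀ ℤ} (h : IsIrr k μ m) :
    Top ((k, μ) : Wt N) (AddMonoidAlgebra.ofCoeff m : R N) := by
  obtain ⟨h1, h2, h3⟩ := h
  have h4 : Top ((1, fun j : Fin N => (N : ℤ) - j) : Wt N) (alt 1 fun j : Fin N => (N : ℤ) - j) := by
    refine top_alt _ _ (fun i j hij => ?_) fun i => ?_
    · have : (i : ℕ) < (j : ℕ) := hij
      show (N : ℤ) - (j : ℕ) < (N : ℤ) - (i : ℕ)
      omega
    · have := i.2
      omega
  have h5 : Top ((k + 1, fun j : Fin N => μ j + ((N : ℤ) - j)) : Wt N)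
      (alt (k + 1) fun j : Fin N => μ j + ((N : ℤ) - j)) := by
    refine top_alt _ _ (fun i j hij => ?_) fun i => ?_
    · have h6 : (i : ℕ) < (j : ℕ) := hij
      have h7 := h1 hij.le
      show μ j + ((N : ℤ) - (j : ℕ)) < μ i + ((N : ℤ) - (i : ℕ))
      omega
    · have := i.2
      have := h2 i
      omega
  rw [← h3] at h5
  refine top_of_mul h4 ?_
  have h6 : ((k, μ) : Wt N) + (1, fun j : Fin N => (N : ℤ) - j) =
      (k + 1, fun j : Fin N => μ j + ((N : ℤ) - j)) := rfl
  rw [h6]
  exact h5

end Pool.Agent.EEA520
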