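import Pool.Agent.W_eea520_h66.Key

/-! The functional `Θ(y; E) = L_t (∏ (t_k - y_i) * E)`. -/

set_option autoImplicit false

namespace Pool.Agent.EEA520

open Polynomial

section

variable (u : ℤ) {A : Type} [CommRing A] {n c : ℕ}

/-- `Θ(y; E) = L_t (∏ (t_k - y_i) * E)`. -/
noncomputable def Th (y : Fin n → A) (E : MvPolynomial (Fin c) ℤ) : A :=
  LT u ((∏ k : Fin c, ∏ i, (MvPolynomial.X k - MvPolynomial.C (y i))) *
    MvPolynomial.map (Int.castRingHom A) E)

theorem Th_add (y : Fin n → A) (E E' : MvPolynomial (Fin c) ℤ) :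
    Th u y (E + E') = Th u y E + Th u y E' := by
  rw [Th, map_add, mul_add, map_add]
  rfl

theorem Th_zero (y : Fin n → A) : Th u y (0 : MvPolynomial (Fin c) ℤ) = 0 := by
  rw [Th, map_zero, mul_zero, map_zero]

theorem Th_intCast_mul (y : Fin n → A) (e : ℤ) (E : MvPolynomial (Fin c) ℤ) :
    Th u y ((e : MvPolynomial (Fin c) ℤ) * E) = (e : A) * Th u y E := by
  have h : MvPolynomial.map (Int.castRingHom A) ((e : MvPolynomial (Fin c) ℤ) * E) =
      (e : MvPolynomial (Fin c) A) * MvPolynomial.map (Int.castRingHom A) E := by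
    rw [map_mul, map_intCast]
  rw [Th, h, mul_left_comm, LT_intCast_mul]
  rfl

theorem Th_sum {ι : Type} (s : Finset ι) (y : Fin n → A) (E : ι → MvPolynomial (Fin c) ℤ) :
    Th u y (∑ i ∈ s, E i) = ∑ i ∈ s, Th u y (E i) := by
  classical
  induction s using Finset.induction_on with
  | empty => rw [Finset.sum_empty, Finset.sum_empty, Th_zero]
  | insert i s hi ih => rw [Finset.sum_insert hi, Finset.sum_insert hi, Th_add, ih]

/-- `Θ` commutes with ring homomorphisms. -/
theorem Th_map {B : Type} [CommRing B] (φ : A →+* B) (y : Fin n → A)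
    (E : MvPolynomial (Fin c) ℤ) : φ (Th u y E) = Th u (fun i => φ (y i)) E := by
  unfold Th
  rw [LT_map]
  congr 1
  have h : φ.comp (Int.castRingHom A) = Int.castRingHom B := Subsingleton.elim _ _
  simp only [map_mul, map_prod, map_sub, MvPolynomial.map_X, MvPolynomial.map_C,
    MvPolynomial.map_map, h]

theorem Th_mem (B : Subring A) (y : Fin n → A) (hy : ∀ i, y i ∈ B)
    (E : MvPolynomial (Fin c) ℤ) : Th u y E ∈ B := by
  have h := Th_map u B.subtype (fun i => (⟨y i, hy i⟩ : B)) E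
  have h1 : (fun i => B.subtype (⟨y i, hy i⟩ : B)) = y := rfl
  rw [h1] at h
  rw [← h]
  exact SetLike.coe_mem _

/-- `P_b(y) = Θ(y; V(t) ∏ p_{b_k}(t_k))`. -/
theorem KL_eq_Th (y : Fin n → A) (b : Fin c → ℕ) : KL u y b =
    Th u y (VV (fun k : Fin c => (MvPolynomial.X k : MvPolynomial (Fin c) ℤ)) *
      ∏ k, (pA u ℤ (b k)).aeval (MvPolynomial.X k : MvPolynomial (Fin c) ℤ)) := by
  have h : MvPolynomial.map (Int.castRingHom A)
      (VV (fun k : Fin c => (MvPolynomial.X k : MvPolynomial (Fin c) ℤ)) *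
      ∏ k, (pA u ℤ (b k)).aeval (MvPolynomial.X k : MvPolynomial (Fin c) ℤ)) =
      VV (fun k : Fin c => (MvPolynomial.X k : MvPolynomial (Fin c) A)) *
      ∏ k, (pA u A (b k)).aeval (MvPolynomial.X k : MvPolynomial (Fin c) A) := by
    rw [map_mul, VV_map, map_prod]
    simp only [MvPolynomial.map_X, map_aeval_X, pA_map]
  rw [KL, Th, h, mul_assoc]

end

private theorem Th_comm {B : Type} [CommRing B] (p s q e : B) : p * (s * q) * e = p * (s * e) * q := by
  ring

private theorem Th_comm' {B : Type} [CommRing B] (g w v p : B) : g * w * v * p = w * (v * p) * g := by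
  ring

/-- `∏ (T + v_k) = ∑ e_a(v) T ^ (c - a)`. -/
theorem prod_add_esymm {B : Type} [CommRing B] {c : ℕ} (v : Fin c → B) (T : B) :
    ∏ k, (T + v k) = ∑ a ∈ Finset.range (c + 1),
      MvPolynomial.eval₂Hom (Int.castRingHom B) v (MvPolynomial.esymm (Fin c) ℤ a) *
        T ^ (c - a) := by
  have h := congrArg (Polynomial.eval₂ (MvPolynomial.eval₂Hom (Int.castRingHom B) v) T)
    (MvPolynomial.prod_C_add_X_eq_sum_esymm (R := ℤ) (σ := Fin c))
  rw [Fintype.card_fin, eval₂_finsetProd, eval₂_finsetSum] at h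
  simp only [eval₂_add, eval₂_X, eval₂_C, eval₂_mul, eval₂_pow, MvPolynomial.eval₂Hom_X'] at h
  exact h

section

variable (u : ℤ) {A : Type} [CommRing A] {n c : ℕ}

/-- One more variable `Y`. -/
theorem Th_append (y : Fin n → A) (Y : A) (E : MvPolynomial (Fin c) ℤ) :
    Th u (Fin.append y fun _ : Fin 1 => Y) E =
      ∑ i ∈ Finset.range (c + 1), (-Y) ^ i *
        Th u y (MvPolynomial.esymm (Fin c) ℤ (c - i) * E) := by
  have h1 : ∏ k : Fin c, ∏ i, (MvPolynomial.X k -
      MvPolynomial.C (Fin.append y (fun _ : Fin 1 => Y) i)) =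
      (∏ k : Fin c, ∏ i, (MvPolynomial.X k - MvPolynomial.C (y i))) *
        ∏ k : Fin c, (MvPolynomial.C (-Y) + MvPolynomial.X k) := by
    rw [← Finset.prod_mul_distrib]
    refine Finset.prod_congr rfl fun k _ => ?_
    rw [Fin.prod_univ_add, Fin.prod_univ_one]
    simp only [Fin.append_left, Fin.append_right]
    rw [map_neg]
    ring
  have h2 : ∀ a, MvPolynomial.eval₂Hom (Int.castRingHom (MvPolynomial (Fin c) A))
      (fun k : Fin c => (MvPolynomial.X k : MvPolynomial (Fin c) A))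
      (MvPolynomial.esymm (Fin c) ℤ a) =
      MvPolynomial.map (Int.castRingHom A) (MvPolynomial.esymm (Fin c) ℤ a) := by
    intro a
    rw [MvPolynomial.map_esymm, MvPolynomial.esymm, map_sum, MvPolynomial.esymm]
    simp only [map_prod, MvPolynomial.eval₂Hom_X']
  rw [Th, h1, prod_add_esymm, ← Finset.sum_range_reflect, Finset.mul_sum, Finset.sum_mul, map_sum]
  refine Finset.sum_congr rfl fun i hi => ?_
  have hi' : i ≤ c := by
    have := Finset.mem_range.1 hi
    omega
  have h3 : c + 1 - 1 - i = c - i := by omega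
  have h4 : c - (c - i) = i := by omega
  have h5 : MvPolynomial.map (Int.castRingHom A) (MvPolynomial.esymm (Fin c) ℤ (c - i) * E) =
      MvPolynomial.map (Int.castRingHom A) (MvPolynomial.esymm (Fin c) ℤ (c - i)) *
        MvPolynomial.map (Int.castRingHom A) E := by
    rw [map_mul]
  rw [h3, h4, h2, Th, mul_comm ((-Y) ^ i), ← LT_mul_C, map_pow, h5, Th_comm]

end

/-- The polynomial `G` is a `ℤ`-combination of products of `q` elementary symmetric polynomials. -/
theorem KL_X_eq (u : ℤ) {q c : ℕ} (d : Fin q → ℕ) : ∃ z : (Fin q → ℕ) → ℤ,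
    KL u (fun k : Fin c => (MvPolynomial.X k : MvPolynomial (Fin c) ℤ)) d =
      ∑ a ∈ Fintype.piFinset fun _ : Fin q => Finset.range (c + 1),
        (z a : MvPolynomial (Fin c) ℤ) * ∏ j, MvPolynomial.esymm (Fin c) ℤ (a j) := by
  refine ⟨fun a => LT u ((∏ j : Fin q, (-1) ^ c * (-MvPolynomial.X j) ^ (c - a j)) *
    (VV (fun j : Fin q => (MvPolynomial.X j : MvPolynomial (Fin q) ℤ)) *
      ∏ j, (pA u ℤ (d j)).aeval (MvPolynomial.X j : MvPolynomial (Fin q) ℤ))), ?_⟩
  have h0 : ∀ a, MvPolynomial.eval₂Hom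
      (Int.castRingHom (MvPolynomial (Fin q) (MvPolynomial (Fin c) ℤ)))
      (fun k : Fin c => (MvPolynomial.C (MvPolynomial.X k) :
      MvPolynomial (Fin q) (MvPolynomial (Fin c) ℤ))) (MvPolynomial.esymm (Fin c) ℤ a) =
      MvPolynomial.C (MvPolynomial.esymm (Fin c) ℤ a) := by
    intro a
    rw [MvPolynomial.esymm, map_sum, map_sum]
    simp only [map_prod, MvPolynomial.eval₂Hom_X']
  have h1 : ∀ j : Fin q, ∏ k : Fin c, ((MvPolynomial.X j - MvPolynomial.C (MvPolynomial.X k) :
      MvPolynomial (Fin q) (MvPolynomial (Fin c) ℤ))) = ∑ a ∈ Finset.range (c + 1),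
        (MvPolynomial.C (MvPolynomial.esymm (Fin c) ℤ a) *
          ((-1) ^ c * (-MvPolynomial.X j) ^ (c - a))) := by
    intro j
    have h2 : ∀ k : Fin c, (MvPolynomial.X j - MvPolynomial.C (MvPolynomial.X k) :
        MvPolynomial (Fin q) (MvPolynomial (Fin c) ℤ)) =
        (-1) * (-MvPolynomial.X j + MvPolynomial.C (MvPolynomial.X k) :
          MvPolynomial (Fin q) (MvPolynomial (Fin c) ℤ)) := fun k => by ring
    simp only [h2]
    rw [Finset.prod_mul_distrib, Finset.prod_const, Finset.card_univ, Fintype.card_fin,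
      prod_add_esymm, Finset.mul_sum]
    refine Finset.sum_congr rfl fun a _ => ?_
    rw [h0]
    ring
  unfold KL
  simp only [h1]
  rw [Finset.prod_univ_sum, Finset.sum_mul, Finset.sum_mul, map_sum]
  refine Finset.sum_congr rfl fun a _ => ?_
  have h3 : MvPolynomial.map (Int.castRingHom (MvPolynomial (Fin c) ℤ))
      ((∏ j : Fin q, (-1) ^ c * (-MvPolynomial.X j) ^ (c - a j)) *
      (VV (fun j : Fin q => (MvPolynomial.X j : MvPolynomial (Fin q) ℤ)) *
        ∏ j, (pA u ℤ (d j)).aeval (MvPolynomial.X j : MvPolynomial (Fin q) ℤ))) =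
      (∏ j : Fin q, (-1) ^ c * (-MvPolynomial.X j) ^ (c - a j)) *
      (VV (fun j : Fin q => (MvPolynomial.X j :
        MvPolynomial (Fin q) (MvPolynomial (Fin c) ℤ))) *
        ∏ j, (pA u (MvPolynomial (Fin c) ℤ) (d j)).aeval (MvPolynomial.X j :
          MvPolynomial (Fin q) (MvPolynomial (Fin c) ℤ))) := by
    rw [map_mul, map_mul, VV_map, map_prod, map_prod]
    simp only [map_mul, map_pow, map_neg, map_one, MvPolynomial.map_X, map_aeval_X, pA_map]
  have h4 := LT_map u (Int.castRingHom (MvPolynomial (Fin c) ℤ))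
    ((∏ j : Fin q, (-1) ^ c * (-MvPolynomial.X j) ^ (c - a j)) *
      (VV (fun j : Fin q => (MvPolynomial.X j : MvPolynomial (Fin q) ℤ)) *
        ∏ j, (pA u ℤ (d j)).aeval (MvPolynomial.X j : MvPolynomial (Fin q) ℤ)))
  rw [h3, eq_intCast] at h4
  rw [h4, ← LT_mul_C, Finset.prod_mul_distrib, map_prod, Th_comm']

end Pool.Agent.EEA520
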