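import Pool.Agent.W_eea520_h66.IrrA
import Pool.Agent.W_eea520_h66.Char
import Pool.Agent.W_eea520_h66.EvalB
import Pool.Agent.W_eea520_h66.Theta

/-! Existence of the irreducible characters. -/

set_option autoImplicit false

namespace Pool.Agent.EEA520

open Polynomial

section

variable {N : ℕ}

/-- The action of an automorphism of the group of weights. -/
noncomputable def actR (φ : Wt N ≃+ Wt N) : R N →+* R N :=
  (AddMonoidAlgebra.mapDomainRingEquiv ℤ φ : R N ≃+* R N).toRingHom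

theorem actR_coeff (φ : Wt N ≃+ Wt N) (f : R N) (w : Wt N) :
    (actR φ f).coeff (φ w) = f.coeff w := by
  have h : (actR φ f).coeff = Finsupp.equivMapDomain φ.toEquiv f.coeff :=
    AddMonoidAlgebra.coeff_mapDomainRingEquiv φ f
  rw [h, Finsupp.equivMapDomain_apply]
  congr 1
  exact φ.symm_apply_apply w

theorem actR_mon (φ : Wt N ≃+ Wt N) (w : Wt N) : actR φ (mon w) = mon (φ w) :=
  AddMonoidAlgebra.mapDomainRingEquiv_single φ 1 w

theorem actR_inv (φ : Wt N ≃+ Wt N) (f : R N) (h : actR φ f = f) (w : Wt N) :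
    f.coeff (φ w) = f.coeff w := by
  conv_lhs => rw [← h]
  rw [actR_coeff]

theorem isCharacter_of_act (f : R N) (h1 : ∀ σ, actR (permW σ) f = f)
    (h2 : ∀ i, actR (refW i) f = f) : IsCharacter f.coeff := by
  rw [isCharacter_iff]
  exact ⟨fun σ => actR_inv _ _ (h1 σ), fun i => actR_inv _ _ (h2 i)⟩

theorem permW_single (σ : Equiv.Perm (Fin N)) (i : Fin N) (e : ℤ) :
    permW σ ((0 : ℤ), Pi.single i e) = ((0 : ℤ), Pi.single (σ.symm i) e) := by
  have h : permW σ ((0 : ℤ), Pi.single i e) = ((0 : ℤ), (Pi.single i e : Fin N → ℤ) ∘ σ) := rfl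
  rw [h]
  congr 1
  funext j
  rw [Function.comp_apply]
  by_cases hj : σ j = i
  · have : j = σ.symm i := by rw [← hj, Equiv.symm_apply_apply]
    rw [this, Equiv.apply_symm_apply, Pi.single_eq_same, Pi.single_eq_same]
  · have : j ≠ σ.symm i := fun h => hj (by rw [h, Equiv.apply_symm_apply])
    rw [Pi.single_eq_of_ne hj, Pi.single_eq_of_ne this]

theorem refW_single (i : Fin N) (e : ℤ) :
    refW i ((0 : ℤ), Pi.single i e) = ((0 : ℤ), Pi.single i (-e)) := by
  have h : refW i ((0 : ℤ), Pi.single i e) =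
    ((0 : ℤ), Function.update (Pi.single i e : Fin N → ℤ) i (0 - (Pi.single i e : Fin N → ℤ) i)) :=
      rfl
  rw [h]
  congr 1
  funext j
  by_cases hj : j = i
  · subst hj
    simp
  · simp [hj]

theorem refW_single_ne (i j : Fin N) (hij : j ≠ i) (e : ℤ) :
    refW i ((0 : ℤ), Pi.single j e) = ((0 : ℤ), Pi.single j e) := by
  have h : refW i ((0 : ℤ), Pi.single j e) =
    ((0 : ℤ), Function.update (Pi.single j e : Fin N → ℤ) i (0 - (Pi.single j e : Fin N → ℤ) i)) :=
      rfl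
  rw [h]
  congr 1
  funext k
  by_cases hk : k = i
  · subst hk
    simp [Pi.single_eq_of_ne hij.symm]
  · simp [hk]

theorem act_perm_yR (σ : Equiv.Perm (Fin N)) (i : Fin N) :
    actR (permW σ) (yR N i) = yR N (σ.symm i) := by
  rw [yR, map_add, xx, xx, actR_mon, actR_mon, permW_single, permW_single]
  rfl

theorem act_ref_yR (i j : Fin N) : actR (refW i) (yR N j) = yR N j := by
  rw [yR, map_add, xx, xx, actR_mon, actR_mon]
  by_cases h : j = i
  · subst h
    rw [refW_single, refW_single, neg_neg, add_comm]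
  · rw [refW_single_ne i j h, refW_single_ne i j h]

/-- `P_d` is a symmetric function. -/
theorem KL_perm (u : ℤ) {A : Type} [CommRing A] {q m : ℕ} (a : Fin m → A) (d : Fin q → ℕ)
    (σ : Equiv.Perm (Fin m)) : KL u (fun k => a (σ k)) d = KL u a d := by
  unfold KL
  congr 3
  refine Finset.prod_congr rfl fun j _ => ?_
  exact Equiv.prod_comp σ fun k => (MvPolynomial.X j - MvPolynomial.C (a k))

theorem isCharacter_KL (u : ℤ) {q : ℕ} (d : Fin q → ℕ) : IsCharacter (KL u (yR N) d).coeff := by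
  refine isCharacter_of_act _ (fun σ => ?_) fun i => ?_
  · rw [KL_map]
    simp only [act_perm_yR]
    exact KL_perm u (yR N) d σ.symm
  · rw [KL_map]
    simp only [act_ref_yR]

theorem isCharacter_intCast_mul (z : ℤ) {f : R N} (hf : IsCharacter f.coeff) :
    IsCharacter ((z : R N) * f).coeff := by
  rw [← zsmul_eq_mul]
  exact isCharacter_zsmul hf z

theorem isCharacter_pow {f : R N} (hf : IsCharacter f.coeff) (e : ℕ) :
    IsCharacter (f ^ e).coeff := by
  induction e with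
  | zero =>
    rw [pow_zero]
    exact isCharacter_one
  | succ e ih =>
    rw [pow_succ]
    exact isCharacter_mul ih hf

/-- The irreducible characters exist. -/
theorem exists_irr_char (e : ℕ) (he : e ≤ 1) (k' : ℤ) (μ : Fin N → ℤ) (hμ : Antitone μ)
    (hd : ∀ i, 2 * k' + e ≤ 2 * μ i) {c : ℕ} (D : Fin c ⊕ Fin N ≃ Fin (c + N))
    (hD : ∀ j : Fin N, ((D (Sum.inr j) : ℕ) : ℤ) + k' + 1 + e = μ j + ((N : ℤ) - j)) :
    ∃ s : ℤˣ, IsIrr (2 * k' + e) μ (((s : ℤ) : R N) * (mon (k' • nuW N) * spR N ^ e *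
        KL (1 - e) (yR N) (fun j => (D (Sum.inl j) : ℕ)))).coeff ∧
      IsCharacter (((s : ℤ) : R N) * (mon (k' • nuW N) * spR N ^ e *
        KL (1 - e) (yR N) (fun j => (D (Sum.inl j) : ℕ)))).coeff := by
  obtain ⟨s, hs⟩ := alt_char e he k' D
  simp only [hD] at hs
  refine ⟨s, ⟨hμ, hd, hs.symm⟩, ?_⟩
  exact isCharacter_intCast_mul _ (isCharacter_mul (isCharacter_mul (isCharacter_nu k')
    (isCharacter_pow (isCharacter_spR N) e)) (isCharacter_KL _ _))

/-- The beta numbers of a dominant weight. -/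
theorem exists_beta (k' : ℤ) (e : ℕ) (μ : Fin N → ℤ) (hμ : Antitone μ)
    (hd : ∀ i, 2 * k' + e ≤ 2 * μ i) (he : e ≤ 1) (c : ℕ) (hc : ∀ i, μ i ≤ c + k' + e) :
    ∃ D : Fin c ⊕ Fin N ≃ Fin (c + N),
      ∀ j : Fin N, ((D (Sum.inr j) : ℕ) : ℤ) + k' + 1 + e = μ j + ((N : ℤ) - j) := by
  obtain ⟨l, hl⟩ : ∃ l : Fin N → ℕ, ∀ j, ((l j : ℕ) : ℤ) + k' + 1 + e = μ j + ((N : ℤ) - j) := by
    refine ⟨fun j => (μ j + ((N : ℤ) - j) - k' - 1 - e).toNat, fun j => ?_⟩
    have h1 := hd j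
    have h2 := j.2
    have h3 : 0 ≤ μ j + ((N : ℤ) - j) - k' - 1 - e := by omega
    rw [Int.toNat_of_nonneg h3]
    ring
  have hanti : ∀ i j : Fin N, i < j → l j < l i := by
    intro i j hij
    have h1 := hl i
    have h2 := hl j
    have h3 := hμ hij.le
    have h4 : (i : ℕ) < j := hij
    omega
  have hinj : Function.Injective l := by
    intro i j h
    rcases lt_trichotomy i j with h1 | h1 | h1
    · exact absurd h (hanti i j h1).ne'
    · exact h1
    · exact absurd h (hanti j i h1).ne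
  have hle : ∀ j, l j < c + N := by
    intro j
    have h1 := hl j
    have h2 := hc j
    have h3 := j.2
    omega
  obtain ⟨D, hD⟩ := exists_equiv (c := c) l hinj hle
  exact ⟨D, fun j => by rw [hD]; exact hl j⟩

/-- The irreducible characters exist and are characters. -/
theorem exists_isIrr (k : ℤ) (μ : Fin N → ℤ) (hμ : Antitone μ) (hd : ∀ i, k ≤ 2 * μ i) :
    ∃ m : Wt N →₀ ℤ, IsIrr k μ m ∧ IsCharacter m := by
  obtain ⟨k', e, he, rfl⟩ : ∃ (k' : ℤ) (e : ℕ), e ≤ 1 ∧ k = 2 * k' + e := by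
    rcases Int.even_or_odd' k with ⟨k', h | h⟩
    · exact ⟨k', 0, Nat.zero_le 1, by rw [h]; simp⟩
    · exact ⟨k', 1, le_rfl, by rw [h]; simp⟩
  obtain ⟨c, hc⟩ : ∃ c : ℕ, ∀ i, μ i ≤ c + k' + e := by
    obtain ⟨B, hB⟩ : ∃ B : ℤ, ∀ i, μ i ≤ B := by
      rcases Nat.eq_zero_or_pos N with rfl | h
      · exact ⟨0, fun i => i.elim0⟩
      · exact ⟨μ ⟨0, h⟩, fun i => hμ (show (⟨0, h⟩ : Fin N) ≤ i from Nat.zero_le _)⟩
    refine ⟨(B - k' - e).toNat, fun i => ?_⟩
    have h1 := hB i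
    have h2 := Int.self_le_toNat (B - k' - e)
    omega
  obtain ⟨D, hD⟩ := exists_beta k' e μ hμ hd he c hc
  obtain ⟨s, h1, h2⟩ := exists_irr_char e he k' μ hμ hd D hD
  exact ⟨_, h1, h2⟩

end

end Pool.Agent.EEA520
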