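import Pool.Agent.W_eea520_h66.Strip

/-! Isolation, for continuations to half strips. -/

set_option autoImplicit false

namespace Pool.Agent.EEA520

open Filter Polynomial

/-- `D` is in `BB` and its Euler product continues to a meromorphic function on the half strip. -/
def NearTo (s₀ : ℂ) (R : ℝ) (D : Dat) : Prop :=
  D ∈ BB ∧ ∃ (b : ℝ) (g : ℂ → ℂ), MeromorphicOn g (strip s₀ R) ∧
    ∀ s ∈ strip s₀ R, b < s.re → EE D s = g s

theorem Cont.nearTo {D : Dat} (h : Cont D) (s₀ : ℂ) (R : ℝ) : NearTo s₀ R D := by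
  obtain ⟨hD, b, g, hg, hb⟩ := h
  exact ⟨hD, b, g, fun s _ => hg s, fun s _ hs => hb s hs⟩

theorem NearTo.neg {s₀ : ℂ} {R : ℝ} {D : Dat} (h : NearTo s₀ R D) : NearTo s₀ R (-D) := by
  obtain ⟨hD, b, g, hg, hb⟩ := h
  refine ⟨BB.neg_mem hD, b, g⁻¹, fun s hs => (hg s hs).inv, fun s hs hs' => ?_⟩
  have h1 := hb s hs hs'
  unfold EE at h1 ⊢
  rw [LL_neg, Complex.exp_neg, h1, Pi.inv_apply]

theorem NearTo.congr {s₀ : ℂ} {R : ℝ} {D D' : Dat} (hD' : D' ∈ BB)
    (h : ∀ᶠ p in cofinite, D p = D' p) (hc : NearTo s₀ R D) : NearTo s₀ R D' := by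
  obtain ⟨hD, b, g, hg, hb⟩ := hc
  have h0 : D' - D ∈ BB := sub_mem hD' hD
  obtain ⟨-, b', g', hg', hb'⟩ := cont_of_finite h0 (by
    filter_upwards [h] with p hp
    rw [Pi.sub_apply, hp, sub_self])
  obtain ⟨b0, hb0⟩ := LL_add hD h0
  refine ⟨hD', max b0 (max b b'), fun s => g s * g' s, fun s hs => (hg s hs).mul (hg' s),
    fun s hs hs' => ?_⟩
  have e0 := hb0 s (lt_of_le_of_lt (le_max_left _ _) hs')
  have e1 := hb s hs (lt_of_le_of_lt ((le_max_left _ _).trans (le_max_right _ _)) hs')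
  have e2 := hb' s (lt_of_le_of_lt ((le_max_right _ _).trans (le_max_right _ _)) hs')
  rw [add_sub_cancel] at e0
  show EE D' s = g s * g' s
  rw [← e1, ← e2]
  unfold EE
  rw [e0, Complex.exp_add]

/-- As `continues_iff`. -/
theorem nearTo_of_continuesNear {s₀ : ℂ} {R : ℝ} {n : ℕ} {π : GSys n} (hπ : Bdd π)
    (m : EEA520.R n) (h : ContinuesNear s₀ R π m.coeff) : NearTo s₀ R (Phi π m) := by
  obtain ⟨S, b, g, hg, h⟩ := h
  refine ⟨Phi_mem hπ m, ?_⟩
  obtain ⟨b₁, h₁⟩ := factor_ne hπ m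
  obtain ⟨b₂, h₂⟩ := hasProd_factor hπ m S
  refine ⟨max b (max b₁ b₂), fun s => g s * ∏ p ∈ S, (π p).factor m.coeff (((p : ℕ) : ℂ) ^ (-s)),
    ?_, fun s hss hs => ?_⟩
  · intro s hs
    exact (hg s hs).mul (MeromorphicAt.fun_prod fun p _ => factor_meromorphic (π p) m.coeff p s)
  · have hs0 : b < s.re := lt_of_le_of_lt (le_max_left _ _) hs
    have hs1 : b₁ < s.re := lt_of_le_of_lt ((le_max_left _ _).trans (le_max_right _ _)) hs
    have hs2 : b₂ < s.re := lt_of_le_of_lt ((le_max_right _ _).trans (le_max_right _ _)) hs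
    have hu := (h s hss hs0).unique (h₂ s hs2)
    have hne : ∏ p ∈ S, (π p).factor m.coeff (((p : ℕ) : ℂ) ^ (-s)) ≠ 0 :=
      Finset.prod_ne_zero_iff.2 fun p _ => by
        rw [← exp_Lam_evT (π p) m _ (h₁ s hs1 p)]
        exact Complex.exp_ne_zero _
    show EE (Phi π m) s = g s * ∏ p ∈ S, (π p).factor m.coeff (((p : ℕ) : ℂ) ^ (-s))
    rw [hu, div_mul_cancel₀ _ hne]

theorem mem_strip_sub {s₀ w s : ℂ} {R : ℝ} (h : s ∈ strip (s₀ + w) R) : s - w ∈ strip s₀ R := by
  obtain ⟨h1, h2⟩ := h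
  rw [Complex.add_re] at h1
  rw [Complex.add_im] at h2
  refine ⟨?_, ?_⟩
  · rw [Complex.sub_re]
    linarith
  · rw [Complex.sub_im]
    have h3 : s.im - w.im - s₀.im = s.im - (s₀.im + w.im) := by ring
    rw [h3]
    exact h2

/-- `EE (tw w * D) s = EE D (s - w)`. -/
theorem NearTo.tw {s₀ : ℂ} {R : ℝ} {D : Dat} (h : NearTo s₀ R D) (w : ℂ) :
    NearTo (s₀ + w) R (tw w * D) := by
  obtain ⟨hD, b, g, hg, hb⟩ := h
  refine ⟨BB.mul_mem (tw_mem _) hD, b + w.re, fun s => g (s - w), fun x hx => ?_,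
    fun s hs hs' => ?_⟩
  · exact (hg (x - w) (mem_strip_sub hx)).comp_analyticAt (g := fun s => s - w) (by fun_prop)
  · have h1 := hb (s - w) (mem_strip_sub hs) (by rw [Complex.sub_re]; linarith)
    unfold EE at h1 ⊢
    rw [LL_tw, h1]

private theorem IsoM_sum (k : ℕ) (E : ℕ → Dat) (hE : ∀ a < k, E a ∈ BB) :
    ∃ b : ℝ, ∀ s : ℂ, b < s.re →
      LL (∑ a ∈ Finset.range k, E a) s = ∑ a ∈ Finset.range k, LL (E a) s := by
  induction k with
  | zero =>
    refine ⟨0, fun s _ => ?_⟩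
    rw [Finset.sum_range_zero, Finset.sum_range_zero]
    unfold LL
    simp
  | succ k ih =>
    obtain ⟨b, hb⟩ := ih fun a ha => hE a (Nat.lt_succ_of_lt ha)
    obtain ⟨b', hb'⟩ := LL_add (D := ∑ a ∈ Finset.range k, E a) (D' := E k)
      (sum_mem fun a ha => hE a (Nat.lt_succ_of_lt (Finset.mem_range.1 ha)))
      (hE k (Nat.lt_succ_self k))
    refine ⟨max b b', fun s hs => ?_⟩
    rw [Finset.sum_range_succ, Finset.sum_range_succ, hb' s (lt_of_le_of_lt (le_max_right _ _) hs),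
      hb s (lt_of_le_of_lt (le_max_left _ _) hs)]

private theorem IsoM_LL_tw_pow (z : ℂ) (a : ℕ) (D : Dat) (s : ℂ) :
    LL (EEA520.tw z ^ a * D) s = LL D (s - a * z) := by
  rw [tw_pow, LL_tw]

private theorem IsoM_split (k : ℕ) (z : ℂ) (D : ℕ → Dat) :
    ∑ a ∈ Finset.range (k + 1), EEA520.tw z ^ a * D a =
      (∑ a ∈ Finset.range k, EEA520.tw z ^ (a + 1) * D (a + 1)) + D 0 := by
  rw [Finset.sum_range_succ']
  congr 1
  rw [pow_zero, one_mul]

/-- The coefficient `0`: it is enough to have continuations to `strip 0 R`, for arbitrary `R` and some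
`z = z(R)` with `re z < -R`. -/
theorem iso_zero_near (k : ℕ) (D : ℕ → Dat) (hD : ∀ a ≤ k, D a ∈ BB)
    (h : ∀ R : ℝ, ∃ z : ℂ, z.re < -R ∧ NearTo 0 R
      (∑ a ∈ Finset.range (k + 1), EEA520.tw z ^ a * D a)) : Cont (D 0) := by
  have hnice : ∀ a : ℕ, ∃ b : ℝ, a ≤ k → DifferentiableOn ℂ (LL (D a)) {s : ℂ | b < s.re} := by
    intro a
    by_cases ha : a ≤ k
    · obtain ⟨b, -, hb⟩ := LL_nice (D a) (hD a ha)
      exact ⟨b, fun _ => hb⟩
    · exact ⟨0, fun h => absurd h ha⟩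
  choose B hB using hnice
  obtain ⟨b, hb⟩ : ∃ b : ℝ, ∀ a ≤ k, B a ≤ b := by
    obtain ⟨b, hb⟩ := ((Finset.range (k + 1)).image B).bddAbove
    exact ⟨b, fun a ha => hb (Finset.mem_coe.2 (Finset.mem_image_of_mem B
      (Finset.mem_range.2 (Nat.lt_succ_of_le ha))))⟩
  have hF : DifferentiableOn ℂ (EE (D 0)) {s : ℂ | B 0 < s.re} := by
    intro s hs
    exact (hB 0 (Nat.zero_le k) s hs).cexp
  obtain ⟨g, hg, hg'⟩ := glue_strip (EE (D 0)) (B 0) hF (by
    intro M
    obtain ⟨w, hw, hcont⟩ := h (max (max 0 M) (b + M))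
    obtain ⟨N, hN⟩ : ∃ N : ℝ, N = -w.re := ⟨_, rfl⟩
    have hN' : max (max 0 M) (b + M) ≤ N := by rw [hN]; linarith
    have hN0 : 0 ≤ N := (le_max_left _ _).trans ((le_max_left _ _).trans hN')
    have hN2 : b + M ≤ N := (le_max_right _ _).trans hN'
    have hM : M ≤ max (max 0 M) (b + M) := (le_max_right _ _).trans (le_max_left _ _)
    obtain ⟨-, b1, g1, hg1, hb1⟩ := hcont
    have hmem : ∀ a < k, EEA520.tw w ^ (a + 1) * D (a + 1) ∈ BB := fun a ha =>
      mul_mem (pow_mem (tw_mem _) _) (hD (a + 1) ha)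
    obtain ⟨b2, hb2⟩ := IsoM_sum k (fun a => EEA520.tw w ^ (a + 1) * D (a + 1)) hmem
    obtain ⟨b3, hb3⟩ := LL_add
      (D := ∑ a ∈ Finset.range k, EEA520.tw w ^ (a + 1) * D (a + 1)) (D' := D 0)
      (sum_mem fun a ha => hmem a (Finset.mem_range.1 ha)) (hD 0 (Nat.zero_le k))
    have hopen : IsOpen {s : ℂ | -M < s.re} := isOpen_lt continuous_const Complex.continuous_re
    have hdiff : DifferentiableOn ℂ (fun s : ℂ => Complex.exp (-∑ a ∈ Finset.range k,
        LL (D (a + 1)) (s - ((a + 1 : ℕ) : ℂ) * w))) {s : ℂ | -M < s.re} := by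
      intro s hs
      refine DifferentiableWithinAt.cexp (DifferentiableWithinAt.neg ?_)
      refine DifferentiableWithinAt.fun_sum fun a ha => ?_
      have hak : a + 1 ≤ k := Finset.mem_range.1 ha
      have hmaps : Set.MapsTo (fun s : ℂ => s - ((a + 1 : ℕ) : ℂ) * w)
          {s : ℂ | -M < s.re} {s : ℂ | B (a + 1) < s.re} := by
        intro t ht
        have ht' : -M < t.re := ht
        show B (a + 1) < (t - ((a + 1 : ℕ) : ℂ) * w).re
        have h1 : (t - ((a + 1 : ℕ) : ℂ) * w).re = t.re + ((a + 1 : ℕ) : ℝ) * N := by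
          rw [Complex.sub_re, ← Complex.ofReal_natCast, Complex.re_ofReal_mul, hN]
          ring
        rw [h1]
        have h2 := hb (a + 1) hak
        have h3 : (1 : ℝ) ≤ ((a + 1 : ℕ) : ℝ) := by
          exact_mod_cast Nat.le_add_left 1 a
        have h4 : 1 * N ≤ ((a + 1 : ℕ) : ℝ) * N := mul_le_mul_of_nonneg_right h3 hN0
        linarith
      exact (hB (a + 1) hak _ (hmaps hs)).comp s
        ((differentiableAt_id.sub (differentiableAt_const _)).differentiableWithinAt) hmaps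
    refine ⟨max b1 (max b2 b3), fun s => g1 s * Complex.exp (-∑ a ∈ Finset.range k,
        LL (D (a + 1)) (s - ((a + 1 : ℕ) : ℂ) * w)), fun s hs => ?_, fun s hss hs => ?_⟩
    · have hs' : -M < s.re := by
        have := hs.1
        rw [Complex.zero_re] at this
        linarith
      exact (hg1 s (strip_mono 0 hM hs)).mul
        ((hdiff.analyticAt (hopen.mem_nhds hs')).meromorphicAt)
    · have hs1 : b1 < s.re := lt_of_le_of_lt (le_max_left _ _) hs
      have hs2 : b2 < s.re := lt_of_le_of_lt ((le_max_left _ _).trans (le_max_right _ _)) hs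
      have hs3 : b3 < s.re := lt_of_le_of_lt ((le_max_right _ _).trans (le_max_right _ _)) hs
      have e1 := hb1 s (strip_mono 0 hM hss) hs1
      have e2 := hb2 s hs2
      have e3 := hb3 s hs3
      rw [IsoM_split] at e1
      simp only [IsoM_LL_tw_pow] at e2
      show EE (D 0) s = g1 s * _
      rw [← e1]
      unfold EE
      rw [e3, e2, ← Complex.exp_add]
      congr 1
      ring)
  exact ⟨hD 0 (Nat.zero_le k), B 0, g, hg, hg'⟩

/-- `Y(z) = [p ^ z] + [p ^ (-z)]`. -/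
noncomputable def YY (z : ℂ) : Dat := EEA520.tw z + EEA520.tw (-z)

/-- `S(z) = [p ^ (z/2)] + [p ^ (-z/2)]`. -/
noncomputable def SS (z : ℂ) : Dat := EEA520.tw (z / 2) + EEA520.tw (-z / 2)

theorem tw_add66 (z w : ℂ) : EEA520.tw (z + w) = EEA520.tw z * EEA520.tw w := by
  funext p
  simp only [EEA520.tw, el, Pi.mul_apply, ← map_mul]
  congr 1
  ext
  show ((p : ℕ) : ℂ) ^ (z + w) = ((p : ℕ) : ℂ) ^ z * ((p : ℕ) : ℂ) ^ w
  exact Complex.cpow_add _ _ (Nat.cast_ne_zero.2 p.2.ne_zero)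

theorem tw_zero66 : EEA520.tw 0 = 1 := by
  funext p
  simp only [EEA520.tw, el, Pi.one_apply]
  have : ppow p 0 = 1 := by
    ext
    show ((p : ℕ) : ℂ) ^ (0 : ℂ) = 1
    exact Complex.cpow_zero _
  rw [this, map_one]

theorem YY_mem (z : ℂ) : YY z ∈ BB := add_mem (tw_mem _) (tw_mem _)

theorem SS_mem (z : ℂ) : SS z ∈ BB := add_mem (tw_mem _) (tw_mem _)

theorem Cont.YY_pow_mul {D : Dat} (h : Cont D) (z : ℂ) (i : ℕ) : Cont (YY z ^ i * D) := by
  induction i with
  | zero => rwa [pow_zero, one_mul]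
  | succ i ih =>
    have h1 : YY z ^ (i + 1) * D = EEA520.tw z * (YY z ^ i * D) +
        EEA520.tw (-z) * (YY z ^ i * D) := by
      rw [pow_succ, YY]
      ring
    rw [h1]
    exact (ih.tw z).add (ih.tw (-z))

theorem Cont.SS_pow_mul {D : Dat} (h : Cont D) (z : ℂ) (i : ℕ) : Cont (SS z ^ i * D) := by
  induction i with
  | zero => rwa [pow_zero, one_mul]
  | succ i ih =>
    have h1 : SS z ^ (i + 1) * D = EEA520.tw (z / 2) * (SS z ^ i * D) +
        EEA520.tw (-z / 2) * (SS z ^ i * D) := by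
      rw [pow_succ, SS]
      ring
    rw [h1]
    exact (ih.tw (z / 2)).add (ih.tw (-z / 2))

/-- The top coefficient: it is enough to have continuations to `strip (-(J + e / 2) z) R`, for arbitrary
`R` and some `z = z(R)` with `re z < -R`. -/
theorem iso_top (e : ℕ) (J : ℕ) (D : ℕ → Dat) (hD : ∀ i ≤ J, D i ∈ BB)
    (h : ∀ R : ℝ, ∃ z : ℂ, z.re < -R ∧ NearTo (-((J + e / 2) * z)) R
      (∑ i ∈ Finset.range (J + 1), YY z ^ i * SS z ^ e * D i)) :
    Cont (D J) := by
  obtain ⟨Q, hQ⟩ : ∃ Q : Dat[X], Q = ∑ i ∈ Finset.range (J + 1),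
    X ^ (J - i) * (1 + X ^ 2) ^ i * (1 + X) ^ e * C (D i) := ⟨_, rfl⟩
  have hdeg : Q.natDegree < 2 * J + e + 1 := by
    rw [Nat.lt_succ_iff, hQ]
    refine natDegree_sum_le_of_forall_le _ _ fun i hi => ?_
    have hi' := Finset.mem_range.1 hi
    have a1 : ((1 : Dat[X]) + X ^ 2).natDegree ≤ 2 := by
      refine (natDegree_add_le _ _).trans ?_
      rw [natDegree_one]
      exact max_le (Nat.zero_le _) (natDegree_X_pow_le _)
    have a2 : ((1 : Dat[X]) + X).natDegree ≤ 1 := by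
      refine (natDegree_add_le _ _).trans ?_
      rw [natDegree_one]
      exact max_le (Nat.zero_le _) natDegree_X_le
    have b1 : ((X : Dat[X]) ^ (J - i)).natDegree ≤ J - i := natDegree_X_pow_le _
    have b2 : (((1 : Dat[X]) + X ^ 2) ^ i).natDegree ≤ i * 2 :=
      natDegree_pow_le.trans (Nat.mul_le_mul_left i a1)
    have b3 : (((1 : Dat[X]) + X) ^ e).natDegree ≤ e * 1 :=
      natDegree_pow_le.trans (Nat.mul_le_mul_left e a2)
    have b4 : (C (D i) : Dat[X]).natDegree ≤ 0 := (natDegree_C _).le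
    have b5 := natDegree_mul_le_of_le (natDegree_mul_le_of_le (natDegree_mul_le_of_le b1 b2) b3) b4
    refine b5.trans ?_
    omega
  have h0 : Q.coeff 0 = D J := by
    rw [coeff_zero_eq_eval_zero, hQ, eval_finsetSum, Finset.sum_eq_single J]
    · simp
    · intro i hi hiJ
      have hi' := Finset.mem_range.1 hi
      have : J - i ≠ 0 := by omega
      simp [this]
    · intro h
      exact absurd (Finset.mem_range.2 (Nat.lt_succ_self J)) h
  have hmem : ∀ a, Q.coeff a ∈ BB := by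
    intro a
    have h2 : Q ∈ Polynomial.lifts BB.subtype := by
      rw [hQ]
      refine sum_mem fun i hi => ?_
      have hi' := Finset.mem_range.1 hi
      have hX := Polynomial.X_mem_lifts BB.subtype
      refine mul_mem (mul_mem (mul_mem (pow_mem hX _) (pow_mem (add_mem (one_mem _)
        (pow_mem hX _)) _)) (pow_mem (add_mem (one_mem _) hX) _)) ?_
      exact Polynomial.C_mem_lifts BB.subtype ⟨_, hD i (by omega)⟩
    obtain ⟨b, hb⟩ := (Polynomial.lifts_iff_coeff_lifts _).1 h2 a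
    rw [← hb]
    exact b.2
  rw [← h0]
  refine iso_zero_near (2 * J + e) Q.coeff (fun a _ => hmem a) fun R => ?_
  obtain ⟨z, hz, h1⟩ := h R
  refine ⟨z, hz, ?_⟩
  replace h1 := h1.tw ((J + e / 2) * z)
  rw [neg_add_cancel] at h1
  have h2 : (∑ a ∈ Finset.range (2 * J + e + 1), EEA520.tw z ^ a * Q.coeff a) =
      EEA520.tw ((J + e / 2) * z) *
        ∑ i ∈ Finset.range (J + 1), YY z ^ i * SS z ^ e * D i := by
    have h3 : (∑ a ∈ Finset.range (2 * J + e + 1), EEA520.tw z ^ a * Q.coeff a) =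
        Q.eval (EEA520.tw z) := by
      rw [eval_eq_sum_range' hdeg]
      exact Finset.sum_congr rfl fun a _ => mul_comm _ _
    rw [h3, hQ, eval_finsetSum, Finset.mul_sum]
    refine Finset.sum_congr rfl fun i hi => ?_
    have hi' : i ≤ J := by
      have := Finset.mem_range.1 hi
      omega
    have c1 : YY z = EEA520.tw (-z) * (1 + EEA520.tw z ^ 2) := by
      rw [mul_add, mul_one, tw_pow, ← tw_add66, YY, add_comm]
      congr 2
      push_cast
      ring
    have c2 : SS z = EEA520.tw (-z / 2) * (1 + EEA520.tw z) := by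
      rw [mul_add, mul_one, ← tw_add66, SS, add_comm]
      congr 2
      ring
    have c3 : EEA520.tw ((J + e / 2) * z) * (EEA520.tw (-z) ^ i *
        EEA520.tw (-z / 2) ^ e) = EEA520.tw z ^ (J - i) := by
      rw [tw_pow, tw_pow, tw_pow, ← tw_add66, ← tw_add66]
      congr 1
      push_cast [Nat.cast_sub hi']
      ring
    simp only [eval_mul, eval_pow, eval_X, eval_add, eval_one, eval_C]
    rw [← c3, c1, c2, mul_pow, mul_pow]
    ring
  rw [h2]
  exact h1

/-- Isolation of all coefficients, from continuations to `ℂ`. -/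
theorem iso_all (e : ℕ) (J : ℕ) (D : ℕ → Dat) (hD : ∀ i ≤ J, D i ∈ BB)
    (h : ∀ B : ℝ, ∃ z : ℂ, z.re < B ∧
      Cont (∑ i ∈ Finset.range (J + 1), YY z ^ i * SS z ^ e * D i)) :
    ∀ i ≤ J, Cont (D i) := by
  have top : ∀ J : ℕ, (∀ i ≤ J, D i ∈ BB) →
      (∀ B : ℝ, ∃ z : ℂ, z.re < B ∧
        Cont (∑ i ∈ Finset.range (J + 1), YY z ^ i * SS z ^ e * D i)) → Cont (D J) := by
    intro J hD h
    refine iso_top e J D hD fun R => ?_
    obtain ⟨z, hz, h1⟩ := h (-R)
    exact ⟨z, hz, h1.nearTo _ _⟩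
  induction J with
  | zero =>
    intro i hi
    obtain rfl : i = 0 := Nat.le_zero.1 hi
    exact top 0 hD h
  | succ J ih =>
    have htop := top (J + 1) hD h
    have h1 := ih (fun i hi => hD i (Nat.le_succ_of_le hi)) fun B => by
      obtain ⟨z, hz, h2⟩ := h B
      refine ⟨z, hz, ?_⟩
      rw [Finset.sum_range_succ] at h2
      have h3 := ((htop.SS_pow_mul z e).YY_pow_mul z (J + 1))
      rw [← mul_assoc] at h3
      have h4 := h2.sub h3
      rwa [add_sub_cancel_right] at h4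
    intro i hi
    rcases Nat.lt_or_ge i (J + 1) with h2 | h2
    · exact h1 i (by omega)
    · obtain rfl : i = J + 1 := by omega
      exact htop

end Pool.Agent.EEA520
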