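import Pool.Agent.W_eea520_h66.LT

/-! The key lemma. -/

set_option autoImplicit false

namespace Pool.Agent.EEA520

open Polynomial

/-- The Vandermonde determinant. -/
def VV {A : Type} [CommRing A] {n : ℕ} (v : Fin n → A) : A :=
  ∏ i, ∏ j ∈ Finset.Ioi i, (v j - v i)

theorem VV_map {A B : Type} [CommRing A] [CommRing B] (φ : A →+* B) {n : ℕ} (v : Fin n → A) :
    φ (VV v) = VV fun i => φ (v i) := by
  simp [VV, map_prod]

theorem VV_eq {A : Type} [CommRing A] {n : ℕ} (v : Fin n → A) :
    VV v = ∏ i, ∏ j, if i < j then v j - v i else 1 := by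
  unfold VV
  refine Finset.prod_congr rfl fun i _ => ?_
  rw [← Finset.prod_filter]
  refine Finset.prod_congr ?_ fun _ _ => rfl
  ext j
  simp

theorem VV_append {A : Type} [CommRing A] {q m : ℕ} (z : Fin q → A) (a : Fin m → A) :
    VV (Fin.append z a) = VV z * VV a * ∏ j, ∏ k, (a k - z j) := by
  simp only [VV_eq]
  rw [Fin.prod_univ_add]
  have h1 : ∀ i : Fin q, (∏ j : Fin (q + m), if Fin.castAdd m i < j then
      Fin.append z a j - Fin.append z a (Fin.castAdd m i) else 1) =
      (∏ j : Fin q, if i < j then z j - z i else 1) * ∏ k, (a k - z i) := by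
    intro i
    rw [Fin.prod_univ_add]
    congr 1
    · refine Finset.prod_congr rfl fun j _ => ?_
      rw [Fin.append_left, Fin.append_left]
      simp only [Fin.lt_def, Fin.val_castAdd]
    · refine Finset.prod_congr rfl fun j _ => ?_
      rw [Fin.append_left, Fin.append_right, if_pos]
      rw [Fin.lt_def, Fin.val_castAdd, Fin.val_natAdd]
      omega
  have h2 : ∀ i : Fin m, (∏ j : Fin (q + m), if Fin.natAdd q i < j then
      Fin.append z a j - Fin.append z a (Fin.natAdd q i) else 1) =
      (∏ j : Fin m, if i < j then a j - a i else 1) := by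
    intro i
    rw [Fin.prod_univ_add]
    have : (∏ j : Fin q, if Fin.natAdd q i < Fin.castAdd m j then
      Fin.append z a (Fin.castAdd m j) - Fin.append z a (Fin.natAdd q i) else 1) = 1 := by
      refine Finset.prod_eq_one fun j _ => if_neg ?_
      rw [Fin.lt_def, Fin.val_castAdd, Fin.val_natAdd]
      omega
    rw [this, one_mul]
    refine Finset.prod_congr rfl fun j _ => ?_
    rw [Fin.append_right, Fin.append_right]
    simp only [Fin.lt_def, Fin.val_natAdd, add_lt_add_iff_left]
  simp only [h1, h2, Finset.prod_mul_distrib]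
  ring

theorem VV_eq_det (u : ℤ) {A : Type} [CommRing A] {n : ℕ} (v : Fin n → A) :
    VV v = Matrix.det (Matrix.of fun i j : Fin n => (pA u A j).eval (v i)) := by
  nontriviality A
  rw [VV, ← Matrix.det_vandermonde]
  exact Matrix.det_eval_matrixOfPolynomials_eq_det_vandermonde v (fun j => pA u A j)
    (fun i => by rw [pA, (pp_natDegree u i).2.natDegree_map, (pp_natDegree u i).1])
    fun i => pA_monic u i

/-- `P_d(a) = L_z (∏ (z_j - a_k) * V(z) * ∏ p_{d_j}(z_j))`. -/
noncomputable def KL (u : ℤ) {A : Type} [CommRing A] {q m : ℕ} (a : Fin m → A) (d : Fin q → ℕ) : A :=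
  LT u ((∏ j : Fin q, ∏ k, (MvPolynomial.X j - MvPolynomial.C (a k))) *
    VV (fun j : Fin q => (MvPolynomial.X j : MvPolynomial (Fin q) A)) *
    ∏ j, (pA u A (d j)).aeval (MvPolynomial.X j : MvPolynomial (Fin q) A))

theorem map_aeval_X {A B : Type} [CommRing A] [CommRing B] (φ : A →+* B) {ι : Type} (j : ι)
    (f : A[X]) : MvPolynomial.map φ (f.aeval (MvPolynomial.X j : MvPolynomial ι A)) =
      (f.map φ).aeval (MvPolynomial.X j : MvPolynomial ι B) := by
  rw [aeval_def, hom_eval₂, aeval_def, eval₂_map, MvPolynomial.map_X]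
  congr 1
  ext a
  simp [MvPolynomial.algebraMap_eq]

theorem KL_map (u : ℤ) {A B : Type} [CommRing A] [CommRing B] (φ : A →+* B) {q m : ℕ}
    (a : Fin m → A) (d : Fin q → ℕ) : φ (KL u a d) = KL u (fun k => φ (a k)) d := by
  unfold KL
  rw [LT_map]
  congr 1
  simp only [map_mul, map_prod, map_sub, MvPolynomial.map_X, MvPolynomial.map_C, VV_map,
    map_aeval_X, pA_map]

private theorem key_neg {A : Type} [CommRing A] {q m : ℕ} (z : Fin q → A) (a : Fin m → A) :
    ∏ j, ∏ k, (z j - a k) = (-1) ^ (q * m) * ∏ j, ∏ k, (a k - z j) := by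
  have h : ∀ j : Fin q, ∏ k, (z j - a k) = (-1) ^ m * ∏ k, (a k - z j) := by
    intro j
    have h1 : ∀ k : Fin m, z j - a k = (-1) * (a k - z j) := fun k => by ring
    simp only [h1]
    rw [Finset.prod_mul_distrib, Finset.prod_const, Finset.card_univ, Fintype.card_fin]
  simp only [h]
  rw [Finset.prod_mul_distrib, Finset.prod_const, Finset.card_univ, Fintype.card_fin, ← pow_mul,
    mul_comm m q]

theorem pA_eval_X (u : ℤ) {A : Type} [CommRing A] {ι : Type} (n : ℕ) (j : ι) :
    (pA u (MvPolynomial ι A) n).eval (MvPolynomial.X j) =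
      (pA u A n).aeval (MvPolynomial.X j : MvPolynomial ι A) := by
  rw [← pA_map u (A := A) (MvPolynomial.C : A →+* MvPolynomial ι A), eval_map, aeval_def,
    MvPolynomial.algebraMap_eq]

theorem pA_eval_C (u : ℤ) {A : Type} [CommRing A] {ι : Type} (n : ℕ) (a : A) :
    (pA u (MvPolynomial ι A) n).eval (MvPolynomial.C a) =
      (MvPolynomial.C ((pA u A n).eval a) : MvPolynomial ι A) := by
  rw [← pA_map u (A := A) (MvPolynomial.C : A →+* MvPolynomial ι A), eval_map,
    eval₂_at_apply]

theorem LT_mul_C (u : ℤ) {A : Type} [CommRing A] {ι : Type} [Fintype ι] (F : MvPolynomial ι A)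
    (r : A) : LT u (F * MvPolynomial.C r) = LT u F * r := by
  rw [mul_comm, ← MvPolynomial.smul_eq_C_mul, map_smul, smul_eq_mul, mul_comm]

theorem LT_intCast_mul (u : ℤ) {A : Type} [CommRing A] {ι : Type} [Fintype ι] (e : ℤ)
    (F : MvPolynomial ι A) : LT u ((e : MvPolynomial ι A) * F) = (e : A) * LT u F := by
  rw [← zsmul_eq_mul, map_zsmul, zsmul_eq_mul]

/-- The determinant with permuted columns. -/
theorem VV_append_det (u : ℤ) {A : Type} [CommRing A] {q m : ℕ}
    (D : Fin q ⊕ Fin m ≃ Fin (q + m)) (z : Fin q → A) (a : Fin m → A) :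
    VV (Fin.append z a) = ((Equiv.Perm.sign (finSumFinEquiv.symm.trans D) : ℤ) : A) *
      Matrix.det (Matrix.of fun r s : Fin q ⊕ Fin m => (pA u A (D s)).eval (Sum.elim z a r)) := by
  rw [VV_eq_det u]
  have h1 : (Matrix.of fun r s : Fin q ⊕ Fin m => (pA u A (D s)).eval (Sum.elim z a r)) =
      (((Matrix.of fun i j : Fin (q + m) => (pA u A j).eval (Fin.append z a i)).submatrix id
        (finSumFinEquiv.symm.trans D)).submatrix finSumFinEquiv finSumFinEquiv) := by
    ext r s
    simp only [Matrix.of_apply, Matrix.submatrix_apply, id, Equiv.trans_apply,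
      Equiv.symm_apply_apply]
    congr 1
    cases r with
    | inl i => rw [finSumFinEquiv_apply_left, Fin.append_left, Sum.elim_inl]
    | inr i => rw [finSumFinEquiv_apply_right, Fin.append_right, Sum.elim_inr]
  rw [h1, Matrix.det_submatrix_equiv_self, Matrix.det_permute', ← mul_assoc, ← Int.cast_mul,
    ← Units.val_mul, Int.units_mul_self, Units.val_one, Int.cast_one, one_mul]

/-- The key lemma: for a bijection `(d, e)` of `[q] ⊔ [m]` with `{0, …, q + m - 1}`,
`P_d(a) * V(a) = ± det (p_{e_j}(a_k))`. -/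
theorem key (u : ℤ) {q m : ℕ} (D : Fin q ⊕ Fin m ≃ Fin (q + m)) : ∃ s : ℤˣ,
    ∀ (A : Type) [CommRing A] (a : Fin m → A),
      KL u a (fun j => (D (Sum.inl j) : ℕ)) * VV a = ((s : ℤ) : A) *
        Matrix.det (Matrix.of fun k j : Fin m => (pA u A (D (Sum.inr j) : ℕ)).eval (a k)) := by
  refine ⟨(-1) ^ (q * m) * Equiv.Perm.sign (finSumFinEquiv.symm.trans D), fun A _ a => ?_⟩
  have hV := VV_append_det u D (fun j : Fin q => (MvPolynomial.X j : MvPolynomial (Fin q) A))
    (fun k => MvPolynomial.C (a k))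
  rw [VV_append] at hV
  have hdet : (∏ j, (pA u A (D (Sum.inl j) : ℕ)).aeval (MvPolynomial.X j :
        MvPolynomial (Fin q) A)) *
      Matrix.det (Matrix.of fun r s : Fin q ⊕ Fin m => (pA u (MvPolynomial (Fin q) A) (D s)).eval
        (Sum.elim (fun j : Fin q => MvPolynomial.X j) (fun k => MvPolynomial.C (a k)) r)) =
      Matrix.det (Matrix.of fun (r s : Fin q ⊕ Fin m) => Sum.elim
        (fun i => (pA u A (D (Sum.inl i)) * pA u A (D s)).aeval
          (MvPolynomial.X i : MvPolynomial (Fin q) A))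
        (fun k => MvPolynomial.C ((pA u A (D s)).eval (a k))) r) := by
    have h2 : (∏ j, (pA u A (D (Sum.inl j) : ℕ)).aeval (MvPolynomial.X j :
        MvPolynomial (Fin q) A)) = ∏ r : Fin q ⊕ Fin m, Sum.elim
          (fun j => (pA u A (D (Sum.inl j) : ℕ)).aeval (MvPolynomial.X j :
            MvPolynomial (Fin q) A)) (fun _ => 1) r := by
      simp [Fintype.prod_sum_type]
    rw [h2, ← Matrix.det_mul_column]
    congr 1
    ext r s
    cases r with
    | inl i =>
      simp only [Matrix.of_apply, Sum.elim_inl]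
      rw [pA_eval_X, map_mul]
    | inr k =>
      simp only [Matrix.of_apply, Sum.elim_inr]
      rw [pA_eval_C, one_mul]
  have hF : ((∏ j : Fin q, ∏ k, (MvPolynomial.X j - MvPolynomial.C (a k))) *
      VV (fun j : Fin q => (MvPolynomial.X j : MvPolynomial (Fin q) A)) *
      ∏ j, (pA u A (D (Sum.inl j) : ℕ)).aeval (MvPolynomial.X j : MvPolynomial (Fin q) A)) *
      MvPolynomial.C (VV a) =
      ((((-1) ^ (q * m) * Equiv.Perm.sign (finSumFinEquiv.symm.trans D) : ℤˣ) : ℤ) :
        MvPolynomial (Fin q) A) * Matrix.det (Matrix.of fun (r s : Fin q ⊕ Fin m) => Sum.elim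
        (fun i => (pA u A (D (Sum.inl i)) * pA u A (D s)).aeval
          (MvPolynomial.X i : MvPolynomial (Fin q) A))
        (fun k => MvPolynomial.C ((pA u A (D s)).eval (a k))) r) := by
    rw [← hdet, key_neg, VV_map]
    push_cast
    linear_combination ((-1) ^ (q * m) * ∏ j, (pA u A (D (Sum.inl j) : ℕ)).aeval
      (MvPolynomial.X j : MvPolynomial (Fin q) A)) * hV
  unfold KL
  rw [← LT_mul_C, hF, LT_intCast_mul, LT_det_sum]
  congr 1
  have h3 : (Matrix.of fun (r s : Fin q ⊕ Fin m) => Sum.elim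
      (fun i => LF u A (pA u A (D (Sum.inl i)) * pA u A (D s)))
      (fun k => (pA u A (D s)).eval (a k)) r) =
      Matrix.fromBlocks (1 : Matrix (Fin q) (Fin q) A) 0
        (Matrix.of fun k s => (pA u A (D (Sum.inl s))).eval (a k))
        (Matrix.of fun k s => (pA u A (D (Sum.inr s))).eval (a k)) := by
    ext r s
    rcases r with i | k <;> rcases s with j | l
    · simp only [Matrix.of_apply, Sum.elim_inl, Matrix.fromBlocks_apply₁₁, LF_pA_mul_pA,
        Matrix.one_apply]
      refine if_congr ?_ rfl rfl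
      rw [Fin.val_inj, D.injective.eq_iff, Sum.inl.injEq]
    · simp only [Matrix.of_apply, Sum.elim_inl, Matrix.fromBlocks_apply₁₂, LF_pA_mul_pA,
        Matrix.zero_apply]
      rw [if_neg]
      rw [Fin.val_inj, D.injective.eq_iff]
      exact Sum.inl_ne_inr
    · simp
    · simp
  rw [h3, Matrix.det_fromBlocks_zero₁₂, Matrix.det_one, one_mul]

end Pool.Agent.EEA520
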