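import Pool.Agent.W_eea520_h66.Orth

/-! The functional `L ⊗ ⋯ ⊗ L` on polynomials in several variables. -/

set_option autoImplicit false

namespace Pool.Agent.EEA520

open Polynomial

section

variable (u : ℤ) {A : Type} [CommRing A] {ι κ : Type} [Fintype ι] [Fintype κ]
  [DecidableEq ι] [DecidableEq κ]

/-- `t ^ a ↦ ∏ L (t ^ (a i))`. -/
noncomputable def LT : MvPolynomial ι A →ₗ[A] A :=
  (MvPolynomial.basisMonomials ι A).constr A fun a => ∏ i, ((mom u (a i) 0 : ℤ) : A)

omit [DecidableEq ι] in
theorem LT_monomial (a : ι →₀ ℕ) (r : A) :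
    LT u (MvPolynomial.monomial a r) = r * ∏ i, ((mom u (a i) 0 : ℤ) : A) := by
  have h : (MvPolynomial.monomial a r : MvPolynomial ι A) =
      r • (MvPolynomial.basisMonomials ι A a) := by
    rw [MvPolynomial.coe_basisMonomials, MvPolynomial.smul_monomial, smul_eq_mul, mul_one]
  rw [h, map_smul, LT, Module.Basis.constr_basis, smul_eq_mul]

theorem LF_eq_sum (f : A[X]) {n : ℕ} (hn : f.natDegree < n) :
    LF u A f = ∑ k ∈ Finset.range n, f.coeff k * ((mom u k 0 : ℤ) : A) := by
  conv_lhs => rw [f.as_sum_range' n hn]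
  rw [map_sum]
  refine Finset.sum_congr rfl fun k _ => ?_
  rw [LF, MK_monomial]

/-- The product formula. -/
theorem LT_prod (f : ι → A[X]) :
    LT u (∏ i, (f i).aeval (MvPolynomial.X i : MvPolynomial ι A)) = ∏ i, LF u A (f i) := by
  obtain ⟨n, hn⟩ : ∃ n : ℕ, ∀ i, (f i).natDegree < n :=
    ⟨(Finset.univ.sup fun i => (f i).natDegree) + 1, fun i =>
      Nat.lt_succ_of_le (Finset.le_sup (f := fun i => (f i).natDegree) (Finset.mem_univ i))⟩
  have h1 : ∀ i, (f i).aeval (MvPolynomial.X i : MvPolynomial ι A) =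
      ∑ k ∈ Finset.range n, MvPolynomial.monomial (Finsupp.single i k) ((f i).coeff k) := by
    intro i
    rw [aeval_eq_sum_range' (hn i)]
    refine Finset.sum_congr rfl fun k _ => ?_
    rw [MvPolynomial.X_pow_eq_monomial, MvPolynomial.smul_monomial, smul_eq_mul, mul_one]
  simp only [h1]
  rw [Finset.prod_univ_sum, map_sum]
  have h2 : ∀ i, LF u A (f i) = ∑ k ∈ Finset.range n, (f i).coeff k * ((mom u k 0 : ℤ) : A) :=
    fun i => LF_eq_sum u (f i) (hn i)
  simp only [h2]
  rw [Finset.prod_univ_sum]
  refine Finset.sum_congr rfl fun a _ => ?_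
  have h3 : ∏ i, (MvPolynomial.monomial (Finsupp.single i (a i)) ((f i).coeff (a i)) :
      MvPolynomial ι A) = MvPolynomial.monomial (∑ i, Finsupp.single i (a i))
        (∏ i, (f i).coeff (a i)) := by
    have h4 : ∀ s : Finset ι, ∏ i ∈ s, (MvPolynomial.monomial (Finsupp.single i (a i))
        ((f i).coeff (a i)) : MvPolynomial ι A) =
        MvPolynomial.monomial (∑ i ∈ s, Finsupp.single i (a i)) (∏ i ∈ s, (f i).coeff (a i)) := by
      intro s
      induction s using Finset.induction_on with
      | empty => simp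
      | insert i s hi ih =>
        rw [Finset.prod_insert hi, Finset.sum_insert hi, Finset.prod_insert hi, ih,
          MvPolynomial.monomial_mul]
    exact h4 Finset.univ
  rw [h3, LT_monomial, Finset.prod_mul_distrib]
  congr 1
  refine Finset.prod_congr rfl fun i _ => ?_
  congr 3
  rw [Finsupp.finsetSum_apply, Finset.sum_eq_single i]
  · simp
  · intro j _ hj
    simp [hj]
  · simp

omit [DecidableEq ι] in
/-- `L` commutes with ring homomorphisms. -/
theorem LT_map {B : Type} [CommRing B] (φ : A →+* B) (F : MvPolynomial ι A) :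
    φ (LT u F) = LT u (MvPolynomial.map φ F) := by
  induction F using MvPolynomial.induction_on' with
  | monomial a r => 
    rw [MvPolynomial.map_monomial, LT_monomial, LT_monomial, map_mul, map_prod]
    simp
  | add f g hf hg => rw [map_add, map_add, map_add, map_add, hf, hg]

omit [DecidableEq ι] in
private theorem LT_sign (e : ℤˣ) (F : MvPolynomial ι A) :
    LT u (((e : ℤ) : MvPolynomial ι A) * F) = ((e : ℤ) : A) * LT u F := by
  rw [← zsmul_eq_mul, map_zsmul, zsmul_eq_mul]

/-- `L` of a determinant, where the row `i` is a row of polynomials in the variable `t_i`. -/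
theorem LT_det (f : ι → ι → A[X]) :
    LT u (Matrix.det (Matrix.of fun i j => (f i j).aeval (MvPolynomial.X i : MvPolynomial ι A))) =
      Matrix.det (Matrix.of fun i j => LF u A (f i j)) := by
  rw [← Matrix.det_transpose, Matrix.det_apply', map_sum, ← Matrix.det_transpose (Matrix.of _),
    Matrix.det_apply']
  refine Finset.sum_congr rfl fun σ _ => ?_
  rw [LT_sign]
  congr 1
  exact LT_prod u fun i => f i (σ i)

/-- `L` of a determinant, where the rows are rows of polynomials in one variable `t_i`, or constant. -/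
theorem LT_det_sum (f : ι → ι ⊕ κ → A[X]) (g : κ → ι ⊕ κ → A) :
    LT u (Matrix.det (Matrix.of fun (i j : ι ⊕ κ) => Sum.elim
      (fun i => (f i j).aeval (MvPolynomial.X i : MvPolynomial ι A))
      (fun k => MvPolynomial.C (g k j)) i)) =
      Matrix.det (Matrix.of fun (i j : ι ⊕ κ) => Sum.elim (fun i => LF u A (f i j))
        (fun k => g k j) i) := by
  rw [← Matrix.det_transpose, Matrix.det_apply', map_sum, ← Matrix.det_transpose (Matrix.of _),
    Matrix.det_apply']
  refine Finset.sum_congr rfl fun σ _ => ?_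
  rw [LT_sign]
  congr 1
  simp only [Matrix.transpose_apply, Matrix.of_apply, Fintype.prod_sum_type, Sum.elim_inl,
    Sum.elim_inr]
  rw [← map_prod, mul_comm, ← MvPolynomial.smul_eq_C_mul, map_smul, smul_eq_mul, mul_comm]
  congr 1
  exact LT_prod u fun i => f i (σ (Sum.inl i))

end

end Pool.Agent.EEA520
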