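import Pool.Agent.W_eea520_h66.EvenD
import Pool.Agent.W_eea520_h69.EvE

/-! One irreducible representation (not faithful) per rank. -/

set_option autoImplicit false

namespace Pool.Agent.EEA520

open Filter Polynomial

/-- The exterior powers of the standard representation. -/
theorem extV_map {n : ℕ} {B : Type} [CommRing B] (φ : R n →+* B) (a : ℕ) :
    φ (extV n a) = ((1 + X) * ∏ i, ((1 + C (φ (xx i 1)) * X) * (1 + C (φ (xx i (-1))) * X)) :
      B[X]).coeff a := by
  have h2 : (stdW n).map (fun w => (1 + C (φ (mon w)) * X : B[X])) =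
      (1 + C (φ (mon 0)) * X) ::ₘ (Finset.univ.val.map (fun i => (1 + C (φ (xx i 1)) * X : B[X])) +
        Finset.univ.val.map fun i => (1 + C (φ (xx i (-1))) * X : B[X])) := by
    simp only [stdW, Multiset.map_cons, Multiset.map_add, Multiset.map_map, Function.comp_def]
    congr 2
    refine Multiset.map_congr rfl fun i _ => ?_
    rw [xx, Pi.single_neg]
  have h3 : (φ (mon 0) : B) = 1 := map_one φ
  rw [extV, ← coeff_map, Polynomial.map_multiset_prod, Multiset.map_map]
  have h4 : (stdW n).map (Polynomial.map φ ∘ fun w => (1 + C (mon w) * X : (R n)[X])) =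
      (stdW n).map (fun w => (1 + C (φ (mon w)) * X : B[X])) := by
    refine Multiset.map_congr rfl fun w _ => ?_
    simp
  rw [h4, h2, Multiset.prod_cons, Multiset.prod_add, h3, map_one, one_mul,
    Finset.prod_mul_distrib]
  rfl

theorem Phi_xx_one {n : ℕ} (π : GSys n) (i : Fin n) :
    Phi π (xx i 1) = fun p => el ((π p).x i) := by
  funext p
  rw [xx, Phi_xx, zpow_one]

theorem Phi_xx_neg {n : ℕ} (π : GSys n) (i : Fin n) :
    Phi π (xx i (-1)) = fun p => el ((π p).x i)⁻¹ := by
  funext p
  rw [xx, Phi_xx, zpow_neg_one]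

theorem Phi_extV {n : ℕ} (π : GSys n) (a : ℕ) :
    Phi π (extV n a) = ((1 + X) * CC π : Dat[X]).coeff a := by
  have h1 := extV_map (Phi π) a
  simp only [Phi_xx_one, Phi_xx_neg] at h1
  exact h1

/-- If the coefficients of `∏ (t - y_i)` continue, the exterior powers continue. -/
theorem cont_extV {n : ℕ} {π : GSys n} (hF : ∀ i ≤ n, Cont ((FF (yD π)).coeff i)) (a : ℕ) :
    Cont (Phi π (extV n a)) := by
  rw [Phi_extV, add_mul, one_mul, coeff_add]
  refine (cont_CC hF a).add ?_
  rcases a with _ | a
  · rw [coeff_X_mul_zero]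
    exact cont_zero
  · rw [coeff_X_mul]
    exact cont_CC hF a

/-- The converse. -/
theorem cont_of_extV {n : ℕ} {π : GSys n} (h : ∀ a, Cont (Phi π (extV n a))) :
    ∀ i ≤ n, Cont ((FF (yD π)).coeff i) := by
  have hC : ∀ s, Cont ((CC π).coeff s) := by
    intro s
    induction s with
    | zero =>
      have h1 := h 0
      rwa [Phi_extV, add_mul, one_mul, coeff_add, coeff_X_mul_zero, add_zero] at h1
    | succ s ih =>
      have h1 := h (s + 1)
      rw [Phi_extV, add_mul, one_mul, coeff_add, coeff_X_mul] at h1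
      have h2 := h1.sub ih
      rwa [add_sub_cancel_right] at h2
  have key : ∀ j ≤ n, Cont ((FF (yD π)).coeff (n - j)) := by
    intro j
    induction j using Nat.strong_induction_on with
    | _ j ih =>
      intro hj
      have h1 := hC j
      rw [CC_coeff, ← Finset.add_sum_erase (Finset.range (n + 1)) _
        (Finset.mem_range.2 (show n - j < n + 1 by omega))] at h1
      have h2 : Cont (∑ i ∈ (Finset.range (n + 1)).erase (n - j),
          ((((-1) ^ (n + i) * (1 + X ^ 2) ^ i * X ^ (n - i) : ℤ[X]).coeff j : ℤ) : Dat) *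
            (FF (yD π)).coeff i) := by
        refine Cont.sum66 _ _ fun i hi => ?_
        have hi2 := Finset.mem_erase.1 hi
        have hi3 := Finset.mem_range.1 hi2.2
        rcases Nat.lt_or_ge i (n - j) with h4 | h4
        · have h5 : ((-1) ^ (n + i) * (1 + X ^ 2) ^ i * X ^ (n - i) : ℤ[X]).coeff j = 0 := by
            rw [coeff_mul_X_pow', if_neg (by omega)]
          rw [h5, Int.cast_zero, zero_mul]
          exact cont_zero
        · refine Cont.intCast_mul ?_ _
          have h5 := ih (n - i) (by omega) (Nat.sub_le _ _)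
          rwa [show n - (n - i) = i by omega] at h5
      have h3 := h1.sub h2
      rw [add_sub_cancel_right] at h3
      have h4 : ((-1) ^ (n + (n - j)) * (1 + X ^ 2) ^ (n - j) * X ^ (n - (n - j)) :
          ℤ[X]).coeff j = (-1) ^ (n + (n - j)) := by
        rw [show n - (n - j) = j by omega, coeff_mul_X_pow', if_pos le_rfl, Nat.sub_self,
          coeff_zero_eq_eval_zero]
        simp
      rw [h4] at h3
      have h5 := h3.intCast_mul ((-1) ^ (n + (n - j)))
      rwa [← mul_assoc, ← Int.cast_mul, ← mul_pow, neg_one_mul, neg_neg, one_pow, Int.cast_one,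
        one_mul] at h5
  intro i hi
  have h1 := key (n - i) (Nat.sub_le _ _)
  rwa [show n - (n - i) = i by omega] at h1

end Pool.Agent.EEA520
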