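import Pool.Agent.W_eea520_h66.MainB
import Pool.Agent.W_eea520_h66.CxQ
import Pool.Agent.W_eea520_h66.MainA
import Pool.Agent.W_eea520_h66.AllC

/-! Irreducible representations of the orthogonal group. -/

set_option autoImplicit false

namespace Pool.Agent.EEA520

open Filter Polynomial

/-- `Θ` with one variable `t`. -/
theorem Th_one (u : ℤ) {B : Type} [CommRing B] {n : ℕ} (y : Fin n → B) (b : Fin 1 → ℕ) :
    Th u y (Eb u b) = ∑ i ∈ Finset.range (n + 1),
      ((LF u ℤ (X ^ i * pA u ℤ (b 0)) : ℤ) : B) * (FF y).coeff i := by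
  have h1 : Th u y (Eb u b) = LF u B (FF y * pA u B (b 0)) := by
    rw [Eb, ← KL_eq_Th, KL]
    have h2 : VV (fun j : Fin 1 => (MvPolynomial.X j : MvPolynomial (Fin 1) B)) = 1 := by
      simp [VV]
    have h3 : ((∏ j : Fin 1, ∏ k, (MvPolynomial.X j - MvPolynomial.C (y k))) * 1 *
        ∏ j, (pA u B (b j)).aeval (MvPolynomial.X j : MvPolynomial (Fin 1) B)) =
        ∏ j : Fin 1, (FF y * pA u B (b j)).aeval
          (MvPolynomial.X j : MvPolynomial (Fin 1) B) := by
      rw [mul_one, ← Finset.prod_mul_distrib]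
      refine Finset.prod_congr rfl fun j _ => ?_
      rw [map_mul, FF, map_prod]
      simp [MvPolynomial.algebraMap_eq]
    rw [h2, h3, LT_prod, Fin.prod_univ_one]
  have h4 : ∀ i, ((LF u ℤ (X ^ i * pA u ℤ (b 0)) : ℤ) : B) =
      LF u B (X ^ i * pA u B (b 0)) := by
    intro i
    have := LF_map u (Int.castRingHom B) (X ^ i * pA u ℤ (b 0))
    rw [Polynomial.map_mul, Polynomial.map_pow, map_X, pA_map] at this
    exact this
  rw [h1]
  simp only [h4]
  conv_lhs => rw [(FF y).as_sum_range_C_mul_X_pow' (Nat.lt_succ_of_le (FF_natDegree_le y))]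
  rw [Finset.sum_mul, map_sum]
  refine Finset.sum_congr rfl fun i _ => ?_
  rw [mul_assoc, ← smul_eq_C_mul, map_smul, smul_eq_mul, mul_comm]

/-- There is an irreducible character with the highest weight `(0, (1, …, 1))`, and it is a
`ℤ`-combination of the coefficients of `∏ (t - y_i)`. -/
theorem exists_irr (N : ℕ) : ∃ m : Wt N →₀ ℤ, IsIrr 0 (fun _ : Fin N => (1 : ℤ)) m ∧
    ∀ π : GSys N, (∀ i ≤ N, Cont ((FF (yD π)).coeff i)) →
      Cont (Phi π (AddMonoidAlgebra.ofCoeff m)) := by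
  obtain ⟨D, hD⟩ := exists_equiv (c := 1) (fun j : Fin N => 1 + ((Fin.rev j : Fin N) : ℕ))
    (fun i j h => by
      have h1 : ((Fin.rev i : Fin N) : ℕ) = ((Fin.rev j : Fin N) : ℕ) := by
        simpa using h
      exact Fin.rev_injective (Fin.ext h1)) fun j => by
      have := (Fin.rev j : Fin N).2
      omega
  obtain ⟨s, hs⟩ := alt_char 0 (Nat.zero_le 1) 0 D
  have e1 : (fun j : Fin N => ((D (Sum.inr j) : ℕ) : ℤ) + 0 + 1 + ((0 : ℕ) : ℤ)) =
      fun j : Fin N => 1 + ((N : ℤ) - j) := by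
    funext j
    rw [hD, Fin.val_rev]
    have := j.2
    push_cast [Nat.cast_sub (show (j : ℕ) + 1 ≤ N by omega)]
    ring
  have e2 : (2 * 0 + ((0 : ℕ) : ℤ) + 1) = 0 + 1 := by norm_num
  rw [e1, e2] at hs
  refine ⟨(((s : ℤ) : R N) * (mon ((0 : ℤ) • nuW N) * spR N ^ 0 *
    KL (1 - ((0 : ℕ) : ℤ)) (yR N) (fun j => (D (Sum.inl j) : ℕ)))).coeff,
    ⟨fun i j _ => le_rfl, fun i => by norm_num, hs.symm⟩, fun π hπ => ?_⟩
  show Cont (Phi π (((s : ℤ) : R N) * (mon ((0 : ℤ) • nuW N) * spR N ^ 0 *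
    KL (1 - ((0 : ℕ) : ℤ)) (yR N) (fun j => (D (Sum.inl j) : ℕ)))))
  have e3 : (mon ((0 : ℤ) • nuW N) : R N) = 1 := by
    rw [zero_smul]
    rfl
  rw [e3, pow_zero, one_mul, one_mul, map_mul, map_intCast, KL_eq_Th, Th_map]
  simp only [Phi_yR]
  refine Cont.intCast_mul ?_ _
  have h1 := Th_one (1 - ((0 : ℕ) : ℤ)) (yD π) (fun j => (D (Sum.inl j) : ℕ))
  rw [Eb] at h1
  rw [h1]
  refine Cont.sum66 _ _ fun i hi => Cont.intCast_mul (hπ i ?_) _
  have := Finset.mem_range.1 hi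
  omega

theorem Tower.FF {Z : (n : ℕ) → GSys n → Set ℂ} {n : ℕ} {π : GSys n}
    (hc : ∀ i ≤ n, Cont ((EEA520.FF (yD π)).coeff i)) {N : ℕ} {π' : GSys N} (h : Tower Z π N π') :
    ∀ i, Cont ((EEA520.FF (yD π')).coeff i) := by
  induction h with
  | base => exact cont_FF_of_le hc
  | step z _ _ ih => exact cont_FF_klingen ih z

/-- The coefficients of `∏ (t - y_i)`. -/
theorem FF_of_allC {k' : ℤ} {c : ℕ} (hc : 0 < c) {n : ℕ} {π : GSys n} (hπ : Bdd π)
    (ht : TrivialCentral π) (h : AllC k' c 0 π) : ∀ i ≤ n, Cont ((FF (yD π)).coeff i) := by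
  have h1 : AllC k' 1 0 π := allC_of_cont (Nat.zero_le 1) fun ν m hm hν =>
    cont_of_allC (Nat.zero_le 1) h ν m hm fun i => by
      have := hν i
      push_cast at this ⊢
      omega
  have hmem : ∀ i, (FF (yD π)).coeff i ∈ BB := FF_coeff_mem BB _ (yD_mem hπ)
  have h2 : ∀ b : ℕ, Cont (∑ i ∈ Finset.range (n + 1),
      ((LF (1 - ((0 : ℕ) : ℤ)) ℤ (X ^ i * pA (1 - ((0 : ℕ) : ℤ)) ℤ b) : ℤ) : Dat) *
        (FF (yD π)).coeff i) := by
    intro b
    have h3 := h1 (Pbs (1 - ((0 : ℕ) : ℤ)) fun _ => b)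
    rw [← Eb_eq, Th_one] at h3
    refine cont_congr (sum_mem fun i _ => mul_mem (intCast_mem _ _) (hmem i)) ?_ h3
    filter_upwards [ht] with p hp
    have h4 : SE k' 0 π p = 1 := by
      rw [SE, pow_zero, mul_one, Phi_nu]
      have h5 : ((π p).c ^ 2 * ∏ i, (π p).x i) ^ k' = 1 := by
        have h6 : ((π p).c ^ 2 * ∏ i, (π p).x i) = (π p).nu := rfl
        rw [h6, hp, one_zpow]
      rw [h5]
      exact map_one _
    rw [Pi.mul_apply, h4, one_mul]
  have key : ∀ j ≤ n, Cont ((FF (yD π)).coeff (n - j)) := by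
    intro j
    induction j using Nat.strong_induction_on with
    | _ j ih =>
      intro hj
      have h3 := h2 (n - j)
      rw [← Finset.add_sum_erase (Finset.range (n + 1)) _
        (Finset.mem_range.2 (show n - j < n + 1 by omega))] at h3
      have h4 : LF (1 - ((0 : ℕ) : ℤ)) ℤ (X ^ (n - j) * pA (1 - ((0 : ℕ) : ℤ)) ℤ (n - j)) = 1 := by
        rw [LF_mul_pA _ (natDegree_X_pow_le _)]
        simp
      rw [h4, Int.cast_one, one_mul] at h3
      have h5 : Cont (∑ i ∈ (Finset.range (n + 1)).erase (n - j),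
          ((LF (1 - ((0 : ℕ) : ℤ)) ℤ (X ^ i * pA (1 - ((0 : ℕ) : ℤ)) ℤ (n - j)) : ℤ) : Dat) *
            (FF (yD π)).coeff i) := by
        refine Cont.sum66 _ _ fun i hi => ?_
        have hi2 := Finset.mem_erase.1 hi
        have hi3 := Finset.mem_range.1 hi2.2
        rcases Nat.lt_or_ge i (n - j) with h6 | h6
        · have h7 : LF (1 - ((0 : ℕ) : ℤ)) ℤ (X ^ i * pA (1 - ((0 : ℕ) : ℤ)) ℤ (n - j)) = 0 := by
            rw [LF_mul_pA _ ((natDegree_X_pow_le _).trans h6.le), coeff_X_pow,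
              if_neg (by omega)]
          rw [h7, Int.cast_zero, zero_mul]
          exact cont_zero
        · refine Cont.intCast_mul ?_ _
          have h7 := ih (n - i) (by omega) (Nat.sub_le _ _)
          rwa [show n - (n - i) = i by omega] at h7
      have h6 := h3.sub h5
      rwa [add_sub_cancel_right] at h6
  intro i hi
  have h3 := key (n - i) (Nat.sub_le _ _)
  rwa [show n - (n - i) = i by omega] at h3

/-- The symmetric functions of the `x_i + 1 / x_i`, for a single system. -/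
theorem even_iff {n : ℕ} {π : GSys n} (hπ : Bdd π) (ht : TrivialCentral π)
    {Z : (n : ℕ) → GSys n → Set ℂ} (hZ : Unbdd Z) :
    (∃ (k : ℤ) (l : ℕ), Even k ∧ Even l ∧ 0 < l ∧ OneV Z k l π) ↔
      ∀ i ≤ n, Cont ((FF (yD π)).coeff i) := by
  constructor
  · rintro ⟨k, l, ⟨k', rfl⟩, ⟨c, rfl⟩, hl, N, μ, m, hm, hr, hyp⟩
    have he : (k' + k' : ℤ) = 2 * k' + ((0 : ℕ) : ℤ) := by rw [Nat.cast_zero, add_zero, two_mul]
    rw [he] at hm hyp
    have h1 : (Finset.univ.filter fun i : Fin N => 2 * μ i.succ = k' + k' + ((c + c : ℕ) : ℤ)).card =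
        (Finset.univ.filter fun i : Fin N => μ i.succ = c + k' + ((0 : ℕ) : ℤ)).card := by
      congr 1
      ext i
      simp only [Finset.mem_filter, Finset.mem_univ, true_and]
      push_cast
      omega
    rw [h1] at hr
    exact FF_of_allC (c := c) (by omega) hπ ht (allC_of_irr (kclosed_tower hZ hπ) N 0
      (Nat.zero_le 1) k' μ m hm c n hr hyp π Tower.base)
  · intro hc
    obtain ⟨m, hm, hm'⟩ := exists_irr (2 * n + 1)
    refine ⟨0, 2, Even.zero, even_two, by norm_num, 2 * n, fun _ => 1, m, hm, ?_,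
      fun π' h' R => ⟨((-R - 1 : ℝ) : ℂ), by
        rw [Complex.ofReal_re]
        linarith, ?_⟩⟩
    · rw [Finset.filter_true_of_mem fun _ _ => by norm_num, Finset.card_univ, Fintype.card_fin]
    · have h2 := h'.FF hc
      have h1 := hm' (klingen π' ((-R - 1 : ℝ) : ℂ)) fun i _ => cont_FF_klingen h2 _ i
      exact Continues.near ((continues_iff (bdd_klingen (h'.bdd hπ) _) _).2 h1) _ _

section

variable {S : (k : ℕ) → Set (GLSys k)} {P : (n : ℕ) → Set (GSys n)}

theorem isCuspidal_triv (h : IsCuspidal S P) : IsCuspidal S Triv where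
  bddS := h.bddS
  bddP := by
    rintro n π ⟨rfl, h1⟩
    refine ⟨0, Eventually.of_forall fun p => ⟨?_, fun i => i.elim0⟩⟩
    rw [h1, Real.rpow_zero]
    simp
  one := h.one
  mul := h.mul
  inv := h.inv
  det := h.det
  nu := by
    rintro n π ⟨rfl, h1⟩
    obtain ⟨χ, hχ, h2⟩ := h.one
    refine ⟨χ, hχ, h2.mono fun p hp => ?_⟩
    unfold Torus.nu
    rw [hp, h1]
    simp
  triv := ⟨fun _ => ⟨1, Fin.elim0⟩, ⟨rfl, fun _ => rfl⟩, Eventually.of_forall fun _ => rfl⟩

theorem eis_of_triv (h : IsCuspidal S P) {n : ℕ} {π : GSys n} (hπ : Eis S Triv n π) :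
    Eis S P n π := by
  induction hπ with
  | @base n π hπ =>
    obtain ⟨rfl, h1⟩ := hπ
    obtain ⟨π₀, hπ₀, h2⟩ := h.triv
    refine Eis.congr (Eis.base hπ₀) (h2.mono fun p hp => ?_)
    ext i
    · rw [hp, h1]
    · exact i.elim0
  | ind z _ hσ ih => exact Eis.ind z ih hσ
  | tw w _ ih => exact Eis.tw w ih
  | congr _ he ih => exact Eis.congr ih he

theorem hasTransfer_triv (h : IsCuspidal S P) (hd : ClosedDual S) {n : ℕ} {π : GSys n}
    (hπ : Eis S Triv n π) : HasTransfer S π := by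
  induction hπ with
  | @base n π hπ =>
    obtain ⟨rfl, -⟩ := hπ
    obtain ⟨χ, hχ, h1⟩ := h.one
    show IsoM S fun p => (π p).std
    refine (IsoM.zero : IsoM S fun _ => 0).add hχ 0 ?_
    filter_upwards [h1] with p hp
    rw [zero_add, ppow_zero]
    unfold Torus.std
    simp [hp]
  | @ind n k π σ z _ hσ ih =>
    obtain ⟨σ', hσ', he⟩ := map_inv_tw hd hσ z
    show IsoM S fun p => (induce π σ z p).std
    have h1 : IsoM S fun p => (π p).std := ih
    have h2 := h1.add (M' := fun p => (π p).std +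
      Finset.univ.val.map fun i => σ p i * ppow p z) hσ z (Eventually.of_forall fun _ => rfl)
    refine h2.add hσ' (-z) ?_
    filter_upwards [he] with p hp
    rw [std_induce, hp]
  | @tw n π w _ ih => exact ih
  | @congr n π π' _ he ih =>
    obtain ⟨r, d, σ, z, hσ, h1⟩ := ih
    refine ⟨r, d, σ, z, hσ, ?_⟩
    filter_upwards [h1, he] with p h2 h3
    rw [← h3, h2]

theorem mm_of_FF (h : IsCuspidal S P)
    (hF : ∀ n (π : GSys n), Eis S Triv n π → ∀ i ≤ n, Cont ((FF (yD π)).coeff i)) :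
    ∀ D ∈ MM (TwS S), Cont D := by
  intro D hD
  refine MM_cont (isCuspidal_triv h) hF D ?_
  refine Subring.closure_mono ?_ hD
  rintro D ⟨k, σ, a, hσ, rfl⟩
  exact ⟨k, σ, a, Or.inl hσ, rfl⟩

theorem mainEven (h : IsCuspidal S P) (hd : ClosedDual S) {Z : (n : ℕ) → GSys n → Set ℂ}
    (hZ : Unbdd Z) :
    List.TFAE [
      ∀ n π, Eis S Triv n π → TrivialCentral π → ∃ (k : ℤ) (l : ℕ), Even k ∧ Even l ∧ 0 < l ∧
        OneV Z k l π,
      ∀ r : ℕ, ∃ (N : ℕ) (k : ℤ) (μ : Fin N → ℤ) (m : Wt N →₀ ℤ) (v : ℤ), Even k ∧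
        IsIrr k μ m ∧ k < 2 * v ∧ r ≤ (Finset.univ.filter fun i => μ i = v).card ∧
        UHyp S Triv N m,
      ∀ (n : ℕ) (π : GSys n), Eis S P n π → HasTransfer S π → ∀ m : Wt n →₀ ℤ, IsCharacter m →
        IsEven m → Continues π m,
      ∀ (N : ℕ) (τ : GLSys N), IsIsobaric S τ → ∀ m : (Fin N → ℤ) →₀ ℤ, IsSymmetric m →
        GLContinues τ m] := by
  have ht := isCuspidal_triv h
  tfae_have 1 → 4 := fun ha N τ hτ m hm =>
    gl_of_MM h (mm_of_FF h (even_all ht fun n π hπ htr =>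
      (even_iff (hπ.bdd ht) htr hZ).1 (ha n π hπ htr))) hτ m hm
  tfae_have 2 → 4 := by
    intro ha N τ hτ m hm
    refine gl_of_MM h (mm_of_FF h fun n π hπ => ?_) hτ m hm
    obtain ⟨χ, hχ, hz⟩ := exists_pad_QU ht hπ
    refine even_pad ht hπ hχ fun z => ?_
    obtain ⟨N, k, μ, m, v, ⟨k', rfl⟩, hm, hv, hr, hyp⟩ := ha (2 * (n + 1) + 1)
    have hm' : IsIrr (2 * k' + ((0 : ℕ) : ℤ)) μ m := by
      rw [Nat.cast_zero, add_zero, two_mul]
      exact hm
    exact Extracted.even (kclosed_QU ht) (extraction_irr_full N 0 (Nat.zero_le 1) k' μ m hm' v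
      (n + 1) hr (QU_hyp ht 0 (Nat.zero_le 1) k' μ m hm' hyp)) (by omega) _ (hz z)
  tfae_have 4 → 3 := fun hc n π hπ ht m hm he => even_of_MM h (MM_of_gl h hc) hπ ht m hm he
  have key : (∀ (n : ℕ) (π : GSys n), Eis S P n π → HasTransfer S π → ∀ m : Wt n →₀ ℤ,
      IsCharacter m → IsEven m → Continues π m) → ∀ (n : ℕ) (π : GSys n), Eis S Triv n π →
      ∀ i ≤ n, Cont ((FF (yD π)).coeff i) := by
    intro hb n π hπ
    have h1 := eis_of_triv h hπ
    refine cont_of_extV fun a => (continues_iff (h1.bdd h) _).1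
      (hb n π h1 (hasTransfer_triv h hd hπ) _ (isCharacter_ext _ _) (even_of_theta (theta_ext _ _)))
  tfae_have 3 → 1 := fun hb n π hπ htr => (even_iff (hπ.bdd ht) htr hZ).2 (key hb n π hπ)
  tfae_have 3 → 2 := by
    intro hb r
    obtain ⟨m, hm, hm'⟩ := exists_irr r
    refine ⟨r, 0, fun _ => 1, m, 1, Even.zero, hm, by norm_num, ?_, fun L F _ hF u _ c => ?_⟩
    · rw [Finset.filter_true_of_mem fun _ _ => rfl, Finset.card_univ, Fintype.card_fin]
    · have h1 : {t | ContinuesTo c (twist (F t) (u t * Complex.I)) m} = Set.univ := by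
        apply Set.eq_univ_of_forall
        intro t
        have hE : Eis S Triv r (twist (F t) (u t * Complex.I)) := Eis.tw _ (hF.eis t)
        exact (continuesTo_iff (hE.bdd ht) (AddMonoidAlgebra.ofCoeff m)).2
          ((hm' _ (key hb _ _ hE)).contTo c)
      rw [h1]
      exact not_small_univ
  tfae_finish

end

end Pool.Agent.EEA520
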