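import Pool.Agent.W_eea520_h66.OneRep

/-! The spin representation, twisted with powers of the similitude factor. -/

set_option autoImplicit false

namespace Pool.Agent.EEA520

open Filter Polynomial

theorem mon_nu_eq (k' : ℤ) (N : ℕ) :
    (mon (k' • nuW N) : R N) = mon (2 * k', 0) * ∏ i, xx i k' := by
  have h4 : ∀ s : Finset (Fin N), (∏ i ∈ s, xx i k' : R N) =
      mon (0, ∑ i ∈ s, Pi.single i k') := by
    intro s
    induction s using Finset.induction_on with
    | empty => rfl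
    | insert i s hi ih =>
      rw [Finset.prod_insert hi, Finset.sum_insert hi, ih, xx, mon_mul, Prod.mk_add_mk,
        add_zero]
  rw [h4, mon_mul, Prod.mk_add_mk, add_zero, zero_add]
  congr 1
  refine Prod.ext ?_ ?_
  · simp [nuW, mul_comm]
  · rw [Finset.univ_sum_single]
    funext i
    simp [nuW]

/-- The representation `ν ^ k' ⊗ spin` is irreducible. -/
theorem spin_irrW (k' : ℤ) (N : ℕ) : IsIrr (2 * k' + 1) (fun _ : Fin N => k' + 1)
    (mon (k' • nuW N) * spR N).coeff := by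
  obtain ⟨h1, h2, h3⟩ := spin_irr N
  refine ⟨fun i j _ => le_rfl, fun i => by show 2 * k' + 1 ≤ 2 * (k' + 1); omega, ?_⟩
  have h4 : (AddMonoidAlgebra.ofCoeff (mon (k' • nuW N) * spR N : R N).coeff : R N) =
      mon (k' • nuW N) * spR N := rfl
  have h5 : (AddMonoidAlgebra.ofCoeff (spin N) : R N) = spR N := by
    rw [← spR_coeff]
  rw [h5] at h3
  rw [h4, mul_assoc, h3]
  have h6 := alt_eq (N := N) 1 le_rfl k' (fun j => ((Fin.rev j : Fin N) : ℕ))
  have h7 := alt_eq (N := N) 1 le_rfl 0 (fun j => ((Fin.rev j : Fin N) : ℕ))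
  have e1 : (fun j : Fin N => (((Fin.rev j : Fin N) : ℕ) : ℤ) + k' + 1 + ((1 : ℕ) : ℤ)) =
      fun j : Fin N => k' + 1 + ((N : ℤ) - j) := by
    funext j
    rw [Fin.val_rev]
    have := j.2
    push_cast [Nat.cast_sub (show (j : ℕ) + 1 ≤ N by omega)]
    ring
  have e2 : (fun j : Fin N => (((Fin.rev j : Fin N) : ℕ) : ℤ) + 0 + 1 + ((1 : ℕ) : ℤ)) =
      fun j : Fin N => 1 + ((N : ℤ) - j) := by
    funext j
    rw [Fin.val_rev]
    have := j.2
    push_cast [Nat.cast_sub (show (j : ℕ) + 1 ≤ N by omega)]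
    ring
  rw [e1] at h6
  rw [e2] at h7
  have e3 : (2 * k' + ((1 : ℕ) : ℤ) + 1) = 2 * k' + 1 + 1 := by rw [Nat.cast_one]
  have e4 : (2 * 0 + ((1 : ℕ) : ℤ) + 1) = 1 + 1 := by norm_num
  rw [e3] at h6
  rw [e4] at h7
  rw [h6, h7]
  have e5 : (mon (2 * k' + 1 + 1, 0) : R N) = mon (2 * k', 0) * mon (1 + 1, 0) := by
    rw [mon_mul, Prod.mk_add_mk, add_zero, add_assoc]
  have e6 : (mon (k' • nuW N) : R N) = mon (2 * k', 0) * ∏ i, xx i k' :=
    mon_nu_eq k' N
  rw [e5, e6]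
  simp only [xx_zero, one_mul, Finset.prod_mul_distrib]
  ring

/-- One representation `V` for every system with trivial central character. -/
theorem spin_of_oneV {Z : (n : ℕ) → GSys n → Set ℂ} (hZ : Unbdd Z) {n : ℕ} {π : GSys n}
    (hb : Bdd π) (ht : TrivialCentral π) {k : ℤ} {l : ℕ} (hk : Odd k) (hl : Odd l)
    (h : OneV Z k l π) : Continues π (spin n) := by
  obtain ⟨k', rfl⟩ := hk
  obtain ⟨c, rfl⟩ := hl
  have h1 := (one_rep_iff hZ hb (2 * k' + 1) (2 * c + 1) ⟨k' + c + 1, by push_cast; ring⟩).2 h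
    (fun _ => k' + 1) _ (spin_irrW k' n) (fun i => by push_cast; omega)
  rw [continues_iff' hb] at h1
  rw [← spR_coeff, continues_iff' hb]
  change Cont (Phi π (spR n))
  change Cont (Phi π (mon (k' • nuW n) * spR n)) at h1
  have hmem : Phi π (spR n) ∈ BB := Phi_mem hb _
  refine cont_congr hmem ?_ h1
  filter_upwards [ht] with p hp
  rw [map_mul, Pi.mul_apply, Phi_nu]
  have h6 : ((π p).c ^ 2 * ∏ i, (π p).x i) = (π p).nu := rfl
  rw [h6, hp, one_zpow]
  have h7 : el (1 : ℂˣ) = 1 := map_one _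
  rw [h7, one_mul]

end Pool.Agent.EEA520
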