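import Pool.Agent.W_eea520_h66.CxQ
import Pool.Agent.W_eea520_h66.SpinW

/-! Faithful irreducible representations, unitary families. -/

set_option autoImplicit false

namespace Pool.Agent.EEA520

open Filter

variable {S : (k : ℕ) → Set (GLSys k)} {P : (n : ℕ) → Set (GSys n)}

theorem mainCS (h : IsCuspidal S P) {Z : (n : ℕ) → GSys n → Set ℂ} (hZ : Unbdd Z) : List.TFAE [
    ∀ r : ℕ, ∃ (N : ℕ) (k : ℤ) (μ : Fin N → ℤ) (m : Wt N →₀ ℤ) (v : ℤ),
      Odd k ∧ IsIrr k μ m ∧ r ≤ (Finset.univ.filter fun i => μ i = v).card ∧ UHyp S P N m,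
    ∀ n π, Eis S P n π → TrivialCentral π → ∃ (k : ℤ) (l : ℕ), Odd k ∧ Odd l ∧ OneV Z k l π,
    ∀ n π, Eis S P n π → Continues π (spin n)] := by
  tfae_have 1 → 3 := by
    intro ha n π hπ
    rw [← spR_coeff, continues_iff (hπ.bdd h), Phi_spR]
    refine cont_spinD_of_QU h (fun n π hπ => ?_) hπ
    obtain ⟨N, k, μ, m, v, ⟨k', rfl⟩, hm, hr, hyp⟩ := ha (2 * n + 1)
    have hm' : IsIrr (2 * k' + ((1 : ℕ) : ℤ)) μ m := by
      rw [Nat.cast_one]
      exact hm
    exact Extracted.odd (kclosed_QU h) (extraction_irr_full N 1 le_rfl k' μ m hm' v n hr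
      (QU_hyp h 1 le_rfl k' μ m hm' hyp)) π hπ
  tfae_have 3 → 1 := by
    intro hb r
    refine ⟨r, 1, fun _ => 1, spin r, 1, odd_one, spin_irr r, ?_, fun L F _ hF u _ c => ?_⟩
    · rw [Finset.filter_true_of_mem fun _ _ => rfl, Finset.card_univ, Fintype.card_fin]
    · have h1 : {t | ContinuesTo c (twist (F t) (u t * Complex.I)) (spin r)} = Set.univ := by
        apply Set.eq_univ_of_forall
        intro t
        obtain ⟨T, b, g, hg, hp⟩ := hb r _ (Eis.tw (u t * Complex.I) (hF.eis t))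
        exact ⟨T, b, g, fun s _ => hg s, hp⟩
      rw [h1]
      exact not_small_univ
  tfae_have 2 → 3 := by
    intro hb
    have h2 : ∀ n π, Eis S P n π → TrivialCentral π → Continues π (spin n) := fun n π hπ ht => by
      obtain ⟨k, l, hk, hl, hV⟩ := hb n π hπ ht
      exact spin_of_oneV hZ (hπ.bdd h) ht hk hl hV
    exact (main h (fun _ _ _ _ => 0)).1.1 fun n => ⟨n, le_rfl, 0, fun π hπ ht => by
      have hπ' : Eis S P n π := by
        cases hπ with
        | mk z w _ hπ hσ _ => exact Eis.tw w (Eis.ind z hπ hσ)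
      obtain ⟨T, b, g, hg, hp⟩ := h2 n π hπ' ht
      exact ⟨T, b, g, fun s _ => hg s, hp⟩⟩
  tfae_have 3 → 2 := by
    intro hb n π hπ _
    refine ⟨1, 1, odd_one, odd_one, (one_rep_iff hZ (hπ.bdd h) 1 1 ⟨1, by norm_num⟩).1
      fun ν m hm hν => ?_⟩
    have h3 : ν = fun _ => 1 := by
      funext i
      have h4 := hν i
      have h5 := hm.2.1 i
      push_cast at h4
      omega
    subst h3
    have h6 := (hb n π hπ)
    rwa [(spin_irr n).unique hm] at h6
  tfae_finish

end Pool.Agent.EEA520
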