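import Pool.Agent.W_eea520_h66.Borel
import Pool.Agent.W_eea520_h66.Gen

/-! One irreducible representation. -/

set_option autoImplicit false

namespace Pool.Agent.EEA520

open Filter Polynomial MeasureTheory

theorem card_filter_eq {N : ℕ} (μ : Fin N → ℤ) (k' : ℤ) (c e : ℕ) :
    (Finset.univ.filter fun i => 2 * μ i = (2 * k' + e) + ((2 * c + e : ℕ) : ℤ)).card =
      (Finset.univ.filter fun i => μ i = c + k' + e).card := by
  congr 1
  ext i
  simp only [Finset.mem_filter, Finset.mem_univ, true_and]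
  push_cast
  omega

/-- One irreducible representation controls all representations with bounded highest weight. -/
theorem one_rep {Z : (n : ℕ) → GSys n → Set ℂ} (hZ : Unbdd Z) {n : ℕ} {π : GSys n} (hb : Bdd π)
    (k : ℤ) (l : ℕ) (hkl : Even (k + l)) : List.TFAE [
    ∀ (ν : Fin n → ℤ) (m : Wt n →₀ ℤ), IsIrr k ν m → (∀ i, 2 * ν i ≤ k + l) → Continues π m,
    OneV Z k l π,
    ∃ (q : ℕ) (μ : Fin (n + q) → ℤ) (m : Wt (n + q) →₀ ℤ), IsIrr k μ m ∧
      2 * n ≤ (Finset.univ.filter fun i => 2 * μ i = k + l).card ∧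
      ∀ C : ℝ, ¬ (IsMeagre {t : Fin q → ℝ |
          ContinuesTo C (borel π q fun j => t j * Complex.I) m} ∧
        volume {t : Fin q → ℝ | ContinuesTo C (borel π q fun j => t j * Complex.I) m} = 0)] := by
  obtain ⟨k', e, c, he, rfl, rfl⟩ : ∃ (k' : ℤ) (e c : ℕ), e ≤ 1 ∧ k = 2 * k' + e ∧
      l = 2 * c + e := by
    rcases Int.even_or_odd' k with ⟨k', h | h⟩
    · rcases Nat.even_or_odd' l with ⟨c, h' | h'⟩
      · exact ⟨k', 0, c, Nat.zero_le 1, by rw [h]; simp, by rw [h']; simp⟩
      · exfalso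
        rw [h, h'] at hkl
        obtain ⟨r, hr⟩ := hkl
        push_cast at hr
        omega
    · rcases Nat.even_or_odd' l with ⟨c, h' | h'⟩
      · exfalso
        rw [h, h'] at hkl
        obtain ⟨r, hr⟩ := hkl
        push_cast at hr
        omega
      · exact ⟨k', 1, c, le_rfl, by rw [h]; simp, by rw [h']⟩
  have hle : ∀ {N : ℕ} (ν : Fin N → ℤ), (∀ i, 2 * ν i ≤ 2 * k' + e + ((2 * c + e : ℕ) : ℤ)) ↔
      ∀ i, ν i ≤ c + k' + e := by
    intro N ν
    refine forall_congr' fun i => ?_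
    push_cast
    omega
  have key : AllC k' c e π ↔ ∀ (ν : Fin n → ℤ) (m : Wt n →₀ ℤ), IsIrr (2 * k' + e) ν m →
      (∀ i, 2 * ν i ≤ 2 * k' + e + ((2 * c + e : ℕ) : ℤ)) → Continues π m := by
    constructor
    · intro h ν m hm hν
      exact (continues_iff' hb m).2 (cont_of_allC he h ν m hm ((hle ν).1 hν))
    · intro h
      refine allC_of_cont he fun ν m hm hν => ?_
      exact (continues_iff' hb m).1 (h ν m hm ((hle ν).2 hν))
  rw [← key]
  -- the representation with constant highest weight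
  have hrect : ∀ N : ℕ, ∃ m : Wt N →₀ ℤ, IsIrr (2 * k' + e) (fun _ : Fin N => c + k' + e) m :=
    fun N => by
      obtain ⟨m, hm, -⟩ := exists_isIrr (N := N) (2 * k' + e) (fun _ => c + k' + e)
        (fun _ _ _ => le_rfl) (fun i => by omega)
      exact ⟨m, hm⟩
  tfae_have 1 → 2 := by
    intro h
    obtain ⟨m, hm⟩ := hrect (2 * n + 1)
    refine ⟨2 * n, _, m, hm, ?_, fun π' hT R => ⟨((-R - 1 : ℝ) : ℂ), by
      rw [Complex.ofReal_re]
      linarith, ?_⟩⟩
    · rw [Finset.filter_true_of_mem fun _ _ => by push_cast; ring, Finset.card_univ,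
        Fintype.card_fin]
    · have h1 := cont_of_allC he ((h.tower hT).klingen ((-R - 1 : ℝ) : ℂ)) _ m hm fun _ => le_rfl
      exact Continues.near ((continues_iff' (bdd_klingen (hT.bdd hb) _) m).2 h1) _ _
  tfae_have 2 → 1 := by
    rintro ⟨N, μ, m, hm, hr, hyp⟩
    rw [card_filter_eq (fun i : Fin N => μ i.succ) k' c e] at hr
    exact allC_of_irr (kclosed_tower hZ hb) N e he k' μ m hm c n hr (fun π' h' => by
      have := hyp π' h'
      exact this) π Tower.base
  tfae_have 1 → 3 := by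
    intro h
    obtain ⟨m, hm⟩ := hrect (n + n)
    refine ⟨n, _, m, hm, ?_, fun C => ?_⟩
    · rw [Finset.filter_true_of_mem fun _ _ => by push_cast; ring, Finset.card_univ,
        Fintype.card_fin, two_mul]
    · have h1 : {t : Fin n → ℝ | ContinuesTo C (borel π n fun j => t j * Complex.I) m} =
          Set.univ := by
        apply Set.eq_univ_of_forall
        intro t
        have h2 := cont_of_allC he (h.borel n fun j => t j * Complex.I) _ m hm fun _ => le_rfl
        exact (continuesTo_iff (bdd_borel hb _ _) (AddMonoidAlgebra.ofCoeff m)).2 (h2.contTo C)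
      rw [h1]
      exact not_small_univ
  tfae_have 3 → 1 := by
    rintro ⟨q, μ, m, hm, hr, hyp⟩
    rw [card_filter_eq μ k' c e] at hr
    have hz := borel_of_not_small hb q m hyp
    refine allC_of_full (kclosed_tower (Z := fun _ _ => Set.univ)
      (fun _ _ B => ⟨((B - 1 : ℝ) : ℂ), trivial, by
        rw [Complex.ofReal_re]
        linarith⟩) hb) n q e he k' μ m hm c hr (fun π' hT => ?_) π Tower.base
    obtain ⟨q', z, w, h1, h2⟩ := hT.borel
    obtain rfl : q = q' := by omega
    obtain rfl := eq_of_heq h2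
    exact cont_twist_irr he hm w (hz z)
  tfae_finish

theorem one_rep_iff {Z : (n : ℕ) → GSys n → Set ℂ} (hZ : Unbdd Z) {n : ℕ} {π : GSys n}
    (hb : Bdd π) (k : ℤ) (l : ℕ) (hkl : Even (k + l)) :
    (∀ (ν : Fin n → ℤ) (m : Wt n →₀ ℤ), IsIrr k ν m → (∀ i, 2 * ν i ≤ k + l) →
      Continues π m) ↔ OneV Z k l π := (one_rep hZ hb k l hkl).out 0 1

/-- All representations. -/
theorem all_rep {Z : (n : ℕ) → GSys n → Set ℂ} (hZ : Unbdd Z) {n : ℕ} {π : GSys n} (hb : Bdd π) :
    (∀ m : Wt n →₀ ℤ, IsCharacter m → Continues π m) ↔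
      ∀ (k : ℤ) (L : ℕ), ∃ l : ℕ, L ≤ l ∧ Even (k + l) ∧ OneV Z k l π := by
  constructor
  · intro h k L
    obtain ⟨l, hl, hkl⟩ : ∃ l : ℕ, L ≤ l ∧ Even (k + l) := by
      rcases Int.even_or_odd (k + L) with h1 | h1
      · exact ⟨L, le_rfl, h1⟩
      · refine ⟨L + 1, Nat.le_succ L, ?_⟩
        have h2 := h1.add_odd odd_one
        push_cast
        rwa [add_assoc] at h2
    exact ⟨l, hl, hkl, (one_rep_iff hZ hb k l hkl).1 fun ν m hm _ => h m hm.isCharacter⟩
  · intro h m hm
    obtain ⟨U, hU⟩ : ∃ U : AddSubgroup (R n), ∀ x, x ∈ U ↔ Cont (Phi π x) := by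
      refine ⟨{ carrier := {x | Cont (Phi π x)}, add_mem' := fun {a b} ha hb => ?_,
                zero_mem' := ?_, neg_mem' := fun {a} ha => ?_ }, fun x => Iff.rfl⟩
      · show Cont _
        rw [map_add]
        exact Cont.add ha hb
      · show Cont _
        rw [map_zero]
        exact cont_zero
      · show Cont _
        rw [map_neg]
        exact Cont.neg ha
    rw [continues_iff' hb, ← hU]
    refine alg_irr n U (fun k μ m hm => ?_) _ hm
    rw [hU, ← continues_iff' hb]
    obtain ⟨L, hL⟩ : ∃ L : ℕ, ∀ i, 2 * μ i ≤ k + L := by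
      refine ⟨∑ i, (2 * μ i - k).toNat, fun i => ?_⟩
      have h1 : (2 * μ i - k).toNat ≤ ∑ i, (2 * μ i - k).toNat :=
        Finset.single_le_sum (f := fun i => (2 * μ i - k).toNat) (fun _ _ => Nat.zero_le _)
          (Finset.mem_univ i)
      have h2 := Int.self_le_toNat (2 * μ i - k)
      omega
    obtain ⟨l, hl, hkl, hV⟩ := h k L
    exact (one_rep_iff hZ hb k l hkl).2 hV μ m hm fun i => by
      have := hL i
      omega

end Pool.Agent.EEA520
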