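import Mathlib

/-! Orthonormal polynomials with integer coefficients. -/

set_option autoImplicit false

namespace Pool.Agent.EEA520

open Polynomial

/-- The orthonormal polynomials: `p_0 = 1`, `p_1 = t + u`, `p_{k+2} = t p_{k+1} - p_k`.
(`u = 0`: Chebyshev polynomials of the second kind, `u = 1`: of the third kind.) -/
noncomputable def pp (u : ℤ) : ℕ → ℤ[X]
  | 0 => 1
  | 1 => X + C u
  | k + 2 => X * pp u (k + 1) - pp u k

/-- The moments `L (t ^ n p_k)`. -/
def mom (u : ℤ) : ℕ → ℕ → ℤ
  | 0, 0 => 1
  | 0, _ + 1 => 0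
  | n + 1, 0 => -u * mom u n 0 + mom u n 1
  | n + 1, k + 1 => mom u n k + mom u n (k + 2)

theorem mom_lt (u : ℤ) : ∀ n k : ℕ, n < k → mom u n k = 0 := by
  intro n
  induction n with
  | zero =>
    intro k hk
    obtain ⟨k, rfl⟩ := Nat.exists_eq_succ_of_ne_zero (Nat.pos_iff_ne_zero.1 hk)
    rfl
  | succ n ih =>
    intro k hk
    obtain ⟨k, rfl⟩ := Nat.exists_eq_succ_of_ne_zero (Nat.pos_iff_ne_zero.1 (by omega : 0 < k))
    show mom u n k + mom u n (k + 2) = 0
    rw [ih k (by omega), ih (k + 2) (by omega), add_zero]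

theorem mom_self (u : ℤ) : ∀ n : ℕ, mom u n n = 1 := by
  intro n
  induction n with
  | zero => rfl
  | succ n ih =>
    show mom u n n + mom u n (n + 2) = 1
    rw [ih, mom_lt u n (n + 2) (by omega), add_zero]

theorem pp_natDegree (u : ℤ) (k : ℕ) : (pp u k).natDegree = k ∧ (pp u k).Monic := by
  induction k using Nat.strong_induction_on with
  | _ k ih =>
    match k, ih with
    | 0, _ => exact ⟨natDegree_one, monic_one⟩
    | 1, _ => exact ⟨natDegree_X_add_C u, monic_X_add_C u⟩
    | k + 2, ih =>
      obtain ⟨h1, m1⟩ := ih (k + 1) (by omega)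
      obtain ⟨h0, m0⟩ := ih k (by omega)
      have hd : (X * pp u (k + 1)).natDegree = k + 2 := by
        rw [natDegree_X_mul m1.ne_zero, h1]
      have hlt : (pp u k).natDegree < (X * pp u (k + 1)).natDegree := by
        rw [hd, h0]; omega
      have hm : (X * pp u (k + 1)).Monic := monic_X.mul m1
      refine ⟨?_, ?_⟩
      · show (X * pp u (k + 1) - pp u k).natDegree = k + 2
        rw [natDegree_sub_eq_left_of_natDegree_lt hlt, hd]
      · show (X * pp u (k + 1) - pp u k).Monic
        exact hm.sub_of_left (degree_lt_degree hlt)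

section

variable (u : ℤ) (A : Type) [CommRing A]

/-- The polynomials over `A`. -/
noncomputable def pA (k : ℕ) : A[X] := (pp u k).map (Int.castRingHom A)

/-- The functional `f ↦ L (f p_k)`. -/
noncomputable def MK (k : ℕ) : A[X] →ₗ[A] A :=
  (Polynomial.basisMonomials A).constr A fun n => ((mom u n k : ℤ) : A)

/-- The functional `L`. -/
noncomputable def LF : A[X] →ₗ[A] A := MK u A 0

variable {A}

theorem MK_monomial (k n : ℕ) (a : A) : MK u A k (monomial n a) = a * ((mom u n k : ℤ) : A) := by
  have h : (monomial n a : A[X]) = a • (Polynomial.basisMonomials A n) := by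
    rw [Polynomial.coe_basisMonomials, smul_monomial, smul_eq_mul, mul_one]
  rw [h, map_smul, MK, Module.Basis.constr_basis, smul_eq_mul]

theorem MK_X_mul_zero (f : A[X]) : MK u A 0 (X * f) = -(u : A) * MK u A 0 f + MK u A 1 f := by
  induction f using Polynomial.induction_on' with
  | add f g hf hg => rw [mul_add, map_add, hf, hg, map_add, map_add]; ring
  | monomial n a =>
    rw [X_mul_monomial, MK_monomial, MK_monomial, MK_monomial]
    show a * ((-u * mom u n 0 + mom u n 1 : ℤ) : A) = _
    push_cast
    ring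

theorem MK_X_mul_succ (k : ℕ) (f : A[X]) :
    MK u A (k + 1) (X * f) = MK u A k f + MK u A (k + 2) f := by
  induction f using Polynomial.induction_on' with
  | add f g hf hg => rw [mul_add, map_add, hf, hg, map_add, map_add]; ring
  | monomial n a =>
    rw [X_mul_monomial, MK_monomial, MK_monomial, MK_monomial]
    show a * ((mom u n k + mom u n (k + 2) : ℤ) : A) = _
    push_cast
    ring

theorem pA_zero : pA u A 0 = 1 := by simp [pA, pp]

theorem pA_one : pA u A 1 = X + C (u : A) := by simp [pA, pp]

theorem pA_succ (k : ℕ) : pA u A (k + 2) = X * pA u A (k + 1) - pA u A k := by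
  simp [pA, pp]

theorem pA_monic (k : ℕ) : (pA u A k).Monic := (pp_natDegree u k).2.map _

theorem pA_natDegree_le (k : ℕ) : (pA u A k).natDegree ≤ k :=
  natDegree_map_le.trans (pp_natDegree u k).1.le

theorem pA_coeff_self (k : ℕ) : (pA u A k).coeff k = 1 := by
  rw [pA, coeff_map]
  have h : (pp u k).coeff k = 1 := by
    have := (pp_natDegree u k).2
    rw [Monic, leadingCoeff, (pp_natDegree u k).1] at this
    exact this
  rw [h, map_one]

theorem MK_eq (k : ℕ) : ∀ f : A[X], MK u A k f = LF u A (f * pA u A k) := by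
  induction k using Nat.strong_induction_on with
  | _ k ih =>
    match k, ih with
    | 0, _ =>
      intro f
      rw [pA_zero, mul_one, LF]
    | 1, _ =>
      intro f
      rw [pA_one, mul_add, mul_comm f X, map_add, LF, MK_X_mul_zero, mul_comm f (C _),
        ← smul_eq_C_mul, map_smul, smul_eq_mul]
      ring
    | k + 2, ih =>
      intro f
      have h1 := ih (k + 1) (by omega) (X * f)
      have h0 := ih k (by omega) f
      rw [MK_X_mul_succ] at h1
      rw [pA_succ, mul_sub, map_sub, ← mul_assoc, mul_comm f X, ← h1, ← h0]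
      ring

theorem MK_of_natDegree_le {k : ℕ} {g : A[X]} (hg : g.natDegree ≤ k) :
    MK u A k g = g.coeff k := by
  rw [g.as_sum_range' (k + 1) (Nat.lt_succ_of_le hg), map_sum, finsetSum_coeff]
  refine Finset.sum_congr rfl fun n hn => ?_
  rw [MK_monomial, coeff_monomial]
  rcases Nat.lt_or_ge n k with h | h
  · rw [mom_lt u n k h, Int.cast_zero, mul_zero, if_neg (by omega)]
  · have : n = k := by
      have := Finset.mem_range.1 hn
      omega
    subst this
    rw [mom_self, Int.cast_one, mul_one, if_pos rfl]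

/-- Orthogonality: `L (g p_k)` is the coefficient of `t ^ k` in `g`, if `deg g ≤ k`. -/
theorem LF_mul_pA {k : ℕ} {g : A[X]} (hg : g.natDegree ≤ k) :
    LF u A (g * pA u A k) = g.coeff k := by
  rw [← MK_eq, MK_of_natDegree_le u hg]

/-- `L (f p_j p_k)` is the coefficient of `t ^ (k - j)` in `f`, if `deg f ≤ k - j`, `j ≤ k`. -/
theorem LF_mul_pA_mul_pA {j k n : ℕ} (h : j + n = k) {f : A[X]} (hf : f.natDegree ≤ n) :
    LF u A (f * (pA u A j * pA u A k)) = f.coeff n := by
  have hd : (f * pA u A j).natDegree ≤ k :=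
    natDegree_mul_le.trans (by have := pA_natDegree_le u (A := A) j; omega)
  rw [← mul_assoc, LF_mul_pA u hd, ← h, add_comm j n]
  rw [coeff_mul_add_eq_of_natDegree_le hf (pA_natDegree_le u j), pA_coeff_self, mul_one]

theorem LF_pA_mul_pA (j k : ℕ) : LF u A (pA u A j * pA u A k) = if j = k then 1 else 0 := by
  wlog h : j ≤ k with H
  · rw [mul_comm, H u k j (by omega)]
    simp only [eq_comm]
  · obtain ⟨n, rfl⟩ := Nat.exists_eq_add_of_le h
    have := LF_mul_pA_mul_pA u (A := A) (j := j) (n := n) rfl (f := 1) (by simp)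
    rw [one_mul] at this
    rw [this, coeff_one]
    simp

/-- `L` commutes with ring homomorphisms. -/
theorem LF_map {B : Type} [CommRing B] (φ : A →+* B) (f : A[X]) :
    φ (LF u A f) = LF u B (f.map φ) := by
  induction f using Polynomial.induction_on' with
  | add f g hf hg => rw [map_add, map_add, Polynomial.map_add, map_add, hf, hg]
  | monomial n a =>
    rw [map_monomial, LF, LF, MK_monomial, MK_monomial, map_mul, map_intCast]

theorem pA_map {B : Type} [CommRing B] (φ : A →+* B) (k : ℕ) : (pA u A k).map φ = pA u B k := by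
  rw [pA, pA, Polynomial.map_map]
  congr 1
  exact Subsingleton.elim _ _

end

end Pool.Agent.EEA520
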