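import Pool.Agent.W_eea520_h66.Tri

/-! The determinants `det (L (F p_{e_j} p_{b_k}))`. -/

set_option autoImplicit false

namespace Pool.Agent.EEA520

open Polynomial

section

variable (u : ℤ) {A : Type} [CommRing A] {n c : ℕ}

theorem KL_zero {m : ℕ} (a : Fin m → A) (d : Fin 0 → ℕ) : KL u a d = 1 := by
  unfold KL
  have h1 : ((∏ j : Fin 0, ∏ k, (MvPolynomial.X j - MvPolynomial.C (a k))) *
    VV (fun j : Fin 0 => (MvPolynomial.X j : MvPolynomial (Fin 0) A)) *
    ∏ j, (pA u A (d j)).aeval (MvPolynomial.X j : MvPolynomial (Fin 0) A)) =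
    MvPolynomial.monomial 0 1 := by
    simp [VV]
  rw [h1, LT_monomial]
  simp

theorem Eb_eq (b : Fin c → ℕ) : Eb u b =
    VV (fun k : Fin c => (MvPolynomial.X k : MvPolynomial (Fin c) ℤ)) * Pbs u b := rfl

/-- `Θ(y; V(t) ∏ p_{h_k}(t_k)) = ± det (L (F p_j p_{h_k}))`. -/
theorem Th_Eb_det (n : ℕ) {c : ℕ} (h : Fin c → ℕ) : ∃ s : ℤˣ,
    ∀ (A : Type) [CommRing A] (y : Fin n → A),
    Th u y (Eb u h) = ((s : ℤ) : A) * Matrix.det (Matrix.of fun k j : Fin c =>
        LF u A (FF y * (pA u A (j : ℕ) * pA u A (h k)))) := by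
  obtain ⟨D, hD⟩ := exists_equiv (c := 0) (fun j : Fin c => (j : ℕ)) Fin.val_injective
    (fun j => by have := j.2; omega)
  obtain ⟨s, hs⟩ := Th_eq_det (n := n) u D h
  refine ⟨s, fun A _ y => ?_⟩
  have h1 := hs A y
  rw [KL_zero, one_mul] at h1
  simp only [hD] at h1
  exact h1

/-- The determinant vanishes if two of the `h_k` are equal. -/
theorem Th_Eb_not_injective {h : Fin c → ℕ} (hh : ¬ Function.Injective h) (y : Fin n → A) :
    Th u y (Eb u h) = 0 := by
  obtain ⟨s, hs⟩ := Th_Eb_det u n h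
  rw [hs A y]
  rw [Function.Injective] at hh
  push Not at hh
  obtain ⟨i, j, hij, hne⟩ := hh
  rw [Matrix.det_zero_of_row_eq hne, mul_zero]
  funext k
  simp only [Matrix.of_apply, hij]

/-- The determinant vanishes if one of the `h_k` is large. -/
theorem Th_Eb_large {h : Fin c → ℕ} {k : Fin c} (hk : c + n ≤ h k) (y : Fin n → A) :
    Th u y (Eb u h) = 0 := by
  obtain ⟨s, hs⟩ := Th_Eb_det u n h
  rw [hs A y, Matrix.det_eq_zero_of_row_eq_zero k, mul_zero]
  intro j
  rw [Matrix.of_apply]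
  refine LF_zero u (FF_natDegree_le y) (Or.inl ?_)
  have := j.2
  omega

/-- Permutations. -/
theorem Th_Eb_perm (n : ℕ) (h : Fin c → ℕ) (τ : Equiv.Perm (Fin c)) : ∃ s : ℤˣ,
    ∀ (A : Type) [CommRing A] (y : Fin n → A),
      Th u y (Eb u h) = ((s : ℤ) : A) * Th u y (Eb u (h ∘ τ)) := by
  obtain ⟨s, hs⟩ := Th_Eb_det u n h
  obtain ⟨s', hs'⟩ := Th_Eb_det u n (h ∘ τ)
  refine ⟨s * Equiv.Perm.sign τ * s', fun A _ y => ?_⟩
  rw [hs A y, hs' A y]
  have h1 : (Matrix.of fun k j : Fin c => LF u A (FF y * (pA u A (j : ℕ) * pA u A ((h ∘ τ) k)))) =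
      (Matrix.of fun k j : Fin c => LF u A (FF y * (pA u A (j : ℕ) * pA u A (h k)))).submatrix
        τ id := rfl
  rw [h1, Matrix.det_permute]
  push_cast
  have h2 := units_mul_self (B := A) s'
  have h3 := units_mul_self (B := A) (Equiv.Perm.sign τ)
  linear_combination (-((s : ℤ) : A) * Matrix.det (Matrix.of fun k j : Fin c =>
    LF u A (FF y * (pA u A (j : ℕ) * pA u A (h k))))) * h3 -
    (((s : ℤ) : A) * ((Equiv.Perm.sign τ : ℤ) : A) * ((Equiv.Perm.sign τ : ℤ) : A) *
      Matrix.det (Matrix.of fun k j : Fin c =>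
    LF u A (FF y * (pA u A (j : ℕ) * pA u A (h k))))) * h2

/-- The determinant for the `b_k` and arbitrary `e_j` reduces to the small `b_k`. -/
theorem skew {c' q s c₁ c₂ q₁ : ℕ} (b : Fin c' → ℕ) (hb : Function.Injective b)
    (hbl : ∀ i, b i < c' + (n + q)) (hs0 : s + 2 * n ≤ c' + (n + q))
    (φ : Fin c₁ ⊕ Fin c₂ ≃ Fin c') (h1 : ∀ i, b (φ (Sum.inl i)) < s)
    (h2 : ∀ i, s + 2 * n ≤ b (φ (Sum.inr i)))
    (E₁ : Fin q₁ ⊕ Fin c₁ ≃ Fin (q₁ + c₁))
    (hE₁ : ∀ j, (E₁ (Sum.inr j) : ℕ) = b (φ (Sum.inl j)))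
    (e' : Fin c₁ → ℕ) (he' : Function.Injective e') (hel : ∀ i, e' i < s + n) :
    ∃ (d : Fin q → ℕ) (ε : ℤˣ), ∀ (A : Type) [CommRing A] (y : Fin n → A),
      Th u y (VV (fun k : Fin c₁ => (MvPolynomial.X k : MvPolynomial (Fin c₁) ℤ)) *
        (KL u (fun k : Fin c₁ => (MvPolynomial.X k : MvPolynomial (Fin c₁) ℤ))
          (fun j => (E₁ (Sum.inl j) : ℕ)) * Pbs u e')) = ((ε : ℤ) : A) *
      Th u y (KL u (fun k : Fin c' => (MvPolynomial.X k : MvPolynomial (Fin c') ℤ)) d *
        Eb u b) := by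
  -- the exponents
  obtain ⟨ef, hef⟩ : ∃ ef : Fin c' → ℕ, ef = fun k => Sum.elim e'
    (fun i => b (φ (Sum.inr i)) - n) (φ.symm k) := ⟨_, rfl⟩
  have hl : ∀ i, ef (φ (Sum.inl i)) = e' i := fun i => by
    rw [hef]
    simp
  have hr : ∀ i, ef (φ (Sum.inr i)) = b (φ (Sum.inr i)) - n := fun i => by
    rw [hef]
    simp
  have hinj : Function.Injective ef := by
    intro k i hki
    obtain ⟨k, rfl⟩ := φ.surjective k
    obtain ⟨i, rfl⟩ := φ.surjective i
    rcases k with k | k <;> rcases i with i | i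
    · rw [hl, hl] at hki
      rw [he' hki]
    · rw [hl, hr] at hki
      have := hel k
      have := h2 i
      omega
    · rw [hl, hr] at hki
      have := hel i
      have := h2 k
      omega
    · rw [hr, hr] at hki
      have h3 := h2 k
      have h4 := h2 i
      rw [hb (show b (φ (Sum.inr k)) = b (φ (Sum.inr i)) by omega)]
  have hlt : ∀ k, ef k < q + c' := by
    intro k
    obtain ⟨k, rfl⟩ := φ.surjective k
    rcases k with k | k
    · rw [hl]
      have := hel k
      omega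
    · rw [hr]
      have := hbl (φ (Sum.inr k))
      have := h2 k
      omega
  obtain ⟨E, hE⟩ := exists_equiv (c := q) ef hinj hlt
  obtain ⟨s1, hs1⟩ := Th_eq_det (n := n) u E b
  obtain ⟨s2, hs2⟩ := Th_eq_det (n := n) u E₁ e'
  refine ⟨fun j => (E (Sum.inl j) : ℕ), s2 * s1, fun A _ y => ?_⟩
  have h3 := hs1 A y
  have h4 := hs2 A y
  simp only [hE] at h3
  simp only [hE₁] at h4
  rw [Eb, h3]
  have h5 : VV (fun k : Fin c₁ => (MvPolynomial.X k : MvPolynomial (Fin c₁) ℤ)) *
        (KL u (fun k : Fin c₁ => (MvPolynomial.X k : MvPolynomial (Fin c₁) ℤ))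
          (fun j => (E₁ (Sum.inl j) : ℕ)) * Pbs u e') =
      KL u (fun k : Fin c₁ => (MvPolynomial.X k : MvPolynomial (Fin c₁) ℤ))
        (fun j => (E₁ (Sum.inl j) : ℕ)) *
        (VV (fun k : Fin c₁ => (MvPolynomial.X k : MvPolynomial (Fin c₁) ℤ)) *
          ∏ k, (pA u ℤ (e' k)).aeval (MvPolynomial.X k : MvPolynomial (Fin c₁) ℤ)) := by
    rw [Pbs]
    ring
  rw [h5, h4]
  -- the block matrix
  have h6 : Matrix.det (Matrix.of fun k j : Fin c' =>
      LF u A (FF y * (pA u A (ef j) * pA u A (b k)))) =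
      Matrix.det (Matrix.of fun k j : Fin c₁ =>
        LF u A (FF y * (pA u A (b (φ (Sum.inl j))) * pA u A (e' k)))) := by
    rw [← Matrix.det_submatrix_equiv_self φ]
    have h7 : (Matrix.of fun k j : Fin c' =>
        LF u A (FF y * (pA u A (ef j) * pA u A (b k)))).submatrix φ φ =
        Matrix.fromBlocks (Matrix.of fun k j : Fin c₁ =>
          LF u A (FF y * (pA u A (e' j) * pA u A (b (φ (Sum.inl k))))))
          (0 : Matrix (Fin c₁) (Fin c₂) A)
          (Matrix.of fun (k : Fin c₂) (j : Fin c₁) =>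
            LF u A (FF y * (pA u A (e' j) * pA u A (b (φ (Sum.inr k))))))
          (Matrix.of fun k j : Fin c₂ =>
            LF u A (FF y * (pA u A (b (φ (Sum.inr j)) - n) * pA u A (b (φ (Sum.inr k)))))) := by
      ext r t
      rcases r with k | k <;> rcases t with j | j
      · simp only [Matrix.submatrix_apply, Matrix.of_apply, Matrix.fromBlocks_apply₁₁, hl]
      · simp only [Matrix.submatrix_apply, Matrix.of_apply, Matrix.fromBlocks_apply₁₂, hr,
          Matrix.zero_apply]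
        refine LF_zero u (FF_natDegree_le y) (Or.inr ?_)
        have := h1 k
        have := h2 j
        omega
      · simp only [Matrix.submatrix_apply, Matrix.of_apply, Matrix.fromBlocks_apply₂₁, hl]
      · simp only [Matrix.submatrix_apply, Matrix.of_apply, Matrix.fromBlocks_apply₂₂, hr]
    rw [h7, Matrix.det_fromBlocks_zero₁₂]
    have h8 : Matrix.det (Matrix.of fun k j : Fin c₂ =>
        LF u A (FF y * (pA u A (b (φ (Sum.inr j)) - n) * pA u A (b (φ (Sum.inr k)))))) = 1 := by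
      rw [det_tri _ (fun k => (b (φ (Sum.inr k)) : ℤ))]
      · refine Finset.prod_eq_one fun k _ => ?_
        rw [Matrix.of_apply]
        have h9 : b (φ (Sum.inr k)) - n + n = b (φ (Sum.inr k)) := by
          have := h2 k
          omega
        rw [LF_mul_pA_mul_pA u h9 (FF_natDegree_le y), FF_coeff]
      · intro k j hkj
        have h9 : b (φ (Sum.inr k)) = b (φ (Sum.inr j)) := Nat.cast_injective hkj
        exact Sum.inr_injective (φ.injective (hb h9))
      · intro k j hkj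
        by_contra h9
        apply hkj
        rw [Matrix.of_apply]
        refine LF_zero u (FF_natDegree_le y) (Or.inl ?_)
        have := h2 j
        have h10 : (b (φ (Sum.inr j)) : ℤ) < b (φ (Sum.inr k)) := not_le.1 h9
        omega
    rw [h8, mul_one, ← Matrix.det_transpose]
    congr 1
    ext k j
    simp only [Matrix.transpose_apply, Matrix.of_apply, mul_comm (pA u A (e' k))]
  rw [h6]
  push_cast
  have h9 := units_mul_self (B := A) s1
  linear_combination (-((s2 : ℤ) : A) * Matrix.det (Matrix.of fun k j : Fin c₁ =>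
        LF u A (FF y * (pA u A (b (φ (Sum.inl j))) * pA u A (e' k))))) * h9

end

end Pool.Agent.EEA520
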