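import Pool.Agent.W_eea520_h66.IrrB

/-! The basis `∏ p_{h_k}(t_k)` of the polynomials. -/

set_option autoImplicit false

namespace Pool.Agent.EEA520

open Polynomial

section

variable (u : ℤ) {c : ℕ}

/-- The polynomial `∏ p_{h_k}(t_k)`. -/
noncomputable def Pbs (h : Fin c → ℕ) : MvPolynomial (Fin c) ℤ :=
  ∏ k, (pA u ℤ (h k)).aeval (MvPolynomial.X k : MvPolynomial (Fin c) ℤ)

theorem Pbs_update (h : Fin c → ℕ) (k : Fin c) (a : ℕ) : Pbs u (Function.update h k a) =
    (pA u ℤ a).aeval (MvPolynomial.X k : MvPolynomial (Fin c) ℤ) *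
      ∏ j ∈ Finset.univ.erase k, (pA u ℤ (h j)).aeval
        (MvPolynomial.X j : MvPolynomial (Fin c) ℤ) := by
  rw [Pbs, ← Finset.mul_prod_erase _ _ (Finset.mem_univ k), Function.update_self]
  congr 1
  refine Finset.prod_congr rfl fun j hj => ?_
  rw [Function.update_of_ne (Finset.ne_of_mem_erase hj)]

theorem X_mul_Pbs_mem (k : Fin c) (h : Fin c → ℕ) : MvPolynomial.X k * Pbs u h ∈
    Submodule.span ℤ (Set.range (Pbs u (c := c))) := by
  have h0 : Pbs u h = (pA u ℤ (h k)).aeval (MvPolynomial.X k : MvPolynomial (Fin c) ℤ) *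
      ∏ j ∈ Finset.univ.erase k, (pA u ℤ (h j)).aeval
        (MvPolynomial.X j : MvPolynomial (Fin c) ℤ) := by
    have := Pbs_update u h k (h k)
    rwa [Function.update_eq_self] at this
  have hm : ∀ g : Fin c → ℕ, Pbs u g ∈ Submodule.span ℤ (Set.range (Pbs u (c := c))) :=
    fun g => Submodule.subset_span ⟨g, rfl⟩
  rcases hk : h k with _ | a
  · have h1 : MvPolynomial.X k * Pbs u h = Pbs u (Function.update h k 1) - u • Pbs u h := by
      rw [Pbs_update, h0, hk, pA_zero, pA_one, map_one, map_add, aeval_X, aeval_C]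
      simp only [zsmul_eq_mul, eq_intCast, Int.cast_id]
      ring
    rw [h1]
    exact Submodule.sub_mem _ (hm _) (Submodule.smul_mem _ _ (hm _))
  · have h1 : MvPolynomial.X k * Pbs u h = Pbs u (Function.update h k (a + 2)) +
        Pbs u (Function.update h k a) := by
      rw [Pbs_update, Pbs_update, h0, hk, pA_succ, map_sub, map_mul, aeval_X]
      ring
    rw [h1]
    exact Submodule.add_mem _ (hm _) (hm _)

theorem mem_span_Pbs (F : MvPolynomial (Fin c) ℤ) :
    F ∈ Submodule.span ℤ (Set.range (Pbs u (c := c))) := by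
  have hX : ∀ (k : Fin c) (F : MvPolynomial (Fin c) ℤ),
      F ∈ Submodule.span ℤ (Set.range (Pbs u (c := c))) →
      F * MvPolynomial.X k ∈ Submodule.span ℤ (Set.range (Pbs u (c := c))) := by
    intro k F hF
    induction hF using Submodule.span_induction with
    | mem x hx =>
      obtain ⟨h, rfl⟩ := hx
      rw [mul_comm]
      exact X_mul_Pbs_mem u k h
    | zero =>
      rw [zero_mul]
      exact Submodule.zero_mem _
    | add x y _ _ hx hy =>
      rw [add_mul]
      exact Submodule.add_mem _ hx hy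
    | smul a x _ hx =>
      rw [smul_mul_assoc]
      exact Submodule.smul_mem _ _ hx
  induction F using MvPolynomial.induction_on with
  | C a =>
    have h1 : (MvPolynomial.C a : MvPolynomial (Fin c) ℤ) = a • Pbs u (fun _ : Fin c => 0) := by
      unfold Pbs
      simp only [pA_zero, map_one, Finset.prod_const_one]
      rw [zsmul_eq_mul, mul_one]
      simp
    rw [h1]
    exact Submodule.smul_mem _ _ (Submodule.subset_span ⟨_, rfl⟩)
  | add p q hp hq => exact Submodule.add_mem _ hp hq
  | mul_X p k hp => exact hX k p hp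

/-- Expansion in terms of the basis. -/
theorem exists_Pbs (F : MvPolynomial (Fin c) ℤ) :
    ∃ z : (Fin c → ℕ) →₀ ℤ, (z.sum fun h a => a • Pbs u h) = F :=
  Finsupp.mem_span_range_iff_exists_finsupp.1 (mem_span_Pbs u F)

/-- Orthonormality. -/
theorem LT_Pbs_mul_Pbs (h g : Fin c → ℕ) : LT u (Pbs u h * Pbs u g) = if h = g then 1 else 0 := by
  have h1 : Pbs u h * Pbs u g = ∏ k, (pA u ℤ (h k) * pA u ℤ (g k)).aeval
      (MvPolynomial.X k : MvPolynomial (Fin c) ℤ) := by
    rw [Pbs, Pbs, ← Finset.prod_mul_distrib]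
    refine Finset.prod_congr rfl fun k _ => ?_
    rw [map_mul]
  rw [h1, LT_prod]
  simp only [LF_pA_mul_pA]
  split_ifs with hg
  · subst hg
    simp
  · obtain ⟨k, hk⟩ := Function.ne_iff.1 hg
    exact Finset.prod_eq_zero (Finset.mem_univ k) (if_neg hk)

theorem coeff_Pbs (z : (Fin c → ℕ) →₀ ℤ) (g : Fin c → ℕ) :
    LT u ((z.sum fun h a => a • Pbs u h) * Pbs u g) = z g := by
  classical
  rw [Finsupp.sum, Finset.sum_mul, map_sum]
  have h1 : ∀ h ∈ z.support, LT u (z h • Pbs u h * Pbs u g) = if h = g then z h else 0 := by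
    intro h _
    rw [smul_mul_assoc, map_smul, LT_Pbs_mul_Pbs, smul_eq_mul]
    split_ifs <;> simp
  rw [Finset.sum_congr rfl h1, Finset.sum_ite_eq']
  split_ifs with hg
  · rfl
  · exact (Finsupp.notMem_support_iff.1 hg).symm

end

section

variable {N : ℕ}

/-- A combination of elements with different highest weights. -/
theorem top_sum {ι : Type*} (z : ι →₀ ℤ) (w : ι → Wt N) (hw : Function.Injective w)
    (f : ι → R N) (hf : ∀ i, Top (w i) (f i)) (γ : Wt N)
    (h : Top γ (z.sum fun i a => a • f i)) :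
    ∃ i₀, w i₀ = γ ∧ z i₀ = 1 ∧ ∀ i, z i ≠ 0 → i ≠ i₀ → ht (w i) < ht γ := by
  classical
  have hc : ∀ v, (z.sum fun i a => a • f i).coeff v = ∑ i ∈ z.support, z i * (f i).coeff v := by
    intro v
    have h1 : (z.sum fun i a => a • f i).coeff = ∑ i ∈ z.support, (z i • f i).coeff :=
      AddMonoidAlgebra.coeff_sum _ _
    rw [h1, Finsupp.finsetSum_apply]
    refine Finset.sum_congr rfl fun i _ => ?_
    rw [AddMonoidAlgebra.coeff_smul_apply, smul_eq_mul]
  have hne : z.support.Nonempty := by
    rw [Finset.nonempty_iff_ne_empty]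
    intro h0
    have h1 := h.1
    rw [hc, h0, Finset.sum_empty] at h1
    exact zero_ne_one h1
  obtain ⟨a, ha, hmax⟩ := Finset.exists_max_image z.support (fun i => ht (w i)) hne
  have hcoef : ∀ i ∈ z.support, ht (w i) = ht (w a) →
      (z.sum fun i a => a • f i).coeff (w i) = z i := by
    intro i hi hia
    rw [hc, Finset.sum_eq_single i]
    · rw [(hf i).1, mul_one]
    · intro j hj hji
      have h1 : (f j).coeff (w i) = 0 := by
        by_contra h2
        have h3 := (hf j).2 _ h2 fun h4 => hji (hw h4).symm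
        have h4 : ht (w j) ≤ ht (w a) := hmax j hj
        omega
      rw [h1, mul_zero]
    · intro h1
      exact absurd hi h1
  have hle : ¬ ht (w a) < ht γ := by
    intro hlt
    have h1 := h.1
    rw [hc, Finset.sum_eq_zero] at h1
    · exact zero_ne_one h1
    · intro j hj
      have h2 : (f j).coeff γ = 0 := by
        by_contra h2
        have h4 : ht (w j) ≤ ht (w a) := hmax j hj
        by_cases h3 : γ = w j
        · rw [← h3] at h4
          omega
        · have h5 := (hf j).2 _ h2 h3
          omega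
      rw [h2, mul_zero]
  have hall : ∀ i ∈ z.support, ht (w i) = ht (w a) → w i = γ := by
    intro i hi hia
    by_contra h1
    have h2 := h.2 (w i) (by
      rw [hcoef i hi hia]
      exact Finsupp.mem_support_iff.1 hi) h1
    rw [hia] at h2
    exact hle h2
  have haγ := hall a ha rfl
  refine ⟨a, haγ, ?_, fun i hi hia => ?_⟩
  · rw [← hcoef a ha rfl, haγ]
    exact h.1
  · have hi' := Finsupp.mem_support_iff.2 hi
    have h1 : ht (w i) ≤ ht (w a) := hmax i hi'
    rw [← haγ]
    refine lt_of_le_of_ne h1 fun h2 => hia (hw ?_)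
    rw [hall i hi' h2, haγ]

theorem top_yR (k : Fin N) : Top ((0, Pi.single k 1) : Wt N) (yR N k) := by
  rw [yR, xx, xx]
  refine (top_mon _).add_low ((top_mon _).low ?_)
  rw [ht_single, ht_single]
  have h2 : 0 < (N : ℤ) - k := by
    have := k.2
    omega
  nlinarith

theorem top_pA (u : ℤ) (k : Fin N) (a : ℕ) :
    Top ((0, Pi.single k (a : ℤ)) : Wt N) ((pA u ℤ a).aeval (yR N k)) := by
  have h2 : 0 < (N : ℤ) - k := by
    have := k.2
    omega
  induction a using Nat.strong_induction_on with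
  | _ a ih =>
    match a, ih with
    | 0, _ =>
      rw [pA_zero, map_one, Nat.cast_zero, Pi.single_zero]
      exact top_one
    | 1, _ =>
      rw [pA_one, map_add, aeval_X, aeval_C, Nat.cast_one]
      refine (top_yR k).add_low ?_
      have h3 : (algebraMap ℤ (R N)) (u : ℤ) = ((u : ℤ) : R N) * 1 := by
        rw [mul_one]
        simp
      rw [Int.cast_id, h3]
      refine Low66.intCast_mul (top_one.low ?_) _
      rw [ht_zero, ht_single]
      nlinarith
    | a + 2, ih =>
      rw [pA_succ, map_sub, map_mul, aeval_X, sub_eq_add_neg]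
      have h3 := top_mul (top_yR k) (ih (a + 1) (by omega))
      have h4 : ((0, Pi.single k 1) : Wt N) + (0, Pi.single k ((a + 1 : ℕ) : ℤ)) =
          (0, Pi.single k ((a + 2 : ℕ) : ℤ)) := by
        rw [Prod.mk_add_mk, add_zero, ← Pi.single_add]
        congr 2
        push_cast
        ring
      rw [h4] at h3
      refine h3.add_low ?_
      have h5 : -(aeval (yR N k)) (pA u ℤ a) = ((-1 : ℤ) : R N) * (aeval (yR N k)) (pA u ℤ a) := by
        rw [Int.cast_neg, Int.cast_one, neg_one_mul]
      rw [h5]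
      refine Low66.intCast_mul ((ih a (by omega)).low ?_) _
      rw [ht_single, ht_single]
      push_cast
      nlinarith

/-- The weight `(0, g)`. -/
def wt0 (g : Fin N → ℕ) : Wt N := (0, fun i => (g i : ℤ))

theorem wt0_injective : Function.Injective (wt0 (N := N)) := by
  intro g h hgh
  funext i
  have h1 := congrFun (congrArg Prod.snd hgh) i
  exact Nat.cast_injective h1

theorem top_Pbs (u : ℤ) (g : Fin N → ℕ) :
    Top (wt0 g) (MvPolynomial.aeval (yR N) (Pbs u g)) := by
  have h1 : MvPolynomial.aeval (yR N) (Pbs u g) = ∏ k, (pA u ℤ (g k)).aeval (yR N k) := by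
    rw [Pbs, map_prod]
    refine Finset.prod_congr rfl fun k _ => ?_
    rw [← Polynomial.aeval_algHom_apply, MvPolynomial.aeval_X]
  have h2 : (wt0 g : Wt N) = ∑ k, (0, Pi.single k (g k : ℤ)) := by
    refine Prod.ext ?_ ?_
    · rw [Prod.fst_sum]
      simp [wt0]
    · rw [Prod.snd_sum, Finset.univ_sum_single]
      rfl
  rw [h1, h2]
  exact top_prod _ _ _ fun k _ => top_pA u k (g k)

/-- The coefficients of a polynomial with a highest weight. -/
theorem coeff_of_top (u : ℤ) (F : MvPolynomial (Fin N) ℤ) (γ : Fin N → ℕ)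
    (h : Top (wt0 γ) (MvPolynomial.aeval (yR N) F)) :
    LT u (F * Pbs u γ) = 1 ∧ ∀ g, LT u (F * Pbs u g) ≠ 0 → g ≠ γ → ht (wt0 g) < ht (wt0 γ) := by
  obtain ⟨z, hz⟩ := exists_Pbs u F
  have h1 : MvPolynomial.aeval (yR N) F = z.sum fun g a => a •
      MvPolynomial.aeval (yR N) (Pbs u g) := by
    rw [← hz, Finsupp.sum, map_sum, Finsupp.sum]
    refine Finset.sum_congr rfl fun g _ => ?_
    rw [map_zsmul]
  rw [h1] at h
  obtain ⟨i₀, h2, h3, h4⟩ := top_sum z wt0 wt0_injective _ (top_Pbs u) _ h
  have h5 := wt0_injective h2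
  subst h5
  rw [← hz]
  simp only [coeff_Pbs]
  exact ⟨h3, h4⟩

end

end Pool.Agent.EEA520
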