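import Pool.Agent.W_eea520_h66.IsoM
import Pool.Agent.W_eea520_h66.Theta
import Pool.Agent.W_eea520_h66.Defs
import Pool.Agent.W_eea520_h25.CuspA
import Pool.Agent.W_eea520_h25.Spin

/-! The systems `klingen π z`. -/

set_option autoImplicit false

namespace Pool.Agent.EEA520

open Filter Polynomial

/-- `y_i = x_i + 1 / x_i`. -/
noncomputable def yD {n : ℕ} (π : GSys n) (i : Fin n) : Dat :=
  fun p => el ((π p).x i) + el ((π p).x i)⁻¹

theorem yD_mem {n : ℕ} {π : GSys n} (hπ : Bdd π) (i : Fin n) : yD π i ∈ BB := by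
  obtain ⟨B, hB⟩ := hπ
  refine add_mem (el_mem (a := fun p => (π p).x i) ?_) (el_mem (a := fun p => ((π p).x i)⁻¹) ?_)
  · exact poly_of_eventually B (hB.mono fun p hp => (hp.2 i).1)
  · exact poly_of_eventually B (hB.mono fun p hp => (hp.2 i).2)

theorem Phi_xx {n : ℕ} (π : GSys n) (i : Fin n) (a : ℤ) (p : Pr) :
    Phi π (mon (0, Pi.single i a)) p = el ((π p).x i ^ a) := by
  show evT (π p) (mon (0, Pi.single i a)) = _
  rw [evT_mon]
  congr 1
  simp only [Torus.ev, zpow_zero, one_mul]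
  rw [Finset.prod_eq_single i]
  · rw [Pi.single_eq_same]
  · intro j _ hj
    rw [Pi.single_eq_of_ne hj, zpow_zero]
  · intro h
    exact absurd (Finset.mem_univ i) h

section

variable {S : (k : ℕ) → Set (GLSys k)} {P : (n : ℕ) → Set (GSys n)}

theorem eis_klingen (h : IsCuspidal S P) {n : ℕ} {π : GSys n} (hπ : Eis S P n π) (z : ℂ) :
    Eis S P (n + 1) (klingen π z) := by
  obtain ⟨χ, hχ, h1⟩ := h.one
  refine Eis.congr (Eis.tw (-z / 2) (Eis.ind z hπ hχ)) (h1.mono fun p hp => ?_)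
  have h2 : (fun i => χ p i * ppow p z) = fun _ => 1 * ppow p z := by
    funext i
    rw [Subsingleton.elim i 0, hp]
  unfold klingen twist induce
  rw [h2]

end

theorem nu_klingen {n : ℕ} (π : GSys n) (z : ℂ) (p : Pr) : (klingen π z p).nu = (π p).nu := by
  unfold klingen
  rw [nu_twist, nu_induce, Fin.prod_univ_one, mul_one, Nat.cast_one, one_mul, mul_assoc, ← ppow_add,
    show z + 2 * (-z / 2) = 0 by ring, ppow_zero, mul_one]

theorem triv_klingen {n : ℕ} {π : GSys n} (hπ : TrivialCentral π) (z : ℂ) :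
    TrivialCentral (klingen π z) :=
  hπ.mono fun p hp => by rw [nu_klingen, hp]

theorem yD_klingen {n : ℕ} (π : GSys n) (z : ℂ) :
    yD (klingen π z) = Fin.append (yD π) fun _ : Fin 1 => YY z := by
  funext i p
  refine Fin.addCases (fun i => ?_) (fun i => ?_) i
  · rw [Fin.append_left]
    simp only [yD, klingen, twist, induce, Fin.append_left]
  · rw [Fin.append_right]
    simp only [yD, klingen, twist, induce, Fin.append_right, YY, tw, Pi.add_apply, one_mul]
    rw [ppow_neg]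

theorem spinD_klingen {n : ℕ} (π : GSys n) (z : ℂ) : spinD (klingen π z) = SS z * spinD π := by
  funext p
  simp only [spinD, klingen, twist, induce, SS, Pi.mul_apply, Pi.add_apply, tw]
  rw [Fin.prod_univ_add, Fin.prod_univ_one]
  simp only [Fin.append_left, Fin.append_right, one_mul]
  have h1 : el ((π p).c * ppow p (-z / 2)) = el (π p).c * el (ppow p (-z / 2)) := by
    simp only [el, map_mul]
  have h2 : el (ppow p (z / 2)) = el (ppow p (-z / 2)) * el (ppow p z) := by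
    simp only [el, ← map_mul]
    rw [← ppow_add]
    congr 2
    ring
  rw [h1, h2]
  ring

theorem norm_ppow66 (p : Pr) (z : ℂ) : ‖((ppow p z : ℂˣ) : ℂ)‖ = ((p : ℕ) : ℝ) ^ z.re := by
  show ‖((p : ℕ) : ℂ) ^ z‖ = _
  rw [← Complex.ofReal_natCast, Complex.norm_cpow_eq_rpow_re_of_pos (Nat.cast_pos.2 p.2.pos)]

theorem bdd_klingen {n : ℕ} {π : GSys n} (hπ : Bdd π) (z : ℂ) : Bdd (klingen π z) := by
  obtain ⟨B, hB⟩ := hπ
  refine ⟨max B 0 + |z.re|, hB.mono fun p hp => ?_⟩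
  have h1 : (1 : ℝ) ≤ ((p : ℕ) : ℝ) := by exact_mod_cast p.2.one_lt.le
  have h0 : (0 : ℝ) < ((p : ℕ) : ℝ) := lt_of_lt_of_le one_pos h1
  have mono : ∀ {x y : ℝ}, x ≤ y → ((p : ℕ) : ℝ) ^ x ≤ ((p : ℕ) : ℝ) ^ y := fun h =>
    Real.rpow_le_rpow_of_exponent_le h1 h
  have h2 : B ≤ max B 0 + |z.re| := (le_max_left _ _).trans (le_add_of_nonneg_right (abs_nonneg _))
  have h3 : |z.re| ≤ max B 0 + |z.re| := le_add_of_nonneg_left (le_max_right _ _)
  have hz : (-z / 2).re = -z.re / 2 := by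
    rw [show -z / 2 = ((-1 / 2 : ℝ) : ℂ) * z by push_cast; ring, Complex.re_ofReal_mul]
    ring
  have key : ∀ a : ℂˣ, ‖(a : ℂ)‖ ≤ ((p : ℕ) : ℝ) ^ B → ∀ w : ℂ, w.re ≤ |z.re| →
      ‖((a * ppow p w : ℂˣ) : ℂ)‖ ≤ ((p : ℕ) : ℝ) ^ (max B 0 + |z.re|) := by
    intro a ha w hw
    rw [Units.val_mul, norm_mul, norm_ppow66, Real.rpow_add h0]
    exact mul_le_mul (ha.trans (mono (le_max_left _ _))) (mono hw) (Real.rpow_nonneg h0.le _)
      (Real.rpow_nonneg h0.le _)
  have hw1 : (-z / 2).re ≤ |z.re| := by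
    rw [hz]
    have := neg_abs_le z.re
    have := abs_nonneg z.re
    linarith
  have hw2 : (-(-z / 2)).re ≤ |z.re| := by
    rw [Complex.neg_re, hz]
    have := le_abs_self z.re
    have := abs_nonneg z.re
    linarith
  refine ⟨⟨key _ hp.1.1 _ hw1, ?_⟩, fun i => ?_⟩
  · show ‖((((π p).c * ppow p (-z / 2))⁻¹ : ℂˣ) : ℂ)‖ ≤ _
    rw [mul_inv, ← ppow_neg]
    exact key _ hp.1.2 _ hw2
  · show ‖((Fin.append (π p).x (fun _ => 1 * ppow p z) i : ℂˣ) : ℂ)‖ ≤ _ ∧
      ‖(((Fin.append (π p).x (fun _ => 1 * ppow p z) i)⁻¹ : ℂˣ) : ℂ)‖ ≤ _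
    refine Fin.addCases (fun i => ?_) (fun i => ?_) i
    · rw [Fin.append_left]
      exact ⟨(hp.2 i).1.trans (mono h2), (hp.2 i).2.trans (mono h2)⟩
    · rw [Fin.append_right, one_mul, ← ppow_neg, norm_ppow66, norm_ppow66]
      exact ⟨mono ((le_abs_self _).trans h3), mono (by
        rw [Complex.neg_re]
        exact (neg_le_abs _).trans h3)⟩

/-- The expansion. -/
theorem expansion {n c' : ℕ} (u : ℤ) (e : ℕ) (π : GSys n) (E : MvPolynomial (Fin c') ℤ) (z : ℂ) :
    spinD (klingen π z) ^ e * Th u (yD (klingen π z)) E =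
      ∑ i ∈ Finset.range (c' + 1), YY z ^ i * SS z ^ e * ((-1) ^ i * (spinD π ^ e *
        Th u (yD π) (MvPolynomial.esymm (Fin c') ℤ (c' - i) * E))) := by
  rw [yD_klingen, Th_append, spinD_klingen, Finset.mul_sum]
  refine Finset.sum_congr rfl fun i _ => ?_
  rw [mul_pow, neg_pow (YY z)]
  ring

theorem spin_Th_mem {n c' : ℕ} (u : ℤ) (e : ℕ) {π : GSys n} (hπ : Bdd π)
    (E : MvPolynomial (Fin c') ℤ) : spinD π ^ e * Th u (yD π) E ∈ BB :=
  mul_mem (pow_mem (spinD_mem hπ) e) (Th_mem u BB (yD π) (yD_mem hπ) E)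

theorem cont_of_neg_pow {D : Dat} {i : ℕ} (h : Cont ((-1) ^ i * D)) : Cont D := by
  rcases Nat.even_or_odd i with h6 | h6
  · rwa [h6.neg_one_pow, one_mul] at h
  · rw [h6.neg_one_pow, neg_mul, one_mul] at h
    have := h.neg
    rwa [neg_neg] at this

/-- The first step: the top coefficient. -/
theorem step_top {n c' : ℕ} (u : ℤ) (e : ℕ) {π : GSys n}
    (hπ : Bdd π) (E : MvPolynomial (Fin c') ℤ)
    (h : ∀ R : ℝ, ∃ z : ℂ, z.re < -R ∧ NearTo (-((c' + e / 2) * z)) R
      (spinD (klingen π z) ^ e * Th u (yD (klingen π z)) E)) :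
    Cont (spinD π ^ e * Th u (yD π) E) := by
  have h1 := iso_top e c' (fun i => (-1) ^ i * (spinD π ^ e *
    Th u (yD π) (MvPolynomial.esymm (Fin c') ℤ (c' - i) * E)))
    (fun i _ => mul_mem (pow_mem (neg_mem (one_mem _)) i) (spin_Th_mem u e hπ _)) fun R => by
    obtain ⟨z, hz, h2⟩ := h R
    rw [expansion] at h2
    exact ⟨z, hz, h2⟩
  have h3 := cont_of_neg_pow h1
  rwa [Nat.sub_self, MvPolynomial.esymm_zero, one_mul] at h3

/-- The other steps of the extraction. -/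
theorem step {n c' : ℕ} (u : ℤ) (e : ℕ) {π : GSys n} (hπ : Bdd π)
    (E : MvPolynomial (Fin c') ℤ)
    (h : ∀ B : ℝ, ∃ z : ℂ, z.re < B ∧
      Cont (spinD (klingen π z) ^ e * Th u (yD (klingen π z)) E)) :
    ∀ a ≤ c', Cont (spinD π ^ e * Th u (yD π) (MvPolynomial.esymm (Fin c') ℤ a * E)) := by
  have h1 := iso_all e c' (fun i => (-1) ^ i * (spinD π ^ e *
    Th u (yD π) (MvPolynomial.esymm (Fin c') ℤ (c' - i) * E)))
    (fun i _ => mul_mem (pow_mem (neg_mem (one_mem _)) i) (spin_Th_mem u e hπ _)) fun B => by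
    obtain ⟨z, hz, h2⟩ := h B
    rw [expansion] at h2
    exact ⟨z, hz, h2⟩
  intro a ha
  have h4 := cont_of_neg_pow (h1 (c' - a) (Nat.sub_le _ _))
  rwa [show c' - (c' - a) = a by omega] at h4

theorem Cont.sum66 {ι : Type} (s : Finset ι) (D : ι → Dat)
    (h : ∀ i ∈ s, Cont (D i)) : Cont (∑ i ∈ s, D i) := by
  classical
  induction s using Finset.induction_on with
  | empty => exact cont_zero
  | insert i s hi ih =>
    rw [Finset.sum_insert hi]
    exact (h i (Finset.mem_insert_self i s)).add (ih fun j hj => h j (Finset.mem_insert_of_mem hj))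

theorem Cont.intCast_mul {D : Dat} (h : Cont D) (n : ℤ) : Cont ((n : Dat) * D) := by
  have h1 : ∀ n : ℕ, Cont ((n : Dat) * D) := by
    intro n
    induction n with
    | zero =>
      rw [Nat.cast_zero, zero_mul]
      exact cont_zero
    | succ n ih =>
      rw [Nat.cast_succ, add_mul, one_mul]
      exact ih.add h
  obtain ⟨n, rfl | rfl⟩ := n.eq_nat_or_neg
  · rw [Int.cast_natCast]
    exact h1 n
  · rw [Int.cast_neg, Int.cast_natCast, neg_mul]
    exact (h1 n).neg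

/-- A class of systems which contains, with every `π`, systems `klingen π z` where the real part of
`z` is arbitrarily small. -/
structure KClosed (Q : (n : ℕ) → GSys n → Prop) : Prop where
  bdd : ∀ {n : ℕ} {π : GSys n}, Q n π → Bdd π
  kl : ∀ {n : ℕ} {π : GSys n} (B : ℝ), Q n π → ∃ z : ℂ, z.re < B ∧ Q (n + 1) (klingen π z)

section

variable {Q : (n : ℕ) → GSys n → Prop}

/-- The iterated extraction. -/
theorem steps (hQ : KClosed Q) (u : ℤ) (e : ℕ) {c' : ℕ}
    (E : MvPolynomial (Fin c') ℤ) (q n : ℕ)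
    (hyp : ∀ π, Q (n + q) π → Cont (spinD π ^ e * Th u (yD π) E)) :
    ∀ a : Fin q → ℕ, (∀ i, a i ≤ c') → ∀ π, Q n π →
      Cont (spinD π ^ e * Th u (yD π)
        ((∏ i, MvPolynomial.esymm (Fin c') ℤ (a i)) * E)) := by
  induction q generalizing n with
  | zero =>
    intro a _ π hπ
    rw [Fin.prod_univ_zero, one_mul]
    exact hyp π hπ
  | succ q ih =>
    intro a ha π hπ
    have h1 := ih (n + 1) (by
      rw [show n + 1 + q = n + (q + 1) by omega]
      exact hyp) (fun i => a i.succ) (fun i => ha i.succ)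
    rw [Fin.prod_univ_succ, mul_assoc]
    refine step u e (hQ.bdd hπ) _ (fun B => ?_) (a 0) (ha 0)
    obtain ⟨z, hz, hz'⟩ := hQ.kl B hπ
    exact ⟨z, hz, h1 (klingen π z) hz'⟩

/-- The extraction of a `ℤ`-combination. -/
theorem steps_KL (hQ : KClosed Q) (u : ℤ) (e : ℕ)
    {c' : ℕ} (E : MvPolynomial (Fin c') ℤ) (q n : ℕ)
    (hyp : ∀ π, Q (n + q) π → Cont (spinD π ^ e * Th u (yD π) E))
    (d : Fin q → ℕ) (π : GSys n) (hπ : Q n π) :
    Cont (spinD π ^ e * Th u (yD π)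
      (KL u (fun k : Fin c' => (MvPolynomial.X k : MvPolynomial (Fin c') ℤ)) d * E)) := by
  obtain ⟨z, hz⟩ := KL_X_eq u (c := c') d
  rw [hz, Finset.sum_mul, Th_sum, Finset.mul_sum]
  refine Cont.sum66 _ _ fun a ha => ?_
  rw [mul_assoc, Th_intCast_mul, mul_left_comm]
  refine Cont.intCast_mul (steps hQ u e E q n hyp a (fun i => ?_) π hπ) _
  have h1 := Fintype.mem_piFinset.1 ha i
  have := Finset.mem_range.1 h1
  omega

end

end Pool.Agent.EEA520
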