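import Pool.Agent.W_eea520_h25.Half
import Pool.Agent.W_eea520_h66.Defs

/-! Half strips, gluing of meromorphic functions on growing half strips. -/

set_option autoImplicit false

namespace Pool.Agent.EEA520

open Filter Topology

theorem strip_open (s₀ : ℂ) (R : ℝ) : IsOpen (strip s₀ R) :=
  (isOpen_lt continuous_const Complex.continuous_re).inter
    (isOpen_lt ((Complex.continuous_im.sub continuous_const).abs) continuous_const)

theorem strip_convex (s₀ : ℂ) (R : ℝ) : Convex ℝ (strip s₀ R) := by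
  have h1 : strip s₀ R = {s : ℂ | s₀.re - R < s.re} ∩
      ({s : ℂ | s₀.im - R < s.im} ∩ {s : ℂ | s.im < s₀.im + R}) := by
    ext s
    constructor
    · rintro ⟨h1, h2⟩
      rw [abs_lt] at h2
      refine ⟨h1, ?_, ?_⟩
      · show s₀.im - R < s.im
        linarith [h2.1]
      · show s.im < s₀.im + R
        linarith [h2.2]
    · rintro ⟨h1, h2, h3⟩
      refine ⟨h1, ?_⟩
      rw [abs_lt]
      have h2' : s₀.im - R < s.im := h2
      have h3' : s.im < s₀.im + R := h3
      constructor <;> linarith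
  rw [h1]
  exact (convex_halfSpace_re_gt _).inter ((convex_halfSpace_im_gt _).inter
    (convex_halfSpace_im_lt _))

theorem strip_mono (s₀ : ℂ) {R R' : ℝ} (h : R ≤ R') : strip s₀ R ⊆ strip s₀ R' :=
  fun _ hs => ⟨lt_of_le_of_lt (by linarith) hs.1, lt_of_lt_of_le hs.2 h⟩

/-- The identity theorem on a convex open set with points of arbitrarily large real part. -/
theorem strip_identity {U : Set ℂ} (hU : Convex ℝ U) (hU' : ∀ c : ℝ, ∃ y ∈ U, c < y.re)
    (hUo : IsOpen U) (c : ℝ) (g h : ℂ → ℂ) (hg : MeromorphicOn g U) (hh : MeromorphicOn h U)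
    (hgh : ∀ s ∈ U, c < s.re → g s = h s) : ∀ s ∈ U, g =ᶠ[𝓝[≠] s] h := by
  intro s hs
  have hd : MeromorphicOn (g - h) U := hg.sub hh
  have htop : meromorphicOrderAt (g - h) s = ⊤ := by
    by_contra hne
    obtain ⟨y, hy, hyc⟩ := hU' c
    have h1 := hd.meromorphicOrderAt_ne_top_of_isPreconnected hU.isPreconnected hs hy hne
    apply h1
    rw [meromorphicOrderAt_eq_top_iff]
    apply Filter.Eventually.filter_mono nhdsWithin_le_nhds
    have hopen : IsOpen {s : ℂ | c < s.re} := isOpen_lt continuous_const Complex.continuous_re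
    filter_upwards [hopen.mem_nhds hyc, hUo.mem_nhds hy] with z hz hz'
    simp [hgh z hz' hz]
  rw [meromorphicOrderAt_eq_top_iff] at htop
  filter_upwards [htop] with z hz
  simpa [sub_eq_zero] using hz

theorem strip_far (s₀ : ℂ) {R : ℝ} (hR : 0 < R) (c : ℝ) : ∃ y ∈ strip s₀ R, c < y.re := by
  refine ⟨⟨max s₀.re c + 1, s₀.im⟩, ⟨?_, ?_⟩, ?_⟩
  · show s₀.re - R < max s₀.re c + 1
    have := le_max_left s₀.re c
    linarith
  · show |s₀.im - s₀.im| < R
    rw [sub_self, abs_zero]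
    exact hR
  · show c < max s₀.re c + 1
    have := le_max_right s₀.re c
    linarith

/-- Gluing on the half strips `strip 0 R`. -/
theorem glue_strip (F : ℂ → ℂ) (b : ℝ) (hF : DifferentiableOn ℂ F {s : ℂ | b < s.re})
    (h : ∀ R : ℝ, ∃ (c : ℝ) (g : ℂ → ℂ), MeromorphicOn g (strip 0 R) ∧
      ∀ s ∈ strip 0 R, c < s.re → F s = g s) :
    ∃ g : ℂ → ℂ, Meromorphic g ∧ ∀ s : ℂ, b < s.re → F s = g s := by
  choose c g hg hc using fun n : ℕ => h ((n : ℝ) + 1)
  obtain ⟨N, hN⟩ : ∃ N : ℂ → ℕ, N = fun s => ⌈|s.re| + |s.im|⌉₊ := ⟨_, rfl⟩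
  have hmem : ∀ s : ℂ, s ∈ strip 0 ((N s : ℝ) + 1) := by
    intro s
    have h1 : |s.re| + |s.im| ≤ (N s : ℝ) := by rw [hN]; exact Nat.le_ceil _
    have h2 := abs_nonneg s.re
    have h3 := abs_nonneg s.im
    have h4 := neg_abs_le s.re
    refine ⟨?_, ?_⟩
    · rw [Complex.zero_re]
      linarith
    · rw [Complex.zero_im, sub_zero]
      linarith
  -- consistency
  have key0 : ∀ (m n : ℕ) (s : ℂ), m ≤ n → s ∈ strip 0 ((m : ℝ) + 1) → g m =ᶠ[𝓝[≠] s] g n := by
    intro m n s hmn hm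
    have hmn' : ((m : ℝ) + 1) ≤ (n : ℝ) + 1 := by
      have : (m : ℝ) ≤ n := by exact_mod_cast hmn
      linarith
    have hpos : (0 : ℝ) < (m : ℝ) + 1 := by positivity
    refine strip_identity (strip_convex 0 _) (strip_far 0 hpos) (strip_open 0 _)
      (max (c m) (c n)) (g m) (g n) (hg m) (fun z hz => hg n z (strip_mono 0 hmn' hz)) ?_ s hm
    intro z hz hz'
    rw [← hc m z hz (lt_of_le_of_lt (le_max_left _ _) hz'),
      ← hc n z (strip_mono 0 hmn' hz) (lt_of_le_of_lt (le_max_right _ _) hz')]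
  have key : ∀ (m n : ℕ) (s : ℂ), s ∈ strip 0 ((m : ℝ) + 1) → s ∈ strip 0 ((n : ℝ) + 1) →
      toMeromorphicNFAt (g m) s s = toMeromorphicNFAt (g n) s s := by
    intro m n s hm hn
    have h1 : g m =ᶠ[𝓝[≠] s] g n := by
      rcases le_total m n with h2 | h2
      · exact key0 m n s h2 hm
      · exact (key0 n m s h2 hn).symm
    exact (toMeromorphicNFAt_eventuallyEq_nhds_congr h1).eq_of_nhds
  refine ⟨fun s => toMeromorphicNFAt (g (N s)) s s, ?_, ?_⟩
  · intro s
    have hev : (fun s => toMeromorphicNFAt (g (N s)) s s) =ᶠ[𝓝[≠] s] g (N s) := by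
      have h1 : ∀ᶠ z in 𝓝[≠] s, z ∈ strip 0 ((N s : ℝ) + 1) :=
        Filter.Eventually.filter_mono nhdsWithin_le_nhds ((strip_open 0 _).mem_nhds (hmem s))
      have h2 : ∀ᶠ z in 𝓝[≠] s, AnalyticAt ℂ (g (N s)) z :=
        (hg (N s) s (hmem s)).eventually_analyticAt
      filter_upwards [h1, h2] with z hz1 hz2
      rw [key (N z) (N s) z (hmem z) hz1]
      rw [toMeromorphicNFAt_eq_self.2 hz2.meromorphicNFAt]
    exact (hg (N s) s (hmem s)).congr hev.symm
  · intro s hs
    have hopen : IsOpen {z : ℂ | b < z.re} := isOpen_lt continuous_const Complex.continuous_re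
    have hFan : ∀ z : ℂ, b < z.re → AnalyticAt ℂ F z := fun z hz => hF.analyticAt (hopen.mem_nhds hz)
    have hFg : F =ᶠ[𝓝[≠] s] g (N s) := by
      refine strip_identity (U := strip 0 ((N s : ℝ) + 1) ∩ {z : ℂ | b < z.re})
        ((strip_convex 0 _).inter (convex_halfSpace_re_gt b)) (fun c => ?_)
        ((strip_open 0 _).inter hopen) (c (N s)) F (g (N s))
        (fun z hz => (hFan z hz.2).meromorphicAt) (fun z hz => hg (N s) z hz.1)
        (fun z hz hz' => hc (N s) z hz.1 hz') s ⟨hmem s, hs⟩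
      have hpos : (0 : ℝ) < (N s : ℝ) + 1 := by positivity
      obtain ⟨y, hy, hy'⟩ := strip_far 0 hpos (max b c)
      exact ⟨y, ⟨hy, lt_of_le_of_lt (le_max_left _ _) hy'⟩, lt_of_le_of_lt (le_max_right _ _) hy'⟩
    show F s = toMeromorphicNFAt (g (N s)) s s
    have h1 := (toMeromorphicNFAt_eventuallyEq_nhds_congr hFg).eq_of_nhds
    rw [← h1, toMeromorphicNFAt_eq_self.2 (hFan s hs).meromorphicNFAt]

end Pool.Agent.EEA520
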