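import Pool.Agent.W_eea520_h66.Span
import Pool.Agent.W_eea520_h66.Extract

/-! Triangularity. -/

set_option autoImplicit false

namespace Pool.Agent.EEA520

open Polynomial

variable {c : ℕ}

theorem ht_wt0 (g : Fin c → ℕ) :
    ht (wt0 g) = ∑ i : Fin c, ((c : ℤ) - (i : ℕ)) * (2 * (g i : ℤ)) := by
  unfold ht wt0
  simp

/-- Sorting. -/
theorem exists_sort (h : Fin c → ℕ) (hh : Function.Injective h) :
    ∃ τ : Equiv.Perm (Fin c), StrictAnti (h ∘ τ) ∧ ht (wt0 h) ≤ ht (wt0 (h ∘ τ)) := by
  obtain ⟨τ, hτ⟩ : ∃ τ : Equiv.Perm (Fin c), Antitone (h ∘ τ) := by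
    refine ⟨Fin.revPerm.trans (Tuple.sort h), fun i j hij => ?_⟩
    exact Tuple.monotone_sort h (Fin.rev_le_rev.2 hij)
  refine ⟨τ, hτ.strictAnti_of_injective (hh.comp τ.injective), ?_⟩
  have hmv : Monovary (fun i : Fin c => (c : ℤ) - (i : ℕ)) (fun i => 2 * ((h (τ i) : ℕ) : ℤ)) := by
    intro i j hij
    have hij' : 2 * ((h (τ i) : ℕ) : ℤ) < 2 * ((h (τ j) : ℕ) : ℤ) := hij
    have h1 : h (τ i) < h (τ j) := by omega
    have h2 : j < i := by
      by_contra h3
      have h4 : h (τ j) ≤ h (τ i) := hτ (not_lt.1 h3)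
      omega
    have h3 : (j : ℕ) < (i : ℕ) := h2
    show (c : ℤ) - (i : ℕ) ≤ (c : ℤ) - (j : ℕ)
    omega
  have h1 := Monovary.sum_mul_comp_perm_le_sum_mul (σ := τ⁻¹) hmv
  rw [ht_wt0, ht_wt0]
  simpa using h1

theorem ht_wt0_le {B : ℕ} (h : Fin c → ℕ) (hB : ∀ k, h k < B) : ht (wt0 h) ≤ 2 * c * c * B := by
  rw [ht_wt0]
  have h1 : ∀ i ∈ (Finset.univ : Finset (Fin c)), ((c : ℤ) - (i : ℕ)) * (2 * (h i : ℤ)) ≤
      2 * c * B := by
    intro i _
    have h2 : (h i : ℤ) ≤ B := by exact_mod_cast (hB i).le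
    have h3 : ((c : ℤ) - (i : ℕ)) ≤ c := by omega
    have h4 : (0 : ℤ) ≤ (c : ℤ) - (i : ℕ) := by
      have := i.2
      omega
    calc ((c : ℤ) - (i : ℕ)) * (2 * (h i : ℤ)) ≤ c * (2 * B) := by
          refine mul_le_mul h3 (by omega) (by omega) (by omega)
      _ = 2 * c * B := by ring
  have h2 := Finset.sum_le_card_nsmul _ _ _ h1
  rw [Finset.card_univ, Fintype.card_fin, nsmul_eq_mul] at h2
  calc _ ≤ (c : ℤ) * (2 * c * B) := h2
    _ = 2 * c * c * B := by ring

/-- The triangularity argument. -/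
theorem span_all (u : ℤ) {B M : ℕ} (σ : MvPolynomial (Fin c) ℤ) (β : Fin c → ℕ)
    (hβ : Antitone β) (hσ : Top (wt0 β) (MvPolynomial.aeval (yR c) σ))
    (hM : ∀ i, β i + B ≤ M) (U : AddSubgroup (MvPolynomial (Fin c) ℤ))
    (h1 : ∀ h, ¬ Function.Injective h → Pbs u h ∈ U) (h2 : ∀ h k, B ≤ h k → Pbs u h ∈ U)
    (h3 : ∀ (h : Fin c → ℕ) (τ : Equiv.Perm (Fin c)), Pbs u (h ∘ τ) ∈ U → Pbs u h ∈ U)
    (h4 : ∀ e' : Fin c → ℕ, Function.Injective e' → (∀ i, e' i < M) → σ * Pbs u e' ∈ U) :
    ∀ F, F ∈ U := by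
  classical
  have key : ∀ j : ℕ, ∀ h : Fin c → ℕ, 2 * c * c * B + 1 ≤ ht (wt0 h) + j → Pbs u h ∈ U := by
    intro j
    induction j with
    | zero =>
      intro h hj
      by_cases hk : ∃ k, B ≤ h k
      · obtain ⟨k, hk⟩ := hk
        exact h2 h k hk
      · push Not at hk
        have := ht_wt0_le h hk
        rw [Nat.cast_zero] at hj
        omega
    | succ j ih =>
      intro h hj
      by_cases hk : ∃ k, B ≤ h k
      · obtain ⟨k, hk⟩ := hk
        exact h2 h k hk
      by_cases hi : Function.Injective h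
      swap
      · exact h1 h hi
      push Not at hk
      obtain ⟨τ, hτ, hle⟩ := exists_sort h hi
      refine h3 h τ ?_
      obtain ⟨g, hg⟩ : ∃ g, g = h ∘ τ := ⟨_, rfl⟩
      rw [← hg] at hτ hle ⊢
      have hgB : ∀ k, g k < B := fun k => by
        rw [hg]
        exact hk _
      obtain ⟨e', he'⟩ : ∃ e' : Fin c → ℕ, e' = g + β := ⟨_, rfl⟩
      have hanti : StrictAnti e' := by
        intro i k hik
        rw [he']
        exact Nat.add_lt_add_of_lt_of_le (hτ hik) (hβ hik.le)
      have heM : ∀ i, e' i < M := by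
        intro i
        rw [he']
        have := hM i
        have := hgB i
        show g i + β i < M
        omega
      have h5 := h4 e' hanti.injective heM
      obtain ⟨z, hz⟩ := exists_Pbs u (σ * Pbs u e')
      have hzc : ∀ f : Fin c → ℕ, z f = LT u (σ * Pbs u f * Pbs u e') := by
        intro f
        rw [← coeff_Pbs u z f, hz]
        congr 1
        ring
      have htop : ∀ f : Fin c → ℕ, Top (wt0 (f + β))
          (MvPolynomial.aeval (yR c) (σ * Pbs u f)) := by
        intro f
        rw [map_mul]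
        have h6 := top_mul hσ (top_Pbs u f)
        have h7 : (wt0 β : Wt c) + wt0 f = wt0 (f + β) := by
          refine Prod.ext ?_ ?_
          · simp [wt0]
          · funext i
            simp only [wt0, Prod.snd_add, Pi.add_apply]
            push_cast
            ring
        rwa [h7] at h6
      have hadd : ∀ f : Fin c → ℕ, ht (wt0 (f + β)) = ht (wt0 f) + ht (wt0 β) := by
        intro f
        have h7 : (wt0 (f + β) : Wt c) = wt0 f + wt0 β := by
          refine Prod.ext ?_ ?_
          · simp [wt0]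
          · funext i
            simp only [wt0, Prod.snd_add, Pi.add_apply]
            push_cast
            ring
        rw [h7, ht_add]
      have hz1 : z g = 1 := by
        rw [hzc, he']
        exact (coeff_of_top u _ _ (htop g)).1
      have hz2 : ∀ f, z f ≠ 0 → f ≠ g → ht (wt0 g) < ht (wt0 f) := by
        intro f hf hfg
        rw [hzc] at hf
        have h8 : e' ≠ f + β := by
          rw [he']
          intro h9
          apply hfg
          funext i
          have := congrFun h9 i
          simp only [Pi.add_apply] at this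
          omega
        have h9 := (coeff_of_top u _ _ (htop f)).2 _ hf h8
        rw [he', hadd, hadd] at h9
        omega
      have h6 : Pbs u g = σ * Pbs u e' - ∑ f ∈ z.support.erase g, z f • Pbs u f := by
        rw [← hz, Finsupp.sum, ← Finset.add_sum_erase z.support _
          (Finsupp.mem_support_iff.2 (by rw [hz1]; exact one_ne_zero) : g ∈ z.support), hz1,
          one_smul, add_sub_cancel_right]
      rw [h6]
      refine U.sub_mem h5 (U.sum_mem fun f hf => U.zsmul_mem (ih f ?_) _)
      have h7 := hz2 f (Finsupp.mem_support_iff.1 (Finset.mem_of_mem_erase hf))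
        (Finset.ne_of_mem_erase hf)
      push_cast at hj
      omega
  intro F
  obtain ⟨z, hz⟩ := exists_Pbs u F
  rw [← hz]
  refine U.sum_mem fun h _ => U.zsmul_mem (key (2 * c * c * B + 1) h ?_) _
  have h5 : 0 ≤ ht (wt0 h) := by
    rw [ht_wt0]
    refine Finset.sum_nonneg fun i _ => mul_nonneg ?_ (by positivity)
    have := i.2
    omega
  push_cast
  omega

end Pool.Agent.EEA520
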